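import Mathlib

/-!
# Project QD (MP_bbdce3): finite cocycles at a finite scale, linear algebra over a division ring

Path sums, the row of a path, and the stabilisation of the spans of the rows of closed paths.
-/

set_option autoImplicit false

open scoped BigOperators

namespace Pool.Agent.QD

/-! ### path sums -/

section

variable {X : Type} {M : Type} [AddCommGroup M]

/-- `a` is the sum of the weights along a path from `x` to `y` -/
inductive PS (R : X → X → Prop) (w : X → X → M) : X → X → M → Prop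
  | refl (x : X) : PS R w x x 0
  | tail {x y z : X} {a : M} : PS R w x y a → R y z → PS R w x z (a + w y z)

variable {R : X → X → Prop} {w : X → X → M}

theorem PS.single {x y : X} (h : R x y) : PS R w x y (w x y) := by
  have h1 : PS R w x y (0 + w x y) := PS.tail (PS.refl x) h
  rwa [zero_add] at h1

theorem PS.trans {x y z : X} {a b : M} (h1 : PS R w x y a) (h2 : PS R w y z b) :
    PS R w x z (a + b) := by
  induction h2 with
  | refl =>
    rw [add_zero]
    exact h1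
  | tail _ hr ih =>
    rw [← add_assoc]
    exact PS.tail ih hr

theorem PS.symm (hR : ∀ x y, R x y → R y x) (hw : ∀ x y, R x y → w y x = -w x y)
    {x y : X} {a : M} (h : PS R w x y a) : PS R w y x (-a) := by
  induction h with
  | refl =>
    rw [neg_zero]
    exact PS.refl _
  | tail _ hr ih =>
    rw [neg_add, add_comm, ← hw _ _ hr]
    exact (PS.single (hR _ _ hr)).trans ih

theorem PS.map {X' : Type} {N : Type} [AddCommGroup N] {R' : X' → X' → Prop}
    {w' : X' → X' → N} (g : X → X') (T : M →+ N)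
    (hT : ∀ x y, R x y → R' (g x) (g y) ∧ T (w x y) = w' (g x) (g y))
    {x y : X} {a : M} (h : PS R w x y a) : PS R' w' (g x) (g y) (T a) := by
  induction h with
  | refl =>
    rw [map_zero]
    exact PS.refl _
  | tail _ hr ih =>
    rw [map_add, (hT _ _ hr).2]
    exact PS.tail ih (hT _ _ hr).1

theorem PS.of_rtg {x y : X} (h : Relation.ReflTransGen R x y) : ∃ a, PS R w x y a := by
  induction h with
  | refl => exact ⟨0, PS.refl _⟩
  | tail _ hr ih =>
    obtain ⟨a, ha⟩ := ih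
    exact ⟨_, PS.tail ha hr⟩

/-- a finite path lies in a set of an exhausting family -/
theorem PS.exh {Rn : ℕ → X → X → Prop} (hmono : ∀ n m, n ≤ m → ∀ x y, Rn n x y → Rn m x y)
    (hex : ∀ x y, R x y → ∃ n, Rn n x y) {x y : X} {a : M} (h : PS R w x y a) :
    ∃ n, PS (Rn n) w x y a := by
  have hm : ∀ n m, n ≤ m → ∀ {x y : X} {a : M}, PS (Rn n) w x y a → PS (Rn m) w x y a := by
    intro n m hnm x y a h
    induction h with
    | refl => exact PS.refl _
    | tail _ hr ih => exact PS.tail ih (hmono n m hnm _ _ hr)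
  induction h with
  | refl => exact ⟨0, PS.refl _⟩
  | tail _ hr ih =>
    obtain ⟨n, hn⟩ := ih
    obtain ⟨m, hm'⟩ := hex _ _ hr
    exact ⟨max n m, PS.tail (hm _ _ (le_max_left _ _) hn)
      (hmono _ _ (le_max_right _ _) _ _ hm')⟩

/-- a weight without periods is exact -/
theorem PS.exact (hR : ∀ x y, R x y → R y x) (hw : ∀ x y, R x y → w y x = -w x y)
    {Y : Set X} (hY : ∀ x ∈ Y, ∀ y ∈ Y, Relation.ReflTransGen R x y)
    (hRY : ∀ x y, R x y → x ∈ Y ∧ y ∈ Y)
    (h0 : ∀ x ∈ Y, ∀ a, PS R w x x a → a = 0) :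
    ∃ f : X → M, ∀ x y, R x y → w x y = f y - f x := by
  classical
  by_cases hne : ∃ x0, x0 ∈ Y
  · obtain ⟨x0, hx0⟩ := hne
    have h1 : ∀ y : X, ∃ a : M, y ∈ Y → PS R w x0 y a := by
      intro y
      by_cases hy : y ∈ Y
      · obtain ⟨a, ha⟩ := PS.of_rtg (w := w) (hY x0 hx0 y hy)
        exact ⟨a, fun _ => ha⟩
      · exact ⟨0, fun h => absurd h hy⟩
    choose f hf using h1
    refine ⟨f, fun x y hxy => ?_⟩
    have h2 := ((hf x (hRY x y hxy).1).trans (PS.single hxy)).trans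
      ((hf y (hRY x y hxy).2).symm hR hw)
    have h3 := h0 x0 hx0 _ h2
    rw [← sub_eq_add_neg, sub_eq_zero] at h3
    rw [← h3, add_sub_cancel_left]
  · exact ⟨fun _ => 0, fun x y hxy => absurd ⟨x, (hRY x y hxy).1⟩ hne⟩

end

/-! ### stabilisation -/

/-- rows that kill a column: an increasing sequence of sets of rows is generated by one of them -/
theorem noeth_stab {D : Type} [DivisionRing D] {J : Type} [Fintype J] (A : ℕ → Set (J → D))
    (hA : ∀ n m, n ≤ m → A n ⊆ A m) :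
    ∃ n1, ∀ v : J → D, (∀ u ∈ A n1, ∑ j, u j * v j = 0) → ∀ m, ∀ u ∈ A m, ∑ j, u j * v j = 0 := by
  obtain ⟨n1, hn1⟩ := monotone_stabilizes_iff_noetherian.2
    (inferInstance : IsNoetherian D (J → D))
    ⟨fun n => Submodule.span D (A n), fun n m hnm => Submodule.span_mono (hA n m hnm)⟩
  refine ⟨n1, fun v hv m u hu => ?_⟩
  let L : (J → D) →ₗ[D] D :=
    { toFun := fun u => ∑ j, u j * v j
      map_add' := by
        intro a b
        rw [← Finset.sum_add_distrib]
        refine Finset.sum_congr rfl fun j _ => ?_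
        rw [Pi.add_apply, add_mul]
      map_smul' := by
        intro c a
        rw [RingHom.id_apply, smul_eq_mul, Finset.mul_sum]
        refine Finset.sum_congr rfl fun j _ => ?_
        rw [Pi.smul_apply, smul_eq_mul, mul_assoc] }
  have h1 : Submodule.span D (A n1) ≤ LinearMap.ker L :=
    Submodule.span_le.2 fun u hu => LinearMap.mem_ker.2 (hv u hu)
  have h2 : u ∈ Submodule.span D (A n1) := by
    rcases le_total m n1 with h | h
    · exact Submodule.subset_span (hA m n1 h hu)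
    · have h3 : Submodule.span D (A n1) = Submodule.span D (A m) := hn1 m h
      rw [h3]
      exact Submodule.subset_span hu
  exact LinearMap.mem_ker.1 (h1 h2)

/-! ### the main statement -/

section

variable {G : Type} [Group G] {k : Type} [Field k]

/-- representatives of the right cosets of a subgroup -/
theorem exists_rep (P : Subgroup G) : ∃ (π : G → P) (ρ : G → G), (∀ x, (π x : G) * ρ x = x) ∧
    (∀ (p : P) x, ρ (p * x) = ρ x) ∧ ∀ (p : P) x, π (p * x) = p * π x := by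
  have h1 : ∀ x : G, x * (Quotient.mk (QuotientGroup.rightRel P) x).out⁻¹ ∈ P := fun x =>
    QuotientGroup.rightRel_apply.1
      (Quotient.exact (Quotient.out_eq (Quotient.mk (QuotientGroup.rightRel P) x)))
  have h2 : ∀ (p : P) x, (Quotient.mk (QuotientGroup.rightRel P) ((p : G) * x)).out =
      (Quotient.mk (QuotientGroup.rightRel P) x).out := by
    intro p x
    congr 1
    apply Quotient.sound
    apply QuotientGroup.rightRel_apply.2
    rw [mul_inv_rev, mul_inv_cancel_left]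
    exact P.inv_mem p.2
  refine ⟨fun x => ⟨_, h1 x⟩, fun x => (Quotient.mk (QuotientGroup.rightRel P) x).out, ?_, h2, ?_⟩
  · intro x
    exact inv_mul_cancel_right _ _
  · intro p x
    apply Subtype.ext
    show (p : G) * x * (Quotient.mk (QuotientGroup.rightRel P) ((p : G) * x)).out⁻¹ =
      p * (x * (Quotient.mk (QuotientGroup.rightRel P) x).out⁻¹)
    rw [h2, mul_assoc]

theorem PS.lift {X : Type} {M N : Type} [AddCommGroup M] [AddCommGroup N] {R : X → X → Prop}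
    {w : X → X → M} {w' : X → X → N} (T : M →+ N) (hT : ∀ x y, R x y → T (w x y) = w' x y)
    {x y : X} {a : N} (h : PS R w' x y a) : ∃ u, PS R w x y u ∧ T u = a := by
  induction h with
  | refl => exact ⟨0, PS.refl _, map_zero T⟩
  | tail _ hr ih =>
    obtain ⟨u, hu, hu'⟩ := ih
    exact ⟨_, PS.tail hu hr, by rw [map_add, hu', hT _ _ hr]⟩

/-- a cocycle at scale `n` sums to its value along a path of small steps in a ball of radius `n` -/
theorem PS.coc {Y : Set G} {d : G → G → ℕ} (hd0 : ∀ x, d x x = 0) {n r : ℕ} (hrn : r ≤ n)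
    {φ : G → G → k}
    (hφ : ∀ x ∈ Y, ∀ y ∈ Y, ∀ z ∈ Y, d x y ≤ n → d y z ≤ n → d x z ≤ n →
      φ x y + φ y z = φ x z) {x0 : G} (hx0 : x0 ∈ Y) {y : G} {a : k}
    (h : PS (fun x y => (x ∈ Y ∧ y ∈ Y ∧ d x y ≤ r) ∧ d x0 x ≤ n ∧ d x0 y ≤ n) φ x0 y a) :
    a = φ x0 y ∧ (y = x0 ∨ (y ∈ Y ∧ d x0 y ≤ n)) := by
  induction h with
  | refl =>
    refine ⟨?_, Or.inl rfl⟩
    have h1 := hφ x0 hx0 x0 hx0 x0 hx0 (by rw [hd0]; exact Nat.zero_le _)
      (by rw [hd0]; exact Nat.zero_le _) (by rw [hd0]; exact Nat.zero_le _)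
    exact (left_eq_add.1 h1.symm).symm
  | @tail y z a _ hr ih =>
    obtain ⟨⟨hy, hz, hyz⟩, hxy, hxz⟩ := hr
    refine ⟨?_, Or.inr ⟨hz, hxz⟩⟩
    rw [ih.1]
    exact hφ x0 hx0 y hy z hz hxy (hyz.trans hrn) hxz

/-- finite cocycles at a large finite scale are exact at scale `r` -/
theorem st_core (P : Subgroup G) {D : Type} [DivisionRing D] (ι : MonoidAlgebra k P →+* D)
    (hι : Function.Injective ι) (d : G → G → ℕ) (hd0 : ∀ x, d x x = 0)
    (hdl : ∀ g x y, d (g * x) (g * y) = d x y) (hds : ∀ x y, d x y = d y x)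
    (hfin : ∀ r, {s | d 1 s ≤ r}.Finite) (Y : Set G) (hPY : ∀ p ∈ P, ∀ y ∈ Y, p * y ∈ Y)
    (hcof : ∃ F : Set G, F.Finite ∧ ∀ y ∈ Y, ∃ p ∈ P, ∃ x ∈ F, y = p * x) (r : ℕ)
    (hc : ∀ x ∈ Y, ∀ y ∈ Y, Relation.ReflTransGen (fun x y => x ∈ Y ∧ y ∈ Y ∧ d x y ≤ r) x y) :
    ∃ n, r ≤ n ∧ ∀ φ : G → G → k,
      {p : G × G | (p.1 ∈ Y ∧ p.2 ∈ Y ∧ d p.1 p.2 ≤ n) ∧ φ p.1 p.2 ≠ 0}.Finite →
      (∀ x ∈ Y, ∀ y ∈ Y, ∀ z ∈ Y, d x y ≤ n → d y z ≤ n → d x z ≤ n → φ x y + φ y z = φ x z) →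
      ∃ f : G → k, ∀ x ∈ Y, ∀ y ∈ Y, d x y ≤ r → φ x y = f y - f x := by
  classical
  obtain ⟨π, ρ, h1, h2, h3⟩ := exists_rep P
  obtain ⟨F, hF, hFY⟩ := hcof
  set J : Finset (G × G) := ((hF.image ρ).prod (hfin r)).toFinset with hJdef
  set R : G → G → Prop := fun x y => x ∈ Y ∧ y ∈ Y ∧ d x y ≤ r with hR
  set w : G → G → (J → MonoidAlgebra k P) := fun x y j =>
    if (j : G × G) = (ρ x, x⁻¹ * y) then MonoidAlgebra.single (π x) 1 else 0 with hw
  have hJ : ∀ x y, R x y → (ρ x, x⁻¹ * y) ∈ J := by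
    rintro x y ⟨hx, hy, hxy⟩
    rw [hJdef, Set.Finite.mem_toFinset]
    obtain ⟨p, hp, x1, hx1, rfl⟩ := hFY x hx
    refine Set.mk_mem_prod ⟨x1, hx1, (h2 ⟨p, hp⟩ x1).symm⟩ ?_
    show d 1 ((p * x1)⁻¹ * y) ≤ r
    rw [← hdl (p * x1), mul_one, mul_inv_cancel_left]
    exact hxy
  set Rn : G → ℕ → G → G → Prop := fun x0 n x y => R x y ∧ d x0 x ≤ n ∧ d x0 y ≤ n with hRn
  obtain ⟨n1, hn1⟩ := noeth_stab (D := D) (J := J)
    (fun n => {u | ∃ x0 ∈ Y, ∃ u', PS (Rn x0 n) w x0 x0 u' ∧ u = fun j => ι (u' j)}) (by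
      rintro n m hnm u ⟨x0, hx0, u', hu', rfl⟩
      refine ⟨x0, hx0, u', ?_, rfl⟩
      have h := PS.map (R' := Rn x0 m) (w' := w) (fun x => x) (AddMonoidHom.id _) (fun x y hxy =>
        ⟨⟨hxy.1, hxy.2.1.trans hnm, hxy.2.2.trans hnm⟩, rfl⟩) hu'
      exact h)
  refine ⟨max n1 r, le_max_right _ _, fun φ hφf hφ => ?_⟩
  set φ' : G → G → k := fun x y => if R x y then φ x y else 0 with hφ'
  have hφ'f : {p : G × G | φ' p.1 p.2 ≠ 0}.Finite := by
    refine hφf.subset fun p hp => ?_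
    have h4 : φ' p.1 p.2 ≠ 0 := hp
    by_cases h5 : R p.1 p.2
    · rw [hφ'] at h4
      simp only [if_pos h5] at h4
      exact ⟨⟨h5.1, h5.2.1, h5.2.2.trans (le_max_right _ _)⟩, h4⟩
    · rw [hφ'] at h4
      simp only [if_neg h5] at h4
      exact absurd rfl h4
  have hv : ∀ j : J, {q : P | φ' ((q : G)⁻¹ * (j : G × G).1)
      ((q : G)⁻¹ * ((j : G × G).1 * (j : G × G).2)) ≠ 0}.Finite := by
    intro j
    refine Set.Finite.preimage (f := fun q : P => ((q : G)⁻¹ * (j : G × G).1,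
      (q : G)⁻¹ * ((j : G × G).1 * (j : G × G).2))) (fun q _ q' _ h => ?_) hφ'f
    have h4 := congrArg Prod.fst h
    exact Subtype.ext (inv_injective (mul_right_cancel h4))
  set v : J → MonoidAlgebra k P := fun j =>
    MonoidAlgebra.ofCoeff (Finsupp.ofSupportFinite (fun q : P => φ' ((q : G)⁻¹ * (j : G × G).1)
      ((q : G)⁻¹ * ((j : G × G).1 * (j : G × G).2))) (hv j)) with hvdef
  let T : P → (J → MonoidAlgebra k P) →+ k := fun p =>
    { toFun := fun u => (∑ j, u j * v j).coeff p⁻¹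
      map_zero' := by
        have h4 : ∑ j, (0 : J → MonoidAlgebra k P) j * v j = 0 :=
          Finset.sum_eq_zero fun j _ => by rw [Pi.zero_apply, zero_mul]
        rw [h4]
        rfl
      map_add' := by
        intro a b
        have h4 : ∑ j, (a + b) j * v j = ∑ j, a j * v j + ∑ j, b j * v j := by
          rw [← Finset.sum_add_distrib]
          exact Finset.sum_congr rfl fun j _ => by rw [Pi.add_apply, add_mul]
        rw [h4, MonoidAlgebra.coeff_add, Finsupp.add_apply] }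
  have hT : ∀ (p : P) x y, R x y → T p (w x y) = φ' (p * x) (p * y) := by
    intro p x y hxy
    have h4 : ∑ j, w x y j * v j = MonoidAlgebra.single (π x) 1 * v ⟨_, hJ x y hxy⟩ := by
      rw [Finset.sum_eq_single (⟨(ρ x, x⁻¹ * y), hJ x y hxy⟩ : J)]
      · rw [hw]
        simp only [if_true]
      · intro j _ hj
        rw [hw]
        simp only
        rw [if_neg (fun h => hj (Subtype.ext h)), zero_mul]
      · intro h
        exact absurd (Finset.mem_univ _) h
    show (∑ j, w x y j * v j).coeff p⁻¹ = _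
    rw [h4, MonoidAlgebra.coeff_single_mul_apply, one_mul]
    show φ' ((((π x)⁻¹ * p⁻¹ : P) : G)⁻¹ * ρ x) ((((π x)⁻¹ * p⁻¹ : P) : G)⁻¹ *
      (ρ x * (x⁻¹ * y))) = φ' (p * x) (p * y)
    have h5 : (((π x)⁻¹ * p⁻¹ : P) : G)⁻¹ * ρ x = p * x := by
      rw [← mul_inv_rev, InvMemClass.coe_inv, inv_inv, Subgroup.coe_mul, mul_assoc, h1]
    have h6 : (((π x)⁻¹ * p⁻¹ : P) : G)⁻¹ * (ρ x * (x⁻¹ * y)) = p * y := by
      rw [← mul_assoc, h5, mul_assoc, mul_inv_cancel_left]
    rw [h5, h6]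
  have hRp : ∀ (p : P) x y, R x y → R (p * x) (p * y) := fun p x y h =>
    ⟨hPY _ p.2 _ h.1, hPY _ p.2 _ h.2.1, by rw [hdl]; exact h.2.2⟩
  have hTall : ∀ u, (∀ p, T p u = 0) → ∑ j, u j * v j = 0 := by
    intro u hu
    apply MonoidAlgebra.coeff_injective
    ext q
    have h4 := hu q⁻¹
    have h5 : (∑ j, u j * v j).coeff (q⁻¹)⁻¹ = 0 := h4
    rw [inv_inv] at h5
    exact h5
  have hTall' : ∀ u, ∑ j, u j * v j = 0 → ∀ p, T p u = 0 := by
    intro u hu p
    show (∑ j, u j * v j).coeff p⁻¹ = 0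
    rw [hu]
    rfl
  have hιsum : ∀ u : J → MonoidAlgebra k P,
      ∑ j, ι (u j) * ι (v j) = ι (∑ j, u j * v j) := by
    intro u
    rw [map_sum]
    exact Finset.sum_congr rfl fun j _ => (map_mul ι _ _).symm
  have hφ'coc : ∀ x y, R x y → φ' x y = φ x y := fun x y h => if_pos h
  have hkill : ∀ u ∈ {u | ∃ x0 ∈ Y, ∃ u', PS (Rn x0 n1) w x0 x0 u' ∧ u = fun j => ι (u' j)},
      ∑ j, u j * ι (v j) = 0 := by
    rintro u ⟨x0, hx0, u', hu', rfl⟩
    show ∑ j, ι (u' j) * ι (v j) = 0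
    rw [hιsum, hTall u', map_zero]
    intro p
    have h4 := PS.map (R' := fun x y => (x ∈ Y ∧ y ∈ Y ∧ d x y ≤ r) ∧ d (p * x0) x ≤ max n1 r ∧
      d (p * x0) y ≤ max n1 r) (w' := φ) (fun x => (p : G) * x) (T p) (fun x y hxy => by
        refine ⟨⟨hRp p x y hxy.1, ?_, ?_⟩, ?_⟩
        · rw [hdl]
          exact hxy.2.1.trans (le_max_left _ _)
        · rw [hdl]
          exact hxy.2.2.trans (le_max_left _ _)
        · rw [hT p x y hxy.1]
          exact hφ'coc _ _ (hRp p x y hxy.1)) hu'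
    have h5 := (PS.coc hd0 (le_max_right n1 r) hφ (hPY _ p.2 _ hx0) h4).1
    have h6 := hφ _ (hPY _ p.2 _ hx0) _ (hPY _ p.2 _ hx0) _ (hPY _ p.2 _ hx0)
      (by rw [hd0]; exact Nat.zero_le _) (by rw [hd0]; exact Nat.zero_le _)
      (by rw [hd0]; exact Nat.zero_le _)
    rw [h5]
    exact (left_eq_add.1 h6.symm)
  have hall := hn1 (fun j => ι (v j)) hkill
  have hper : ∀ x ∈ Y, ∀ a, PS R φ' x x a → a = 0 := by
    intro x hx a ha
    obtain ⟨u, hu, hua⟩ := PS.lift (w := w) (T 1) (fun x y hxy => by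
      rw [hT 1 x y hxy, Subgroup.coe_one, one_mul, one_mul]) ha
    obtain ⟨n, hn⟩ := PS.exh (Rn := Rn x) (fun n m hnm y z h =>
      ⟨h.1, h.2.1.trans hnm, h.2.2.trans hnm⟩) (fun y z h =>
      ⟨max (d x y) (d x z), h, le_max_left _ _, le_max_right _ _⟩) hu
    have h4 : ∑ j, ι (u j) * ι (v j) = 0 := hall n (fun j => ι (u j)) ⟨x, hx, u, hn, rfl⟩
    rw [hιsum] at h4
    have h5 : ∑ j, u j * v j = 0 := hι (by rw [h4, map_zero])
    rw [← hua]
    exact hTall' u h5 1
  obtain ⟨f, hf⟩ := PS.exact (R := R) (w := φ') (fun x y h => ⟨h.2.1, h.1, by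
    rw [hds]; exact h.2.2⟩) (fun x y h => by
      have h' : R y x := ⟨h.2.1, h.1, by rw [hds]; exact h.2.2⟩
      rw [hφ'coc _ _ h, hφ'coc _ _ h']
      have hr := le_max_right n1 r
      have e1 := hφ x h.1 y h.2.1 x h.1 (h.2.2.trans hr) (h'.2.2.trans hr)
        (by rw [hd0]; exact Nat.zero_le _)
      have e2 := hφ x h.1 x h.1 x h.1 (by rw [hd0]; exact Nat.zero_le _)
        (by rw [hd0]; exact Nat.zero_le _) (by rw [hd0]; exact Nat.zero_le _)
      have e3 : φ x x = 0 := left_eq_add.1 e2.symm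
      rw [e3] at e1
      exact eq_neg_of_add_eq_zero_right e1) hc (fun x y h => ⟨h.1, h.2.1⟩) hper
  exact ⟨f, fun x hx y hy hxy => by
    rw [← hf x y ⟨hx, hy, hxy⟩]
    exact (hφ'coc x y ⟨hx, hy, hxy⟩).symm⟩

end

end Pool.Agent.QD
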