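import Pool.Agent.QD.Stm
import Pool.Agent.QD.St0

/-!
# Project QD (MP_bbdce3), A1: stability for groups whose group algebra embeds in a division ring
-/

set_option autoImplicit false

namespace Pool.Agent.QD

open Pool.Agent.QIS

theorem qa1_cconn_mono {G : Type} [Group G] {S : Set G} {Y : Set G} {r r' : ℕ} (h : r ≤ r')
    (hc : CConn S Y r) : CConn S Y r' := by
  intro x hx y hy
  have h1 := hc x hx y hy
  induction h1 with
  | refl => exact Relation.ReflTransGen.refl
  | tail _ hr ih => exact (ih hr.1).tail ⟨hr.1, hr.2.1, hr.2.2.trans h⟩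

theorem sa1 : SA1 := by
  intro G _ S hS hSg k D _ _ ι hι P Y hinv hcof hconn r
  obtain ⟨r0, hr0⟩ := hconn
  obtain ⟨F, hF, hFY⟩ := hcof
  have hinj : Function.Injective (MonoidAlgebra.mapDomainRingHom k (P.subtype : P →* G)) :=
    MonoidAlgebra.mapDomain_injective Subtype.val_injective
  obtain ⟨n, hn, hmain⟩ := st_core (k := k) P (ι.comp (MonoidAlgebra.mapDomainRingHom k P.subtype))
    (hι.comp hinj) (wdist S) wdist_self wdist_mul_left (wdist_comm hSg)
    (fun m => (ball_finite hS hSg (1 : G) m)) Y hinv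
    ⟨F, hF, fun y hy => by
      obtain ⟨p, hp, hpy⟩ := hFY y hy
      exact ⟨p⁻¹, P.inv_mem hp, p * y, hpy, by rw [inv_mul_cancel_left]⟩⟩ (max r r0)
    (fun x hx y hy => qa1_cconn_mono (le_max_right r r0) hr0 x hx y hy)
  refine ⟨n, (le_max_left _ _).trans hn, fun φ hφ hfin => ?_⟩
  obtain ⟨f, hf⟩ := hmain φ (hfin.subset fun p hp => ⟨hp.1.1, hp.1.2.1, hp.1.2.2, hp.2⟩) hφ
  exact ⟨f, fun x hx y hy hxy => hf x hx y hy (hxy.trans (le_max_left _ _))⟩

end Pool.Agent.QD
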