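import Pool.Agent.QD.Stm
import Pool.Agent.H67.Q.Words

/-!
# Project QD (MP_bbdce3_al), row A2: finite cocycles on the whole group have finite primitives
-/

set_option autoImplicit false

namespace Pool.Agent.QD

open Pool.Agent.QIS

section

variable {G : Type} [Group G] {S : Set G}

private theorem qa2_path (l : List G) (hl : ∀ s ∈ l, s ∈ S ∨ s⁻¹ ∈ S) (x : G) :
    Relation.ReflTransGen (fun a b => a ∈ (Set.univ : Set G) ∧ b ∈ (Set.univ : Set G) ∧
      wdist S a b ≤ 1) x (x * l.prod) := by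
  induction l generalizing x with
  | nil =>
    rw [List.prod_nil, mul_one]
  | cons s l ih =>
    rw [List.prod_cons, ← mul_assoc]
    refine Relation.ReflTransGen.head ⟨Set.mem_univ _, Set.mem_univ _, ?_⟩
      (ih (fun t ht => hl t (List.mem_cons_of_mem _ ht)) (x * s))
    exact q6_gen (hl s List.mem_cons_self) x

/-- the Cayley graph is connected -/
theorem qa2_conn (hSg : Subgroup.closure S = ⊤) : CConn S (Set.univ : Set G) 1 := by
  intro x _ y _
  obtain ⟨l, h1, h2, _⟩ := q6_exists_word hSg (x⁻¹ * y)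
  have h := qa2_path l h1 x
  rw [h2, mul_inv_cancel_left] at h
  exact h

end

/-- finite cocycles on `G` have finite primitives -/
theorem sa2 : SA2 := by
  intro G _ S hS hSg hone k _ hA r
  obtain ⟨hinf, hend⟩ := hone
  have hst : PSt S k (Set.univ : Set G) := hA ⊤ Set.univ (fun _ _ _ _ => Set.mem_univ _)
    ⟨{1}, Set.finite_singleton 1, fun y _ => ⟨y⁻¹, Subgroup.mem_top _, by
      rw [inv_mul_cancel]; exact Set.mem_singleton 1⟩⟩ ⟨1, qa2_conn hSg⟩
  obtain ⟨n, hn, hst⟩ := hst (max r 1)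
  have hr : r ≤ max r 1 := le_max_left _ _
  have h1 : 1 ≤ max r 1 := le_max_right _ _
  refine ⟨n, hr.trans hn, fun φ hφ hfin => ?_⟩
  obtain ⟨f, hf⟩ := hst φ hφ hfin
  set A : Set (G × G) := {p : G × G | p.1 ∈ (Set.univ : Set G) ∧ p.2 ∈ (Set.univ : Set G) ∧
    wdist S p.1 p.2 ≤ n ∧ φ p.1 p.2 ≠ 0} with hAdef
  have hAf : A.Finite := hfin
  set Z : Set G := Prod.fst '' A with hZ
  have hZf : Z.Finite := hAf.image _
  obtain ⟨E, hE, hjoin⟩ := hend Z hZf
  have hconst : ∀ x ∉ E, ∀ y ∉ E, f x = f y := by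
    intro x hx y hy
    have hj := hjoin x hx y hy
    unfold JoinedOff at hj
    clear hy
    induction hj with
    | refl => rfl
    | @tail b c _ hbc ih =>
      obtain ⟨⟨s, hs, hbc'⟩, hb, hc⟩ := hbc
      have hd : wdist S b c ≤ 1 := by
        rcases hbc' with h | h
        · rw [h]; exact wdist_gen hs b
        · rw [wdist_comm hSg, h]; exact wdist_gen hs c
      have h2 : φ b c = 0 := by
        by_contra h3
        exact hb ⟨(b, c), ⟨Set.mem_univ _, Set.mem_univ _, hd.trans (h1.trans hn), h3⟩, rfl⟩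
      have h3 := hf b (Set.mem_univ _) c (Set.mem_univ _) (hd.trans h1)
      rw [h2] at h3
      have h4 : f b = f c := (sub_eq_zero.1 h3.symm).symm
      exact ih.trans h4
  obtain ⟨x0, hx0⟩ := hE.exists_notMem
  refine ⟨fun x => f x - f x0, hE.subset ?_, ?_⟩
  · intro x hx
    by_contra hxE
    apply hx
    show f x - f x0 = 0
    rw [hconst x hxE x0 hx0, sub_self]
  · intro x hx y hy hxy
    rw [hf x hx y hy (hxy.trans hr)]
    ring

end Pool.Agent.QD
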