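import Pool.Agent.QD.Stm

/-!
# Project QD (MP_bbdce3_al), A3: half-spaces are coarsely connected
-/

set_option autoImplicit false

namespace Pool.Agent.QD

open Pool.Agent.QIS

section

variable {G : Type} [Group G]

private theorem a3_zpow {H : Set G} {c : G} (hc : ∀ x, c * x ∈ H ↔ x ∈ H) (i : ℤ) :
    ∀ x, c ^ i * x ∈ H ↔ x ∈ H := by
  induction i using Int.induction_on with
  | zero =>
    intro x
    rw [zpow_zero, one_mul]
  | succ i ih =>
    intro x
    rw [zpow_add_one, mul_assoc, ih, hc]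
  | pred i ih =>
    intro x
    rw [zpow_sub_one, mul_assoc, ih, ← hc (c⁻¹ * x), mul_inv_cancel_left]

private def a3R (S H : Set G) (r : ℕ) (a b : G) : Prop := a ∈ H ∧ b ∈ H ∧ wdist S a b ≤ r

private theorem a3_symm {S H : Set G} (hSg : Subgroup.closure S = ⊤) {r : ℕ} {a b : G}
    (h : Relation.ReflTransGen (a3R S H r) a b) : Relation.ReflTransGen (a3R S H r) b a := by
  induction h with
  | refl => exact Relation.ReflTransGen.refl
  | tail _ hbc ih =>
    refine Relation.ReflTransGen.head ?_ ih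
    exact ⟨hbc.2.1, hbc.1, by rw [wdist_comm hSg]; exact hbc.2.2⟩

private theorem a3_line {S H : Set G} {c : G} (hSg : Subgroup.closure S = ⊤)
    (hc : ∀ x, c * x ∈ H ↔ x ∈ H) {r : ℕ} {f : G} (hf : f ∈ H)
    (hd : wdist S f (c * f) ≤ r) (j : ℤ) : Relation.ReflTransGen (a3R S H r) f (c ^ j * f) := by
  have step : ∀ i : ℤ, a3R S H r (c ^ i * f) (c ^ (i + 1) * f) := by
    intro i
    refine ⟨(a3_zpow hc i f).2 hf, (a3_zpow hc (i + 1) f).2 hf, ?_⟩
    rw [zpow_add_one, mul_assoc, wdist_mul_left]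
    exact hd
  induction j using Int.induction_on with
  | zero =>
    rw [zpow_zero, one_mul]
  | succ i ih => exact ih.tail (step _)
  | pred i ih =>
    have h := step (-(i : ℤ) - 1)
    rw [sub_add_cancel] at h
    refine ih.tail ?_
    exact ⟨h.2.1, h.1, by rw [wdist_comm hSg]; exact h.2.2⟩

private theorem a3_bound {S F : Set G} (hF : F.Finite) (c : G) :
    ∃ r : ℕ, 1 ≤ r ∧ (∀ f ∈ F, ∀ f' ∈ F, wdist S f f' ≤ r) ∧ ∀ f ∈ F, wdist S f (c * f) ≤ r := by
  obtain ⟨r1, h1⟩ := (hF.image2 (fun f f' => wdist S f f') hF).bddAbove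
  obtain ⟨r2, h2⟩ := (hF.image fun f => wdist S f (c * f)).bddAbove
  refine ⟨r1 + r2 + 1, by omega, ?_, ?_⟩
  · intro f hf f' hf'
    have h3 := h1 (Set.mem_image2_of_mem hf hf')
    have h4 : wdist S f f' ≤ r1 := h3
    omega
  · intro f hf
    have h3 : wdist S f (c * f) ≤ r2 := h2 (Set.mem_image_of_mem _ hf)
    omega

end

/-- A3: half-spaces are coarsely connected -/
theorem sa3 : SA3 := by
  intro G _ S _ hSg H c hH
  obtain ⟨F, hF, hbd⟩ := hH.bd 1
  obtain ⟨r, hr1, hr2, hr3⟩ := a3_bound (S := S) (hF.inter_of_left H) c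
  refine ⟨r, fun r' hr' => ?_⟩
  have hjoin : ∀ u v : G, u ∈ H → v ∈ H → (∃ i : ℤ, c ^ i * u ∈ F) → (∃ i : ℤ, c ^ i * v ∈ F) →
      Relation.ReflTransGen (a3R S H r') u v := by
    rintro u v hu hv ⟨i, hi⟩ ⟨j, hj⟩
    have hfu : c ^ i * u ∈ F ∩ H := ⟨hi, (a3_zpow hH.inv i u).2 hu⟩
    have hfv : c ^ j * v ∈ F ∩ H := ⟨hj, (a3_zpow hH.inv j v).2 hv⟩
    have e1 : c ^ (-i) * (c ^ i * u) = u := by
      rw [← mul_assoc, ← zpow_add, neg_add_cancel, zpow_zero, one_mul]
    have e2 : c ^ (-j) * (c ^ j * v) = v := by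
      rw [← mul_assoc, ← zpow_add, neg_add_cancel, zpow_zero, one_mul]
    have s1 : a3R S H r' u (c ^ (-i) * (c ^ j * v)) := by
      refine ⟨hu, (a3_zpow hH.inv _ _).2 hfv.2, ?_⟩
      have e3 : wdist S u (c ^ (-i) * (c ^ j * v)) =
          wdist S (c ^ (-i) * (c ^ i * u)) (c ^ (-i) * (c ^ j * v)) := by rw [e1]
      rw [e3, wdist_mul_left]
      exact (hr2 _ hfu _ hfv).trans hr'
    have hd : wdist S (c ^ j * v) (c * (c ^ j * v)) ≤ r' := (hr3 _ hfv).trans hr'
    have s2 := a3_symm hSg (a3_line hSg hH.inv hfv.2 hd (-i))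
    have s3 := a3_line hSg hH.inv hfv.2 hd (-j)
    rw [e2] at s3
    exact Relation.ReflTransGen.head s1 (s2.trans s3)
  intro x hx y hy
  change Relation.ReflTransGen (a3R S H r') x y
  have key : ∀ l : List G, (∀ a ∈ l, a ∈ S ∨ a⁻¹ ∈ S) → ∀ z : G,
      ((z ∈ H → Relation.ReflTransGen (a3R S H r') x z) ∧
        (z ∉ H → ∃ u ∈ H, (∃ i : ℤ, c ^ i * u ∈ F) ∧
          Relation.ReflTransGen (a3R S H r') x u)) →
      ((z * l.prod ∈ H → Relation.ReflTransGen (a3R S H r') x (z * l.prod)) ∧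
        (z * l.prod ∉ H → ∃ u ∈ H, (∃ i : ℤ, c ^ i * u ∈ F) ∧
          Relation.ReflTransGen (a3R S H r') x u)) := by
    intro l
    induction l with
    | nil =>
      intro _ z hz
      rw [List.prod_nil, mul_one]
      exact hz
    | cons s l ih =>
      intro hl z hz
      rw [List.prod_cons, ← mul_assoc]
      refine ih (fun a ha => hl a (List.mem_cons_of_mem _ ha)) (z * s) ?_
      have hs : s ∈ S ∨ s⁻¹ ∈ S := hl s List.mem_cons_self
      have hd : wdist S z (z * s) ≤ 1 := q6_gen hs z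
      have hd' : wdist S (z * s) z ≤ 1 := by
        rw [wdist_comm hSg]
        exact hd
      constructor
      · intro hzs
        by_cases hzH : z ∈ H
        · exact (hz.1 hzH).tail ⟨hzH, hzs, hd.trans (hr1.trans hr')⟩
        · obtain ⟨u, hu, hui, hxu⟩ := hz.2 hzH
          exact hxu.trans (hjoin u (z * s) hu hzs hui (hbd _ _ hd' hzs hzH))
      · intro hzs
        by_cases hzH : z ∈ H
        · exact ⟨z, hzH, hbd _ _ hd hzH hzs, hz.1 hzH⟩
        · exact hz.2 hzH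
  obtain ⟨l, hl, hp, _⟩ := q6_exists_word hSg (x⁻¹ * y)
  have h := (key l hl x ⟨fun _ => Relation.ReflTransGen.refl, fun h => absurd hx h⟩).1
  rw [hp, mul_inv_cancel_left] at h
  exact h hy

end Pool.Agent.QD
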