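import Pool.Agent.QD.Stm

/-!
# QI-A4: finite cocycles on a half-space have finite primitives (MP_bbdce3_al)
-/

set_option autoImplicit false

namespace Pool.Agent.QD

open Pool.Agent.QIS Function

section A4

variable {G : Type} [Group G] {S : Set G}

theorem a4_zpow {H : Set G} {c : G} (h : ∀ x, c * x ∈ H ↔ x ∈ H) (i : ℤ) (x : G) :
    c ^ i * x ∈ H ↔ x ∈ H := by
  induction i using Int.induction_on with
  | zero => simp
  | succ n ih =>
    have e : c ^ ((n : ℤ) + 1) * x = c * (c ^ (n : ℤ) * x) := by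
      rw [← mul_assoc, mul_self_zpow]
    rw [e, h, ih]
  | pred n ih =>
    have e : c * (c ^ (-(n : ℤ) - 1) * x) = c ^ (-(n : ℤ)) * x := by
      rw [← mul_assoc, mul_self_zpow, sub_add_cancel]
    rw [← h (c ^ (-(n : ℤ) - 1) * x), e, ih]

theorem a4_inj {c : G} (h : ∀ n : ℕ, 0 < n → c ^ n ≠ 1) (x : G) :
    Function.Injective (fun i : ℤ => c ^ i * x) := by
  have h1 : ¬ IsOfFinOrder c := by
    rw [isOfFinOrder_iff_pow_eq_one]
    rintro ⟨n, hn, hc⟩
    exact h n hn hc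
  intro i j hij
  exact injective_zpow_iff_not_isOfFinOrder.2 h1 (mul_right_cancel hij)

theorem a4_fin {k : Type} [Field k] {Y : Set G} {n : ℕ} {φ : G → G → k} (hφ : FinC S Y n φ)
    {c : G} (ho : ∀ n : ℕ, 0 < n → c ^ n ≠ 1) (hc : ∀ x, c * x ∈ Y ↔ x ∈ Y) {x y : G}
    (hx : x ∈ Y) (hy : y ∈ Y) (hxy : wdist S x y ≤ n) :
    (support fun l : ℤ => φ (c ^ l * x) (c ^ l * y)).Finite := by
  have hinj : Function.Injective (fun l : ℤ => (c ^ l * x, c ^ l * y)) := by
    intro i j hij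
    exact a4_inj ho x (Prod.mk.inj hij).1
  refine (hφ.preimage hinj.injOn).subset ?_
  intro l hl
  refine ⟨(a4_zpow hc l x).2 hx, (a4_zpow hc l y).2 hy, ?_, hl⟩
  show wdist S (c ^ l * x) (c ^ l * y) ≤ n
  rw [wdist_mul_left]
  exact hxy

/-- the support of a function along a line -/
theorem a4_fing {k : Type} [Field k] {g : G → k} (hg : (support g).Finite)
    {c : G} (ho : ∀ n : ℕ, 0 < n → c ^ n ≠ 1) (x : G) :
    (support fun l : ℤ => g (c ^ l * x)).Finite :=
  (hg.preimage (a4_inj ho x).injOn).subset fun _ hl => hl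

/-- shift invariance of the sum -/
theorem a4_shift {k : Type} [Field k] {u : ℤ → k} (hu : (support u).Finite) :
    ∑ᶠ i : ℤ, (u i - u (i - 1)) = 0 := by
  have h1 : (support fun i : ℤ => u (i - 1)).Finite :=
    hu.preimage (sub_left_injective.injOn)
  rw [finsum_sub_distrib hu h1]
  have h2 : ∑ᶠ i : ℤ, u (i - 1) = ∑ᶠ i : ℤ, u i :=
    finsum_comp_equiv (Equiv.subRight (1 : ℤ)) (f := u)
  rw [h2, sub_self]

/-- the case of jump zero -/
theorem a4_zero (hS : S.Finite) (hSg : Subgroup.closure S = ⊤) {k : Type} [Field k]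
    {H : Set G} {r' n1 n : ℕ} (h12 : n1 ≤ n)
    (hu : ∀ φ : G → G → k, Coc S Set.univ n1 φ → FinC S Set.univ n1 φ →
      ∃ f : G → k, (support f).Finite ∧ Prim S Set.univ r' φ f) {φ : G → G → k}
    (hφ : Coc S H n φ) (hf : FinC S H n φ) {g0 : G → k} (hg0 : (support g0).Finite)
    (hp : Prim S (Strip S n1 H) n1 φ g0) :
    ∃ f : G → k, (support f).Finite ∧ Prim S H r' φ f := by
  classical
  obtain ⟨ψ, hψ⟩ : ∃ ψ : G → G → k, ψ = fun x y => if x ∈ H ∧ y ∈ H then φ x y else g0 y - g0 x :=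
    ⟨_, rfl⟩
  have hpair : ∀ a b w : G, w ∉ H → wdist S a b ≤ n1 → wdist S a w ≤ n1 → wdist S b w ≤ n1 →
      ψ a b = g0 b - g0 a := by
    intro a b w hw hab haw hbw
    rw [hψ]
    show (if a ∈ H ∧ b ∈ H then φ a b else g0 b - g0 a) = g0 b - g0 a
    split_ifs with h
    · exact hp a ⟨h.1, w, hw, haw⟩ b ⟨h.2, w, hw, hbw⟩ hab
    · rfl
  have hcoc : Coc S Set.univ n1 ψ := by
    intro x _ y _ z _ hxy hyz hxz
    have hyx : wdist S y x ≤ n1 := by rwa [wdist_comm hSg]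
    have hzy : wdist S z y ≤ n1 := by rwa [wdist_comm hSg]
    have hzx : wdist S z x ≤ n1 := by rwa [wdist_comm hSg]
    have h0 : ∀ a : G, wdist S a a ≤ n1 := fun a => by rw [wdist_self]; omega
    by_cases hx : x ∈ H
    · by_cases hy : y ∈ H
      · by_cases hz : z ∈ H
        · have e : ∀ a b : G, a ∈ H → b ∈ H → ψ a b = φ a b := by
            intro a b ha hb
            rw [hψ]
            exact if_pos ⟨ha, hb⟩
          rw [e x y hx hy, e y z hy hz, e x z hx hz]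
          exact hφ x hx y hy z hz (hxy.trans h12) (hyz.trans h12) (hxz.trans h12)
        · rw [hpair x y z hz hxy hxz hyz, hpair y z z hz hyz hyz (h0 z),
            hpair x z z hz hxz hxz (h0 z)]
          ring
      · rw [hpair x y y hy hxy hxy (h0 y), hpair y z y hy hyz (h0 y) hzy,
          hpair x z y hy hxz hxy hzy]
        ring
    · rw [hpair x y x hx hxy (h0 x) hyx, hpair y z x hx hyz hyx hzx,
        hpair x z x hx hxz (h0 x) hzx]
      ring
  have hfin : FinC S Set.univ n1 ψ := by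
    have h1 : ((support g0) ×ˢ (⋃ x ∈ support g0, {y | wdist S x y ≤ n1})).Finite :=
      hg0.prod (hg0.biUnion fun x _ => ball_finite hS hSg x n1)
    have h2 : ((⋃ x ∈ support g0, {y | wdist S x y ≤ n1}) ×ˢ (support g0)).Finite :=
      (hg0.biUnion fun x _ => ball_finite hS hSg x n1).prod hg0
    refine (hf.union (h1.union h2)).subset ?_
    rintro ⟨a, b⟩ ⟨-, -, hab, hne⟩
    have hab' : wdist S a b ≤ n1 := hab
    have hne' : ψ a b ≠ 0 := hne
    rw [hψ] at hne'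
    change (if a ∈ H ∧ b ∈ H then φ a b else g0 b - g0 a) ≠ 0 at hne'
    split_ifs at hne' with h
    · exact Or.inl ⟨h.1, h.2, hab'.trans h12, hne'⟩
    · right
      by_cases ha : g0 a = 0
      · right
        have hb : g0 b ≠ 0 := by
          intro hb
          apply hne'
          rw [ha, hb, sub_self]
        refine ⟨?_, hb⟩
        refine Set.mem_biUnion (x := b) hb ?_
        show wdist S b a ≤ n1
        rwa [wdist_comm hSg]
      · left
        refine ⟨ha, ?_⟩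
        exact Set.mem_biUnion (x := a) ha hab'
  obtain ⟨f, hf1, hf2⟩ := hu ψ hcoc hfin
  refine ⟨f, hf1, fun x hx y hy hxy => ?_⟩
  rw [← hf2 x (Set.mem_univ x) y (Set.mem_univ y) hxy, hψ]
  exact (if_pos ⟨hx, hy⟩).symm

theorem a4_strip (hSg : Subgroup.closure S = ⊤) {H : Set G} {c : G} (h : HS S H c) :
    ∃ y, y ∈ Strip S 1 H := by
  obtain ⟨x, hx, -⟩ := h.deep ∅ Set.finite_empty
  obtain ⟨y, hy, -⟩ := h.deep' ∅ Set.finite_empty
  have h1 := near_of_cross hSg H (Strip S 1 H) 1 ?_ x y (fun h => hy (h.1 hx))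
  · obtain ⟨l, hl, -⟩ := h1
    exact ⟨l, hl⟩
  · intro g s hs hg
    by_cases hgH : g ∈ H
    · have h2 : g * s ∉ H := fun h => hg ⟨fun _ => h, fun _ => hgH⟩
      exact ⟨g, ⟨hgH, g * s, h2, wdist_gen hs g⟩, by rw [wdist_self]; omega⟩
    · have h2 : g * s ∈ H := by
        by_contra h
        exact hg ⟨fun h' => absurd h' hgH, fun h' => absurd h' h⟩
      refine ⟨g * s, ⟨h2, g, hgH, ?_⟩, wdist_gen hs g⟩
      rw [wdist_comm hSg]
      exact wdist_gen hs g

theorem a4_strip_mono {H : Set G} {m n : ℕ} (h : m ≤ n) {x : G} (hx : x ∈ Strip S m H) :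
    x ∈ Strip S n H := by
  obtain ⟨h1, y, hy, h2⟩ := hx
  exact ⟨h1, y, hy, h2.trans h⟩

/-- **QI-A4** -/
theorem sa4 (a3 : SA3) (a6 : SA6) : SA4 := by
  intro G _ S hS hSg k _ hpfs H c hH r
  obtain ⟨r3, hr3⟩ := a3 G S hS hSg H c hH
  obtain ⟨y0, hy0⟩ := a4_strip hSg hH
  obtain ⟨r', hr'⟩ : ∃ r', r' = max (max r r3) (max 1 (wdist S y0 (c * y0))) := ⟨_, rfl⟩
  have hrr : r ≤ r' := by rw [hr']; exact (le_max_left _ _).trans (le_max_left _ _)
  have hr3' : r3 ≤ r' := by rw [hr']; exact (le_max_right _ _).trans (le_max_left _ _)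
  have h1r : 1 ≤ r' := by rw [hr']; exact (le_max_left _ _).trans (le_max_right _ _)
  have hd0 : wdist S y0 (c * y0) ≤ r' := by
    rw [hr']; exact (le_max_right _ _).trans (le_max_right _ _)
  obtain ⟨n1, hn1, hu⟩ := hpfs r'
  obtain ⟨n, hn, h6⟩ := a6 G S hS hSg k H c hH n1 n1
  have hconn := hr3 r' hr3'
  refine ⟨n, (hrr.trans hn1).trans hn, ?_⟩
  have hy0n : y0 ∈ Strip S n1 H := a4_strip_mono (h1r.trans hn1) hy0
  have hy0H : y0 ∈ H := hy0.1
  have hd0n : wdist S y0 (c * y0) ≤ n := (hd0.trans hn1).trans hn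
  have hcy0 : c * y0 ∈ H := (hH.inv y0).2 hy0H
  -- jump zero
  have key : ∀ φ : G → G → k, Coc S H n φ → FinC S H n φ → Jp c y0 φ = 0 →
      ∃ f : G → k, (support f).Finite ∧ Prim S H r' φ f := by
    intro φ hφ hf hJ
    have hc1 : Coc S (Strip S n1 H) n φ := fun x hx y hy z hz =>
      hφ x hx.1 y hy.1 z hz.1
    have hf1 : FinC S (Strip S n1 H) n φ :=
      hf.subset fun p hp => ⟨hp.1.1, hp.2.1.1, hp.2.2⟩
    obtain ⟨g0, hg0, hg0p, -⟩ := h6 n le_rfl φ hc1 hf1 y0 hy0n hd0n hJ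
    exact a4_zero hS hSg hn hu hφ hf hg0 hg0p
  intro φ hφ hf
  by_cases hb : Jp c y0 φ = 0
  · obtain ⟨f, hf1, hf2⟩ := key φ hφ hf hb
    exact ⟨f, hf1, fun x hx y hy hxy => hf2 x hx y hy (hxy.trans hrr)⟩
  exfalso
  have hzH : ∀ (i : ℤ) (x : G), c ^ i * x ∈ H ↔ x ∈ H := a4_zpow hH.inv
  have hiH : ∀ x : G, c⁻¹ * x ∈ H ↔ x ∈ H := fun x => by
    have := hzH (-1) x
    rwa [zpow_neg_one] at this
  have hi1 : ∀ (i : ℤ) (x : G), c⁻¹ * (c ^ i * x) = c ^ (i - 1) * x := fun i x => by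
    rw [← mul_assoc, ← zpow_neg_one, ← zpow_add]
    congr 2
    ring
  have hi2 : ∀ (i : ℤ) (x : G), c ^ (i + 1) * x = c ^ i * (c * x) := fun i x => by
    rw [zpow_add_one, mul_assoc]
  -- the difference with the translate
  obtain ⟨φ', hφ'⟩ : ∃ φ' : G → G → k, φ' = fun x y => φ x y - φ (c⁻¹ * x) (c⁻¹ * y) := ⟨_, rfl⟩
  have e' : ∀ x y, φ' x y = φ x y - φ (c⁻¹ * x) (c⁻¹ * y) := fun x y => by rw [hφ']
  have hc' : Coc S H n φ' := by
    intro x hx y hy z hz hxy hyz hxz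
    have h1 := hφ x hx y hy z hz hxy hyz hxz
    have h2 := hφ (c⁻¹ * x) ((hiH x).2 hx) (c⁻¹ * y) ((hiH y).2 hy) (c⁻¹ * z) ((hiH z).2 hz)
      (by rwa [wdist_mul_left]) (by rwa [wdist_mul_left]) (by rwa [wdist_mul_left])
    rw [e', e', e', ← h1, ← h2]
    ring
  have hf' : FinC S H n φ' := by
    refine (hf.union (hf.image fun p : G × G => (c * p.1, c * p.2))).subset ?_
    rintro ⟨a, b⟩ ⟨ha, hb', hab, hne⟩
    have hne' : φ' a b ≠ 0 := hne
    by_cases h1 : φ a b = 0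
    · right
      refine ⟨(c⁻¹ * a, c⁻¹ * b), ⟨(hiH a).2 ha, (hiH b).2 hb', ?_, ?_⟩, ?_⟩
      · show wdist S (c⁻¹ * a) (c⁻¹ * b) ≤ n
        rw [wdist_mul_left]
        exact hab
      · show φ (c⁻¹ * a) (c⁻¹ * b) ≠ 0
        intro h2
        apply hne'
        rw [e', h1, h2, sub_zero]
      · simp
    · exact Or.inl ⟨ha, hb', hab, h1⟩
  -- the values along the line through `y0`
  obtain ⟨u, hu'⟩ : ∃ u : ℤ → k, u = fun i => φ (c ^ i * y0) (c ^ i * (c * y0)) := ⟨_, rfl⟩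
  have hufin : (support u).Finite := by
    rw [hu']
    exact a4_fin hf hH.ord hH.inv hy0H hcy0 hd0n
  have hJu : Jp c y0 φ = ∑ᶠ i : ℤ, u i := by
    unfold Jp
    rw [hu']
    refine finsum_congr fun i => ?_
    rw [hi2]
  have e'u : ∀ i : ℤ, φ' (c ^ i * y0) (c ^ (i + 1) * y0) = u i - u (i - 1) := fun i => by
    rw [e', hi1, hi2, hi1, hu']
  have hJ' : Jp c y0 φ' = 0 := by
    unfold Jp
    rw [finsum_congr e'u]
    exact a4_shift hufin
  obtain ⟨g, hg1, hg2⟩ := key φ' hc' hf' hJ'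
  -- (i)
  have hGfin : (support fun l : ℤ => g (c ^ l * y0)).Finite := a4_fing hg1 hH.ord y0
  have hstep : ∀ i : ℤ, u i - g (c ^ (i + 1) * y0) = u (i - 1) - g (c ^ i * y0) := by
    intro i
    have h1 := hg2 (c ^ i * y0) ((hzH i y0).2 hy0H) (c ^ (i + 1) * y0)
      ((hzH (i + 1) y0).2 hy0H) (by
        rw [hi2, wdist_mul_left]
        exact hd0)
    rw [e'u] at h1
    linear_combination h1
  obtain ⟨v, hv⟩ : ∃ v : ℤ → k, v = fun i => u i - g (c ^ (i + 1) * y0) := ⟨_, rfl⟩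
  have hvs : ∀ i : ℤ, v i = v (i - 1) := by
    intro i
    rw [hv]
    show u i - g (c ^ (i + 1) * y0) = u (i - 1) - g (c ^ (i - 1 + 1) * y0)
    rw [sub_add_cancel]
    exact hstep i
  have hvc : ∀ i : ℤ, v i = v 0 := by
    intro i
    induction i using Int.induction_on with
    | zero => rfl
    | succ m ih =>
      rw [hvs, add_sub_cancel_right, ih]
    | pred m ih =>
      rw [← hvs, ih]
  have hvfin : (support v).Finite := by
    refine (hufin.union ((hGfin.preimage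
      (add_left_injective (1 : ℤ)).injOn))).subset ?_
    intro i hi
    by_cases h1 : u i = 0
    · right
      show g (c ^ (i + 1) * y0) ≠ 0
      intro h2
      apply hi
      rw [hv]
      show u i - g (c ^ (i + 1) * y0) = 0
      rw [h1, h2, sub_zero]
    · exact Or.inl h1
  have hv0 : v 0 = 0 := by
    by_contra h0
    have h1 : support v = Set.univ := by
      ext i
      simp only [mem_support, Set.mem_univ, iff_true]
      rw [hvc]
      exact h0
    rw [h1] at hvfin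
    exact Set.infinite_univ hvfin
  have huG : ∀ i : ℤ, u i = g (c ^ (i + 1) * y0) := by
    intro i
    have h1 := hvc i
    rw [hv0, hv] at h1
    exact sub_eq_zero.1 h1
  have hbG : Jp c y0 φ = ∑ᶠ l : ℤ, g (c ^ l * y0) := by
    rw [hJu, finsum_congr huG]
    exact finsum_comp_equiv (Equiv.addRight (1 : ℤ)) (f := fun l : ℤ => g (c ^ l * y0))
  -- (ii)
  have hadj : ∀ x ∈ H, ∀ y ∈ H, wdist S x y ≤ r' →
      ∑ᶠ l : ℤ, g (c ^ l * y) = ∑ᶠ l : ℤ, g (c ^ l * x) := by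
    intro x hx y hy hxy
    rw [← sub_eq_zero, ← finsum_sub_distrib (a4_fing hg1 hH.ord y) (a4_fing hg1 hH.ord x)]
    have h1 : ∀ l : ℤ, g (c ^ l * y) - g (c ^ l * x) =
        (fun l : ℤ => φ (c ^ l * x) (c ^ l * y)) l -
          (fun l : ℤ => φ (c ^ l * x) (c ^ l * y)) (l - 1) := by
      intro l
      have h2 := hg2 (c ^ l * x) ((hzH l x).2 hx) (c ^ l * y) ((hzH l y).2 hy)
        (by rwa [wdist_mul_left])
      rw [← h2, e', hi1, hi1]
    rw [finsum_congr h1]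
    exact a4_shift (a4_fin hf hH.ord hH.inv hx hy ((hxy.trans hn1).trans hn))
  obtain ⟨x, hx, hxd⟩ := hH.deep (support g) hg1
  have hall : ∀ z : G, Relation.ReflTransGen (fun a b => a ∈ H ∧ b ∈ H ∧ wdist S a b ≤ r') y0 z →
      ∑ᶠ l : ℤ, g (c ^ l * z) = ∑ᶠ l : ℤ, g (c ^ l * y0) := by
    intro z hz
    induction hz with
    | refl => rfl
    | tail _ hst ih => exact (hadj _ hst.1 _ hst.2.1 hst.2.2).trans ih
  have hconst := hall x (hconn y0 hy0H x hx)
  have hx0 : ∑ᶠ l : ℤ, g (c ^ l * x) = 0 := by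
    have h1 : ∀ l : ℤ, g (c ^ l * x) = 0 := fun l => by
      have h2 := hxd l
      rwa [notMem_support] at h2
    rw [finsum_congr h1, finsum_zero]
  exact hb (by rw [hbG, ← hconst, hx0])

end A4

end Pool.Agent.QD
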