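import Pool.Agent.QD.Stm

/-!
# MP_bbdce3_al, project QD, row A5: uniformity over the half-spaces of a piece
-/

set_option autoImplicit false

namespace Pool.Agent.QD

open Pool.Agent.QIS

section

variable {G : Type} [Group G] {S : Set G} {k : Type} [Field k]

private theorem a5_coc_mono {Y : Set G} {n n' : ℕ} (h : n' ≤ n) {φ : G → G → k}
    (hφ : Coc S Y n φ) : Coc S Y n' φ := fun x hx y hy z hz h1 h2 h3 =>
  hφ x hx y hy z hz (h1.trans h) (h2.trans h) (h3.trans h)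

private theorem a5_fin_mono {Y : Set G} {n n' : ℕ} (h : n' ≤ n) {φ : G → G → k}
    (hφ : FinC S Y n φ) : FinC S Y n' φ :=
  Set.Finite.subset hφ fun _ hp => ⟨hp.1, hp.2.1, hp.2.2.1.trans h, hp.2.2.2⟩

private theorem a5_coc {H : Set G} {n : ℕ} {φ : G → G → k} (p : G) (hφ : Coc S H n φ) :
    Coc S (tl p H) n (fun x y => φ (p⁻¹ * x) (p⁻¹ * y)) := by
  intro x hx y hy z hz h1 h2 h3
  refine hφ _ hx _ hy _ hz ?_ ?_ ?_
  · rwa [wdist_mul_left]
  · rwa [wdist_mul_left]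
  · rwa [wdist_mul_left]

private theorem a5_fin {H : Set G} {n : ℕ} {φ : G → G → k} (p : G) (hφ : FinC S H n φ) :
    FinC S (tl p H) n (fun x y => φ (p⁻¹ * x) (p⁻¹ * y)) := by
  have h := Set.Finite.preimage (f := fun q : G × G => (p⁻¹ * q.1, p⁻¹ * q.2))
    (fun a _ b _ hab => by
      have h1 := congrArg Prod.fst hab
      have h2 := congrArg Prod.snd hab
      exact Prod.ext (mul_left_cancel h1) (mul_left_cancel h2)) hφ
  refine h.subset ?_
  rintro q ⟨h1, h2, h3, h4⟩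
  refine ⟨h1, h2, ?_, h4⟩
  show wdist S (p⁻¹ * q.1) (p⁻¹ * q.2) ≤ n
  rwa [wdist_mul_left]

end

/-- A5: uniformity over the half-spaces of a piece -/
theorem sa5 : SA5 := by
  intro G _ S _ _ k _ P HH hP hPFS r
  obtain ⟨F, hF, hFo⟩ := hP.orb
  have hch : ∀ H : Set G, ∃ n : ℕ, H ∈ HH → r ≤ n ∧ ∀ φ : G → G → k, Coc S H n φ → FinC S H n φ →
      ∃ f : G → k, (Function.support f).Finite ∧ Prim S H r φ f := by
    intro H
    by_cases hH : H ∈ HH
    · obtain ⟨n, hn⟩ := hPFS H hH r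
      exact ⟨n, fun _ => hn⟩
    · exact ⟨0, fun h => absurd h hH⟩
  choose N hN using hch
  obtain ⟨n₀, hn₀⟩ := (hF.image N).bddAbove
  refine ⟨max r n₀, le_max_left _ _, ?_⟩
  intro H hH φ hc hf
  obtain ⟨p, hp, hpF⟩ := hFo H hH
  have hH' : tl p H ∈ HH := hP.inv p hp H hH
  have hle : N (tl p H) ≤ max r n₀ := le_max_of_le_right (hn₀ ⟨_, hpF, rfl⟩)
  obtain ⟨f, hf1, hf2⟩ := (hN (tl p H) hH').2 (fun x y => φ (p⁻¹ * x) (p⁻¹ * y))
    (a5_coc p (a5_coc_mono hle hc)) (a5_fin p (a5_fin_mono hle hf))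
  refine ⟨fun x => f (p * x), ?_, ?_⟩
  · refine (Set.Finite.preimage (f := fun x : G => p * x)
      (fun a _ b _ hab => mul_left_cancel hab) hf1).subset ?_
    intro x hx
    exact hx
  · intro x hx y hy hxy
    have h1 : p * x ∈ tl p H := by
      show p⁻¹ * (p * x) ∈ H
      rwa [inv_mul_cancel_left]
    have h2 : p * y ∈ tl p H := by
      show p⁻¹ * (p * y) ∈ H
      rwa [inv_mul_cancel_left]
    have h3 := hf2 (p * x) h1 (p * y) h2 (by rwa [wdist_mul_left])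
    simp only [inv_mul_cancel_left] at h3
    exact h3

end Pool.Agent.QD
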