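import Pool.Agent.QD.Stm

/-!
# Project QD (MP_bbdce3_al), row A6: primitives on a strip
-/

set_option autoImplicit false
set_option linter.unusedSectionVars false

namespace Pool.Agent.QD

open Pool.Agent.QIS

section A6
variable {G : Type} [Group G] {S : Set G}

theorem qa6_zinj {c : G} (hc : ∀ n : ℕ, 0 < n → c ^ n ≠ 1) {i j : ℤ} (hij : c ^ i = c ^ j) :
    i = j := by
  by_contra hne
  rcases lt_or_gt_of_ne hne with h | h
  · obtain ⟨n, hn⟩ := Int.eq_ofNat_of_zero_le (by omega : 0 ≤ j - i)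
    refine hc n (by omega) ?_
    rw [← zpow_natCast, ← hn, zpow_sub, hij, mul_inv_cancel]
  · obtain ⟨n, hn⟩ := Int.eq_ofNat_of_zero_le (by omega : 0 ≤ i - j)
    refine hc n (by omega) ?_
    rw [← zpow_natCast, ← hn, zpow_sub, hij, mul_inv_cancel]

theorem qa6_inv {c : G} {s : ℕ} {H : Set G} (hH : HS S H c) {x : G} (hx : x ∈ Strip S s H) :
    c * x ∈ Strip S s H := by
  obtain ⟨h1, y, hy, hd⟩ := hx
  exact ⟨(hH.inv x).2 h1, c * y, fun h => hy ((hH.inv y).1 h), by rwa [wdist_mul_left]⟩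

theorem qa6_inv' {c : G} {s : ℕ} {H : Set G} (hH : HS S H c) {x : G} (hx : x ∈ Strip S s H) :
    c⁻¹ * x ∈ Strip S s H := by
  obtain ⟨h1, y, hy, hd⟩ := hx
  refine ⟨(hH.inv (c⁻¹ * x)).1 (by rwa [mul_inv_cancel_left]), c⁻¹ * y, fun h => hy ?_,
    by rwa [wdist_mul_left]⟩
  have h2 := (hH.inv (c⁻¹ * y)).2 h
  rwa [mul_inv_cancel_left] at h2

theorem qa6_zpow {c : G} {s : ℕ} {H : Set G} (hH : HS S H c) {x : G} (hx : x ∈ Strip S s H)
    (i : ℤ) : c ^ i * x ∈ Strip S s H := by
  induction i using Int.induction_on with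
  | zero => simpa using hx
  | succ i ih =>
    have h := qa6_inv hH ih
    rwa [← mul_assoc, ← zpow_one_add, add_comm] at h
  | pred i ih =>
    have h := qa6_inv' hH ih
    rw [← mul_assoc] at h
    have e : c⁻¹ * c ^ (-(i : ℤ)) = c ^ (-(i : ℤ) - 1) := by
      rw [← zpow_neg_one, ← zpow_add]
      congr 1
      ring
    rwa [e] at h

theorem qa6_line (hS : S.Finite) (hSg : Subgroup.closure S = ⊤) {H : Set G} {c : G}
    (hH : HS S H c) (s r : ℕ) :
    ∃ m B : ℕ, (∀ y ∈ Strip S s H, wdist S y (c * y) ≤ m) ∧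
      (∀ y ∈ Strip S s H, ∀ x ∈ Strip S s H, ∃ i : ℤ, wdist S (c ^ i * y) x ≤ m) ∧
      ∀ y ∈ Strip S s H, ∀ i : ℤ, wdist S y (c ^ i * y) ≤ 2 * m + r → |i| ≤ (B : ℤ) := by
  obtain ⟨F, hF, hF2⟩ := hH.bd s
  have hst : ∀ x ∈ Strip S s H, ∃ i : ℤ, c ^ i * x ∈ F := by
    rintro x ⟨h1, y, hy, hd⟩
    exact hF2 x y hd h1 hy
  obtain ⟨m1, hm1⟩ := ((hF.prod hF).image (fun p : G × G => wdist S p.1 p.2)).bddAbove
  obtain ⟨m2, hm2⟩ := (hF.image (fun f : G => wdist S f (c * f))).bddAbove
  have hm1' : ∀ f ∈ F, ∀ f' ∈ F, wdist S f f' ≤ m1 := by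
    intro f hf f' hf'
    exact hm1 ⟨(f, f'), ⟨hf, hf'⟩, rfl⟩
  have hm2' : ∀ f ∈ F, wdist S f (c * f) ≤ m2 := by
    intro f hf
    exact hm2 ⟨f, hf, rfl⟩
  have hfin : (⋃ f ∈ F, {i : ℤ | wdist S f (c ^ i * f) ≤ 2 * max m1 m2 + r}).Finite := by
    refine hF.biUnion fun f _ => ?_
    refine ((ball_finite hS hSg f (2 * max m1 m2 + r)).preimage
      (f := fun i : ℤ => c ^ i * f) ?_).subset ?_
    · intro i _ j _ hij
      exact qa6_zinj hH.ord (mul_right_cancel hij)
    · intro i hi
      exact hi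
  obtain ⟨B, hB⟩ := (hfin.image (fun i : ℤ => i.natAbs)).bddAbove
  have htr : ∀ (y : G) (b : ℤ) (i : ℤ),
      wdist S (c ^ b * y) (c ^ i * (c ^ b * y)) = wdist S y (c ^ i * y) := by
    intro y b i
    have e : c ^ i * (c ^ b * y) = c ^ b * (c ^ i * y) := by
      rw [← mul_assoc, ← mul_assoc, ← zpow_add, ← zpow_add, add_comm]
    rw [e, wdist_mul_left]
  refine ⟨max m1 m2, B, ?_, ?_, ?_⟩
  · intro y hy
    obtain ⟨b, hb⟩ := hst y hy
    have h1 := hm2' _ hb
    have h2 := htr y b 1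
    rw [zpow_one] at h2
    rw [h2] at h1
    exact h1.trans (le_max_right _ _)
  · intro y hy x hx
    obtain ⟨b, hb⟩ := hst y hy
    obtain ⟨a, ha⟩ := hst x hx
    refine ⟨b - a, ?_⟩
    have e1 : c ^ (-a) * (c ^ b * y) = c ^ (b - a) * y := by
      rw [← mul_assoc, ← zpow_add]
      congr 2
      ring
    have e2 : c ^ (-a) * (c ^ a * x) = x := by
      rw [← mul_assoc, ← zpow_add, neg_add_cancel, zpow_zero, one_mul]
    have h := wdist_mul_left (S := S) (c ^ (-a)) (c ^ b * y) (c ^ a * x)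
    rw [e1, e2] at h
    rw [h]
    exact (hm1' _ hb _ ha).trans (le_max_left _ _)
  · intro y hy i hi
    obtain ⟨b, hb⟩ := hst y hy
    rw [← htr y b i] at hi
    have h : i.natAbs ≤ B := hB ⟨i, Set.mem_biUnion hb hi, rfl⟩
    rw [Int.abs_eq_natAbs]
    exact_mod_cast h

theorem qa6_prim {k : Type} [Field k] (u : ℤ → k) (hu : {i | u i ≠ 0}.Finite)
    (h0 : ∑ᶠ i, u i = 0) : ∃ A : ℤ → k, (∀ i, A (i + 1) = A i + u i) ∧
      (Function.support A).Finite := by
  classical
  have hsum : ∑ i ∈ hu.toFinset, u i = 0 := by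
    refine Eq.trans (finsum_eq_sum_of_support_subset u ?_).symm h0
    intro i hi
    exact hu.mem_toFinset.2 hi
  refine ⟨fun i => ∑ j ∈ hu.toFinset, if j < i then u j else 0, ?_, ?_⟩
  · intro i
    have h1 : ∀ j ∈ hu.toFinset, (if j < i + 1 then u j else 0) =
        (if j < i then u j else 0) + if j = i then u j else 0 := by
      intro j _
      by_cases h : j < i
      · rw [if_pos h, if_pos (by omega), if_neg (by omega), add_zero]
      · by_cases h2 : j = i
        · rw [if_neg h, if_pos (by omega), if_pos h2, zero_add]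
        · rw [if_neg h, if_neg (by omega), if_neg h2, zero_add]
    show ∑ j ∈ hu.toFinset, (if j < i + 1 then u j else 0) = _
    rw [Finset.sum_congr rfl h1, Finset.sum_add_distrib]
    congr 1
    rw [Finset.sum_ite_eq']
    by_cases h : i ∈ hu.toFinset
    · rw [if_pos h]
    · rw [if_neg h]
      by_contra h3
      exact h (hu.mem_toFinset.2 fun h4 => h3 h4.symm)
  · obtain ⟨N, hN⟩ := (hu.image (fun i : ℤ => i.natAbs)).bddAbove
    have hN' : ∀ j ∈ hu.toFinset, j.natAbs ≤ N := by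
      intro j hj
      exact hN ⟨j, hu.mem_toFinset.1 hj, rfl⟩
    refine (Set.finite_Icc (-(N : ℤ)) N).subset ?_
    intro i hi
    by_contra hcon
    refine hi ?_
    rw [Set.mem_Icc, not_and_or, not_le, not_le] at hcon
    show ∑ j ∈ hu.toFinset, (if j < i then u j else 0) = 0
    rcases hcon with h | h
    · refine Finset.sum_eq_zero fun j hj => ?_
      have := hN' j hj
      rw [if_neg (by omega)]
    · refine Eq.trans (Finset.sum_congr rfl fun j hj => ?_) hsum
      have := hN' j hj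
      rw [if_pos (by omega)]

theorem qa6_anti {k : Type} [Field k] {Y : Set G} {n : ℕ} {ψ : G → G → k}
    (hSg : Subgroup.closure S = ⊤) (hψ : Coc S Y n ψ) {x y : G} (hx : x ∈ Y) (hy : y ∈ Y)
    (h : wdist S x y ≤ n) : ψ y x = - ψ x y := by
  have h1 := hψ x hx x hx x hx (by rw [wdist_self]; omega) (by rw [wdist_self]; omega)
    (by rw [wdist_self]; omega)
  have h2 := hψ x hx y hy x hx h (by rw [wdist_comm hSg]; exact h) (by rw [wdist_self]; omega)
  have h3 : ψ x x = 0 := by simpa using h1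
  rw [h3] at h2
  exact eq_neg_of_add_eq_zero_right h2

theorem qa6_diag {k : Type} [Field k] {Y : Set G} {n : ℕ} {ψ : G → G → k}
    (hψ : Coc S Y n ψ) {x : G} (hx : x ∈ Y) : ψ x x = 0 := by
  have h1 := hψ x hx x hx x hx (by rw [wdist_self]; omega) (by rw [wdist_self]; omega)
    (by rw [wdist_self]; omega)
  simpa using h1

/-- A6: primitives on a strip -/
theorem sa6 : SA6 := by
  intro G _ S hS hSg k _ H c hH s r
  classical
  obtain ⟨m, B, h1, h2, h3⟩ := qa6_line hS hSg hH s r
  refine ⟨m * (B + 2) + 2 * m + r, by omega, ?_⟩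
  intro n hn ψ hψ hfin y hy _ hJ
  have hmB : ∀ d : ℕ, d ≤ B + 2 → m * d ≤ m * (B + 2) := fun d hd => Nat.mul_le_mul_left m hd
  have hm1 := hmB 1 (by omega)
  rw [mul_one] at hm1
  have hL : ∀ i : ℤ, c ^ i * y ∈ Strip S s H := fun i => qa6_zpow hH hy i
  have hLs : ∀ i : ℤ, wdist S (c ^ i * y) (c ^ (i + 1) * y) ≤ m := by
    intro i
    rw [zpow_add_one, mul_assoc, wdist_mul_left]
    exact h1 y hy
  have hLd : ∀ (i : ℤ) (d : ℕ), wdist S (c ^ i * y) (c ^ (i + d) * y) ≤ m * d := by
    intro i d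
    induction d with
    | zero => simp [wdist_self]
    | succ d ih =>
      have h4 := wdist_triangle hSg (c ^ i * y) (c ^ (i + d) * y) (c ^ (i + (d + 1 : ℕ)) * y)
      have h5 := hLs (i + d)
      have e : i + ((d + 1 : ℕ) : ℤ) = i + d + 1 := by push_cast; ring
      rw [e] at h4 ⊢
      rw [Nat.mul_succ]
      omega
  have hufin : {i : ℤ | ψ (c ^ i * y) (c ^ (i + 1) * y) ≠ 0}.Finite := by
    refine (hfin.preimage (f := fun i : ℤ => (c ^ i * y, c ^ (i + 1) * y)) ?_).subset ?_
    · intro i _ j _ hij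
      exact qa6_zinj hH.ord (mul_right_cancel (congrArg Prod.fst hij))
    · intro i hi
      exact ⟨hL i, hL (i + 1), (hLs i).trans (by omega), hi⟩
  obtain ⟨A, hA, hAf⟩ := qa6_prim (fun i : ℤ => ψ (c ^ i * y) (c ^ (i + 1) * y)) hufin hJ
  have hAd : ∀ (i : ℤ) (d : ℕ), d ≤ B → ψ (c ^ i * y) (c ^ (i + d) * y) = A (i + d) - A i := by
    intro i d
    induction d with
    | zero =>
      intro _
      simp only [Nat.cast_zero, add_zero, sub_self]
      exact qa6_diag hψ (hL i)
    | succ d ih =>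
      intro hd
      have e : i + ((d + 1 : ℕ) : ℤ) = i + d + 1 := by push_cast; ring
      have h4 := hψ _ (hL i) _ (hL (i + d)) _ (hL (i + d + 1))
        ((hLd i d).trans (by have := hmB d (by omega); omega)) ((hLs (i + d)).trans (by omega))
        (by
          have h5 := hLd i (d + 1)
          rw [e] at h5
          have := hmB (d + 1) (by omega)
          omega)
      rw [e, ← h4, ih (by omega), hA (i + d)]
      ring
  have hAB : ∀ i j : ℤ, |j - i| ≤ (B : ℤ) → ψ (c ^ i * y) (c ^ j * y) = A j - A i := by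
    intro i j hij
    rw [abs_le] at hij
    rcases le_total i j with h | h
    · obtain ⟨d, hd⟩ := Int.eq_ofNat_of_zero_le (by omega : 0 ≤ j - i)
      have e : j = i + d := by omega
      rw [e]
      exact hAd i d (by omega)
    · obtain ⟨d, hd⟩ := Int.eq_ofNat_of_zero_le (by omega : 0 ≤ i - j)
      have e : i = j + d := by omega
      have h4 := hAd j d (by omega)
      have h5 := qa6_anti hSg hψ (hL j) (hL (j + d))
        ((hLd j d).trans (by have := hmB d (by omega); omega))
      rw [e, h5, h4]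
      ring
  choose! I hI using h2 y hy
  refine ⟨fun x => if x ∈ Strip S s H then A (I x) + ψ (c ^ I x * y) x else 0, ?_, ?_, ?_⟩
  · have hb : (⋃ i ∈ Function.support A, {x | wdist S (c ^ i * y) x ≤ m}).Finite :=
      hAf.biUnion fun i _ => ball_finite hS hSg _ m
    refine ((hfin.image Prod.snd).union hb).subset ?_
    intro x hx
    rw [Function.mem_support] at hx
    by_cases hxs : x ∈ Strip S s H
    · rw [if_pos hxs] at hx
      by_cases h4 : A (I x) = 0
      · left
        rw [h4, zero_add] at hx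
        exact ⟨(c ^ I x * y, x), ⟨hL _, hxs, (hI x hxs).trans (by omega), hx⟩, rfl⟩
      · right
        exact Set.mem_biUnion (Function.mem_support.2 h4) (hI x hxs)
    · rw [if_neg hxs] at hx
      exact absurd rfl hx
  · intro x hx z hz hxz
    simp only [if_pos hx, if_pos hz]
    have d1 := hI x hx
    have d2 := hI z hz
    have d3 := wdist_triangle hSg (c ^ I x * y) x z
    have d4 := wdist_triangle hSg (c ^ I x * y) z (c ^ I z * y)
    have d5 : wdist S z (c ^ I z * y) ≤ m := by rw [wdist_comm hSg]; exact d2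
    have d6 : wdist S (c ^ I x * y) (c ^ I z * y) = wdist S y (c ^ (I z - I x) * y) := by
      have e : c ^ I z * y = c ^ I x * (c ^ (I z - I x) * y) := by
        rw [← mul_assoc, ← zpow_add]
        congr 2
        ring
      rw [e, wdist_mul_left]
    have d7 : |I z - I x| ≤ (B : ℤ) := h3 y hy _ (by omega)
    have e1 := hAB _ _ d7
    have d8 : wdist S x (c ^ I x * y) ≤ m := by rw [wdist_comm hSg]; exact d1
    have e2 := hψ x hx _ (hL (I x)) z hz (by omega) (by omega) (by omega)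
    have e3 := hψ _ (hL (I x)) _ (hL (I z)) z hz (by omega) (by omega) (by omega)
    have e4 := qa6_anti hSg hψ (hL (I x)) hx (by omega)
    rw [← e2, ← e3, e4, e1]
    ring
  · intro x hx
    simp only [if_neg hx]

end A6

end Pool.Agent.QD
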