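import Pool.Agent.QD.A7a

/-!
# Project QD (MP_bbdce3), A7: the key lemma

The defect of a half of a wall is not the defect of a finite cochain.
-/

set_option autoImplicit false

namespace Pool.Agent.QD

open Pool.Agent.QIS

section

variable {G : Type} [Group G] {S : Set G} {κ Dd M' : ℕ → ℕ} {w : Mk G} {k : Type} [Field k]

/-- `m` is a finite cochain with defect `θ` -/
def a7Fl (S : Set G) (k : Type) [Field k] (n : ℕ) (θ : G × G × G → k) (m : G → G → k) : Prop :=
  FinC S Set.univ n m ∧ ∀ x y z, wdist S x y ≤ n → wdist S y z ≤ n → wdist S x z ≤ n →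
    m x y + m y z - m x z = θ (x, y, z)

open Classical in
/-- the type of the defect at time `t` -/
noncomputable def a7Ty (S : Set G) (k : Type) [Field k] (w : Mk G) (n : ℕ) (t : ℤ) :
    G × G × G → k := fun p =>
  if wdist S p.1 p.2.1 ≤ n ∧ wdist S p.2.1 p.2.2 ≤ n ∧ wdist S p.1 p.2.2 ≤ n then
    dd k w t (w.L t * p.1) (w.L t * p.2.1) (w.L t * p.2.2) else 0

/-- finitely many types -/
theorem a7_types (hS : S.Finite) (hSg : Subgroup.closure S = ⊤) (hw : IsWall S κ Dd M' w) (n : ℕ) :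
    {θ : G × G × G → k | ∃ t, θ = a7Ty S k w n t}.Finite := by
  classical
  set B : Set G := {x | wdist S 1 x ≤ a7_rho κ Dd n + 2 * n} with hB
  have hBf : B.Finite := ball_finite hS hSg 1 _
  refine (a7_finfun (hBf.prod (hBf.prod hBf)) (V := ({0, 1, -1} : Set k))
    (by simp) 0).subset ?_
  rintro θ ⟨t, rfl⟩
  refine ⟨fun p hp => ?_, fun p _ => ?_⟩
  · unfold a7Ty
    split_ifs with h
    · by_contra h0
      apply hp
      obtain ⟨x, y, z⟩ := p
      obtain ⟨h1, h2, h3⟩ := h
      have h1' : wdist S x y ≤ n := h1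
      have h2' : wdist S y z ≤ n := h2
      have h3' : wdist S x z ≤ n := h3
      have h4 := a7_dd hSg hw (n := n) (by rw [wdist_mul_left]; exact h1')
        (by rw [wdist_mul_left]; exact h2') h0
      have h5 : wdist S 1 x ≤ a7_rho κ Dd n := by
        rw [← wdist_mul_left (w.L t), mul_one]
        exact h4
      have h6 := wdist_triangle hSg 1 x y
      have h7 := wdist_triangle hSg 1 x z
      refine ⟨?_, ?_, ?_⟩
      · show wdist S 1 x ≤ _
        omega
      · show wdist S 1 y ≤ _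
        omega
      · show wdist S 1 z ≤ _
        omega
    · rfl
  · unfold a7Ty
    split_ifs
    · exact a7_val _ _ _ _
    · simp

/-- a finite cochain with the given defect, if there is one -/
theorem a7_choose (n : ℕ) : ∃ mm : (G × G × G → k) → G → G → k,
    (∀ θ, FinC S Set.univ n (mm θ)) ∧ ∀ θ, (∃ m, a7Fl S k n θ m) → a7Fl S k n θ (mm θ) := by
  classical
  have h : ∀ θ : G × G × G → k, ∃ m : G → G → k, FinC S Set.univ n m ∧
      ((∃ m, a7Fl S k n θ m) → a7Fl S k n θ m) := by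
    intro θ
    by_cases h : ∃ m, a7Fl S k n θ m
    · obtain ⟨m, hm⟩ := h
      exact ⟨m, hm.1, fun _ => hm⟩
    · refine ⟨fun _ _ => 0, ?_, fun h' => absurd h' h⟩
      unfold FinC
      simp
  choose mm h1 h2 using h
  exact ⟨mm, h1, h2⟩

/-- the cochain at later times -/
theorem a7_move (hS : S.Finite) (hSg : Subgroup.closure S = ⊤) (hw : IsWall S κ Dd M' w) {n : ℕ}
    {t : ℤ} {ψ : G → G → k} (hψf : FinC S Set.univ n ψ)
    (hψ : ∀ x y z, wdist S x y ≤ n → wdist S y z ≤ n → wdist S x z ≤ n →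
      ψ x y + ψ y z - ψ x z = dd k w t x y z) {τ : ℤ} (hτ : t ≤ τ) :
    a7Fl S k n (a7Ty S k w n τ)
      (fun x y => ψ (w.L τ * x) (w.L τ * y) + arc k w t τ (w.L τ * x) (w.L τ * y)) := by
  classical
  constructor
  · have h1 := a7_fin (k := k) hS hSg hw n hτ
    have h2 := hψf.union h1
    refine (h2.preimage (f := fun p : G × G => (w.L τ * p.1, w.L τ * p.2))
      (fun p _ q _ h => ?_)).subset ?_
    · have e1 := congrArg Prod.fst h
      have e2 := congrArg Prod.snd h
      exact Prod.ext (mul_left_cancel e1) (mul_left_cancel e2)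
    · rintro ⟨x, y⟩ ⟨_, _, hxy, h⟩
      have h' : ψ (w.L τ * x) (w.L τ * y) + arc k w t τ (w.L τ * x) (w.L τ * y) ≠ 0 := h
      have hd : wdist S (w.L τ * x) (w.L τ * y) ≤ n := by
        rw [wdist_mul_left]
        exact hxy
      by_cases h0 : ψ (w.L τ * x) (w.L τ * y) = 0
      · rw [h0, zero_add] at h'
        exact Or.inr ⟨Set.mem_univ _, Set.mem_univ _, hd, h'⟩
      · exact Or.inl ⟨Set.mem_univ _, Set.mem_univ _, hd, h0⟩
  · intro x y z hxy hyz hxz
    have h1 := hψ (w.L τ * x) (w.L τ * y) (w.L τ * z) (by rw [wdist_mul_left]; exact hxy)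
      (by rw [wdist_mul_left]; exact hyz) (by rw [wdist_mul_left]; exact hxz)
    have h2 := a7_arc_dd (k := k) (w := w) t τ (w.L τ * x) (w.L τ * y) (w.L τ * z)
    unfold a7Ty
    rw [if_pos ⟨hxy, hyz, hxz⟩]
    linear_combination h1 + h2

theorem a7_bdd {Z : Set G} (hZ : Z.Finite) : ∃ M, ∀ z ∈ Z, wdist S 1 z ≤ M := by
  obtain ⟨M, hM⟩ := (hZ.image (fun z => wdist S 1 z)).bddAbove
  exact ⟨M, fun z hz => hM ⟨z, hz, rfl⟩⟩

/-- late points of the line are far from a finite set -/
theorem a7_late (hSg : Subgroup.closure S = ⊤) (hw : IsWall S κ Dd M' w) {Z : Set G}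
    (hZ : Z.Finite) (ρ : ℕ) : ∃ t0 : ℤ, ∀ i, t0 ≤ i → ∀ z ∈ Z, ρ < wdist S z (w.L i) := by
  have key : ∀ z : G, ∃ t0 : ℤ, ∀ i, t0 ≤ i → ρ < wdist S z (w.L i) := by
    intro z
    by_cases h : ∃ j, wdist S z (w.L j) ≤ ρ
    · obtain ⟨j, hj⟩ := h
      refine ⟨j + Dd (2 * ρ) + 1, fun i hi => ?_⟩
      by_contra h1
      have h2 := a7_close hSg hw (x := z) (y := z) (i := i) (j := j) (a := 2 * ρ)
        (by rw [wdist_self]; omega)
      rw [abs_le] at h2
      omega
    · exact ⟨0, fun i _ => by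
        by_contra h1
        exact h ⟨i, by omega⟩⟩
  choose t1 ht1 using key
  obtain ⟨M, hM⟩ := (hZ.image t1).bddAbove
  exact ⟨M, fun i hi z hz => ht1 z i ((hM ⟨z, hz, rfl⟩).trans hi)⟩

end

theorem sa7 : SA7 := by
  classical
  intro G _ S hS hSg hone k _ hPFS
  obtain ⟨n, hn1, hprim⟩ := hPFS 1
  refine ⟨n, fun κ Dd M' w hw t => ?_⟩
  rintro ⟨ψ, hψf, hψ⟩
  obtain ⟨mm, hmf, hm⟩ := a7_choose (S := S) (k := k) n
  have hall : ∀ τ, t ≤ τ → a7Fl S k n (a7Ty S k w n τ) (mm (a7Ty S k w n τ)) := fun τ hτ =>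
    hm _ ⟨_, a7_move hS hSg hw hψf hψ hτ⟩
  -- a uniform bound for the supports of the chosen cochains
  have hM0 : ∃ M0 : ℕ, ∀ τ x y, wdist S x y ≤ n → mm (a7Ty S k w n τ) x y ≠ 0 →
      wdist S 1 x ≤ M0 := by
    have h1 : (⋃ θ ∈ {θ : G × G × G → k | ∃ t, θ = a7Ty S k w n t},
        {p : G × G | p.1 ∈ (Set.univ : Set G) ∧ p.2 ∈ (Set.univ : Set G) ∧ wdist S p.1 p.2 ≤ n ∧
          mm θ p.1 p.2 ≠ 0}).Finite :=
      (a7_types hS hSg hw n).biUnion fun θ _ => hmf θ
    obtain ⟨M, hM⟩ := a7_bdd (S := S) (h1.image Prod.fst)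
    refine ⟨M, fun τ x y hxy h => hM x ⟨(x, y), ?_, rfl⟩⟩
    exact Set.mem_biUnion (x := a7Ty S k w n τ) ⟨τ, rfl⟩
      ⟨Set.mem_univ _, Set.mem_univ _, hxy, h⟩
  obtain ⟨M0, hM0⟩ := hM0
  -- the primitives
  have hP : ∀ m : ℕ, ∃ P : G → k, (Function.support P).Finite ∧ ∀ x y, wdist S x y ≤ 1 →
      ψ x y + arc k w t (t + m) x y - mm (a7Ty S k w n (t + m)) ((w.L (t + m))⁻¹ * x)
        ((w.L (t + m))⁻¹ * y) = P y - P x := by
    intro m
    have hτ : t ≤ t + (m : ℤ) := by omega
    set τ : ℤ := t + m with hτdef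
    set g := w.L τ with hg
    have h1 := hall τ hτ
    have h2 := a7_move hS hSg hw hψf hψ hτ
    rw [← hg] at h2
    obtain ⟨f, hf1, hf2⟩ := hprim (fun x y => ψ x y + arc k w t τ x y -
      mm (a7Ty S k w n τ) (g⁻¹ * x) (g⁻¹ * y)) (by
        intro x _ y _ z _ hxy hyz hxz
        have e1 : ∀ a b, wdist S a b ≤ n → wdist S (g⁻¹ * a) (g⁻¹ * b) ≤ n := fun a b h => by
          rw [wdist_mul_left]
          exact h
        have h3 := h1.2 _ _ _ (e1 x y hxy) (e1 y z hyz) (e1 x z hxz)
        have h4 := h2.2 _ _ _ (e1 x y hxy) (e1 y z hyz) (e1 x z hxz)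
        simp only [mul_inv_cancel_left] at h4
        linear_combination h4 - h3) (by
        have h3 := hψf.union (a7_fin (k := k) hS hSg hw n hτ)
        have h4 := (h1.1.preimage (f := fun p : G × G => (g⁻¹ * p.1, g⁻¹ * p.2))
          (fun p _ q _ h => by
            have e1 := congrArg Prod.fst h
            have e2 := congrArg Prod.snd h
            exact Prod.ext (mul_left_cancel e1) (mul_left_cancel e2)))
        refine (h3.union h4).subset ?_
        rintro ⟨x, y⟩ ⟨_, _, hxy, h⟩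
        by_cases e1 : ψ x y = 0
        · by_cases e2 : arc k w t τ x y = 0
          · refine Or.inr ⟨Set.mem_univ _, Set.mem_univ _, ?_, ?_⟩
            · show wdist S (g⁻¹ * x) (g⁻¹ * y) ≤ n
              rw [wdist_mul_left]
              exact hxy
            · intro e3
              apply h
              show ψ x y + arc k w t τ x y - mm (a7Ty S k w n τ) (g⁻¹ * x) (g⁻¹ * y) = 0
              have e3' : mm (a7Ty S k w n τ) (g⁻¹ * x) (g⁻¹ * y) = 0 := e3
              rw [e1, e2, e3', add_zero, sub_zero]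
          · exact Or.inl (Or.inr ⟨Set.mem_univ _, Set.mem_univ _, hxy, e2⟩)
        · exact Or.inl (Or.inl ⟨Set.mem_univ _, Set.mem_univ _, hxy, e1⟩))
    exact ⟨f, hf1, fun x y hxy => hf2 x (Set.mem_univ _) y (Set.mem_univ _) hxy⟩
  choose P hPf hPd using hP
  -- consecutive primitives differ near the line only
  set M1 : ℕ := M0 + κ 0 + (κ n + n) + 1 with hM1
  have hdiff : ∀ (m : ℕ) (x y : G), wdist S x y ≤ 1 → M1 < wdist S (w.L (t + m)) x →
      P (m + 1) y - P m y = P (m + 1) x - P m x := by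
    intro m x y hxy hx
    have e1 := hPd (m + 1) x y hxy
    have e2 := hPd m x y hxy
    have hxyn : wdist S x y ≤ n := hxy.trans hn1
    have e3 : arc k w t (t + ((m + 1 : ℕ) : ℤ)) x y = arc k w t (t + m) x y := by
      by_contra h
      have h0 : arc k w (t + m) (t + ((m + 1 : ℕ) : ℤ)) x y ≠ 0 := by
        intro h1
        apply h
        unfold arc at h1 ⊢
        linear_combination h1
      obtain ⟨h1, h2, h3⟩ := a7_arc hSg hw (by push_cast; omega) hxyn h0
      have h4 : w.T x = t + m + 1 := by push_cast at h3; omega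
      rw [h4] at h1
      have h5 := hw.step (t + m)
      have h6 := wdist_triangle hSg (w.L (t + m)) (w.L (t + m + 1)) x
      rw [wdist_comm hSg x] at h1
      omega
    have e4 : mm (a7Ty S k w n (t + m)) ((w.L (t + m))⁻¹ * x) ((w.L (t + m))⁻¹ * y) = 0 := by
      by_contra h
      have h1 := hM0 (t + m) _ _ (by rw [wdist_mul_left]; exact hxyn) h
      rw [← wdist_mul_left (w.L (t + m)), mul_one, mul_inv_cancel_left] at h1
      omega
    have e5 : mm (a7Ty S k w n (t + ((m + 1 : ℕ) : ℤ))) ((w.L (t + ((m + 1 : ℕ) : ℤ)))⁻¹ * x)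
        ((w.L (t + ((m + 1 : ℕ) : ℤ)))⁻¹ * y) = 0 := by
      by_contra h
      have h1 := hM0 (t + ((m + 1 : ℕ) : ℤ)) _ _ (by rw [wdist_mul_left]; exact hxyn) h
      rw [← wdist_mul_left (w.L (t + ((m + 1 : ℕ) : ℤ))), mul_one, mul_inv_cancel_left] at h1
      have h5 := hw.step (t + m)
      have h6 := wdist_triangle hSg (w.L (t + m)) (w.L (t + m + 1)) x
      have h7 : t + ((m + 1 : ℕ) : ℤ) = t + m + 1 := by push_cast; ring
      rw [h7] at h1
      omega
    rw [e3, e5] at e1
    rw [e4] at e2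
    linear_combination e2 - e1
  -- one end
  obtain ⟨Einf, E, hE, hEj⟩ : Infinite G ∧ ∃ E : Set G, E.Finite ∧ ∀ x, x ∉ E → ∀ y, y ∉ E →
      JoinedOff S {x | wdist S 1 x ≤ M1} x y := by
    obtain ⟨h1, h2⟩ := hone
    obtain ⟨E, h3, h4⟩ := h2 {x | wdist S 1 x ≤ M1} (ball_finite hS hSg 1 M1)
    exact ⟨h1, E, h3, h4⟩
  obtain ⟨M2, hM2⟩ := a7_bdd (S := S) hE
  have hzero : ∀ (m : ℕ) (x : G), M2 < wdist S (w.L (t + m)) x → P (m + 1) x - P m x = 0 := by
    intro m x hx
    set g := w.L (t + m) with hg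
    have hx' : g⁻¹ * x ∉ E := by
      intro h
      have h1 := hM2 _ h
      rw [← wdist_mul_left g, mul_one, mul_inv_cancel_left] at h1
      omega
    have hfin : (E ∪ (fun u => g⁻¹ * u) '' (Function.support (P m) ∪
        Function.support (P (m + 1)))).Finite :=
      hE.union (((hPf m).union (hPf (m + 1))).image _)
    obtain ⟨v, hv⟩ := hfin.exists_notMem
    have hvE : v ∉ E := fun h => hv (Or.inl h)
    have hv1 : P m (g * v) = 0 := by
      by_contra h
      exact hv (Or.inr ⟨g * v, Or.inl h, inv_mul_cancel_left g v⟩)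
    have hv2 : P (m + 1) (g * v) = 0 := by
      by_contra h
      exact hv (Or.inr ⟨g * v, Or.inr h, inv_mul_cancel_left g v⟩)
    have hj := hEj _ hx' v hvE
    have key : ∀ v', JoinedOff S {x | wdist S 1 x ≤ M1} (g⁻¹ * x) v' →
        P (m + 1) (g * v') - P m (g * v') = P (m + 1) x - P m x := by
      intro v' h
      unfold JoinedOff at h
      induction h with
      | refl => rw [mul_inv_cancel_left]
      | @tail b c _ hr ih =>
        obtain ⟨⟨s, hs, hsc⟩, hb, hc⟩ := hr
        rw [← ih]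
        have hd : wdist S b c ≤ 1 := by
          rcases hsc with h | h
          · rw [h]
            exact wdist_gen hs b
          · rw [h, wdist_comm hSg]
            exact wdist_gen hs c
        refine hdiff m (g * b) (g * c) (by rw [wdist_mul_left]; exact hd) ?_
        rw [← hg]
        have h1 : ¬ wdist S 1 b ≤ M1 := hb
        have h2 : wdist S g (g * b) = wdist S 1 b := by
          conv_lhs => rw [← mul_one g, mul_assoc, one_mul]
          exact wdist_mul_left g 1 b
        omega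
    have h1 := key v hj
    rw [hv1, hv2] at h1
    rw [← h1]
    exact sub_zero 0
  have hzero' : ∀ (m : ℕ) (x : G), P 0 x = 0 → (∀ i, M2 < wdist S (w.L i) x) → P m x = 0 := by
    intro m x h0 hx
    induction m with
    | zero => exact h0
    | succ m ih =>
      have h1 := hzero m x (hx _)
      rw [ih, sub_zero] at h1
      exact h1
  -- a deep pair near a late point of the line
  set R : ℕ := M' M2 with hR
  have hZf : (Function.support (P 0) ∪ Prod.fst '' {p : G × G | p.1 ∈ (Set.univ : Set G) ∧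
      p.2 ∈ (Set.univ : Set G) ∧ wdist S p.1 p.2 ≤ n ∧ ψ p.1 p.2 ≠ 0}).Finite :=
    (hPf 0).union (hψf.image _)
  obtain ⟨t0, ht0⟩ := a7_late hSg hw hZf (3 * R)
  set D1 : ℕ := Dd (3 * R + (κ n + n)) with hD1
  set D2 : ℕ := Dd (3 * R + M0) with hD2
  set i1 : ℤ := max t0 (t + D1 + 1) with hi1
  obtain ⟨u, hu, v, hv, hud, hvd, huv⟩ := hw.deep M2 i1
  obtain ⟨m, hm⟩ : ∃ m : ℕ, t + (m : ℤ) = i1 + D1 + D2 + 1 :=
    ⟨(i1 + D1 + D2 + 1 - t).toNat, by omega⟩
  have hnear : ∀ x, wdist S u x ≤ 2 * R → wdist S x (w.L i1) ≤ 3 * R := by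
    intro x hx
    have h1 := wdist_triangle hSg x u (w.L i1)
    rw [wdist_comm hSg x u] at h1
    omega
  have hfar : ∀ x, wdist S x (w.L i1) ≤ R → P 0 x = 0 := by
    intro x hx
    by_contra h
    have h1 := ht0 i1 (le_max_left _ _) x (Or.inl h)
    omega
  have huv' : wdist S u v ≤ 2 * R := by
    have h1 := wdist_triangle hSg u (w.L i1) v
    rw [wdist_comm hSg (w.L i1) v] at h1
    omega
  have key := a7_path hSg u (2 * R) (fun x => P m x - ind k w.W x = P m u - ind k w.W u) (by
    intro a b hab ha hb hQ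
    rw [← hQ]
    have h1 := hPd m a b hab
    have habn : wdist S a b ≤ n := hab.trans hn1
    have hna := hnear a ha
    have e1 : ψ a b = 0 := by
      by_contra h
      have h2 := ht0 i1 (le_max_left _ _) a (Or.inr ⟨(a, b),
        ⟨Set.mem_univ _, Set.mem_univ _, habn, h⟩, rfl⟩)
      omega
    have e2 : mm (a7Ty S k w n (t + m)) ((w.L (t + m))⁻¹ * a) ((w.L (t + m))⁻¹ * b) = 0 := by
      by_contra h
      have h2 := hM0 (t + m) _ _ (by rw [wdist_mul_left]; exact habn) h
      rw [← wdist_mul_left (w.L (t + m)), mul_one, mul_inv_cancel_left,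
        wdist_comm hSg] at h2
      have h3 := a7_close hSg hw (x := a) (y := a) (i := i1) (j := t + m) (a := 3 * R + M0)
        (by rw [wdist_self]; omega)
      rw [abs_le, ← hD2] at h3
      omega
    have e3 : arc k w t (t + m) a b = ind k w.W b - ind k w.W a := by
      by_cases h : ind k w.W b - ind k w.W a = 0
      · unfold arc
        rw [h, mul_zero]
      · have h2 := a7_near hSg hw habn h
        have h3 := a7_close hSg hw (x := a) (y := a) (i := i1) (j := w.T a)
          (a := 3 * R + (κ n + n)) (by rw [wdist_self]; omega)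
        rw [abs_le, ← hD1] at h3
        have h4 : t + D1 + 1 ≤ i1 := le_max_right _ _
        unfold arc chi
        rw [if_pos (by omega), if_neg (by omega), sub_zero, one_mul]
    rw [e1, e2, e3] at h1
    linear_combination -h1) rfl v huv'
  have z1 := hzero' m u (hfar u hud) (fun i => by
    have := (huv i).1
    rw [wdist_comm hSg]
    exact this)
  have z2 := hzero' m v (hfar v hvd) (fun i => by
    have := (huv i).2
    rw [wdist_comm hSg]
    exact this)
  have key' : P m v - ind k w.W v = P m u - ind k w.W u := key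
  rw [z1, z2] at key'
  unfold ind at key'
  rw [if_pos hu, if_neg hv] at key'
  simp at key'

end Pool.Agent.QD
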