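import Pool.Agent.QD.Stm

/-!
# Project QD (MP_bbdce3), A7: the key lemma, preparations
-/

set_option autoImplicit false

namespace Pool.Agent.QD

open Pool.Agent.QIS

section

variable {G : Type} [Group G] {S : Set G}

/-- a property that passes to neighbours in a ball holds in the ball -/
theorem a7_path (hSg : Subgroup.closure S = ⊤) (x : G) (R : ℕ) (Q : G → Prop)
    (hQ : ∀ a b, wdist S a b ≤ 1 → wdist S x a ≤ R → wdist S x b ≤ R → Q a → Q b) (hx : Q x)
    (y : G) (hy : wdist S x y ≤ R) : Q y := by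
  have key : ∀ l : List G, (∀ a ∈ l, a ∈ S ∨ a⁻¹ ∈ S) → l.length ≤ R → Q (x * l.prod) := by
    intro l
    induction l using List.reverseRecOn with
    | nil =>
      intro _ _
      rw [List.prod_nil, mul_one]
      exact hx
    | append_singleton l s ih =>
      intro hl hlen
      rw [List.length_append, List.length_singleton] at hlen
      have h1 := ih (fun a ha => hl a (List.mem_append_left _ ha)) (by omega)
      have hs : s ∈ S ∨ s⁻¹ ∈ S := hl s (by simp)
      have hb : ∀ l : List G, (∀ a ∈ l, a ∈ S ∨ a⁻¹ ∈ S) → wdist S x (x * l.prod) ≤ l.length := by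
        intro l hl
        rw [wdist, inv_mul_cancel_left]
        exact q6_wlen_le S l hl rfl
      have e1 : x * (l ++ [s]).prod = x * l.prod * s := by
        rw [List.prod_append, List.prod_singleton, mul_assoc]
      rw [e1]
      refine hQ _ _ (q6_gen hs _) ?_ ?_ h1
      · have := hb l (fun a ha => hl a (List.mem_append_left _ ha))
        omega
      · have := hb (l ++ [s]) hl
        rw [e1, List.length_append, List.length_singleton] at this
        omega
  obtain ⟨l, h1, h2, h3⟩ := q6_exists_word hSg (x⁻¹ * y)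
  have h4 := key l h1 (by rw [h3]; exact hy)
  rwa [h2, mul_inv_cancel_left] at h4

/-- functions with finite support and values in a finite set -/
theorem a7_finfun {X Y : Type} {B : Set X} (hB : B.Finite) {V : Set Y} (hV : V.Finite) (y0 : Y) :
    {f : X → Y | (∀ x, x ∉ B → f x = y0) ∧ ∀ x ∈ B, f x ∈ V}.Finite := by
  have : Finite B := hB
  have h1 : (Set.pi Set.univ fun _ : B => V).Finite := Set.Finite.pi fun _ => hV
  refine Set.Finite.of_finite_image (f := fun (f : X → Y) (b : B) => f b) (h1.subset ?_) ?_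
  · rintro g ⟨f, hf, rfl⟩
    exact fun b _ => hf.2 b b.2
  · intro f hf g hg hfg
    funext x
    by_cases hx : x ∈ B
    · exact congrFun hfg ⟨x, hx⟩
    · rw [hf.1 x hx, hg.1 x hx]

variable {κ Dd M' : ℕ → ℕ} {w : Mk G} {k : Type} [Field k]

theorem a7_near (hSg : Subgroup.closure S = ⊤) (hw : IsWall S κ Dd M' w) {n : ℕ} {x y : G}
    (hxy : wdist S x y ≤ n) (h : ind k w.W y - ind k w.W x ≠ 0) :
    wdist S x (w.L (w.T x)) ≤ κ n + n := by
  classical
  by_cases hx : x ∈ w.W
  · by_cases hy : y ∈ w.W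
    · exfalso
      apply h
      unfold ind
      rw [if_pos hx, if_pos hy, sub_self]
    · obtain ⟨i, hi⟩ := hw.near n x y hxy hx hy
      have h1 := hw.hT x i
      omega
  · by_cases hy : y ∈ w.W
    · obtain ⟨i, hi⟩ := hw.near n y x (by rw [wdist_comm hSg]; exact hxy) hy hx
      have h1 := hw.hT x i
      have h2 := wdist_triangle hSg x y (w.L i)
      omega
    · exfalso
      apply h
      unfold ind
      rw [if_neg hx, if_neg hy, sub_self]

theorem a7_lip (hSg : Subgroup.closure S = ⊤) (hw : IsWall S κ Dd M' w) (i j : ℤ) :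
    wdist S (w.L i) (w.L j) ≤ κ 0 * (i - j).natAbs := by
  have key : ∀ (m : ℕ) (i : ℤ), wdist S (w.L i) (w.L (i + m)) ≤ κ 0 * m := by
    intro m
    induction m with
    | zero =>
      intro i
      rw [Nat.cast_zero, add_zero, wdist_self]
      exact Nat.zero_le _
    | succ m ih =>
      intro i
      have h1 := ih i
      have h2 := hw.step (i + m)
      have h3 := wdist_triangle hSg (w.L i) (w.L (i + m)) (w.L (i + m + 1))
      have e : i + ((m + 1 : ℕ) : ℤ) = i + m + 1 := by push_cast; ring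
      rw [e, Nat.mul_succ]
      omega
  rcases le_total i j with h | h
  · obtain ⟨m, hm⟩ := Int.eq_ofNat_of_zero_le (sub_nonneg.2 h)
    have e : j = i + m := by omega
    have h1 := key m i
    have e2 : (i - j).natAbs = m := by omega
    rw [e2]
    rw [← e] at h1
    exact h1
  · obtain ⟨m, hm⟩ := Int.eq_ofNat_of_zero_le (sub_nonneg.2 h)
    have e : i = j + m := by omega
    have h1 := key m j
    have e2 : (i - j).natAbs = m := by omega
    rw [e2, wdist_comm hSg]
    rw [← e] at h1
    exact h1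

theorem a7_close (hSg : Subgroup.closure S = ⊤) (hw : IsWall S κ Dd M' w) {x y : G} {a : ℕ}
    {i j : ℤ} (h : wdist S x (w.L i) + wdist S x y + wdist S y (w.L j) ≤ a) :
    |i - j| ≤ (Dd a : ℤ) := by
  refine hw.prop a i j ?_
  have h1 := wdist_triangle hSg (w.L i) x (w.L j)
  have h2 := wdist_triangle hSg x y (w.L j)
  rw [wdist_comm hSg (w.L i) x] at h1
  omega

theorem a7_natAbs {i j : ℤ} {a : ℕ} (h : |i - j| ≤ (a : ℤ)) : (i - j).natAbs ≤ a := by
  rw [Int.abs_eq_natAbs] at h
  exact_mod_cast h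

/-- the radius of the defect -/
def a7_rho (κ Dd : ℕ → ℕ) (n : ℕ) : ℕ := κ n + 2 * n + κ 0 * Dd (2 * κ n + 4 * n)

/-- the defect is supported near the point of the line -/
theorem a7_dd (hSg : Subgroup.closure S = ⊤) (hw : IsWall S κ Dd M' w) {n : ℕ} {t : ℤ}
    {x y z : G} (hxy : wdist S x y ≤ n) (hyz : wdist S y z ≤ n) (h : dd k w t x y z ≠ 0) :
    wdist S (w.L t) x ≤ a7_rho κ Dd n := by
  classical
  unfold dd at h
  have h1 := a7_near hSg hw hyz (right_ne_zero_of_mul h)
  have h2 := left_ne_zero_of_mul h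
  have h3 := hw.hT x (w.T y)
  have h4 := wdist_triangle hSg x y (w.L (w.T y))
  have h5 : |w.T x - w.T y| ≤ (Dd (2 * κ n + 4 * n) : ℤ) := a7_close hSg hw (x := x) (y := y)
    (by omega)
  have h6 : |w.T x - t| ≤ (Dd (2 * κ n + 4 * n) : ℤ) := by
    rw [abs_le] at h5 ⊢
    unfold chi at h2
    by_cases e1 : w.T y ≤ t
    · by_cases e2 : w.T x ≤ t
      · rw [if_pos e1, if_pos e2, sub_self] at h2
        exact absurd rfl h2
      · omega
    · by_cases e2 : w.T x ≤ t
      · omega
      · rw [if_neg e1, if_neg e2, sub_self] at h2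
        exact absurd rfl h2
  have h7 := a7_lip hSg hw (w.T x) t
  have h8 := Nat.mul_le_mul_left (κ 0) (a7_natAbs h6)
  have h9 := wdist_triangle hSg x (w.L (w.T x)) (w.L t)
  rw [wdist_comm hSg]
  unfold a7_rho
  omega

/-- an arc is supported near its part of the line -/
theorem a7_arc (hSg : Subgroup.closure S = ⊤) (hw : IsWall S κ Dd M' w) {n : ℕ} {s t : ℤ}
    (hst : s ≤ t) {x y : G} (hxy : wdist S x y ≤ n) (h : arc k w s t x y ≠ 0) :
    wdist S x (w.L (w.T x)) ≤ κ n + n ∧ s < w.T x ∧ w.T x ≤ t := by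
  classical
  unfold arc at h
  refine ⟨a7_near hSg hw hxy (right_ne_zero_of_mul h), ?_⟩
  have h2 := left_ne_zero_of_mul h
  unfold chi at h2
  by_cases e1 : w.T x ≤ t
  · by_cases e2 : w.T x ≤ s
    · rw [if_pos e1, if_pos e2, sub_self] at h2
      exact absurd rfl h2
    · exact ⟨by omega, e1⟩
  · have e2 : ¬ w.T x ≤ s := fun h => e1 (h.trans hst)
    rw [if_neg e1, if_neg e2, sub_self] at h2
    exact absurd rfl h2

theorem a7_fin (hS : S.Finite) (hSg : Subgroup.closure S = ⊤) (hw : IsWall S κ Dd M' w) (n : ℕ)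
    {s t : ℤ} (hst : s ≤ t) : FinC S Set.univ n (arc k w s t) := by
  have h1 : (⋃ i ∈ Set.Icc s t, {x | wdist S (w.L i) x ≤ κ n + n}).Finite :=
    (Set.finite_Icc s t).biUnion fun i _ => ball_finite hS hSg _ _
  have h2 : (⋃ x ∈ ⋃ i ∈ Set.Icc s t, {x | wdist S (w.L i) x ≤ κ n + n},
      (fun y => (x, y)) '' {y | wdist S x y ≤ n}).Finite :=
    h1.biUnion fun x _ => (ball_finite hS hSg _ _).image _
  refine h2.subset ?_
  rintro ⟨x, y⟩ ⟨_, _, hxy, h⟩
  obtain ⟨e1, e2, e3⟩ := a7_arc hSg hw hst hxy h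
  refine Set.mem_biUnion (x := x) ?_ ⟨y, hxy, rfl⟩
  exact Set.mem_biUnion (x := w.T x) ⟨e2.le, e3⟩ (by
    show wdist S (w.L (w.T x)) x ≤ κ n + n
    rw [wdist_comm hSg]
    exact e1)

/-- the defect of an arc -/
theorem a7_arc_dd (s t : ℤ) (x y z : G) :
    arc k w s t x y + arc k w s t y z - arc k w s t x z = dd k w t x y z - dd k w s x y z := by
  unfold arc dd
  ring

/-- values of the defect -/
theorem a7_val (t : ℤ) (x y z : G) : dd k w t x y z ∈ ({0, 1, -1} : Set k) := by
  classical
  unfold dd chi ind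
  split_ifs <;> simp

end

end Pool.Agent.QD
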