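import Pool.Agent.QD.Stm

/-!
# A8: a group whose group algebra embeds in a division ring is torsion-free
-/

set_option autoImplicit false

namespace Pool.Agent.QD

open Pool.Agent.QIS MulAction

theorem h56a8_of_ne {G : Type} [Group G] {k : Type} [Field k] {g : G} (hg : g ≠ 1) :
    (MonoidAlgebra.of k G g - 1 : MonoidAlgebra k G) ≠ 0 := by
  intro h
  have h1 : MonoidAlgebra.of k G g = MonoidAlgebra.of k G 1 := by
    rw [map_one]
    exact sub_eq_zero.1 h
  exact hg (MonoidAlgebra.of_injective h1)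

theorem h56a8_norm_ne {G : Type} [Group G] {k : Type} [Field k] {g : G}
    (hm : 0 < orderOf g) :
    (∑ i ∈ Finset.range (orderOf g), (MonoidAlgebra.of k G g) ^ i : MonoidAlgebra k G) ≠ 0 := by
  classical
  intro h
  have h1 := congrArg (fun x : MonoidAlgebra k G => x.coeff 1) h
  simp only [MonoidAlgebra.coeff_sum, MonoidAlgebra.coeff_zero, Finsupp.coe_zero,
    Pi.zero_apply, Finsupp.finsetSum_apply] at h1
  rw [Finset.sum_eq_single_of_mem 0 (Finset.mem_range.2 hm)] at h1
  · simp at h1
  · intro i hi hi0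
    rw [← map_pow, MonoidAlgebra.of_apply, MonoidAlgebra.coeff_single, Finsupp.single_apply,
      if_neg]
    intro h2
    have h3 := orderOf_dvd_of_pow_eq_one h2
    have h4 := Nat.le_of_dvd (Nat.pos_of_ne_zero hi0) h3
    have h5 := Finset.mem_range.1 hi
    omega

theorem sa8 : SA8 := by
  intro G _ k D _ _ ι hι g hg n hn h
  have hm : 0 < orderOf g := orderOf_pos_iff.2 (isOfFinOrder_iff_pow_eq_one.2 ⟨n, hn, h⟩)
  have h1 : (MonoidAlgebra.of k G g - 1) *
      (∑ i ∈ Finset.range (orderOf g), (MonoidAlgebra.of k G g) ^ i) = 0 := by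
    rw [mul_geom_sum, ← map_pow, pow_orderOf_eq_one, map_one, sub_self]
  have h2 := congrArg ι h1
  rw [map_mul, map_zero] at h2
  rcases mul_eq_zero.1 h2 with h3 | h3
  · exact h56a8_of_ne hg (hι (by rw [h3, map_zero]))
  · exact h56a8_norm_ne hm (hι (by rw [h3, map_zero]))

end Pool.Agent.QD
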