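import Pool.Agent.QD.Stm

/-!
# A9: elementary facts on half-spaces
-/

set_option autoImplicit false

namespace Pool.Agent.QD

open Pool.Agent.QIS

variable {G : Type} [Group G] {S : Set G}

theorem a9x_compl (hS : S.Finite) (hSg : Subgroup.closure S = ⊤) {H : Set G} {c : G}
    (h : HS S H c) : HS S Hᶜ c where
  ord := h.ord
  inv := fun x => not_congr (h.inv x)
  bd := by
    intro n
    obtain ⟨F, hF, hb⟩ := h.bd n
    refine ⟨⋃ f ∈ F, {g | wdist S f g ≤ n}, hF.biUnion fun f _ => ball_finite hS hSg f n, ?_⟩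
    intro x y hxy hx hy
    have hy' : y ∈ H := by
      by_contra h1
      exact hy h1
    obtain ⟨i, hi⟩ := hb y x (by rw [wdist_comm hSg]; exact hxy) hy' hx
    refine ⟨i, ?_⟩
    simp only [Set.mem_iUnion, Set.mem_ofPred_eq]
    exact ⟨_, hi, by rw [wdist_mul_left, wdist_comm hSg]; exact hxy⟩
  deep := h.deep'
  deep' := by
    intro F hF
    obtain ⟨x, hx, h1⟩ := h.deep F hF
    exact ⟨x, fun h2 => h2 hx, h1⟩

theorem a9x_inv {H : Set G} {c : G} (h : HS S H c) : HS S H c⁻¹ where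
  ord := by
    intro n hn h1
    rw [inv_pow, inv_eq_one] at h1
    exact h.ord n hn h1
  inv := by
    intro x
    have := h.inv (c⁻¹ * x)
    rw [mul_inv_cancel_left] at this
    exact this.symm
  bd := by
    intro n
    obtain ⟨F, hF, hb⟩ := h.bd n
    refine ⟨F, hF, fun x y hxy hx hy => ?_⟩
    obtain ⟨i, hi⟩ := hb x y hxy hx hy
    refine ⟨-i, ?_⟩
    rw [inv_zpow, zpow_neg, inv_inv]
    exact hi
  deep := by
    intro F hF
    obtain ⟨x, hx, h1⟩ := h.deep F hF
    refine ⟨x, hx, fun i => ?_⟩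
    rw [inv_zpow, ← zpow_neg]
    exact h1 _
  deep' := by
    intro F hF
    obtain ⟨x, hx, h1⟩ := h.deep' F hF
    refine ⟨x, hx, fun i => ?_⟩
    rw [inv_zpow, ← zpow_neg]
    exact h1 _

theorem a9x_pow {H : Set G} {c : G} (h : HS S H c) (n : ℕ) (hn : 0 < n) : HS S H (c ^ n) where
  ord := by
    intro m hm h1
    rw [← pow_mul] at h1
    exact h.ord _ (Nat.mul_pos hn hm) h1
  inv := by
    intro x
    clear hn
    induction n with
    | zero => rw [pow_zero, one_mul]
    | succ n ih => rw [pow_succ', mul_assoc, h.inv, ih]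
  bd := by
    intro r
    obtain ⟨F, hF, hb⟩ := h.bd r
    refine ⟨⋃ j ∈ Finset.range n, (fun f => (c ^ j)⁻¹ * f) '' F,
      Set.Finite.biUnion (Finset.finite_toSet _) fun j _ => hF.image _, fun x y hxy hx hy => ?_⟩
    obtain ⟨i, hi⟩ := hb x y hxy hx hy
    have hn' : (0 : ℤ) < n := by exact_mod_cast hn
    refine ⟨i / n, ?_⟩
    simp only [Set.mem_iUnion, Set.mem_image, exists_prop]
    refine ⟨(i % n).toNat, ?_, c ^ i * x, hi, ?_⟩
    · rw [Finset.mem_range]
      have h1 := Int.emod_nonneg i hn'.ne'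
      have h2 := Int.emod_lt_of_pos i hn'
      omega
    · have h1 := Int.emod_nonneg i hn'.ne'
      have h3 : (c ^ (i % n).toNat) = c ^ (i % n) := by
        rw [← zpow_natCast, Int.toNat_of_nonneg h1]
      rw [h3, ← mul_assoc, ← zpow_neg, ← zpow_add, ← zpow_natCast, ← zpow_mul]
      congr 2
      have h4 := Int.emod_add_mul_ediv i n
      omega
  deep := by
    intro F hF
    obtain ⟨x, hx, h1⟩ := h.deep F hF
    refine ⟨x, hx, fun i => ?_⟩
    rw [← zpow_natCast, ← zpow_mul]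
    exact h1 _
  deep' := by
    intro F hF
    obtain ⟨x, hx, h1⟩ := h.deep' F hF
    refine ⟨x, hx, fun i => ?_⟩
    rw [← zpow_natCast, ← zpow_mul]
    exact h1 _

theorem a9x_conj {H : Set G} {c : G} (h : HS S H c) (g : G) :
    HS S (tl g H) (g * c * g⁻¹) where
  ord := by
    intro n hn h1
    rw [conj_pow] at h1
    refine h.ord n hn ?_
    have h2 : c ^ n = g⁻¹ * (g * c ^ n * g⁻¹) * g := by group
    rw [h2, h1]
    group
  inv := by
    intro x
    simp only [tl, Set.mem_ofPred_eq]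
    have h1 : g⁻¹ * (g * c * g⁻¹ * x) = c * (g⁻¹ * x) := by group
    rw [h1]
    exact h.inv _
  bd := by
    intro n
    obtain ⟨F, hF, hb⟩ := h.bd n
    refine ⟨(fun f => g * f) '' F, hF.image _, fun x y hxy hx hy => ?_⟩
    obtain ⟨i, hi⟩ := hb (g⁻¹ * x) (g⁻¹ * y) (by rw [wdist_mul_left]; exact hxy) hx hy
    refine ⟨i, _, hi, ?_⟩
    simp only [conj_zpow]
    group
  deep := by
    intro F hF
    obtain ⟨x, hx, h1⟩ := h.deep ((fun f => g⁻¹ * f) '' F) (hF.image _)
    refine ⟨g * x, ?_, fun i h2 => h1 i ⟨_, h2, ?_⟩⟩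
    · simp only [tl, Set.mem_ofPred_eq, inv_mul_cancel_left]
      exact hx
    · simp only [conj_zpow]
      group
  deep' := by
    intro F hF
    obtain ⟨x, hx, h1⟩ := h.deep' ((fun f => g⁻¹ * f) '' F) (hF.image _)
    refine ⟨g * x, ?_, fun i h2 => h1 i ⟨_, h2, ?_⟩⟩
    · simp only [tl, Set.mem_ofPred_eq, inv_mul_cancel_left]
      exact hx
    · simp only [conj_zpow]
      group

theorem a9x_two {H : Set G} {c : G} (h : HS S H c) (C : Subgroup G) (hc : c ∈ C)
    (hC : ∀ g ∈ C, tl g H = H) : TwoEnded C := by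
  obtain ⟨x₀, hx₀, -⟩ := h.deep ∅ Set.finite_empty
  obtain ⟨y₀, hy₀, -⟩ := h.deep' ∅ Set.finite_empty
  obtain ⟨F, hF, hb⟩ := h.bd (wdist S x₀ y₀)
  have key : ∀ g : C, ∃ f : F, ∃ i : ℤ, c ^ i * (g : G)⁻¹ * x₀ = f := by
    intro g
    have hg := hC _ (C.inv_mem g.2)
    have h1 : (g : G)⁻¹ * x₀ ∈ H := by
      rw [← hg]
      simp only [tl, Set.mem_ofPred_eq, inv_inv, mul_inv_cancel_left]
      exact hx₀
    have h2 : (g : G)⁻¹ * y₀ ∉ H := by
      intro h3
      rw [← hg] at h3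
      simp only [tl, Set.mem_ofPred_eq, inv_inv, mul_inv_cancel_left] at h3
      exact hy₀ h3
    obtain ⟨i, hi⟩ := hb _ _ (le_of_eq (wdist_mul_left (S := S) (g : G)⁻¹ x₀ y₀)) h1 h2
    exact ⟨⟨_, hi⟩, i, by rw [mul_assoc]⟩
  choose f i hfi using key
  refine ⟨⟨c, hc⟩, ?_, ?_⟩
  · intro n hn h1
    refine h.ord n hn ?_
    have := congrArg (fun x : C => (x : G)) h1
    simpa using this
  · have : Finite F := hF
    have hfin : Finite (C ⧸ Subgroup.zpowers (⟨c, hc⟩ : C)) := by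
      refine Finite.of_injective (fun q : C ⧸ Subgroup.zpowers (⟨c, hc⟩ : C) => f q.out) ?_
      intro q q' hq
      have h1 := hfi q.out
      have h2 := hfi q'.out
      simp only at hq
      rw [← hq] at h2
      rw [← h2] at h1
      have h3 : ((q.out : C) : G)⁻¹ * ((q'.out : C) : G) = c ^ (i q'.out - i q.out) := by
        have h4 := mul_right_cancel h1
        rw [zpow_sub, eq_comm, mul_inv_eq_iff_eq_mul] 
        have h5 : ((q.out : C) : G)⁻¹ = (c ^ i q.out)⁻¹ * (c ^ i q'.out * ((q'.out : C) : G)⁻¹) := by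
          rw [← h4]; group
        rw [h5]
        have h6 : (c ^ i q.out)⁻¹ * (c ^ i q'.out * ((q'.out : C) : G)⁻¹) * ((q'.out : C) : G) *
            c ^ i q.out = (c ^ i q.out)⁻¹ * c ^ i q'.out * c ^ i q.out := by group
        rw [h6, ← zpow_neg, ← zpow_add, ← zpow_add]
        congr 1
        ring
      rw [← Quotient.out_eq q, ← Quotient.out_eq q']
      refine QuotientGroup.eq.2 ?_
      refine ⟨i q'.out - i q.out, ?_⟩
      ext
      simp only [Subgroup.coe_mul, Subgroup.coe_inv, Subgroup.coe_zpow]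
      exact h3.symm
    exact Subgroup.finiteIndex_of_finite_quotient

theorem sa9 : SA9 := by
  intro G _ S hS hSg H c h
  exact ⟨a9x_compl hS hSg h, a9x_inv h, a9x_pow h, a9x_conj h, a9x_two h⟩

end Pool.Agent.QD
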