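import Pool.Agent.QD.Stm
import Pool.Agent.H67.W3.Main3

/-!
# Assembly of the project QD (MP_bbdce3_al)
-/

set_option autoImplicit false

namespace Pool.Agent.QD

open Pool.Agent.QIS MulAction

theorem fp_of_equiv {A B : Type} [Group A] [Group B] (e : A ≃* B)
    (h : Group.IsFinitelyPresented A) : Group.IsFinitelyPresented B :=
  Group.IsFinitelyPresented.equiv e (h := h)

/-- the main step -/
theorem sm1 (a1 : SA1) (a8 : SA8) (b3 : SB3) (b4 : SB4) (b9 : SB9) (b11 : SB11) (b12 : SB12)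
    (c3 : SC3) (c4 : SC4) (c7 : SC7) (c8 : SC8) (c17 : SC17) : SM1 := by
  intro G _ S hS hSg hone k D _ _ ι hι
  have hst := a1 G S hS hSg k D ι hι
  have htf := a8 G k D ι hι
  have key : ∀ (m : ℕ) (P : Subgroup G) (HH : Set (Set G)), rk ι P = m → Piece S P HH →
      ¬ Group.IsFinitelyPresented P → ∃ (P' : Subgroup G) (HH' : Set (Set G)),
        Piece S P' HH' ∧ ∀ H ∈ HH', Uncr S H := by
    intro m
    induction m using Nat.strong_induction_on with
    | _ m ih =>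
      intro P HH hm hP hfp
      by_cases hall : ∀ H ∈ HH, Uncr S H
      · exact ⟨P, HH, hP, hall⟩
      push Not at hall
      obtain ⟨H₀, hH₀, hcr⟩ := hall
      obtain ⟨s₁, hs₁⟩ := b3 G S hS hSg hone k hst P HH hP H₀ hH₀
      obtain ⟨m₁, hm₁⟩ := hs₁ (max s₁ 1) (le_max_left _ _)
      obtain ⟨m₂, hm₂⟩ := b4 G S hS hSg hone k hst P HH hP H₀ hH₀ (max s₁ 1) (le_max_right _ _)
      obtain ⟨n₁, hn₁⟩ := hm₁ (max m₁ m₂) (le_max_left _ _)
      obtain ⟨n₂, hn₂⟩ := hm₂ (max m₁ m₂) (le_max_right _ _)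
      have hbad : Bad S k HH (max s₁ 1) (max m₁ m₂) (max n₁ n₂) H₀ := by
        by_contra hb
        exact hcr (hn₁ _ (le_max_left _ _) hb)
      obtain ⟨r, E, hE⟩ := hn₂ _ (le_max_right _ _) hbad
      obtain ⟨r', A, hA, hnest, hfin⟩ := b9 G S hS hSg hone k hst htf P HH hP _ _ _ hE
      obtain ⟨t⟩ := b11 G S hS hSg htf P HH hP _ _ _ hA hnest hfin
      have hu : ∃ u : t.E.V, ¬ Group.IsFinitelyPresented (stabilizer P u) := by
        by_contra hcon
        push Not at hcon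
        refine hfp (c8 P t.E ?_ (hcon _) (hcon _))
        rw [t.triv]
        exact Subgroup.FG.bot
      obtain ⟨u, hu⟩ := hu
      have : Nonempty t.E.V := ⟨u⟩
      obtain ⟨π, hπ⟩ := c3 G P t.E.V
      obtain ⟨h1, h2, h3, h4, h5, h6⟩ := c4 G S hS hSg htf P HH hP t π hπ u
      have hpiece : Piece S (Sb t u) (HHu t π u) :=
        ⟨h1, h2, c17 G S hS hSg hone htf P HH hP t π hπ u hu, h3, h4, h5, h6⟩
      have hlt : rk ι (Sb t u) < m := by
        rw [← hm]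
        exact c7 G k D ι hι P (b12 G S hS hSg P HH hP) t.E t.triv u
      refine ih _ hlt (Sb t u) (HHu t π u) rfl hpiece fun hc => hu ?_
      exact fp_of_equiv ((stabilizer P u).equivMapOfInjective P.subtype
        (Subgroup.subtype_injective P)).symm hc
  intro P HH hP hfp
  exact key _ P HH rfl hP hfp

/-- the final theorem -/
theorem final (m1 : SM1) (c8 : SC8) (c9 : SC9) (c10 : SC10) (c11 : SC11) (c13 : SC13)
    (c14 : SC14) (c15 : SC15) (c16 : SC16)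
    (G H : Type) [Group G] [Group H] (S : Set G) (S' : Set H)
    (hS : S.Finite) (hS' : S'.Finite)
    (hSg : Subgroup.closure S = ⊤) (hS'g : Subgroup.closure S' = ⊤)
    (hone : OneEnded S) (hnfp : ¬ Group.IsFinitelyPresented G)
    (E : Splitting G) (hC : TwoEnded E.edgeGroup)
    (G₀ : Subgroup G) (hG₀ : G₀.FiniteIndex)
    (k D : Type) [Field k] [DivisionRing D] (ι : MonoidAlgebra k G₀ →+* D)
    (hι : Function.Injective ι)
    (hqi : ∃ (K : ℕ) (φ : G → H), IsQI S S' K φ) : SplitsOverTwoEnded H := by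
  -- a vertex group that is not finitely presented
  have hfg : E.edgeGroup.FG := by
    have h1 := c10.1 E.edgeGroup hC
    have h2 : Group.FG E.edgeGroup := by
      obtain ⟨n, φ, hφ, -⟩ := h1
      exact Group.fg_of_surjective hφ
    exact (Group.fg_iff_subgroup_fg _).mp h2
  obtain ⟨a, ha, hafp⟩ : ∃ a : E.V, (a = E.a ∨ a = E.b) ∧
      ¬ Group.IsFinitelyPresented (stabilizer G a) := by
    by_contra hcon
    push Not at hcon
    exact hnfp (c8 G E hfg (hcon _ (Or.inl rfl)) (hcon _ (Or.inr rfl)))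
  have ha0 : ¬ Group.IsFinitelyPresented (stabilizer G₀ a) := by
    intro h
    refine hafp (c9 (stabilizer G a) (G₀.subgroupOf (stabilizer G a)) inferInstance ?_)
    have e : (stabilizer G₀ a) ≃* (G₀.subgroupOf (stabilizer G a)) :=
      { toFun := fun x => ⟨⟨(x.1 : G), x.2⟩, x.1.2⟩
        invFun := fun x => ⟨⟨(x.1 : G), x.2⟩, x.1.2⟩
        left_inv := fun _ => rfl
        right_inv := fun _ => rfl
        map_mul' := fun _ _ => rfl }
    exact fp_of_equiv e h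
  obtain ⟨S₀, hS₀, hS₀g, hone₀, K₀, hK₀⟩ := c15 G S hS hSg hone G₀ hG₀
  obtain ⟨h1, h2, h3, h4⟩ := c16 G E hC G₀ hG₀ a ha
  obtain ⟨HH, hpiece⟩ := c11 G₀ S₀ hS₀ hS₀g E.V E.T E.tree
    (fun g {x y} hxy => E.map_adj (g : G) hxy) a h1 h2 h3 h4
  obtain ⟨P', HH', hp', hun⟩ := m1 G₀ S₀ hS₀ hS₀g hone₀ k D ι hι _ HH hpiece ha0
  obtain ⟨H₁, hH₁⟩ := hp'.ne
  obtain ⟨c, hc, hHS⟩ := hp'.hs H₁ hH₁
  obtain ⟨E', π, hπ, hst, hside⟩ := c13 G₀ S₀ hS₀ hS₀g P' HH' hp' H₁ hH₁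
  obtain ⟨hte, hnc⟩ := c14 G₀ S₀ hS₀ hS₀g H₁ c hHS (hun H₁ hH₁) E' π hπ hst hside
  obtain ⟨K, φ, hφ⟩ := hqi
  refine main_theorem3 G₀ H S₀ S' hS₀ hS' hS₀g hS'g hone₀ E' hte hnc ?_
  exact ⟨_, _, hK₀.comp hφ hS'g⟩

end Pool.Agent.QD
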