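import Pool.Agent.QD.BDefs

/-!
# Finite boundary at every scale (row B0a of the project QD, MP_bbdce3_al)
-/

set_option autoImplicit false

namespace Pool.Agent.QD

open Pool.Agent.QIS

section B0a

variable {G : Type} [Group G]

/-- a step inside the ball of radius `ρ` around `x` -/
private def b0a_st (S : Set G) (Y : Set G) (r ρ : ℕ) (x a b : G) : Prop :=
  a ∈ Y ∧ b ∈ Y ∧ wdist S a b ≤ r ∧ wdist S x a ≤ ρ ∧ wdist S x b ≤ ρ

private theorem b0a_one (S : Set G) (Y : Set G) (r : ℕ) {x y : G}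
    (h : Relation.ReflTransGen (fun a b => a ∈ Y ∧ b ∈ Y ∧ wdist S a b ≤ r) x y) :
    ∃ ρ, Relation.ReflTransGen (b0a_st S Y r ρ x) x y := by
  induction h with
  | refl => exact ⟨0, Relation.ReflTransGen.refl⟩
  | tail _ h2 ih =>
    rename_i b c _
    obtain ⟨ρ, hρ⟩ := ih
    refine ⟨max ρ (max (wdist S x b) (wdist S x c)), ?_⟩
    refine Relation.ReflTransGen.tail (b := b) ?_ ?_
    · refine Relation.ReflTransGen.mono ?_ _ _ hρ
      rintro a b ⟨h1, h2, h3, h4, h5⟩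
      exact ⟨h1, h2, h3, le_trans h4 (le_max_left _ _), le_trans h5 (le_max_left _ _)⟩
    · exact ⟨h2.1, h2.2.1, h2.2.2, le_trans (le_max_left _ _) (le_max_right _ _),
        le_trans (le_max_right _ _) (le_max_right _ _)⟩

private theorem b0a_cross (S : Set G) (Y E : Set G) (r ρ : ℕ) {x y : G}
    (h : Relation.ReflTransGen (b0a_st S Y r ρ x) x y) (hx : x ∈ E) (hy : y ∉ E) :
    ∃ u v, b0a_st S Y r ρ x u v ∧ u ∈ E ∧ v ∉ E := by
  induction h with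
  | refl => exact absurd hx hy
  | tail _ h2 ih =>
    rename_i b c _
    by_cases hb : b ∈ E
    · exact ⟨b, c, h2, hb, hy⟩
    · exact ih hb

private theorem b0a_unif {S : Set G} (hS : S.Finite) (hSg : Subgroup.closure S = ⊤)
    {P : Subgroup G} {Y : Set G} (hI : Inv P Y) (hC : Cof P Y) {r : ℕ} (hc : CConn S Y r)
    (R : ℕ) : ∃ ρ, ∀ x ∈ Y, ∀ y ∈ Y, wdist S x y ≤ R →
      Relation.ReflTransGen (b0a_st S Y r ρ x) x y := by
  obtain ⟨F, hF, hFC⟩ := hC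
  have hex : ∀ q : G × G, ∃ ρ : ℕ, q.1 ∈ Y → q.2 ∈ Y →
      Relation.ReflTransGen (b0a_st S Y r ρ q.1) q.1 q.2 := by
    intro q
    by_cases h1 : q.1 ∈ Y
    · by_cases h2 : q.2 ∈ Y
      · obtain ⟨ρ, h⟩ := b0a_one S Y r (hc q.1 h1 q.2 h2)
        exact ⟨ρ, fun _ _ => h⟩
      · exact ⟨0, fun _ h => absurd h h2⟩
    · exact ⟨0, fun h => absurd h h1⟩
  choose ρ hρ using hex
  have hQ : {q : G × G | q.1 ∈ F ∧ wdist S q.1 q.2 ≤ R}.Finite := by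
    have h1 : {q : G × G | q.1 ∈ F ∧ wdist S q.1 q.2 ≤ R} ⊆
        ⋃ a ∈ F, (fun b => (a, b)) '' {b | wdist S a b ≤ R} := by
      rintro ⟨a, b⟩ ⟨h1, h2⟩
      simp only [Set.mem_iUnion]
      exact ⟨a, h1, b, h2, rfl⟩
    refine Set.Finite.subset (Set.Finite.biUnion hF ?_) h1
    intro a _
    exact (ball_finite hS hSg a R).image _
  obtain ⟨B, hB⟩ := (hQ.image ρ).bddAbove
  refine ⟨B, ?_⟩
  intro x hx y hy hxy
  obtain ⟨p, hp, hpF⟩ := hFC x hx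
  have h1 : wdist S (p * x) (p * y) ≤ R := by rw [wdist_mul_left]; exact hxy
  have h2 := hρ (p * x, p * y) (hI p hp x hx) (hI p hp y hy)
  have h3 : ρ (p * x, p * y) ≤ B := hB ⟨(p * x, p * y), ⟨hpF, h1⟩, rfl⟩
  have h4 := Relation.ReflTransGen.lift (p := b0a_st S Y r B x) (fun z => p⁻¹ * z) ?_ _ _ h2
  · simpa [Function.onFun] using h4
  · rintro a b ⟨g1, g2, g3, g4, g5⟩
    refine ⟨hI _ (P.inv_mem hp) _ g1, hI _ (P.inv_mem hp) _ g2, ?_, ?_, ?_⟩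
    · rw [wdist_mul_left]; exact g3
    · have h5 := wdist_mul_left (S := S) p x (p⁻¹ * a)
      rw [mul_inv_cancel_left] at h5
      rw [← h5]
      exact le_trans g4 h3
    · have h5 := wdist_mul_left (S := S) p x (p⁻¹ * b)
      rw [mul_inv_cancel_left] at h5
      rw [← h5]
      exact le_trans g5 h3

theorem sb0a : SB0a := by
  intro G _ S hS hSg P Y hI hC r hc E hf R
  obtain ⟨ρ, hρ⟩ := b0a_unif hS hSg hI hC hc R
  have h1 : {p : G × G | p.1 ∈ Y ∧ p.2 ∈ Y ∧ wdist S p.1 p.2 ≤ R ∧ p.1 ∈ E ∧ p.2 ∉ E} ⊆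
      ⋃ q ∈ {p : G × G | p.1 ∈ Y ∧ p.2 ∈ Y ∧ wdist S p.1 p.2 ≤ r ∧ p.1 ∈ E ∧ p.2 ∉ E},
        ⋃ x ∈ {x | wdist S q.1 x ≤ ρ}, (fun y => (x, y)) '' {y | wdist S x y ≤ R} := by
    rintro ⟨x, y⟩ ⟨h1, h2, h3, h4, h5⟩
    obtain ⟨u, v, ⟨g1, g2, g3, g4, _⟩, g6, g7⟩ :=
      b0a_cross S Y E r ρ (hρ x h1 y h2 h3) h4 h5
    simp only [Set.mem_iUnion]
    refine ⟨(u, v), ⟨g1, g2, g3, g6, g7⟩, x, ?_, y, h3, rfl⟩
    rw [Set.mem_ofPred_eq, wdist_comm hSg]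
    exact g4
  refine Set.Finite.subset (Set.Finite.biUnion hf ?_) h1
  intro q _
  refine Set.Finite.biUnion (ball_finite hS hSg q.1 ρ) ?_
  intro x _
  exact (ball_finite hS hSg x R).image _

end B0a

end Pool.Agent.QD
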