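import Pool.Agent.QD.NCut
import Pool.Agent.H67.Q.Structure

/-!
# Families of lines in a graph and the augmented graph

The augmented graph has a ladder with `N + 1` sides along every line, so that a cut that separates
the ends of a line has at least `N + 1` boundary edges on the ladder.
-/

set_option autoImplicit false

namespace Pool.Agent.QD

open Pool.Agent.QIS

/-- a family of lines in a set with a group action, equivariant up to shifts -/
structure LineSys (P V ι : Type) [Group P] [MulAction P V] [MulAction P ι] where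
  /-- the lines -/
  l : ι → ℤ → V
  inj : ∀ i, Function.Injective (l i)
  /-- the shifts -/
  sh : P → ι → ℤ
  eqv : ∀ g i n, g • l i n = l (g • i) (n + sh g i)

section

variable {P V ι : Type} [Group P] [MulAction P V] [MulAction P ι]

/-- a connected locally finite graph with lines of bounded steps, finitely many through a vertex -/
structure LineSys.Good (L : LineSys P V ι) (Γ : SimpleGraph V) : Prop where
  conn : Γ.Connected
  act : ∀ (g : P) {x y : V}, Γ.Adj x y → Γ.Adj (g • x) (g • y)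
  lf : ∀ v, {w | Γ.Adj v w}.Finite
  step : ∃ D : ℕ, ∀ i n, Γ.dist (L.l i n) (L.l i (n + 1)) ≤ D
  thru : ∀ v, {p : ι × ℤ | L.l p.1 p.2 = v}.Finite

/-- `A` separates the ends of the line `i` -/
def LineSys.Sep (L : LineSys P V ι) (A : Set V) (i : ι) : Prop :=
  ((∃ M : ℤ, ∀ n, M ≤ n → L.l i n ∈ A) ∧ ∃ M : ℤ, ∀ n, n ≤ M → L.l i n ∉ A) ∨
  ((∃ M : ℤ, ∀ n, M ≤ n → L.l i n ∉ A) ∧ ∃ M : ℤ, ∀ n, n ≤ M → L.l i n ∈ A)

/-! ### predicates on the integers -/

lemma pz_top {q : ℤ → Prop} (h : {n | ¬ (q n ↔ q (n + 1))}.Finite) :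
    (∃ M : ℤ, ∀ n, M ≤ n → q n) ∨ ∃ M : ℤ, ∀ n, M ≤ n → ¬ q n := by
  obtain ⟨M, hM⟩ := h.bddAbove
  have h1 : ∀ n, M + 1 ≤ n → (q n ↔ q (M + 1)) := by
    intro n hn
    induction n, hn using Int.le_induction with
    | base => exact Iff.rfl
    | succ n hn ih =>
      refine Iff.trans (Iff.symm ?_) ih
      by_contra hc
      have := hM hc
      omega
  by_cases hq : q (M + 1)
  · exact Or.inl ⟨M + 1, fun n hn => (h1 n hn).2 hq⟩
  · exact Or.inr ⟨M + 1, fun n hn hh => hq ((h1 n hn).1 hh)⟩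

lemma pz_bot {q : ℤ → Prop} (h : {n | ¬ (q n ↔ q (n + 1))}.Finite) :
    (∃ M : ℤ, ∀ n, n ≤ M → q n) ∨ ∃ M : ℤ, ∀ n, n ≤ M → ¬ q n := by
  obtain ⟨M, hM⟩ := h.bddBelow
  have h1 : ∀ n, n ≤ M → (q n ↔ q M) := by
    intro n hn
    induction n, hn using Int.le_induction_down with
    | base => exact Iff.rfl
    | pred n hn ih =>
      refine Iff.trans ?_ ih
      by_contra hc
      have h2 : n - 1 ∈ {n | ¬ (q n ↔ q (n + 1))} := by
        intro h3
        rw [sub_add_cancel] at h3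
        exact hc h3
      have := hM h2
      omega
  by_cases hq : q M
  · exact Or.inl ⟨M, fun n hn => (h1 n hn).2 hq⟩
  · exact Or.inr ⟨M, fun n hn hh => hq ((h1 n hn).1 hh)⟩

lemma pz_const {q : ℤ → Prop} (h : ∀ n, q n ↔ q (n + 1)) (a b : ℤ) : q a ↔ q b := by
  have h1 : ∀ n, q n ↔ q 0 := by
    intro n
    induction n using Int.induction_on with
    | zero => exact Iff.rfl
    | succ n ih => exact (h _).symm.trans ih
    | pred n ih =>
      refine Iff.trans ?_ ih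
      have := h (-(n : ℤ) - 1)
      rwa [sub_add_cancel] at this
  exact (h1 a).trans (h1 b).symm

/-! ### finite balls -/

lemma walk_fin {Γ : SimpleGraph V} (hlf : ∀ v, {w | Γ.Adj v w}.Finite) (n : ℕ) :
    ∀ x, {y | ∃ w : Γ.Walk x y, w.length ≤ n}.Finite := by
  induction n with
  | zero =>
    intro x
    refine (Set.finite_singleton x).subset ?_
    rintro y ⟨w, hw⟩
    exact (SimpleGraph.Walk.eq_of_length_eq_zero (Nat.le_zero.1 hw)).symm
  | succ n ih =>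
    intro x
    refine ((Set.finite_singleton x).union
      ((hlf x).biUnion fun z _ => ih z)).subset ?_
    rintro y ⟨w, hw⟩
    cases w with
    | nil => exact Or.inl rfl
    | cons h p =>
      refine Or.inr (Set.mem_biUnion (show _ ∈ {w | Γ.Adj x w} from h) ⟨p, ?_⟩)
      rw [SimpleGraph.Walk.length_cons] at hw
      omega

lemma ball_fin {Γ : SimpleGraph V} (hc : Γ.Connected) (hlf : ∀ v, {w | Γ.Adj v w}.Finite)
    (n : ℕ) (x : V) : {y | Γ.dist x y ≤ n}.Finite := by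
  refine (walk_fin hlf n x).subset ?_
  intro y hy
  obtain ⟨w, hw⟩ := hc.exists_walk_length_eq_dist x y
  exact ⟨w, hw.le.trans hy⟩

lemma unbdd_of_inf {Γ : SimpleGraph V} (hc : Γ.Connected)
    (hlf : ∀ v, {w | Γ.Adj v w}.Finite) {A : Set V} (hA : A.Infinite) : Unbdd Γ A := by
  intro x n
  by_contra hcon
  push Not at hcon
  exact hA ((ball_fin hc hlf n x).subset fun y hy => (hcon y hy).le)

lemma inf_of_unbdd {Γ : SimpleGraph V} (hc : Γ.Connected) {A : Set V} (hA : Unbdd Γ A) :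
    A.Infinite := by
  intro hf
  obtain ⟨x⟩ := hc.nonempty
  obtain ⟨M, hM⟩ := (hf.image (Γ.dist x)).bddAbove
  obtain ⟨y, hy, hn⟩ := hA x (M + 1)
  have := hM ⟨y, hy, rfl⟩
  omega

/-! ### switches -/

namespace LineSys

variable (L : LineSys P V ι) {Γ : SimpleGraph V}

/-- the places where a line enters or leaves `A` -/
def Sw (A : Set V) : Set (ι × ℤ) := {p | ¬ (L.l p.1 p.2 ∈ A ↔ L.l p.1 (p.2 + 1) ∈ A)}

variable {L}

lemma sw_fin (hG : L.Good Γ) {A : Set V} (hA : (bdry Γ A).Finite) : (L.Sw A).Finite := by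
  obtain ⟨D, hD⟩ := hG.step
  have hF : (Prod.fst '' bdry Γ A ∪ Prod.snd '' bdry Γ A).Finite := (hA.image _).union (hA.image _)
  refine (hF.biUnion fun u _ => (ball_fin hG.conn hG.lf D u).biUnion fun v _ =>
    hG.thru v).subset ?_
  rintro ⟨i, n⟩ hp
  have hp' : ¬ (L.l i n ∈ A ↔ L.l i (n + 1) ∈ A) := hp
  rw [Set.mem_iUnion₂]
  by_cases h1 : L.l i n ∈ A
  · have h2 : L.l i (n + 1) ∉ A := fun h => hp' ⟨fun _ => h, fun _ => h1⟩
    obtain ⟨u, w, h3, h4, h5, h6⟩ := Q4.cross_near Γ hG.conn A h1 h2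
    refine ⟨u, Or.inl ⟨(u, w), ⟨h3, h4, h5⟩, rfl⟩, ?_⟩
    refine Set.mem_biUnion (show L.l i n ∈ {y | Γ.dist u y ≤ D} from ?_) rfl
    show Γ.dist u (L.l i n) ≤ D
    rw [SimpleGraph.dist_comm]
    exact h6.trans (hD i n)
  · have h2 : L.l i (n + 1) ∈ A := by
      by_contra h
      exact hp' ⟨fun hh => absurd hh h1, fun hh => absurd hh h⟩
    obtain ⟨u, w, h3, h4, h5, h6⟩ := Q4.cross_near Γ hG.conn Aᶜ (v := L.l i n)
      (y := L.l i (n + 1)) h1 (fun h => h h2)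
    refine ⟨u, Or.inr ⟨(w, u), ⟨h3.symm, ?_, h4⟩, rfl⟩, ?_⟩
    · by_contra h
      exact h5 h
    refine Set.mem_biUnion (show L.l i n ∈ {y | Γ.dist u y ≤ D} from ?_) rfl
    show Γ.dist u (L.l i n) ≤ D
    rw [SimpleGraph.dist_comm]
    exact h6.trans (hD i n)

lemma sw_fin_i {A : Set V} (h : (L.Sw A).Finite) (i : ι) :
    {n : ℤ | ¬ (L.l i n ∈ A ↔ L.l i (n + 1) ∈ A)}.Finite :=
  h.preimage (f := fun n : ℤ => (i, n)) (fun a _ b _ hab => (Prod.mk.inj hab).2)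

lemma top_or {A : Set V} (h : (L.Sw A).Finite) (i : ι) :
    (∃ M : ℤ, ∀ n, M ≤ n → L.l i n ∈ A) ∨ ∃ M : ℤ, ∀ n, M ≤ n → L.l i n ∉ A :=
  pz_top (sw_fin_i h i)

lemma bot_or {A : Set V} (h : (L.Sw A).Finite) (i : ι) :
    (∃ M : ℤ, ∀ n, n ≤ M → L.l i n ∈ A) ∨ ∃ M : ℤ, ∀ n, n ≤ M → L.l i n ∉ A :=
  pz_bot (sw_fin_i h i)

lemma sep_sw {A : Set V} {i : ι} (h : L.Sep A i) : ∃ n, (i, n) ∈ L.Sw A := by
  by_contra hcon
  have h1 : ∀ n, L.l i n ∈ A ↔ L.l i (n + 1) ∈ A := by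
    intro n
    by_contra h2
    exact hcon ⟨n, h2⟩
  have h2 := pz_const (q := fun n => L.l i n ∈ A) h1
  rcases h with ⟨⟨M, hM⟩, ⟨M', hM'⟩⟩ | ⟨⟨M, hM⟩, ⟨M', hM'⟩⟩
  · exact hM' M' le_rfl ((h2 M M').1 (hM M le_rfl))
  · exact hM M le_rfl ((h2 M M').2 (hM' M' le_rfl))

lemma sep_fin {A : Set V} (h : (L.Sw A).Finite) : {i | L.Sep A i}.Finite := by
  refine (h.image Prod.fst).subset ?_
  intro i hi
  obtain ⟨n, hn⟩ := sep_sw hi
  exact ⟨(i, n), hn, rfl⟩

lemma sep_compl {A : Set V} {i : ι} : L.Sep Aᶜ i ↔ L.Sep A i := by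
  unfold Sep
  simp only [Set.mem_compl_iff, not_not]
  exact or_comm

lemma sep_tr {A : Set V} {i : ι} (g : P) (h : L.Sep A i) : L.Sep (tr g A) (g • i) := by
  have h1 : ∀ n, L.l (g • i) n ∈ tr g A ↔ L.l i (n - L.sh g i) ∈ A := by
    intro n
    have h2 := L.eqv g i (n - L.sh g i)
    rw [sub_add_cancel] at h2
    rw [← h2]
    exact Q4.mem_tr g A _
  have key : ∀ B : Set V, (∀ n, L.l (g • i) n ∈ tr g B ↔ L.l i (n - L.sh g i) ∈ B) →
      ((∃ M : ℤ, ∀ n, M ≤ n → L.l i n ∈ B) → ∃ M : ℤ, ∀ n, M ≤ n → L.l (g • i) n ∈ tr g B) ∧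
      ((∃ M : ℤ, ∀ n, n ≤ M → L.l i n ∈ B) → ∃ M : ℤ, ∀ n, n ≤ M → L.l (g • i) n ∈ tr g B) := by
    intro B hB
    refine ⟨?_, ?_⟩
    · rintro ⟨M, hM⟩
      exact ⟨M + L.sh g i, fun n hn => (hB n).2 (hM _ (by omega))⟩
    · rintro ⟨M, hM⟩
      exact ⟨M + L.sh g i, fun n hn => (hB n).2 (hM _ (by omega))⟩
  have hA := key A h1
  have hA' := key Aᶜ (fun n => by
    rw [Q4.tr_compl]
    exact not_congr (h1 n))
  rw [Q4.tr_compl] at hA'
  rcases h with ⟨h2, h3⟩ | ⟨h2, h3⟩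
  · exact Or.inl ⟨hA.1 h2, hA'.2 h3⟩
  · exact Or.inr ⟨hA'.1 h2, hA.2 h3⟩

lemma sep_tr_iff {A : Set V} {i : ι} (g : P) : L.Sep (tr g A) (g • i) ↔ L.Sep A i := by
  refine ⟨fun h => ?_, sep_tr g⟩
  have h1 := sep_tr g⁻¹ h
  rwa [← Q4.tr_mul, inv_mul_cancel, Q4.tr_one, inv_smul_smul] at h1

end LineSys

/-! ### the augmented graph -/

/-- the vertices of the augmented graph -/
abbrev VP (V ι : Type) (N : ℕ) : Type := V ⊕ (ι × ℤ × Fin (N + 1))

/-- adjacency in the augmented graph -/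
def augR (Γ : SimpleGraph V) (l : ι → ℤ → V) (N : ℕ) : VP V ι N → VP V ι N → Prop
  | .inl v, .inl w => Γ.Adj v w
  | .inl v, .inr p => p.2.2 = 0 ∧ l p.1 p.2.1 = v
  | .inr p, .inl v => p.2.2 = 0 ∧ l p.1 p.2.1 = v
  | .inr p, .inr r => p.1 = r.1 ∧ ((p.2.1 = r.2.1 ∧ p.2.2 ≠ r.2.2) ∨
      (p.2.2 = r.2.2 ∧ (r.2.1 = p.2.1 + 1 ∨ p.2.1 = r.2.1 + 1)))

/-- the augmented graph -/
def aug (Γ : SimpleGraph V) (l : ι → ℤ → V) (N : ℕ) : SimpleGraph (VP V ι N) where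
  Adj := augR Γ l N
  symm := ⟨by
    rintro (v | p) (w | r) h
    · exact SimpleGraph.Adj.symm (G := Γ) h
    · exact h
    · exact h
    · obtain ⟨h1, h2 | h2⟩ := h
      · exact ⟨h1.symm, Or.inl ⟨h2.1.symm, fun h => h2.2 h.symm⟩⟩
      · exact ⟨h1.symm, Or.inr ⟨h2.1.symm, h2.2.symm⟩⟩⟩
  loopless := ⟨by
    rintro (v | p) h
    · exact Γ.loopless.irrefl v h
    · obtain ⟨_, h2 | h2⟩ := h
      · exact h2.2 rfl
      · rcases h2.2 with h3 | h3 <;> omega⟩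

lemma aug_conn {Γ : SimpleGraph V} (hc : Γ.Connected) (l : ι → ℤ → V) (N : ℕ) :
    (aug Γ l N).Connected := by
  obtain ⟨x⟩ := hc.nonempty
  let f : Γ →g aug Γ l N := ⟨Sum.inl, fun h => h⟩
  have h1 : ∀ v, (aug Γ l N).Reachable (Sum.inl x) (Sum.inl v) := fun v =>
    (hc.preconnected x v).map f
  have h2 : ∀ i n, (aug Γ l N).Reachable (Sum.inl x) (Sum.inr (i, n, 0)) := fun i n =>
    (h1 (l i n)).trans (SimpleGraph.Adj.reachable (show augR Γ l N (Sum.inl (l i n))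
      (Sum.inr (i, n, 0)) from ⟨rfl, rfl⟩))
  have h3 : ∀ y, (aug Γ l N).Reachable (Sum.inl x) y := by
    rintro (v | ⟨i, n, j⟩)
    · exact h1 v
    · by_cases hj : j = 0
      · rw [hj]
        exact h2 i n
      · exact (h2 i n).trans (SimpleGraph.Adj.reachable (show augR Γ l N (Sum.inr (i, n, 0))
          (Sum.inr (i, n, j)) from ⟨rfl, Or.inl ⟨rfl, fun h => hj h.symm⟩⟩))
  have : Nonempty (VP V ι N) := ⟨Sum.inl x⟩
  exact SimpleGraph.Connected.mk fun a b => (h3 a).symm.trans (h3 b)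

lemma aug_lf {Γ : SimpleGraph V} {l : ι → ℤ → V} {N : ℕ} (hlf : ∀ v, {w | Γ.Adj v w}.Finite)
    (ht : ∀ v, {p : ι × ℤ | l p.1 p.2 = v}.Finite) (x : VP V ι N) :
    {y | (aug Γ l N).Adj x y}.Finite := by
  rcases x with v | ⟨i, n, j⟩
  · refine (((hlf v).image Sum.inl).union
      ((ht v).image fun p => Sum.inr (p.1, p.2, (0 : Fin (N + 1))))).subset ?_
    rintro (w | ⟨i', n', j'⟩) h
    · exact Or.inl ⟨w, h, rfl⟩
    · obtain ⟨h1, h2⟩ := (show j' = 0 ∧ l i' n' = v from h)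
      subst h1
      exact Or.inr ⟨(i', n'), h2, rfl⟩
  · refine ((Set.finite_singleton (Sum.inl (l i n))).union
      ((Set.finite_range fun j' : Fin (N + 1) => (Sum.inr (i, n, j') : VP V ι N)).union
        ((Set.finite_singleton (Sum.inr (i, n + 1, j))).union
          (Set.finite_singleton (Sum.inr (i, n - 1, j)))))).subset ?_
    rintro (w | ⟨i', n', j'⟩) h
    · obtain ⟨_, h2⟩ := (show j = 0 ∧ l i n = w from h)
      exact Or.inl (by rw [Set.mem_singleton_iff, h2])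
    · obtain ⟨h1, h2⟩ := (show i = i' ∧ ((n = n' ∧ j ≠ j') ∨
        (j = j' ∧ (n' = n + 1 ∨ n = n' + 1))) from h)
      subst h1
      rcases h2 with ⟨h3, _⟩ | ⟨h3, h4 | h4⟩
      · subst h3
        exact Or.inr (Or.inl ⟨j', rfl⟩)
      · subst h3 h4
        exact Or.inr (Or.inr (Or.inl rfl))
      · subst h3
        refine Or.inr (Or.inr (Or.inr ?_))
        rw [Set.mem_singleton_iff, h4, add_sub_cancel_right]

end

end Pool.Agent.QD
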