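import Pool.Agent.QD.Stm

/-!
# The dual tree of a nested family (row B10 of the project QD, MP_bbdce3_al)
-/

set_option autoImplicit false

namespace Pool.Agent.QD

open Pool.Agent.QIS Pool.Agent.QIS.Q4

/-! ### sides in the two trees -/

section abs

variable {X : Type} [PartialOrder X] {c : X → X}

private theorem b10_both (h : NP c) {C D : X} (h1 : C ∈ ob c D) (h2 : c C ∈ ob c D) : False := by
  rcases h1 with h1 | h1
  · rcases h2 with h2 | h2
    · exact h.irr h1 h2
    · rw [h.anti_lt] at h2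
      exact absurd (lt_of_lt_of_le h2 h1) (lt_irrefl _)
  · rcases h2 with h2 | h2
    · rw [h.le_c] at h2
      exact absurd (lt_of_le_of_lt h2 h1) (lt_irrefl _)
    · exact h.irr h1.le h2.le

/-- the property of a vertex of the tree to lie in `C` -/
private def b10f (C : X) (x : W c) : Prop := Quotient.liftOn x (fun D => C ∈ ob c D) (by
  intro a b hab
  have : ob c a = ob c b := hab
  simp only [this])

private theorem b10f_vt (C D : X) : b10f (c := c) C (vt c D) ↔ C ∈ ob c D := Iff.rfl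

private theorem b10_side1 (h : NP c) {C D : X}
    (hs : side h.tree (vt c C) (vt c (c C)) (vt c D)) : C ∈ ob c D := by
  have key := const_of_reach (f := b10f (c := c) C) ?_ hs
  · rw [b10f_vt, b10f_vt] at key
    exact key.mp (h.self_mem C)
  · rintro x y hxy
    rw [SimpleGraph.deleteEdges_adj] at hxy
    obtain ⟨⟨D, rfl, rfl⟩, hne⟩ := hxy
    rw [b10f_vt, b10f_vt]
    apply h.mem_iff
    · rintro rfl
      exact hne rfl
    · rintro rfl
      apply hne
      rw [h.cc, Sym2.eq_swap]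
      rfl

private theorem b10_side (h : NP c) [Nonempty X] (C D : X) :
    side h.tree (vt c C) (vt c (c C)) (vt c D) ↔ C ∈ ob c D := by
  refine ⟨b10_side1 h, fun h1 => ?_⟩
  by_contra h2
  rw [← side_swap h.tree_isTree (h.adj_vt C)] at h2
  have h3 : side h.tree (vt c (c C)) (vt c (c (c C))) (vt c D) := by
    rw [h.cc]
    exact h2
  exact b10_both h h1 (b10_side1 h h3)

private def b10g (h : NP c) (C : X) (x : W2 h) : Prop := match x with
  | Sum.inl x => b10f (c := c) C x
  | Sum.inr m => ∃ D, m = md h D ∧ D ≠ C ∧ D ≠ c C ∧ C ∈ ob c D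

private theorem b10g_lf (h : NP c) (C D : X) : b10g h C (Lf h (vt c D)) ↔ C ∈ ob c D := Iff.rfl

private theorem b10g_rt (h : NP c) {C D : X} (h1 : D ≠ C) (h2 : D ≠ c C) :
    b10g h C (Rt h (md h D)) ↔ C ∈ ob c D := by
  constructor
  · rintro ⟨D', hD, h3, h4, h5⟩
    rw [md_eq] at hD
    rcases hD with rfl | rfl
    · exact h5
    · exact (h.mem_iff h1 h2).mpr h5
  · intro h3
    exact ⟨D, rfl, h1, h2, h3⟩

private theorem b10g_self (h : NP c) (C : X) : ¬ b10g h C (Rt h (md h C)) := by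
  rintro ⟨D', hD, h3, h4, h5⟩
  rw [md_eq] at hD
  rcases hD with rfl | rfl
  · exact h3 rfl
  · exact h4 rfl

private theorem b10g_adj (h : NP c) (C : X) : ∀ x y,
    ((tree2 h).deleteEdges {s(Lf h (vt c C), Rt h (md h C))}).Adj x y →
      (b10g h C x ↔ b10g h C y) := by
  have key1 : ∀ D, s(Lf h (vt c D), Rt h (md h D)) ≠
      (s(Lf h (vt c C), Rt h (md h C)) : Sym2 (W2 h)) →
      (b10g h C (Lf h (vt c D)) ↔ b10g h C (Rt h (md h D))) := by
    intro D hne
    have h1 : D ≠ C := by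
      rintro rfl
      exact hne rfl
    by_cases h2 : D = c C
    · subst h2
      have h3 : md h (c C) = md h C := by
        rw [md_eq]
        exact Or.inr (h.cc C).symm
      rw [b10g_lf, h3]
      exact iff_of_false (h.not_mem_c C) (b10g_self h C)
    · rw [b10g_lf, b10g_rt h h1 h2]
  intro x y hxy
  rw [SimpleGraph.deleteEdges_adj] at hxy
  obtain ⟨⟨D, ⟨rfl, rfl⟩ | ⟨rfl, rfl⟩⟩, hne⟩ := hxy
  · exact key1 D (fun hh => hne hh)
  · have hsw : s(Rt h (md h D), Lf h (vt c D)) = s(Lf h (vt c D), Rt h (md h D)) :=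
      Sym2.eq_swap
    exact (key1 D (fun hh => hne (hsw.trans hh))).symm

private theorem b10_side2 (h : NP c) [Nonempty X] (C D : X) :
    side (tree2 h) (Lf h (vt c C)) (Rt h (md h C)) (Lf h (vt c D)) ↔ C ∈ ob c D := by
  constructor
  · intro hs
    have key := const_of_reach (b10g_adj h C) hs
    rw [b10g_lf, b10g_lf] at key
    exact key.mp (h.self_mem C)
  · intro h1
    by_contra h2
    rw [← side_swap (tree2_isTree h) (adj2 h C)] at h2
    rw [q1_swap] at h2
    have key := const_of_reach (b10g_adj h C) h2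
    rw [b10g_lf] at key
    exact b10g_self h C (key.mpr h1)

/-! ### the splitting with the positions of the points -/

variable {H : Type} [Group H] [MulAction H X]

private theorem b10_splitting (k : Act H c) (h : NP c) (A : X)
    (htrans : ∀ C : X, ∃ g : H, C = g • A ∨ C = c (g • A))
    (U1 : ∃ g : H, g • A < A ∨ c (g • A) < A) (U2 : ∃ g : H, g • A < c A ∨ c (g • A) < c A) :
    ∃ (S : Splitting H) (ν : X → S.V), (∀ D D', ob c D = ob c D' → ν D = ν D') ∧
      (∀ (g : H) (D : X), ν (g • D) = g • ν D) ∧ (∀ g : H, g ∈ S.edgeGroup ↔ g • A = A) ∧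
      ∀ (g : H) (D : X), side S.T (g • S.a) (g • S.b) (ν D) ↔ g • A ∈ ob c D := by
  have hne : Nonempty X := ⟨A⟩
  by_cases hinv : ∃ g : H, g • A = c A
  · -- subdivided tree
    obtain ⟨t, ht⟩ := hinv
    have htr : ∀ C : X, ∃ g : H, g • A = C := by
      intro C
      obtain ⟨g, hg | hg⟩ := htrans C
      · exact ⟨g, hg.symm⟩
      · refine ⟨g * t, ?_⟩
        rw [mul_smul, ht, k.c, hg]
    let _ := k.actW2 h
    have hl : ∀ (g : H) (C : X), g • (Lf h (vt c C)) = Lf h (vt c (g • C)) :=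
      fun _ _ => rfl
    have hr : ∀ (g : H) (C : X), g • (Rt h (md h C)) = Rt h (md h (g • C)) :=
      fun _ _ => rfl
    refine ⟨⟨W2 h, k.actW2 h, tree2 h, Lf h (vt c A), Rt h (md h A), tree2_isTree h, ?_, ?_,
      ?_, adj2 h A, ?_⟩, fun D => Lf h (vt c D), ?_, ?_, ?_, ?_⟩
    · rintro g x y ⟨C, ⟨rfl, rfl⟩ | ⟨rfl, rfl⟩⟩
      · exact ⟨g • C, Or.inl ⟨hl g C, hr g C⟩⟩
      · exact ⟨g • C, Or.inr ⟨hl g C, hr g C⟩⟩
    · rintro g x y ⟨C, ⟨rfl, rfl⟩ | ⟨rfl, rfl⟩⟩ ⟨h1, h2⟩
      · rw [hl] at h1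
        exact Lf_ne_Rt h _ _ h1
      · rw [hr] at h1
        exact Lf_ne_Rt h _ _ h1.symm
    · intro x
      rcases Lf_or_Rt h x with ⟨x, rfl⟩ | ⟨x, rfl⟩
      · obtain ⟨g, C, rfl, hg⟩ := k.no_fix h A htrans U1 U2 x
        refine ⟨g, ?_⟩
        rw [hl]
        intro hh
        exact hg (Lf_inj h hh)
      · by_contra hcon
        push Not at hcon
        obtain ⟨C, rfl⟩ := exists_md h x
        obtain ⟨s, rfl⟩ := htr C
        obtain ⟨g, hg⟩ := U1
        have h1 := hcon (s * g * s⁻¹)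
        rw [hr] at h1
        have h2 := (md_eq h).mp (Rt_inj h h1)
        rw [mul_smul, inv_smul_smul, mul_smul, ← k.c] at h2
        have h3 : A = g • A ∨ A = g • c A := by
          rcases h2 with h2 | h2
          · exact Or.inl (MulAction.injective s h2)
          · rw [← k.c] at h2
            exact Or.inr (MulAction.injective s h2)
        rcases h3 with h3 | h3
        · rw [← h3] at hg
          rcases hg with hg | hg
          · exact lt_irrefl _ hg
          · exact h.irr hg.le le_rfl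
        · rw [k.c] at h3
          rw [← h3] at hg
          rcases hg with hg | hg
          · have h4 : g • A = c A := h.inj (by rw [← h3, h.cc])
            rw [h4] at hg
            exact h.irr hg.le le_rfl
          · exact lt_irrefl _ hg
    · rintro x y ⟨C, ⟨rfl, rfl⟩ | ⟨rfl, rfl⟩⟩
      · obtain ⟨g, rfl⟩ := htr C
        exact ⟨g, Or.inl ⟨hl g A, hr g A⟩⟩
      · obtain ⟨g, rfl⟩ := htr C
        exact ⟨g, Or.inr ⟨hl g A, hr g A⟩⟩
    · intro D D' hD
      exact congrArg (Lf h) (vt_eq.mpr hD)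
    · intro g D
      exact (hl g D).symm
    · intro g
      rw [Splitting.edgeGroup, Subgroup.mem_inf, MulAction.mem_stabilizer_iff,
        MulAction.mem_stabilizer_iff]
      change Lf h (vt c (g • A)) = Lf h (vt c A) ∧
        Rt h (md h (g • A)) = Rt h (md h A) ↔ g • A = A
      constructor
      · rintro ⟨h1, h2⟩
        have h3 := Lf_inj h h1
        have h4 := (md_eq h).mp (Rt_inj h h2)
        rcases h4 with h4 | h4
        · exact h4.symm
        · exact absurd (h3.trans (congrArg (vt c) h4)) (h.vt_ne (g • A))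
      · intro h1
        rw [h1]
        exact ⟨rfl, rfl⟩
    · intro g D
      exact b10_side2 h (g • A) D
  · push Not at hinv
    let _ := k.actW
    have hl : ∀ (g : H) (C : X), g • (vt c C) = vt c (g • C) := fun _ _ => rfl
    refine ⟨⟨W c, k.actW, h.tree, vt c A, vt c (c A), h.tree_isTree, ?_, ?_, ?_, h.adj_vt A, ?_⟩,
      fun D => vt c D, ?_, ?_, ?_, ?_⟩
    · rintro g x y ⟨C, rfl, rfl⟩
      refine ⟨g • C, hl g C, ?_⟩
      rw [hl, k.c]
    · rintro g x y ⟨C, rfl, rfl⟩ ⟨h1, h2⟩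
      rw [hl] at h1 h2
      have h3 : g • C = c C := by
        apply h.edge_inj h1
        rw [← k.c, h2, h.cc]
      obtain ⟨t, ht | ht⟩ := htrans C
      · apply hinv (t⁻¹ * g * t)
        rw [mul_smul, mul_smul, ← ht, h3, ht, ← k.c, inv_smul_smul]
      · apply hinv (t⁻¹ * g * t)
        have h4 : g • (t • A) = c (t • A) := by
          apply h.inj
          rw [← k.c, ← ht, h3]
        rw [mul_smul, mul_smul, h4, ← k.c, inv_smul_smul]
    · intro x
      obtain ⟨g, C, rfl, hg⟩ := k.no_fix h A htrans U1 U2 x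
      exact ⟨g, hg⟩
    · rintro x y ⟨C, rfl, rfl⟩
      obtain ⟨t, rfl | rfl⟩ := htrans C
      · refine ⟨t, Or.inl ⟨hl t A, ?_⟩⟩
        rw [hl, k.c]
      · refine ⟨t, Or.inr ⟨?_, ?_⟩⟩
        · rw [hl, h.cc]
        · rw [hl, k.c]
    · intro D D' hD
      exact vt_eq.mpr hD
    · intro g D
      exact (hl g D).symm
    · intro g
      rw [Splitting.edgeGroup, Subgroup.mem_inf, MulAction.mem_stabilizer_iff,
        MulAction.mem_stabilizer_iff]
      change vt c (g • A) = vt c A ∧ vt c (g • c A) = vt c (c A) ↔ g • A = A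
      constructor
      · rintro ⟨h1, h2⟩
        rw [k.c] at h2
        exact h.edge_inj h1 h2
      · intro h1
        rw [k.c, h1]
        exact ⟨rfl, rfl⟩
    · intro g D
      change side h.tree (vt c (g • A)) (vt c (g • c A)) (vt c D) ↔ g • A ∈ ob c D
      rw [k.c]
      exact b10_side h (g • A) D

end abs

/-! ### the theorem -/

theorem sb10 : SB10 := by
  intro P V _ _ A hnest hfin hne hne' hU1 hU2
  have hNP : NP (cp : Hs P A → Hs P A) := np A hne hne' hnest hfin
  let A' : Hs P A := ⟨A, 1, Or.inl (tr_one A).symm⟩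
  have htrans : ∀ C : Hs P A, ∃ g : P, C = g • A' ∨ C = cp (g • A') := by
    rintro ⟨C, g, hC | hC⟩
    · exact ⟨g, Or.inl (Subtype.ext hC)⟩
    · exact ⟨g, Or.inr (Subtype.ext hC)⟩
  have hlt : ∀ {C D : Hs P A}, C.1 ⊂ D.1 → C < D := fun {C D} hh =>
    lt_of_le_of_ne hh.subset fun h2 => hh.ne (congrArg Subtype.val h2)
  have U1 : ∃ g : P, g • A' < A' ∨ cp (g • A') < A' := by
    obtain ⟨g, hg | hg⟩ := hU1
    · exact ⟨g, Or.inl (hlt hg)⟩
    · exact ⟨g, Or.inr (hlt hg)⟩
  have U2 : ∃ g : P, g • A' < cp A' ∨ cp (g • A') < cp A' := by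
    obtain ⟨g, hg | hg⟩ := hU2
    · exact ⟨g, Or.inl (hlt hg)⟩
    · exact ⟨g, Or.inr (hlt hg)⟩
  obtain ⟨E, ν, hν1, hν2, hν3, hν4⟩ := b10_splitting (act A) hNP A' htrans U1 U2
  -- the half-space of a point
  have key : ∀ x : V, ∃ C : Hs P A, ob cp C = {D | x ∈ D.1} := by
    intro x
    obtain ⟨C₀, hC₀⟩ : ∃ C₀ : Hs P A, x ∈ C₀.1 := by
      by_cases hx : x ∈ A
      · exact ⟨A', hx⟩
      · exact ⟨cp A', hx⟩
    have hn : ∀ C : Hs P A, C.1.Nonempty := by
      rintro ⟨C, h, rfl | rfl⟩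
      · exact ne_tr hne h
      · exact ne_tr hne' h
    obtain ⟨y, hy⟩ := hn (cp C₀)
    have hy : y ∉ C₀.1 := hy
    have hf : {D : Hs P A | x ∈ D.1 ∧ D ≤ C₀}.Finite := by
      have h1 := hfin x y
      have h2 := (hfin y x).image (fun B => Bᶜ)
      have hinj : Function.Injective (fun C : Hs P A => C.1) := Subtype.val_injective
      refine Set.Finite.subset ((h1.union h2).preimage (f := fun C : Hs P A => C.1)
        (fun a _ b _ hab => hinj hab)) ?_
      rintro ⟨Z, h, hZ⟩ ⟨hxZ, hZD⟩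
      have hyZ : y ∉ Z := fun hh => hy (hZD hh)
      have hxZ : x ∈ Z := hxZ
      rcases hZ with rfl | rfl
      · exact Or.inl ⟨⟨h, rfl⟩, hxZ, hyZ⟩
      · refine Or.inr ⟨tr h A, ⟨⟨h, rfl⟩, ?_, hxZ⟩, rfl⟩
        by_contra hh
        exact hyZ hh
    obtain ⟨C, hC⟩ := hf.exists_minimal ⟨C₀, hC₀, le_rfl⟩
    obtain ⟨⟨hxC, hCC₀⟩, hmin⟩ := hC
    have hmin' : ∀ D : Hs P A, x ∈ D.1 → D ≤ C → D = C := fun D h1 h2 =>
      le_antisymm h2 (hmin ⟨h1, h2.trans hCC₀⟩ h2)
    refine ⟨C, ?_⟩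
    ext D
    simp only [ob, Set.mem_ofPred_eq]
    constructor
    · rintro (h1 | h1)
      · exact h1 hxC
      · by_contra hxD
        have h2 : cp D < C := hNP.c_lt.mp h1
        have h3 := hmin' (cp D) hxD h2.le
        rw [h3] at h2
        exact lt_irrefl _ h2
    · intro hxD
      rcases hNP.nest C D with h1 | h1 | h1 | h1
      · exact Or.inl h1
      · exact absurd hxD (h1 hxC)
      · refine Or.inr (lt_of_le_of_ne h1 ?_)
        rintro rfl
        exact hxD hxC
      · rw [hNP.anti_iff] at h1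
        rw [hmin' D hxD h1]
        exact Or.inl le_rfl
  choose τ hτ using key
  refine ⟨E, fun x => ν (τ x), ?_, ?_, ?_⟩
  · intro h x
    rw [← hν2]
    apply hν1
    ext D
    rw [hτ, (act A).mem_ob, hτ]
    change h • x ∈ D.1 ↔ x ∈ tr h⁻¹ D.1
    simp [tr]
  · intro h
    rw [hν3]
    exact ⟨fun hh => congrArg Subtype.val hh, fun hh => Subtype.ext hh⟩
  · intro h x
    rw [hν4, hτ]
    rfl

end Pool.Agent.QD
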