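import Pool.Agent.QD.BDefs

/-!
# MP_bbdce3_al, project QD, row B2: local finiteness of the half-spaces of a piece
-/

set_option autoImplicit false

namespace Pool.Agent.QD

open Pool.Agent.QIS

section

variable {G : Type} [Group G]

private theorem b2_zpow {H : Set G} {c : G} (hc : ∀ x, c * x ∈ H ↔ x ∈ H) (i : ℤ) :
    ∀ x, c ^ i * x ∈ H ↔ x ∈ H := by
  induction i using Int.induction_on with
  | zero =>
    intro x
    rw [zpow_zero, one_mul]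
  | succ i ih =>
    intro x
    rw [zpow_add_one, mul_assoc, ih, hc]
  | pred i ih =>
    intro x
    rw [zpow_sub_one, mul_assoc, ih, ← hc (c⁻¹ * x), mul_inv_cancel_left]

end

/-- B2: local finiteness -/
theorem sb2 : SB2 := by
  intro G _ S hS hSg P HH hP x m
  obtain ⟨F0, hF0, hF0o⟩ := hP.orb
  have hch : ∀ H' : Set G, ∃ (c : G) (Fb : Set G), Fb.Finite ∧ (H' ∈ HH →
      (∀ z, c * z ∈ H' ↔ z ∈ H') ∧ ∀ a b, wdist S a b ≤ m → a ∈ H' → b ∉ H' →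
        ∃ i : ℤ, c ^ i * a ∈ Fb) := by
    intro H'
    by_cases h : H' ∈ HH
    · obtain ⟨c, _, hc⟩ := hP.hs H' h
      obtain ⟨Fb, h1, h2⟩ := hc.bd m
      exact ⟨c, Fb, h1, fun _ => ⟨hc.inv, h2⟩⟩
    · exact ⟨1, ∅, Set.finite_empty, fun h' => absurd h' h⟩
  choose c Fb hFb hc using hch
  have hFB : (⋃ H' ∈ F0, Fb H').Finite := hF0.biUnion fun H' _ => hFb H'
  have hball := ball_finite hS hSg x m
  refine ((hFB.prod (hball.prod hF0)).image (fun t => tl (t.2.1 * t.1⁻¹) t.2.2)).subset ?_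
  rintro H ⟨hH, y, hxy, hne⟩
  obtain ⟨u, v, hu, hv, hxu, huv⟩ : ∃ u v, u ∈ H ∧ v ∉ H ∧ wdist S x u ≤ m ∧ wdist S u v ≤ m := by
    by_cases hx : x ∈ H
    · refine ⟨x, y, hx, fun hy => hne ⟨fun _ => hy, fun _ => hx⟩, ?_, hxy⟩
      rw [wdist_self]
      exact Nat.zero_le _
    · refine ⟨y, x, ?_, hx, hxy, ?_⟩
      · by_contra hy
        exact hne ⟨fun h => absurd h hx, fun h => absurd h hy⟩
      · rw [wdist_comm hSg]
        exact hxy
  obtain ⟨q, hq, hqF⟩ := hF0o H hH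
  have hqH : tl q H ∈ HH := hP.inv q hq H hH
  obtain ⟨hinv, hbd⟩ := hc (tl q H) hqH
  have e : ∀ z, q * z ∈ tl q H ↔ z ∈ H := by
    intro z
    show q⁻¹ * (q * z) ∈ H ↔ z ∈ H
    rw [inv_mul_cancel_left]
  obtain ⟨i, hi⟩ := hbd (q * u) (q * v) (by rw [wdist_mul_left]; exact huv) ((e u).2 hu)
    (fun h => hv ((e v).1 h))
  refine ⟨((c (tl q H)) ^ i * (q * u), u, tl q H), ⟨?_, hxu, hqF⟩, ?_⟩
  · simp only [Set.mem_iUnion]
    exact ⟨tl q H, hqF, hi⟩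
  · ext z
    show (u * ((c (tl q H)) ^ i * (q * u))⁻¹)⁻¹ * z ∈ tl q H ↔ z ∈ H
    have e2 : (u * ((c (tl q H)) ^ i * (q * u))⁻¹)⁻¹ * z = (c (tl q H)) ^ i * (q * z) := by
      group
    rw [e2, b2_zpow hinv, e]

end Pool.Agent.QD
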