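import Pool.Agent.QD.Stm
import Mathlib.GroupTheory.Transfer

/-!
# Row B5 of the project QD (MP_bbdce3_al): torsion-free two-ended groups are cyclic
-/

set_option autoImplicit false

namespace Pool.Agent.QD

open Pool.Agent.QIS MulAction

private theorem b5_conj {C : Type} [Group C] {z g : C} {j k : ℤ}
    (h : g * z ^ j * g⁻¹ = z ^ k) (i : ℕ) : g ^ i * z ^ (j ^ i) * (g ^ i)⁻¹ = z ^ (k ^ i) := by
  induction i with
  | zero => simp
  | succ i ih =>
    have e1 : g ^ (i + 1) * z ^ (j ^ (i + 1)) * (g ^ (i + 1))⁻¹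
        = g ^ i * (g * z ^ j * g⁻¹) ^ (j ^ i) * (g ^ i)⁻¹ := by
      rw [conj_zpow, ← zpow_mul, pow_succ j i, mul_comm (j ^ i) j, pow_succ g i]
      group
    rw [e1, h, ← zpow_mul]
    have e2 : g ^ i * z ^ (k * j ^ i) * (g ^ i)⁻¹ = (g ^ i * z ^ (j ^ i) * (g ^ i)⁻¹) ^ k := by
      rw [conj_zpow, ← zpow_mul, mul_comm k]
    rw [e2, ih, ← zpow_mul, pow_succ]

private theorem b5_inj {C : Type} [Group C] {z : C} (hz : ∀ n : ℕ, 0 < n → z ^ n ≠ 1) {j k : ℤ}
    (h : z ^ j = z ^ k) : j = k := by
  have h0 : ¬ IsOfFinOrder z := by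
    rw [isOfFinOrder_iff_pow_eq_one]
    rintro ⟨n, hn, h1⟩
    exact hz n hn h1
  exact injective_zpow_iff_not_isOfFinOrder.mpr h0 h

theorem sb5 : SB5 := by
  intro C _ hTF hTE
  obtain ⟨z, hz, hfi⟩ := hTE
  have := hfi
  set N : Subgroup C := (Subgroup.zpowers z).normalCore with hN
  have hNle : N ≤ Subgroup.zpowers z := Subgroup.normalCore_le _
  have hNfi : N.FiniteIndex := inferInstance
  have hm0 : N.index ≠ 0 := hNfi.index_ne_zero
  have hcen : N ≤ Subgroup.center C := by
    intro n hn
    rw [Subgroup.mem_center_iff]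
    intro g
    obtain ⟨j, hj⟩ := Subgroup.mem_zpowers_iff.mp (hNle hn)
    have hgn : g * n * g⁻¹ ∈ N := (Subgroup.normalCore_normal _).conj_mem n hn g
    obtain ⟨k, hk⟩ := Subgroup.mem_zpowers_iff.mp (hNle hgn)
    by_cases hg0 : j = 0
    · rw [hg0, zpow_zero] at hj
      rw [← hj]; simp
    have h1 : g * z ^ j * g⁻¹ = z ^ k := by rw [hj, hk]
    have hgm : g ^ N.index ∈ N := N.pow_index_mem g
    obtain ⟨l, hl⟩ := Subgroup.mem_zpowers_iff.mp (hNle hgm)
    have h2 := b5_conj h1 N.index
    rw [← hl] at h2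
    have h3 : z ^ l * z ^ (j ^ N.index) * (z ^ l)⁻¹ = z ^ (j ^ N.index) := by
      rw [← zpow_add, add_comm, zpow_add]; group
    rw [h3] at h2
    have h4 : j ^ N.index = k ^ N.index := b5_inj hz h2
    have h5 : |j| = |k| := by
      have : |j| ^ N.index = |k| ^ N.index := by rw [← abs_pow, ← abs_pow, h4]
      exact (pow_left_inj₀ (abs_nonneg _) (abs_nonneg _) hm0).mp this
    rcases abs_eq_abs.mp h5 with h6 | h6
    · have : g * n * g⁻¹ = n := by rw [← hk, ← hj, h6]
      calc g * n = (g * n * g⁻¹) * g := by group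
        _ = n * g := by rw [this]
    · -- g n g⁻¹ = n⁻¹
      have h7 : g * n * g⁻¹ = n⁻¹ := by
        rw [← hk, ← hj, h6, zpow_neg, inv_inv]
      by_cases hg : g = 1
      · subst hg; simp
      · exfalso
        have h8 : g * z ^ l * g⁻¹ = z ^ l := by
          rw [hl]
          have : g * g ^ N.index = g ^ N.index * g := by rw [← pow_succ', ← pow_succ]
          rw [this]; group
        have h9 : g * (z ^ l) ^ j * g⁻¹ = (z ^ l) ^ j := by
          rw [← conj_zpow, h8]
        have h10 : g * (z ^ l) ^ j * g⁻¹ = ((z ^ l) ^ j)⁻¹ := by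
          have e : (z ^ l) ^ j = n ^ l := by rw [← hj, ← zpow_mul, ← zpow_mul, mul_comm]
          rw [e, ← conj_zpow, h7, inv_zpow]
        rw [h9] at h10
        have h11 : z ^ (l * j) = z ^ (-(l * j)) := by
          rw [zpow_neg, zpow_mul]; exact h10
        have h12 := b5_inj hz h11
        have h13 : l * j = 0 := by omega
        rcases mul_eq_zero.mp h13 with h14 | h14
        · rw [h14, zpow_zero] at hl
          exact hTF g hg N.index (Nat.pos_of_ne_zero hm0) hl.symm
        · exact hg0 h14
  have hfc : (Subgroup.center C).FiniteIndex := Subgroup.finiteIndex_of_le hcen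
  have hc0 : (Subgroup.center C).index ≠ 0 := hfc.index_ne_zero
  have hcomm : ∀ x y : C, x * y = y * x := by
    have hinj : ∀ x : C, MonoidHom.transferCenterPow C x = 1 → x = 1 := by
      intro x hx
      by_contra hx1
      refine hTF x hx1 _ (Nat.pos_of_ne_zero hc0) ?_
      rw [← MonoidHom.transferCenterPow_apply, hx]; rfl
    have hinj2 : Function.Injective (MonoidHom.transferCenterPow C) :=
      (injective_iff_map_eq_one _).mpr hinj
    intro x y
    apply hinj2
    rw [map_mul, map_mul]
    have hx := (MonoidHom.transferCenterPow C y).2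
    rw [Subgroup.mem_center_iff] at hx
    exact Subtype.ext (hx _)
  have hnorm : (Subgroup.zpowers z).Normal := by
    constructor
    intro n hn g
    have : g * n * g⁻¹ = n := by rw [hcomm g n, mul_assoc, mul_inv_cancel, mul_one]
    rw [this]; exact hn
  have hz0 : (Subgroup.zpowers z).index ≠ 0 := hfi.index_ne_zero
  let f : C →* Subgroup.zpowers z :=
    { toFun := fun x => ⟨x ^ (Subgroup.zpowers z).index, (Subgroup.zpowers z).pow_index_mem x⟩
      map_one' := by ext; simp
      map_mul' := by
        intro x y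
        ext
        exact (show Commute x y from hcomm x y).mul_pow _ }
  have hf : Function.Injective f := by
    rw [injective_iff_map_eq_one]
    intro x hx
    by_contra hx1
    exact hTF x hx1 _ (Nat.pos_of_ne_zero hz0) (congrArg Subtype.val hx)
  have hcyc : IsCyclic C := isCyclic_of_injective f hf
  exact hcyc.exists_generator

end Pool.Agent.QD
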