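import Pool.Agent.QD.Defs

/-!
# Statements of the rows of the project QD (MP_bbdce3_al)
-/

set_option autoImplicit false

namespace Pool.Agent.QD

open Pool.Agent.QIS MulAction

/-! ## A: stability, half-spaces, key lemma -/

/-- A1: the group algebra embeds in a division ring -/
def SA1 : Prop := ∀ (G : Type) [Group G] (S : Set G), S.Finite → Subgroup.closure S = ⊤ →
  ∀ (k D : Type) [Field k] [DivisionRing D] (ι : MonoidAlgebra k G →+* D),
    Function.Injective ι → StAll S k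

/-- A2 -/
def SA2 : Prop := ∀ (G : Type) [Group G] (S : Set G), S.Finite → Subgroup.closure S = ⊤ →
  OneEnded S → ∀ (k : Type) [Field k], StAll S k → PFS S k Set.univ

/-- A3: half-spaces are coarsely connected -/
def SA3 : Prop := ∀ (G : Type) [Group G] (S : Set G), S.Finite → Subgroup.closure S = ⊤ →
  ∀ (H : Set G) (c : G), HS S H c → ∃ r, ∀ r', r ≤ r' → CConn S H r'

/-- A4: finite cocycles on a half-space -/
def SA4 : Prop := ∀ (G : Type) [Group G] (S : Set G), S.Finite → Subgroup.closure S = ⊤ →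
  ∀ (k : Type) [Field k], PFS S k Set.univ → ∀ (H : Set G) (c : G), HS S H c → PFS S k H

/-- A5: uniformity over the half-spaces of a piece -/
def SA5 : Prop := ∀ (G : Type) [Group G] (S : Set G), S.Finite → Subgroup.closure S = ⊤ →
  ∀ (k : Type) [Field k] (P : Subgroup G) (HH : Set (Set G)), Piece S P HH →
    (∀ H ∈ HH, PFS S k H) → ∀ r : ℕ, ∃ n : ℕ, r ≤ n ∧ ∀ H ∈ HH, ∀ φ : G → G → k,
      Coc S H n φ → FinC S H n φ → ∃ f : G → k, (Function.support f).Finite ∧ Prim S H r φ f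

/-- A6: primitives on a strip -/
def SA6 : Prop := ∀ (G : Type) [Group G] (S : Set G), S.Finite → Subgroup.closure S = ⊤ →
  ∀ (k : Type) [Field k] (H : Set G) (c : G), HS S H c → ∀ s r : ℕ, ∃ n : ℕ, r ≤ n ∧
    ∀ n', n ≤ n' → ∀ ψ : G → G → k, Coc S (Strip S s H) n' ψ → FinC S (Strip S s H) n' ψ →
      ∀ y ∈ Strip S s H, wdist S y (c * y) ≤ n' → Jp c y ψ = 0 →
        ∃ g : G → k, (Function.support g).Finite ∧ Prim S (Strip S s H) r ψ g ∧
          ∀ x, x ∉ Strip S s H → g x = 0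

/-- A7: the key lemma -/
def SA7 : Prop := ∀ (G : Type) [Group G] (S : Set G), S.Finite → Subgroup.closure S = ⊤ →
  OneEnded S → ∀ (k : Type) [Field k], PFS S k Set.univ → ∃ n : ℕ, ∀ (κ Dd M' : ℕ → ℕ) (w : Mk G),
    IsWall S κ Dd M' w → ∀ t : ℤ, ¬ ∃ ψ : G → G → k, FinC S Set.univ n ψ ∧
      ∀ x y z, wdist S x y ≤ n → wdist S y z ≤ n → wdist S x z ≤ n →
        ψ x y + ψ y z - ψ x z = dd k w t x y z

/-- A8 -/
def SA8 : Prop := ∀ (G : Type) [Group G] (k D : Type) [Field k] [DivisionRing D]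
  (ι : MonoidAlgebra k G →+* D), Function.Injective ι → TF G

/-- A9: elementary facts on half-spaces -/
def SA9 : Prop := ∀ (G : Type) [Group G] (S : Set G), S.Finite → Subgroup.closure S = ⊤ →
  ∀ (H : Set G) (c : G), HS S H c → HS S Hᶜ c ∧ HS S H c⁻¹ ∧ (∀ n : ℕ, 0 < n → HS S H (c ^ n)) ∧
    (∀ g : G, HS S (tl g H) (g * c * g⁻¹)) ∧
    (∀ C : Subgroup G, c ∈ C → (∀ g ∈ C, tl g H = H) → TwoEnded C)

/-! ## B: crossing gives nested cuts -/

/-- B1: the region of a piece -/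
def SB1 : Prop := ∀ (G : Type) [Group G] (S : Set G), S.Finite → Subgroup.closure S = ⊤ →
  ∀ (P : Subgroup G) (HH : Set (Set G)), Piece S P HH → ∀ s : ℕ,
    Inv P (Yr S s HH) ∧ Cof P (Yr S s HH) ∧ (1 ≤ s → ∃ r, ∀ r', r ≤ r' → CConn S (Yr S s HH) r')

/-- B2: local finiteness -/
def SB2 : Prop := ∀ (G : Type) [Group G] (S : Set G), S.Finite → Subgroup.closure S = ⊤ →
  ∀ (P : Subgroup G) (HH : Set (Set G)), Piece S P HH → ∀ (x : G) (m : ℕ),
    {H : Set G | H ∈ HH ∧ ∃ y, wdist S x y ≤ m ∧ ¬ (x ∈ H ↔ y ∈ H)}.Finite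

/-- B3: crossing gives a bad cocycle -/
def SB3 : Prop := ∀ (G : Type) [Group G] (S : Set G), S.Finite → Subgroup.closure S = ⊤ →
  OneEnded S → ∀ (k : Type) [Field k], StAll S k → ∀ (P : Subgroup G) (HH : Set (Set G)),
    Piece S P HH → ∀ H₀ ∈ HH, ∃ s₁, ∀ s, s₁ ≤ s → ∃ m₁, ∀ m, m₁ ≤ m → ∃ n₁, ∀ n, n₁ ≤ n →
      ¬ Bad S k HH s m n H₀ → Uncr S H₀

/-- B4: a bad cocycle gives a cut that crosses exactly two lines -/
def SB4 : Prop := ∀ (G : Type) [Group G] (S : Set G), S.Finite → Subgroup.closure S = ⊤ →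
  OneEnded S → ∀ (k : Type) [Field k], StAll S k → ∀ (P : Subgroup G) (HH : Set (Set G)),
    Piece S P HH → ∀ H₀ ∈ HH, ∀ s, 1 ≤ s → ∃ m₂, ∀ m, m₂ ≤ m → ∃ n₂, ∀ n, n₂ ≤ n →
      Bad S k HH s m n H₀ → ∃ (r : ℕ) (E : Set G), IsCut2 S HH s r E

/-- B5: torsion-free two-ended groups are cyclic -/
def SB5 : Prop := ∀ (C : Type) [Group C], TF C → TwoEnded C → ∃ c : C, ∀ x : C,
  x ∈ Subgroup.zpowers c

/-- B6: equivariant generators and lines -/
def SB6 : Prop := ∀ (G : Type) [Group G] (S : Set G), S.Finite → Subgroup.closure S = ⊤ →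
  TF G → ∀ (P : Subgroup G) (HH : Set (Set G)), Piece S P HH → ∃ (c : Set G → P) (Λ : Set G → Set G),
    ∀ H ∈ HH, HS S H (c H : G) ∧ (∀ p : P, tl (p : G) H = H → p ∈ Subgroup.zpowers (c H)) ∧
      (∀ p : P, c (tl (p : G) H) = p * c H * p⁻¹) ∧
      (∃ y ∈ Strip S 1 H, Λ H = {x | ∃ i : ℤ, x = (c H : G) ^ i * y}) ∧
      ∀ p : P, Λ (tl (p : G) H) = tl (p : G) (Λ H)

/-- B7: nested cuts of minimal boundary -/
def SB7 : Prop := ∀ (P V : Type) [Group P] [MulAction P V] (Γ : SimpleGraph V), Γ.Connected →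
  (∀ (h : P) {x y : V}, Γ.Adj x y → Γ.Adj (h • x) (h • y)) → ∀ A₀ : Set V, IsCut Γ A₀ →
    ∃ A : Set V, IsCut Γ A ∧ (∀ B, IsCut Γ B → (bdry Γ A).ncard ≤ (bdry Γ B).ncard) ∧
      (∀ h : P, Nested A (tr h A)) ∧
      ∀ x y : V, {B : Set V | (∃ h : P, B = tr h A) ∧ x ∈ B ∧ y ∉ B}.Finite

/-- `A` and `B` are nested as subsets of `Y` -/
def NestIn {G : Type} (Y A B : Set G) : Prop := A ⊆ B ∨ Disjoint A B ∨ Y ⊆ A ∪ B ∨ B ⊆ A

/-- B8: a cut that crosses at most one line is trivial -/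
def SB8 : Prop := ∀ (G : Type) [Group G] (S : Set G), S.Finite → Subgroup.closure S = ⊤ →
  OneEnded S → ∀ (k : Type) [Field k], StAll S k → ∀ (P : Subgroup G) (HH : Set (Set G)),
    Piece S P HH → ∀ s r : ℕ, 1 ≤ s → CConn S (Yr S s HH) r → ∀ E : Set G, E ⊆ Yr S s HH →
      FinBd S (Yr S s HH) r E → (∃ H₁, ∀ H ∈ HH, Sep S s H E → H = H₁) →
        E.Finite ∨ (Yr S s HH \ E).Finite

/-- B9: a nested cut that crosses exactly two lines -/
def SB9 : Prop := ∀ (G : Type) [Group G] (S : Set G), S.Finite → Subgroup.closure S = ⊤ →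
  OneEnded S → ∀ (k : Type) [Field k], StAll S k → TF G →
    ∀ (P : Subgroup G) (HH : Set (Set G)), Piece S P HH → ∀ (s r : ℕ) (E : Set G),
      IsCut2 S HH s r E → ∃ (r' : ℕ) (A : Set G), IsCut2 S HH s r' A ∧
        (∀ p ∈ P, NestIn (Yr S s HH) A (tl p A)) ∧
        ∀ x ∈ Yr S s HH, ∀ y ∈ Yr S s HH,
          {B : Set G | (∃ p ∈ P, B = tl p A) ∧ x ∈ B ∧ y ∉ B}.Finite

/-- B10: the dual tree of a nested family -/
def SB10 : Prop := ∀ (P V : Type) [Group P] [MulAction P V] (A : Set V),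
  (∀ h : P, Nested A (tr h A)) →
  (∀ x y : V, {B : Set V | (∃ h : P, B = tr h A) ∧ x ∈ B ∧ y ∉ B}.Finite) →
  A.Nonempty → Aᶜ.Nonempty → (∃ g : P, tr g A ⊂ A ∨ (tr g A)ᶜ ⊂ A) →
  (∃ g : P, tr g A ⊂ Aᶜ ∨ (tr g A)ᶜ ⊂ Aᶜ) →
  ∃ (E : Splitting P) (π : V → E.V), (∀ (h : P) (x : V), π (h • x) = h • π x) ∧
    (∀ h : P, h ∈ E.edgeGroup ↔ tr h A = A) ∧
    ∀ (h : P) (x : V), x ∈ tr h A ↔ side E.T (h • E.a) (h • E.b) (π x)

/-- B11: the tree with lines -/
def SB11 : Prop := ∀ (G : Type) [Group G] (S : Set G), S.Finite → Subgroup.closure S = ⊤ →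
  TF G → ∀ (P : Subgroup G) (HH : Set (Set G)), Piece S P HH → ∀ (s r : ℕ) (A : Set G),
    IsCut2 S HH s r A → (∀ p ∈ P, NestIn (Yr S s HH) A (tl p A)) →
    (∀ x ∈ Yr S s HH, ∀ y ∈ Yr S s HH,
      {B : Set G | (∃ p ∈ P, B = tl p A) ∧ x ∈ B ∧ y ∉ B}.Finite) → Nonempty (LT S P HH)

/-- B12: the group of a piece is finitely generated -/
def SB12 : Prop := ∀ (G : Type) [Group G] (S : Set G), S.Finite → Subgroup.closure S = ⊤ →
  ∀ (P : Subgroup G) (HH : Set (Set G)), Piece S P HH → P.FG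

/-! ## C: trees, new pieces, start and end -/

/-- vertices on the line of `c` -/
def Tau {P V : Type} [Group P] [MulAction P V] (T : SimpleGraph V) (c : P) (w : V) : Prop :=
  c • w = w ∨ ∃ z, T.Adj w z ∧ Crs T c w z

/-- C1: lines in a tree with trivial edge stabilizers -/
def SC1 : Prop := ∀ (P : Type) [Group P] (E : Splitting P), E.edgeGroup = ⊥ → ∀ c : P,
  (∀ n : ℕ, 0 < n → c ^ n ≠ 1) →
  (∀ v x y : E.V, E.T.Adj x y → (PlE E.T c v x y ∨ PlE E.T c v y x)) ∧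
  (∀ v v' x y : E.V, E.T.Adj x y → PlE E.T c v x y → PlE E.T c v' x y) ∧
  (∃ w : E.V, Tau E.T c w) ∧
  (∀ w : E.V, c • w = w → (∀ x y, E.T.Adj x y → ¬ Crs E.T c x y) ∧
    ∀ w' : E.V, c • w' = w' → w' = w) ∧
  (∀ w z : E.V, E.T.Adj w z → Crs E.T c w z → ∃ z', z' ≠ z ∧ E.T.Adj w z' ∧ Crs E.T c w z' ∧
    ∀ z'', E.T.Adj w z'' → Crs E.T c w z'' → z'' = z ∨ z'' = z') ∧
  (∀ w w' u z : E.V, E.T.Adj u z → Tau E.T c w → Tau E.T c w' → side E.T z u w →
    side E.T u z w' → Crs E.T c u z)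

variable {G : Type} [Group G] {S : Set G} {P : Subgroup G} {HH : Set (Set G)}

/-- the graph of the tree and the half-spaces -/
def Ad1 (t : LT S P HH) : (t.E.V ⊕ Set G) → (t.E.V ⊕ Set G) → Prop
  | Sum.inl w, Sum.inl w' => t.E.T.Adj w w'
  | Sum.inl w, Sum.inr H => H ∈ HH ∧ Tau t.E.T (t.c H) w
  | Sum.inr H, Sum.inl w => H ∈ HH ∧ Tau t.E.T (t.c H) w
  | Sum.inr _, Sum.inr _ => False

/-- joined in this graph without using the vertex `u` -/
def Rch (t : LT S P HH) (u : t.E.V) (a b : t.E.V ⊕ Set G) : Prop :=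
  Relation.ReflTransGen (fun a b => Ad1 t a b ∧ a ≠ Sum.inl u ∧ b ≠ Sum.inl u) a b

open Classical in
/-- the class of a point -/
noncomputable def cls (t : LT S P HH) (π : G → t.E.V) (x : G) : t.E.V ⊕ Set G :=
  if h : ∃ H ∈ HH, x ∈ H then Sum.inr h.choose else Sum.inl (π x)

/-- the part of `G` seen from `u` through `a` -/
def Zc (t : LT S P HH) (π : G → t.E.V) (u : t.E.V) (a : t.E.V ⊕ Set G) : Set G :=
  {x | cls t π x ≠ Sum.inl u ∧ Rch t u a (cls t π x)}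

/-- the half-spaces around the vertex `u` -/
def HHu (t : LT S P HH) (π : G → t.E.V) (u : t.E.V) : Set (Set G) :=
  {Z | ∃ a, Ad1 t (Sum.inl u) a ∧ Z = Zc t π u a}

/-- the stabilizer of the vertex `u`, as a subgroup of `G` -/
def Sb (t : LT S P HH) (u : t.E.V) : Subgroup G := (stabilizer P u).map P.subtype

end Pool.Agent.QD

namespace Pool.Agent.QD

open Pool.Agent.QIS MulAction

/-- C2: the chain of lines around a vertex -/
def SC2 : Prop := ∀ (G : Type) [Group G] (S : Set G), S.Finite → Subgroup.closure S = ⊤ →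
  TF G → ∀ (P : Subgroup G) (HH : Set (Set G)), Piece S P HH → ∀ (t : LT S P HH) (u z : t.E.V),
    t.E.T.Adj u z → ∃ q : P, q • u = u ∧ Rch t u (Sum.inl z) (Sum.inl (q • z)) ∧
      ∃ F : Set t.E.V, F.Finite ∧ ∀ z', t.E.T.Adj u z' → Rch t u (Sum.inl z) (Sum.inl z') →
        ∃ i : ℤ, q ^ i • z' ∈ F

/-- C3: an equivariant map -/
def SC3 : Prop := ∀ (G : Type) [Group G] (P : Subgroup G) (V : Type) [MulAction P V] [Nonempty V],
  ∃ π : G → V, ∀ (p : P) (x : G), π ((p : G) * x) = p • π x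

/-- C4: the new half-spaces, without the half-space property -/
def SC4 : Prop := ∀ (G : Type) [Group G] (S : Set G), S.Finite → Subgroup.closure S = ⊤ →
  TF G → ∀ (P : Subgroup G) (HH : Set (Set G)), Piece S P HH → ∀ (t : LT S P HH) (π : G → t.E.V),
    (∀ (p : P) (x : G), π ((p : G) * x) = p • π x) → ∀ u : t.E.V,
      (∀ p ∈ Sb t u, ∀ H ∈ HHu t π u, tl p H ∈ HHu t π u) ∧
      (∀ H ∈ HHu t π u, ∀ H' ∈ HHu t π u, H ≠ H' → Disjoint H H') ∧
      (∃ F : Set (Set G), F.Finite ∧ ∀ H ∈ HHu t π u, ∃ p ∈ Sb t u, tl p H ∈ F) ∧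
      (∃ F : Set G, F.Finite ∧ ∀ x, (∀ H ∈ HHu t π u, x ∉ H) → ∃ p ∈ Sb t u, p * x ∈ F) ∧
      (∀ g, g ∉ Sb t u → ∃ H ∈ HHu t π u, ∃ H' ∈ HHu t π u, (tl g H')ᶜ ⊆ H) ∧
      (HHu t π u).Nonempty

/-- C5: the boundaries of the new half-spaces -/
def SC5 : Prop := ∀ (G : Type) [Group G] (S : Set G), S.Finite → Subgroup.closure S = ⊤ →
  TF G → ∀ (P : Subgroup G) (HH : Set (Set G)), Piece S P HH → ∀ (t : LT S P HH) (π : G → t.E.V),
    (∀ (p : P) (x : G), π ((p : G) * x) = p • π x) → ∀ u z : t.E.V, t.E.T.Adj u z →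
      ∀ q : P, q • u = u → Rch t u (Sum.inl z) (Sum.inl (q • z)) →
      (∃ F : Set t.E.V, F.Finite ∧ ∀ z', t.E.T.Adj u z' → Rch t u (Sum.inl z) (Sum.inl z') →
        ∃ i : ℤ, q ^ i • z' ∈ F) →
      (∀ x, (q : G) * x ∈ Zc t π u (Sum.inl z) ↔ x ∈ Zc t π u (Sum.inl z)) ∧
      ∀ n : ℕ, ∃ F : Set G, F.Finite ∧ ∀ x y, wdist S x y ≤ n → x ∈ Zc t π u (Sum.inl z) →
        y ∉ Zc t π u (Sum.inl z) → ∃ i : ℤ, (q : G) ^ i * x ∈ F

/-- C6: the new half-spaces are deep -/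
def SC6 : Prop := ∀ (G : Type) [Group G] (S : Set G), S.Finite → Subgroup.closure S = ⊤ →
  TF G → ∀ (P : Subgroup G) (HH : Set (Set G)), Piece S P HH → ∀ (t : LT S P HH) (π : G → t.E.V),
    (∀ (p : P) (x : G), π ((p : G) * x) = p • π x) → ∀ u z : t.E.V, t.E.T.Adj u z →
      Infinite (stabilizer P u) → ∀ F : Set G, F.Finite →
        ∃ x ∈ Zc t π u (Sum.inl z), ∀ p ∈ Sb t u, p * x ∉ F

/-- C17: the new half-spaces are half-spaces -/
def SC17 : Prop := ∀ (G : Type) [Group G] (S : Set G), S.Finite → Subgroup.closure S = ⊤ →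
  OneEnded S → TF G → ∀ (P : Subgroup G) (HH : Set (Set G)), Piece S P HH →
    ∀ (t : LT S P HH) (π : G → t.E.V), (∀ (p : P) (x : G), π ((p : G) * x) = p • π x) →
      ∀ u : t.E.V, ¬ Group.IsFinitelyPresented (stabilizer P u) →
        ∀ Z ∈ HHu t π u, ∃ c ∈ Sb t u, HS S Z c

/-- C7: the rank of a vertex group is smaller -/
def SC7 : Prop := ∀ (G : Type) [Group G] (k D : Type) [Field k] [DivisionRing D]
  (ι : MonoidAlgebra k G →+* D), Function.Injective ι → ∀ P : Subgroup G, P.FG →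
    ∀ E : Splitting P, E.edgeGroup = ⊥ → ∀ u : E.V,
      rk ι ((stabilizer P u).map P.subtype) < rk ι P

/-- C8: finite presentation and splittings -/
def SC8 : Prop := ∀ (G : Type) [Group G] (E : Splitting G), E.edgeGroup.FG →
  Group.IsFinitelyPresented (stabilizer G E.a) → Group.IsFinitelyPresented (stabilizer G E.b) →
    Group.IsFinitelyPresented G

/-- C9: finite presentation and subgroups of finite index -/
def SC9 : Prop := ∀ (G : Type) [Group G] (P : Subgroup G), P.FiniteIndex →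
  Group.IsFinitelyPresented P → Group.IsFinitelyPresented G

/-- C10: two-ended and finite groups are finitely presented -/
def SC10 : Prop := (∀ (C : Type) [Group C], TwoEnded C → Group.IsFinitelyPresented C) ∧
  ∀ (C : Type) [Group C], Finite C → Group.IsFinitelyPresented C

/-- C11: the first piece -/
def SC11 : Prop := ∀ (G : Type) [Group G] (S : Set G), S.Finite → Subgroup.closure S = ⊤ →
  ∀ (V : Type) [MulAction G V] (T : SimpleGraph V), T.IsTree →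
    (∀ (g : G) {x y : V}, T.Adj x y → T.Adj (g • x) (g • y)) → ∀ a : V, (∃ z, T.Adj a z) →
    (∃ N : Set V, N.Finite ∧ ∀ z, T.Adj a z → ∃ g : G, g • a = a ∧ g • z ∈ N) →
    (∀ z, T.Adj a z → TwoEnded (stabilizer G a ⊓ stabilizer G z : Subgroup G)) →
    (∀ x y, T.Adj x y → ∀ n : ℕ, ∃ g : G, side T y x (g • a) ∧ n ≤ T.dist x (g • a)) →
    ∃ HH : Set (Set G), Piece S (stabilizer G a) HH

/-- C12: walls from quasi-isometries -/
def SC12 : Prop := ∀ (G : Type) [Group G] (S : Set G), S.Finite → Subgroup.closure S = ⊤ →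
  ∀ (H : Set G) (c : G), HS S H c → ∀ K : ℕ, ∃ κ Dd M' : ℕ → ℕ, ∀ φ : G → G, IsQI S S K φ →
    ∃ w : Mk G, IsWall S κ Dd M' w ∧ ∀ i : ℤ, w.L i = φ (c ^ i)

/-- C13: the splitting of a half-space of a piece -/
def SC13 : Prop := ∀ (G : Type) [Group G] (S : Set G), S.Finite → Subgroup.closure S = ⊤ →
  ∀ (P : Subgroup G) (HH : Set (Set G)), Piece S P HH → ∀ H ∈ HH,
    ∃ (E : Splitting G) (π : G → E.V), (∀ g x : G, π (g * x) = g • π x) ∧
      (∀ g : G, g ∈ E.edgeGroup ↔ tl g H = H) ∧ ∀ x : G, x ∈ H ↔ side E.T E.a E.b (π x)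

/-- C14: an uncrossed half-space gives an uncrossed splitting -/
def SC14 : Prop := ∀ (G : Type) [Group G] (S : Set G), S.Finite → Subgroup.closure S = ⊤ →
  ∀ (H : Set G) (c : G), HS S H c → Uncr S H → ∀ (E : Splitting G) (π : G → E.V),
    (∀ g x : G, π (g * x) = g • π x) → (∀ g : G, g ∈ E.edgeGroup ↔ tl g H = H) →
    (∀ x : G, x ∈ H ↔ side E.T E.a E.b (π x)) →
    TwoEnded E.edgeGroup ∧ NotCrossed S E E.edgeGroup

/-- C15: subgroups of finite index -/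
def SC15 : Prop := ∀ (G : Type) [Group G] (S : Set G), S.Finite → Subgroup.closure S = ⊤ →
  OneEnded S → ∀ G₀ : Subgroup G, G₀.FiniteIndex → ∃ S₀ : Set G₀, S₀.Finite ∧
    Subgroup.closure S₀ = ⊤ ∧ OneEnded S₀ ∧ ∃ K, IsQI S₀ S K (fun x : G₀ => (x : G))

/-- C16: the tree of a splitting under a subgroup of finite index -/
def SC16 : Prop := ∀ (G : Type) [Group G] (E : Splitting G), TwoEnded E.edgeGroup →
  ∀ G₀ : Subgroup G, G₀.FiniteIndex → ∀ a : E.V, a = E.a ∨ a = E.b →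
    (∃ z, E.T.Adj a z) ∧
    (∃ N : Set E.V, N.Finite ∧ ∀ z, E.T.Adj a z → ∃ g : G₀, g • a = a ∧ g • z ∈ N) ∧
    (∀ z, E.T.Adj a z → TwoEnded (stabilizer G₀ a ⊓ stabilizer G₀ z : Subgroup G₀)) ∧
    (∀ x y, E.T.Adj x y → ∀ n : ℕ, ∃ g : G₀, side E.T y x (g • a) ∧ n ≤ E.T.dist x (g • a))

/-! ## the targets -/

/-- the main step: a piece with uncrossed half-spaces -/
def SM1 : Prop := ∀ (G : Type) [Group G] (S : Set G), S.Finite → Subgroup.closure S = ⊤ →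
  OneEnded S → ∀ (k D : Type) [Field k] [DivisionRing D] (ι : MonoidAlgebra k G →+* D),
    Function.Injective ι → ∀ (P : Subgroup G) (HH : Set (Set G)), Piece S P HH →
      ¬ Group.IsFinitelyPresented P → ∃ (P' : Subgroup G) (HH' : Set (Set G)),
        Piece S P' HH' ∧ ∀ H ∈ HH', Uncr S H

end Pool.Agent.QD
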