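import Pool.Agent.QD.NCut
import Pool.Agent.QD.Stm

/-!
# QI-B7: nested cuts of minimal boundary
-/

set_option autoImplicit false

namespace Pool.Agent.QD

open Pool.Agent.QIS

/-- B7: nested cuts of minimal boundary -/
theorem sb7 : SB7 := by
  intro P V _ _ Γ hc hact A₀ hA₀
  obtain ⟨A, h1, h2, -, -, h3, h4⟩ := exists_nested_min_cut (H := P) Γ hc hact A₀ hA₀
  exact ⟨A, h1, h2, h3, h4⟩

end Pool.Agent.QD
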