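import Pool.Agent.QD.Stm

/-!
# Statements of auxiliary rows of block B of the project QD (MP_bbdce3_al)
-/

set_option autoImplicit false

namespace Pool.Agent.QD

open Pool.Agent.QIS MulAction

/-- B0a: finite boundary at every scale -/
def SB0a : Prop := ∀ (G : Type) [Group G] (S : Set G), S.Finite → Subgroup.closure S = ⊤ →
  ∀ (P : Subgroup G) (Y : Set G), Inv P Y → Cof P Y → ∀ r : ℕ, CConn S Y r → ∀ E : Set G,
    FinBd S Y r E → ∀ R : ℕ, FinBd S Y R E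

/-- the ends of the line of `c` through `y` are separated by `E` -/
def SepAt {G : Type} [Group G] (c y : G) (E : Set G) : Prop :=
  ((∃ i₀ : ℤ, ∀ i, i₀ ≤ i → c ^ i * y ∈ E) ∧ ∃ i₀ : ℤ, ∀ i, i ≤ i₀ → c ^ i * y ∉ E) ∨
  ((∃ i₀ : ℤ, ∀ i, i₀ ≤ i → c ^ i * y ∉ E) ∧ ∃ i₀ : ℤ, ∀ i, i ≤ i₀ → c ^ i * y ∈ E)

/-- B0b: the ends of the line of a half-space -/
def SB0b : Prop := ∀ (G : Type) [Group G] (S : Set G), S.Finite → Subgroup.closure S = ⊤ →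
  ∀ (P : Subgroup G) (HH : Set (Set G)), Piece S P HH → ∀ (s : ℕ) (E : Set G),
    (∀ R, FinBd S (Yr S s HH) R E) → ∀ H ∈ HH, ∀ c y : G, HS S H c → y ∈ Strip S s H →
      ((∃ i₀ : ℤ, ∀ i, i₀ ≤ i → c ^ i * y ∈ E) ∨ ∃ i₀ : ℤ, ∀ i, i₀ ≤ i → c ^ i * y ∉ E) ∧
      ((∃ i₀ : ℤ, ∀ i, i ≤ i₀ → c ^ i * y ∈ E) ∨ ∃ i₀ : ℤ, ∀ i, i ≤ i₀ → c ^ i * y ∉ E) ∧
      (Sep S s H E ↔ SepAt c y E) ∧
      (¬ Sep S s H E → {z | z ∈ Strip S s H ∧ z ∈ E}.Finite ∨ {z | z ∈ Strip S s H ∧ z ∉ E}.Finite)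

/-- B0c: finitely many strips are met by a finite boundary -/
def SB0c : Prop := ∀ (G : Type) [Group G] (S : Set G), S.Finite → Subgroup.closure S = ⊤ →
  ∀ (P : Subgroup G) (HH : Set (Set G)), Piece S P HH → ∀ (s : ℕ) (E : Set G),
    (∀ R, FinBd S (Yr S s HH) R E) →
    {H | H ∈ HH ∧ (∃ z ∈ Strip S s H, z ∈ E) ∧ ∃ z ∈ Strip S s H, z ∉ E}.Finite

end Pool.Agent.QD
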