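import Pool.Agent.QD.C1T

/-!
# Project QD, row C1: lines in a tree with trivial edge stabilizers
-/

set_option autoImplicit false

namespace Pool.Agent.QD

open Pool.Agent.QIS MulAction

variable {P : Type} [Group P] (E : Splitting P)

/-- a vertex of minimal displacement is on the line -/
theorem c1_c3 (h0 : E.edgeGroup = ⊥) {c : P} (hc : ∀ n : ℕ, 0 < n → c ^ n ≠ 1) :
    ∃ w : E.V, Tau E.T c w := by
  obtain ⟨w, hw⟩ : ∃ w : E.V, ∀ v : E.V, E.T.dist w (c • w) ≤ E.T.dist v (c • v) := by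
    have h1 : (Set.range fun v : E.V => E.T.dist v (c • v)).Nonempty := ⟨_, E.a, rfl⟩
    obtain ⟨w, hw⟩ := Nat.sInf_mem h1
    exact ⟨w, fun v => by
      have h2 := Nat.sInf_le (s := Set.range fun v : E.V => E.T.dist v (c • v)) ⟨v, rfl⟩
      have h3 : E.T.dist w (c • w) = sInf (Set.range fun v : E.V => E.T.dist v (c • v)) := hw
      rw [h3]
      exact h2⟩
  refine ⟨w, ?_⟩
  by_cases hwc : c • w = w
  · exact Or.inl hwc
  right
  obtain ⟨z, hz, hz1⟩ := exists_first E.tree (Ne.symm hwc)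
  refine ⟨z, hz, ?_⟩
  have hB : side E.T z w (c • w) := (side_swap E.tree hz _).2 hz1
  have hne : s(c • w, c • z) ≠ s(w, z) := fun h => c1_one hc (c1_free E h0 hz h)
  have hcz : E.T.Adj (c • w) (c • z) := E.map_adj c hz
  -- (a)
  have ha : ¬ side E.T (c • z) (c • w) w := by
    intro h1
    have h2 : side E.T (c • z) (c • w) z := by
      refine (side_adj hz ?_).1 h1
      rw [Sym2.eq_swap (a := c • z)]
      exact hne.symm
    have h3 := c1_dist E.tree hz hB
    have h4 := c1_dist E.tree hcz h2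
    have h5 := hw z
    rw [E.T.dist_comm (u := c • w), E.T.dist_comm (u := c • z)] at h4
    omega
  have ha' : side E.T (c • w) (c • z) w := by
    rw [side_swap E.tree hcz.symm]
    exact ha
  -- (b)
  have hb : ∀ x, side E.T z w x → side E.T z w (c • x) := by
    have h1 : ¬ side E.T w z (c • z) := fun h2 =>
      hz1 ((side_adj hcz hne).2 h2)
    have h2 := (side_beyond E.tree hz hcz ha' h1 hne.symm).2
    intro x hx
    rw [side_swap E.tree hz]
    refine h2 _ ?_
    rw [← side_swap E.tree hcz, side_map E.map_adj]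
    exact hx
  have hpos : ∀ n : ℕ, side E.T z w (c ^ (n + 1) • w) := by
    intro n
    induction n with
    | zero => rw [zero_add, pow_one]; exact hB
    | succ n ih => rw [pow_succ', mul_smul]; exact hb _ ih
  have hneg : ∀ n : ℕ, ∀ x, side E.T z w x → side E.T z w (c ^ n • x) := by
    intro n
    induction n with
    | zero => intro x hx; rw [pow_zero, one_smul]; exact hx
    | succ n ih => intro x hx; rw [pow_succ', mul_smul]; exact hb _ (ih x hx)
  refine c1_mk_crs E h0 hc w hz ⟨1, fun i hi => ?_⟩ ⟨0, fun i hi => ?_⟩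
  · obtain ⟨n, rfl⟩ : ∃ n : ℕ, i = ((n + 1 : ℕ) : ℤ) := ⟨(i - 1).toNat, by omega⟩
    rw [zpow_natCast]
    exact hpos n
  · obtain ⟨n, rfl⟩ : ∃ n : ℕ, i = (n : ℤ) := ⟨i.toNat, by omega⟩
    rw [zpow_natCast, side_swap E.tree hz.symm]
    intro h1
    have h2 := hneg n _ h1
    rw [smul_smul, inv_pow, mul_inv_cancel, one_smul] at h2
    exact not_side_other E.tree hz.symm h2

/-- fixed vertices -/
theorem c1_c4 (h0 : E.edgeGroup = ⊥) {c : P} (hc : ∀ n : ℕ, 0 < n → c ^ n ≠ 1) {w : E.V}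
    (hw : c • w = w) : (∀ x y, E.T.Adj x y → ¬ Crs E.T c x y) ∧
      ∀ w' : E.V, c • w' = w' → w' = w := by
  have hwi : c⁻¹ • w = w := by rw [inv_smul_eq_iff, hw]
  have hz : ∀ d : P, d • w = w → ∀ i : ℤ, d ^ i • w = w := by
    intro d hd i
    have h1 : d ∈ stabilizer P w := hd
    exact (stabilizer P w).zpow_mem h1 i
  refine ⟨fun x y hxy h => ?_, fun w' hw' => ?_⟩
  · rcases h w with ⟨⟨i, hi⟩, ⟨j, hj⟩⟩ | ⟨⟨i, hi⟩, ⟨j, hj⟩⟩
    · have h1 := hi i le_rfl
      have h2 := hj j le_rfl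
      rw [hz c hw] at h1
      rw [hz _ hwi] at h2
      exact (side_swap E.tree hxy _).1 h1 h2
    · have h1 := hi i le_rfl
      have h2 := hj j le_rfl
      rw [hz c hw] at h1
      rw [hz _ hwi] at h2
      exact (side_swap E.tree hxy _).1 h2 h1
  · by_contra hne
    obtain ⟨z, hz, hz1⟩ := exists_first E.tree (Ne.symm hne)
    have hB : side E.T z w w' := (side_swap E.tree hz _).2 hz1
    have hcz : E.T.Adj w (c • z) := by
      have h1 := E.map_adj c hz
      rwa [hw] at h1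
    have h2 : side E.T (c • z) w w' := by
      have h3 := (side_map E.map_adj c z w w').2 hB
      rwa [hw, hw'] at h3
    by_cases h4 : c • z = z
    · exact c1_one hc (c1_fix E h0 hz hw h4)
    · exact (side_swap E.tree hcz _).1 h2 (c1_disj E.tree hz hcz (Ne.symm h4) hB)

/-- the second edge of the line at a vertex, when the positive end is beyond the first -/
theorem c1_c5a (h0 : E.edgeGroup = ⊥) {c : P} (hc : ∀ n : ℕ, 0 < n → c ^ n ≠ 1) {w z : E.V}
    (hz : E.T.Adj w z) (hp : PlE E.T c w w z) (hm : PlE E.T c⁻¹ w z w) :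
    ∃ z', z' ≠ z ∧ E.T.Adj w z' ∧ Crs E.T c w z' ∧
      ∀ z'', E.T.Adj w z'' → Crs E.T c w z'' → z'' = z ∨ z'' = z' := by
  obtain ⟨a, ha⟩ : ∃ a, a = c⁻¹ • w := ⟨_, rfl⟩
  obtain ⟨b, hb⟩ : ∃ b, b = c⁻¹ • z := ⟨_, rfl⟩
  have hab : E.T.Adj a b := by
    rw [ha, hb]
    exact E.map_adj _ hz
  have hne : s(a, b) ≠ s(w, z) := by
    rw [ha, hb]
    intro h
    exact c1_one (c1_ord_inv hc) (c1_free E h0 hz h)
  have hne' : s(b, a) ≠ s(w, z) := by
    rw [Sym2.eq_swap]
    exact hne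
  have hne'' : s(z, w) ≠ s(a, b) := by
    rw [Sym2.eq_swap]
    exact hne.symm
  -- `x` beyond `{a, b}`
  have hBm : ∀ x, side E.T b a (c⁻¹ • x) ↔ side E.T z w x := by
    intro x
    rw [ha, hb]
    exact side_map E.map_adj c⁻¹ z w x
  have hCm : ∀ x, side E.T a b (c⁻¹ • x) ↔ side E.T w z x := by
    intro x
    rw [ha, hb]
    exact side_map E.map_adj c⁻¹ w z x
  obtain ⟨i₀, hi⟩ := hp
  obtain ⟨j₀, hj⟩ := hm
  have hi' : ∀ i, i₀ ≤ i → side E.T b a (c ^ i • w) := by
    intro i hi1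
    have h1 := (hBm (c ^ (i + 1) • w)).2 (hi (i + 1) (by omega))
    rw [smul_smul, add_comm, zpow_add, zpow_one, inv_mul_cancel_left] at h1
    exact h1
  have hj' : ∀ j, j₀ + 1 ≤ j → side E.T a b (c⁻¹ ^ j • w) := by
    intro j hj1
    have h1 := (hCm (c⁻¹ ^ (j - 1) • w)).2 (hj (j - 1) (by omega))
    rw [smul_smul, ← zpow_one_add, add_sub_cancel] at h1
    exact h1
  -- position of `w` and `a`
  have hwz : side E.T b a w ↔ side E.T b a z := side_adj hz (by
    rw [Sym2.eq_swap (a := b)]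
    exact hne.symm)
  have hab' : side E.T z w a ↔ side E.T z w b := side_adj hab (by
    rw [Sym2.eq_swap (a := z)]
    exact hne)
  have hw1 : side E.T b a w := by
    by_contra h1
    have h1z : ¬ side E.T b a z := fun h => h1 (hwz.2 h)
    by_cases h2 : side E.T z w a
    · have h3 := (side_beyond E.tree hz hab ((side_swap E.tree hab.symm _).2 h1)
        ((side_swap E.tree hz _).1 (hab'.1 h2)) hne.symm).2
      have h4 : ∀ n : ℕ, side E.T z w (c⁻¹ ^ n • z) := by
        intro n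
        induction n with
        | zero => rw [pow_zero, one_smul]; exact side_self _ _
        | succ n ih =>
          rw [pow_succ', mul_smul, side_swap E.tree hz]
          refine h3 _ ?_
          rw [hCm, ← side_swap E.tree hz]
          exact ih
      obtain ⟨k₀, hk⟩ := c1_pl2 E h0 (c1_ord_inv hc) w z hz.symm ⟨j₀, hj⟩
      have h5 := hk (max k₀ 0) (le_max_left _ _)
      obtain ⟨n, hn⟩ : ∃ n : ℕ, max k₀ 0 = (n : ℤ) := ⟨(max k₀ 0).toNat, by omega⟩
      rw [hn, zpow_natCast] at h5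
      exact (side_swap E.tree hz _).1 (h4 n) h5
    · have h3 := (side_beyond E.tree hab.symm hz
        ((side_swap E.tree hz.symm _).2 fun h => h2 (hab'.2 h)) h1z hne').2
      exact h3 _ ((side_swap E.tree hz _).1 (hi i₀ le_rfl)) (hi' i₀ le_rfl)
  have ha1 : ¬ side E.T z w a := by
    intro h2
    have h3 := (side_beyond E.tree hab hz.symm h2 ((side_swap E.tree hab _).1 hw1) hne''.symm).2
    have h4 := hj (max j₀ (j₀ + 1)) (le_max_left _ _)
    exact h3 _ ((side_swap E.tree hz.symm _).1 h4) (hj' _ (le_max_right _ _))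
  have hwa : w ≠ a := by
    rintro rfl
    exact not_side_other E.tree hab.symm hw1
  obtain ⟨z', hz', hz1⟩ := exists_first E.tree hwa
  have hz2 : side E.T z' w a := (side_swap E.tree hz' _).2 hz1
  have hzz : z' ≠ z := by
    rintro rfl
    exact ha1 hz2
  have hc1 : ∀ x, side E.T a b x → side E.T z' w x := fun x hx =>
    c1_into E.tree hab hz' hw1 hz2 hx
  have hp' : PlE E.T c w z' w := ⟨i₀, fun i hi1 => c1_disj E.tree hz hz' hzz.symm (hi i hi1)⟩
  have hm' : PlE E.T c⁻¹ w w z' := ⟨j₀ + 1, fun j hj1 => hc1 _ (hj' j hj1)⟩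
  refine ⟨z', hzz, hz', c1_crs_comm (c1_mk_crs E h0 hc w hz'.symm hp' hm'), ?_⟩
  intro z'' hz'' hcr
  by_contra hnn
  rw [not_or] at hnn
  have hp2 : PlE E.T c w z'' w :=
    ⟨i₀, fun i hi1 => c1_disj E.tree hz hz'' (Ne.symm hnn.1) (hi i hi1)⟩
  have hm2 : PlE E.T c⁻¹ w z'' w :=
    c1_plm (fun t ht => c1_disj E.tree hz' hz'' (Ne.symm hnn.2) ht) hm'
  rcases hcr w with h | h
  · exact c1_plc E.tree hz'' h.1 hp2
  · exact c1_plc E.tree hz'' h.2 hm2

theorem c1_c5 (h0 : E.edgeGroup = ⊥) {c : P} (hc : ∀ n : ℕ, 0 < n → c ^ n ≠ 1) {w z : E.V}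
    (hz : E.T.Adj w z) (hcr : Crs E.T c w z) :
    ∃ z', z' ≠ z ∧ E.T.Adj w z' ∧ Crs E.T c w z' ∧
      ∀ z'', E.T.Adj w z'' → Crs E.T c w z'' → z'' = z ∨ z'' = z' := by
  rcases hcr w with h | h
  · exact c1_c5a E h0 hc hz h.1 h.2
  · obtain ⟨z', h1, h2, h3, h4⟩ := c1_c5a E h0 (c1_ord_inv hc) hz h.2 (by
      rw [inv_inv]
      exact h.1)
    refine ⟨z', h1, h2, ?_, fun z'' h5 h6 => h4 z'' h5 (c1_crs_inv h6)⟩
    have h5 := c1_crs_inv h3
    rwa [inv_inv] at h5

/-- the ends cannot both be on the other side of an edge than a vertex of the line -/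
theorem c1_c6a {c : P} {w u z : E.V} (huz : E.T.Adj u z) (ht : Tau E.T c w)
    (hw : side E.T z u w) (hp : PlE E.T c w z u) (hm : PlE E.T c⁻¹ w z u) : False := by
  rcases ht with ht | ⟨y, hy, hcr⟩
  · obtain ⟨i, hi⟩ := hp
    have h1 := hi i le_rfl
    have h2 : c ∈ stabilizer P w := ht
    have h3 : c ^ i • w = w := (stabilizer P w).zpow_mem h2 i
    rw [h3] at h1
    exact (side_swap E.tree huz _).1 hw h1
  · obtain ⟨b, hb, hb1⟩ := exists_first E.tree (c1_ne E.tree huz hw)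
    have hb2 : side E.T b w u := (side_swap E.tree hb _).2 hb1
    have hin : ∀ x, side E.T u z x → side E.T b w x := fun x hx =>
      c1_into E.tree huz hb hw hb2 hx
    have hp' : PlE E.T c w w b := c1_plm hin hp
    have hm' : PlE E.T c⁻¹ w w b := c1_plm hin hm
    by_cases hyb : y = b
    · subst hyb
      rcases hcr w with h | h
      · exact c1_plc E.tree hy hm' h.2
      · exact c1_plc E.tree hy hp' h.1
    · have hq : ∀ x, side E.T b w x → side E.T w y x := fun x hx =>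
        c1_disj E.tree hb hy (Ne.symm hyb) hx
      rcases hcr w with h | h
      · exact c1_plc E.tree hy h.1 (c1_plm hq hp')
      · exact c1_plc E.tree hy h.2 (c1_plm hq hm')

theorem c1_c6 (h0 : E.edgeGroup = ⊥) {c : P} (hc : ∀ n : ℕ, 0 < n → c ^ n ≠ 1)
    {w w' u z : E.V} (huz : E.T.Adj u z) (ht : Tau E.T c w) (ht' : Tau E.T c w')
    (hw : side E.T z u w) (hw' : side E.T u z w') : Crs E.T c u z := by
  have hi := c1_ord_inv hc
  rcases c1_pl1 E h0 hc w huz with h1 | h1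
  · rcases c1_pl1 E h0 hi w huz with h2 | h2
    · exact absurd (c1_c6a E huz.symm ht' hw' (c1_pl2 E h0 hc w w' huz h1)
        (c1_pl2 E h0 hi w w' huz h2)) id
    · exact c1_mk_crs E h0 hc w huz h1 h2
  · rcases c1_pl1 E h0 hi w huz with h2 | h2
    · exact c1_crs_comm (c1_mk_crs E h0 hc w huz.symm h1 h2)
    · exact absurd (c1_c6a E huz ht hw h1 h2) id

theorem sc1 : SC1 := by
  intro P _ E h0 c hc
  exact ⟨fun v x y hxy => c1_pl1 E h0 hc v hxy,
    fun v v' x y hxy h => c1_pl2 E h0 hc v v' hxy h,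
    c1_c3 E h0 hc,
    fun w hw => c1_c4 E h0 hc hw,
    fun w z hz hcr => c1_c5 E h0 hc hz hcr,
    fun w w' u z huz ht ht' hw hw' => c1_c6 E h0 hc huz ht ht' hw hw'⟩

end Pool.Agent.QD
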