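import Pool.Agent.QD.Stm

/-!
# Project QI (MP_bbdce3), row C10: two-ended and finite groups are finitely presented
-/

set_option autoImplicit false

namespace Pool.Agent.QD

open Pool.Agent.QIS

theorem c10_zpowers {C : Type} [Group C] (z : C) (hz : ∀ n : ℕ, 0 < n → z ^ n ≠ 1) :
    Group.IsFinitelyPresented (Subgroup.zpowers z) := by
  have hinj : Function.Injective (zpowersHom C z) := by
    rw [injective_iff_map_eq_one]
    intro a ha
    rw [zpowersHom_apply] at ha
    have hfin : ¬ IsOfFinOrder z := by
      intro h
      obtain ⟨n, hn, h1⟩ := isOfFinOrder_iff_pow_eq_one.1 h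
      exact hz n hn h1
    have h2 : z ^ a.toAdd = z ^ (0 : ℤ) := by rw [ha, zpow_zero]
    have h3 := (injective_zpow_iff_not_isOfFinOrder.2 hfin) h2
    exact Multiplicative.toAdd.injective h3
  have e : Multiplicative ℤ ≃* (zpowersHom C z).range := MonoidHom.ofInjective hinj
  have h := Group.IsFinitelyPresented.equiv e
  have h4 : (zpowersHom C z).range = Subgroup.zpowers z := rfl
  rwa [h4] at h

theorem sc10 (c9 : SC9) : SC10 := by
  constructor
  · intro C _ hC
    obtain ⟨z, hz, hfi⟩ := hC
    exact c9 C (Subgroup.zpowers z) hfi (c10_zpowers z hz)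
  · intro C _ hC
    infer_instance

end Pool.Agent.QD
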