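import Pool.Agent.QD.Stm
import Pool.Agent.H67.Q.Words
import Pool.Agent.H67.Q.Tree

/-!
# The first piece (row QI-C11 of the project QD, MP_bbdce3_al)
-/

set_option autoImplicit false

namespace Pool.Agent.QD

open Pool.Agent.QIS MulAction

section

variable {G V : Type} [Group G] [MulAction G V] {T : SimpleGraph V}

/-- the elements on the side of `z` of the edge `{z, w}` -/
private def c11H (T : SimpleGraph V) (a z w : V) : Set G := {x | side T z w (x • a)}

private theorem c11_dist_le (hT : T.IsTree)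
    (hact : ∀ (g : G) {x y : V}, T.Adj x y → T.Adj (g • x) (g • y)) (g : G) (u v : V) :
    T.dist (g • u) (g • v) ≤ T.dist u v := by
  obtain ⟨p, hp⟩ := hT.connected.exists_walk_length_eq_dist u v
  let f : T →g T := ⟨fun x => g • x, fun h => hact g h⟩
  have h1 : (p.map f).length = T.dist u v := by rw [SimpleGraph.Walk.length_map, hp]
  rw [← h1]
  exact SimpleGraph.dist_le _

private theorem c11_dist (hT : T.IsTree)
    (hact : ∀ (g : G) {x y : V}, T.Adj x y → T.Adj (g • x) (g • y)) (g : G) (u v : V) :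
    T.dist (g • u) (g • v) = T.dist u v := by
  refine le_antisymm (c11_dist_le hT hact g u v) ?_
  have h1 := c11_dist_le hT hact g⁻¹ (g • u) (g • v)
  rwa [inv_smul_smul, inv_smul_smul] at h1

private theorem c11_tl (hact : ∀ (g : G) {x y : V}, T.Adj x y → T.Adj (g • x) (g • y))
    (a z w : V) (g : G) : tl g (c11H T a z w) = c11H (G := G) T a (g • z) (g • w) := by
  ext x
  show side T z w ((g⁻¹ * x) • a) ↔ side T (g • z) (g • w) (x • a)
  rw [← side_map hact g z w, mul_smul, smul_inv_smul]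

/-- branches at `a` are disjoint -/
private theorem c11_branch (hT : T.IsTree) {a z z' : V} (hz : T.Adj a z) (hz' : T.Adj a z')
    (hne : z ≠ z') {y : V} (h : side T z a y) : side T a z' y := by
  have e1 : s(a, z) ≠ s(a, z') := by
    intro h1
    rcases Sym2.eq_iff.1 h1 with ⟨_, h2⟩ | ⟨h2, _⟩
    · exact hne h2
    · exact hz'.ne h2
  have hw : side T a z' z := (side_adj hz e1).1 (side_self a z')
  have hb : ¬ side T z a z' := by
    intro h2
    have e2 : s(a, z') ≠ s(z, a) := by rw [Sym2.eq_swap (a := z)]; exact e1.symm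
    exact not_side_other hT hz.symm ((side_adj hz' e2).2 h2)
  have hne' : s(z, a) ≠ s(a, z') := by rw [Sym2.eq_swap (a := z)]; exact e1
  by_contra h3
  exact (side_beyond hT hz.symm hz' hw hb hne').2 y h3 h

private theorem c11_cosets (C : Subgroup G) (c0 : C) (hfi : (Subgroup.zpowers c0).FiniteIndex) :
    ∃ K : Set G, K.Finite ∧ ∀ g ∈ C, ∃ i : ℤ, (c0 : G) ^ i * g ∈ K := by
  haveI : Finite (C ⧸ Subgroup.zpowers c0) := Subgroup.finite_quotient_of_finiteIndex
  refine ⟨Set.range fun q : C ⧸ Subgroup.zpowers c0 => ((q.out : C) : G)⁻¹,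
    Set.finite_range _, fun g hg => ?_⟩
  obtain ⟨h, hh⟩ := QuotientGroup.mk_out_eq_mul (Subgroup.zpowers c0) (⟨g, hg⟩ : C)⁻¹
  obtain ⟨j, hj⟩ := Subgroup.mem_zpowers_iff.1 h.2
  refine ⟨-j, (((⟨g, hg⟩ : C)⁻¹ : C) : C ⧸ Subgroup.zpowers c0), ?_⟩
  show (((((⟨g, hg⟩ : C)⁻¹ : C) : C ⧸ Subgroup.zpowers c0).out : C) : G)⁻¹ = (c0 : G) ^ (-j) * g
  rw [hh, ← hj]
  push_cast
  rw [mul_inv_rev, inv_inv, zpow_neg]

variable {S : Set G}

/-- the half-space of an edge at `a` -/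
private theorem c11_hs (hS : S.Finite) (hSg : Subgroup.closure S = ⊤) (hT : T.IsTree)
    (hact : ∀ (g : G) {x y : V}, T.Adj x y → T.Adj (g • x) (g • y)) {a z : V}
    (hz : T.Adj a z)
    (hdeep : ∀ x y, T.Adj x y → ∀ n : ℕ, ∃ g : G, side T y x (g • a) ∧ n ≤ T.dist x (g • a))
    (c0 : (stabilizer G a ⊓ stabilizer G z : Subgroup G))
    (hc1 : ∀ n : ℕ, 0 < n → c0 ^ n ≠ 1) (hfi : (Subgroup.zpowers c0).FiniteIndex) :
    HS S (c11H T a z a) (c0 : G) := by
  have hca : (c0 : G) • a = a := c0.2.1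
  have hcz : (c0 : G) • z = z := c0.2.2
  have hzpow : ∀ i : ℤ, (c0 : G) ^ i • a = a ∧ (c0 : G) ^ i • z = z := by
    intro i
    have h1 : (c0 : G) ^ i ∈ (stabilizer G a ⊓ stabilizer G z : Subgroup G) :=
      Subgroup.zpow_mem _ c0.2 i
    exact ⟨h1.1, h1.2⟩
  refine ⟨fun n hn h1 => hc1 n hn (Subtype.ext ?_), fun x => ?_, fun n => ?_, fun F hF => ?_,
    fun F hF => ?_⟩
  · rw [Subgroup.coe_pow, h1, Subgroup.coe_one]
  · show side T z a (((c0 : G) * x) • a) ↔ side T z a (x • a)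
    have h1 := side_map hact (c0 : G) z a (x • a)
    rw [hca, hcz, ← mul_smul] at h1
    exact h1
  · obtain ⟨K, hK, hKc⟩ := c11_cosets _ c0 hfi
    obtain ⟨En, hEn⟩ : ∃ En : Set (V × V), En = ⋃ w ∈ {w : G | wdist S 1 w ≤ n},
        {p : V × V | T.Adj p.1 p.2 ∧ side T p.1 p.2 a ∧ ¬ side T p.1 p.2 (w • a)} := ⟨_, rfl⟩
    have hEf : En.Finite := by
      rw [hEn]
      exact (ball_finite hS hSg 1 n).biUnion fun w _ => side_finite hT a (w • a)
    have hx : ∀ e : V × V, ∃ x0 : G, (∃ x : G, (x⁻¹ • z, x⁻¹ • a) = e) →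
        (x0⁻¹ • z, x0⁻¹ • a) = e := by
      intro e
      by_cases h : ∃ x : G, (x⁻¹ • z, x⁻¹ • a) = e
      · obtain ⟨x, hx⟩ := h
        exact ⟨x, fun _ => hx⟩
      · exact ⟨1, fun h2 => absurd h2 h⟩
    choose xe hxe using hx
    refine ⟨Set.image2 (fun k e => k * xe e) K En, hK.image2 _ hEf, ?_⟩
    intro x y hd hx hy
    obtain ⟨e, he⟩ : ∃ e : V × V, e = (x⁻¹ • z, x⁻¹ • a) := ⟨_, rfl⟩
    have hee : e ∈ En := by
      rw [hEn, he]
      refine Set.mem_biUnion (x := x⁻¹ * y) ?_ ⟨?_, ?_, ?_⟩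
      · show wdist S 1 (x⁻¹ * y) ≤ n
        have h1 := wdist_mul_left (S := S) x⁻¹ x y
        rw [inv_mul_cancel] at h1
        rwa [h1]
      · exact hact x⁻¹ hz.symm
      · have h1 := (side_map hact x⁻¹ z a (x • a)).2 hx
        rwa [inv_smul_smul] at h1
      · intro h1
        have h1' : side T (x⁻¹ • z) (x⁻¹ • a) ((x⁻¹ * y) • a) := h1
        rw [mul_smul, side_map hact x⁻¹ z a (y • a)] at h1'
        exact hy h1'
    have h1 := hxe e ⟨x, he.symm⟩
    rw [he, Prod.mk.injEq] at h1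
    rw [← he] at h1
    have hg : x * (xe e)⁻¹ ∈ (stabilizer G a ⊓ stabilizer G z : Subgroup G) := by
      constructor
      · show (x * (xe e)⁻¹) • a = a
        rw [mul_smul, h1.2, smul_inv_smul]
      · show (x * (xe e)⁻¹) • z = z
        rw [mul_smul, h1.1, smul_inv_smul]
    obtain ⟨i, hi⟩ := hKc _ hg
    refine ⟨i, _, hi, e, hee, ?_⟩
    show (c0 : G) ^ i * (x * (xe e)⁻¹) * xe e = (c0 : G) ^ i * x
    rw [mul_assoc, inv_mul_cancel_right]
  · obtain ⟨M, hM⟩ := (hF.image fun x : G => T.dist a (x • a)).bddAbove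
    obtain ⟨g, hg1, hg2⟩ := hdeep a z hz (M + 1)
    refine ⟨g, hg1, fun i hi => ?_⟩
    have h1 := hM ⟨_, hi, rfl⟩
    have h2 := c11_dist hT hact ((c0 : G) ^ i) a (g • a)
    rw [(hzpow i).1, ← mul_smul] at h2
    have h3 : T.dist a (((c0 : G) ^ i * g) • a) ≤ M := h1
    omega
  · obtain ⟨M, hM⟩ := (hF.image fun x : G => T.dist z (x • a)).bddAbove
    obtain ⟨g, hg1, hg2⟩ := hdeep z a hz.symm (M + 1)
    refine ⟨g, fun h => (side_swap hT hz _).1 h hg1, fun i hi => ?_⟩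
    have h1 := hM ⟨_, hi, rfl⟩
    have h2 := c11_dist hT hact ((c0 : G) ^ i) z (g • a)
    rw [(hzpow i).2, ← mul_smul] at h2
    have h3 : T.dist z (((c0 : G) ^ i * g) • a) ≤ M := h1
    omega

end

/-- C11: the first piece -/
theorem sc11 : SC11 := by
  intro G _ S hS hSg V _ T hT hact a hz0 hN hte hdeep
  have hstab : ∀ g : G, g ∈ stabilizer G a ↔ g • a = a := fun g => Iff.rfl
  refine ⟨{H | ∃ z, T.Adj a z ∧ H = c11H T a z a}, ?_, ?_, ?_, ?_, ?_, ?_, ?_⟩
  · rintro p hp _ ⟨z, hz, rfl⟩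
    have hp' : p • a = a := hp
    refine ⟨p • z, ?_, ?_⟩
    · have h1 := hact p hz
      rwa [hp'] at h1
    · rw [c11_tl hact, hp']
  · rintro _ ⟨z, hz, rfl⟩ _ ⟨z', hz', rfl⟩ hne
    have hzz : z ≠ z' := fun h => hne (by rw [h])
    refine Set.disjoint_left.2 fun x hx hx' => ?_
    exact (side_swap hT hz' _).1 hx' (c11_branch hT hz hz' hzz hx)
  · rintro _ ⟨z, hz, rfl⟩
    obtain ⟨c0, hc1, hfi⟩ := hte z hz
    exact ⟨c0, c0.2.1, c11_hs hS hSg hT hact hz hdeep c0 hc1 hfi⟩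
  · obtain ⟨N, hNf, hN1⟩ := hN
    refine ⟨(fun w => c11H T a w a) '' N, hNf.image _, ?_⟩
    rintro _ ⟨z, hz, rfl⟩
    obtain ⟨g, hg1, hg2⟩ := hN1 z hz
    refine ⟨g, hg1, g • z, hg2, ?_⟩
    rw [c11_tl hact, hg1]
  · refine ⟨{1}, Set.finite_singleton 1, fun x hx => ⟨x⁻¹, ?_, inv_mul_cancel x⟩⟩
    have h1 : x • a = a := by
      by_contra h
      obtain ⟨z, hz, h2⟩ := exists_first hT (Ne.symm h)
      exact hx _ ⟨z, hz, rfl⟩ ((side_swap hT hz _).2 h2)
    exact Subgroup.inv_mem _ h1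
  · intro g hg
    have hga : g • a ≠ a := fun h => hg h
    have hga' : g⁻¹ • a ≠ a := by
      intro h
      apply hga
      conv_lhs => rw [← h]
      exact smul_inv_smul g a
    obtain ⟨z, hz, h1⟩ := exists_first hT (Ne.symm hga)
    obtain ⟨z', hz', h2⟩ := exists_first hT (Ne.symm hga')
    refine ⟨_, ⟨z, hz, rfl⟩, _, ⟨z', hz', rfl⟩, ?_⟩
    rw [c11_tl hact]
    intro x hx
    have hadj : T.Adj (g • a) (g • z') := hact g hz'
    have hx1 : side T (g • a) (g • z') (x • a) := by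
      by_contra h3
      exact hx ((side_swap hT hadj _).2 h3)
    have h2' : ¬ side T (g • a) (g • z') a := by
      intro h3
      apply h2
      have h4 := side_map hact g a z' (g⁻¹ • a)
      rw [smul_inv_smul] at h4
      exact h4.1 h3
    show side T z a (x • a)
    by_cases he : s(g • a, g • z') = s(z, a)
    · rcases Sym2.eq_iff.1 he with ⟨h5, h6⟩ | ⟨h5, _⟩
      · rwa [h5, h6] at hx1
      · exact absurd h5 hga
    · by_contra h3
      exact (side_beyond hT hadj hz.symm ((side_swap hT hz _).2 h1) h2' he).2 _ h3 hx1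
  · obtain ⟨z, hz⟩ := hz0
    exact ⟨_, z, hz, rfl⟩

end Pool.Agent.QD
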