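import Pool.Agent.QD.Stm

/-!
# Row C12 of the project QD (MP_bbdce3_al): walls from quasi-isometries
-/

set_option autoImplicit false

namespace Pool.Agent.QD

open Pool.Agent.QIS

section C12

variable {G : Type} [Group G] {S : Set G} {H : Set G} {c : G}

theorem c12_inv (hc : HS S H c) (i : ℤ) (x : G) : c ^ i * x ∈ H ↔ x ∈ H := by
  induction i generalizing x with
  | zero => simp
  | succ n ih => rw [zpow_add_one, mul_assoc, ih, hc.inv]
  | pred n ih => rw [zpow_sub_one, mul_assoc, ih, ← hc.inv (c⁻¹ * x), mul_inv_cancel_left]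

theorem c12_shift (i : ℤ) (x y : G) : wdist S (c ^ i * x) y = wdist S x (c ^ (-i) * y) := by
  rw [← wdist_mul_left (S := S) (c ^ (-i)) (c ^ i * x) y, ← mul_assoc, ← zpow_add,
    neg_add_cancel, zpow_zero, one_mul]

theorem c12_bd (hc : HS S H c) (n : ℕ) : ∃ ρ : ℕ, ∀ x y, wdist S x y ≤ n → x ∈ H → y ∉ H →
    ∃ i : ℤ, wdist S x (c ^ i) ≤ ρ := by
  obtain ⟨F, hF, h⟩ := hc.bd n
  obtain ⟨ρ, hρ⟩ := (hF.image (fun f : G => wdist S f 1)).bddAbove
  refine ⟨ρ, fun x y hxy hx hy => ?_⟩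
  obtain ⟨i, hi⟩ := h x y hxy hx hy
  refine ⟨-i, ?_⟩
  have h1 : wdist S (c ^ i * x) 1 ≤ ρ := hρ ⟨_, hi, rfl⟩
  rw [c12_shift, mul_one] at h1
  exact h1

theorem c12_prop (hS : S.Finite) (hSg : Subgroup.closure S = ⊤)
    (hc : ∀ n : ℕ, 0 < n → c ^ n ≠ 1) (N : ℕ) :
    ∃ D : ℕ, ∀ i j : ℤ, wdist S (c ^ i) (c ^ j) ≤ N → |i - j| ≤ (D : ℤ) := by
  have h2 : Function.Injective fun n : ℤ => c ^ n := by
    rw [injective_zpow_iff_not_isOfFinOrder, isOfFinOrder_iff_pow_eq_one]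
    rintro ⟨n, hn, hn'⟩
    exact hc n hn hn'
  have h3 : {m : ℤ | wdist S 1 (c ^ m) ≤ N}.Finite :=
    (ball_finite hS hSg 1 N).preimage h2.injOn
  obtain ⟨D, hD⟩ := (h3.image Int.natAbs).bddAbove
  refine ⟨D, fun i j hij => ?_⟩
  have h4 : wdist S 1 (c ^ (j - i)) ≤ N := by
    have h5 := wdist_mul_left (S := S) (c ^ i) 1 (c ^ (j - i))
    rw [mul_one, ← zpow_add, add_sub_cancel] at h5
    rw [← h5]
    exact hij
  have h6 : (j - i).natAbs ≤ D := hD ⟨_, h4, rfl⟩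
  rw [abs_le]
  omega

/-- a deep point inside -/
theorem c12_deep (hS : S.Finite) (hSg : Subgroup.closure S = ⊤) (hc : HS S H c) (K₁ M : ℕ) :
    ∃ x, (∀ y, wdist S x y ≤ K₁ → y ∈ H) ∧ ∀ i : ℤ, M < wdist S x (c ^ i) := by
  obtain ⟨ρ, hρ⟩ := c12_bd hc K₁
  obtain ⟨x, hx, hx'⟩ := hc.deep {f | wdist S 1 f ≤ ρ + M} (ball_finite hS hSg 1 _)
  have h1 : ∀ i : ℤ, ρ + M < wdist S x (c ^ i) := by
    intro i
    by_contra h
    rw [not_lt] at h
    refine hx' (-i) ?_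
    show wdist S 1 (c ^ (-i) * x) ≤ ρ + M
    rw [wdist_comm hSg, c12_shift, neg_neg, mul_one]
    exact h
  refine ⟨x, fun y hy => ?_, fun i => lt_of_le_of_lt (Nat.le_add_left _ _) (h1 i)⟩
  by_contra hyH
  obtain ⟨i, hi⟩ := hρ x y hy hx hyH
  have := h1 i
  omega

/-- a deep point outside -/
theorem c12_deep' (hS : S.Finite) (hSg : Subgroup.closure S = ⊤) (hc : HS S H c) (K₁ M : ℕ) :
    ∃ x, (∀ y, wdist S x y ≤ K₁ → y ∉ H) ∧ ∀ i : ℤ, M < wdist S x (c ^ i) := by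
  obtain ⟨ρ, hρ⟩ := c12_bd hc K₁
  obtain ⟨x, hx, hx'⟩ := hc.deep' {f | wdist S 1 f ≤ ρ + K₁ + M} (ball_finite hS hSg 1 _)
  have h1 : ∀ i : ℤ, ρ + K₁ + M < wdist S x (c ^ i) := by
    intro i
    by_contra h
    rw [not_lt] at h
    refine hx' (-i) ?_
    show wdist S 1 (c ^ (-i) * x) ≤ ρ + K₁ + M
    rw [wdist_comm hSg, c12_shift, neg_neg, mul_one]
    exact h
  refine ⟨x, fun y hy => ?_, fun i => lt_of_le_of_lt (Nat.le_add_left _ _) (h1 i)⟩
  intro hyH
  obtain ⟨i, hi⟩ := hρ y x (by rw [wdist_comm hSg]; exact hy) hyH hx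
  have h2 := h1 i
  have h3 := wdist_triangle hSg x y (c ^ i)
  omega

theorem c12_argmin (f : ℤ → ℕ) : ∃ j, ∀ j', f j ≤ f j' := by
  obtain ⟨j, hj⟩ := Nat.sInf_mem (Set.range_nonempty f)
  refine ⟨j, fun j' => ?_⟩
  rw [hj]
  exact Nat.sInf_le ⟨j', rfl⟩

end C12

/-- row C12: walls from quasi-isometries -/
theorem sc12 : SC12 := by
  intro G _ S hS hSg H c hc K
  have hb := c12_bd hc
  choose ρ hρ using hb
  have hpr := c12_prop hS hSg hc.ord
  choose D hD using hpr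
  have hdi := fun M => c12_deep hS hSg hc (K * K + K) (K * M + K)
  choose p hp hp' using hdi
  have hdo := fun M => c12_deep' hS hSg hc (K * K + K) (K * M + K)
  choose q hq hq' using hdo
  refine ⟨fun n => 2 * K + K * ρ (K * (2 * K + n) + K) + (K * wdist S 1 c + K),
    fun n => D (K * n + K),
    fun M => (K * wdist S (p M) 1 + K) + (K * wdist S (q M) 1 + K), fun φ hφ => ?_⟩
  obtain ⟨h1, h2, h3⟩ := hφ
  choose ψ hψ using h3
  have hψφ : ∀ x, wdist S x (ψ (φ x)) ≤ K * K + K := by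
    intro x
    refine (h2 _ _).trans ?_
    exact Nat.add_le_add_right (Nat.mul_le_mul_left K (hψ (φ x))) K
  have hψ2 : ∀ x y n, wdist S x y ≤ n → wdist S (ψ x) (ψ y) ≤ K * (2 * K + n) + K := by
    intro x y n hxy
    refine (h2 _ _).trans ?_
    have h4 := hψ x
    have h5 := hψ y
    have h6 := wdist_triangle hSg (φ (ψ x)) x (φ (ψ y))
    have h7 := wdist_triangle hSg x y (φ (ψ y))
    have h8 : wdist S (φ (ψ x)) x = wdist S x (φ (ψ x)) := wdist_comm hSg _ _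
    exact Nat.add_le_add_right (Nat.mul_le_mul_left K (by omega)) K
  choose T hT using fun x => c12_argmin (fun j : ℤ => wdist S x (φ (c ^ j)))
  refine ⟨⟨{y | ψ y ∈ H}, fun i => φ (c ^ i), T⟩, ?_, fun i => rfl⟩
  refine ⟨?_, ?_, ?_, ?_, ?_⟩
  · intro n x y hxy hx hy
    obtain ⟨i, hi⟩ := hρ _ (ψ x) (ψ y) (hψ2 x y n hxy) hx hy
    refine ⟨i, ?_⟩
    show wdist S x (φ (c ^ i)) ≤ _
    have h4 := hψ x
    have h5 := h1 (ψ x) (c ^ i)
    have h6 := wdist_triangle hSg x (φ (ψ x)) (φ (c ^ i))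
    have h7 := Nat.mul_le_mul_left K hi
    omega
  · exact hT
  · intro i
    show wdist S (φ (c ^ i)) (φ (c ^ (i + 1))) ≤ _
    have h4 := h1 (c ^ i) (c ^ (i + 1))
    have h5 : wdist S (c ^ i) (c ^ (i + 1)) = wdist S 1 c := by
      have h6 := wdist_mul_left (S := S) (c ^ i) 1 c
      rw [mul_one, ← zpow_add_one] at h6
      exact h6
    rw [h5] at h4
    omega
  · intro n i j hij
    refine hD (K * n + K) i j ((h2 _ _).trans ?_)
    exact Nat.add_le_add_right (Nat.mul_le_mul_left K hij) K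
  · intro M i
    -- points `φ (c ^ i * x)` for deep `x`
    have key : ∀ x, wdist S (φ (c ^ i * x)) (φ (c ^ i)) ≤ K * wdist S x 1 + K := by
      intro x
      have h4 := h1 (c ^ i * x) (c ^ i)
      have h5 : wdist S (c ^ i * x) (c ^ i) = wdist S x 1 := by
        have h6 := wdist_mul_left (S := S) (c ^ i) x 1
        rw [mul_one] at h6
        exact h6
      rwa [h5] at h4
    have key2 : ∀ x, (∀ j : ℤ, K * M + K < wdist S x (c ^ j)) → ∀ j : ℤ,
        M < wdist S (φ (c ^ i * x)) (φ (c ^ j)) := by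
      intro x hx j
      by_contra h
      rw [not_lt] at h
      have h4 := h2 (c ^ i * x) (c ^ j)
      have h5 := Nat.mul_le_mul_left K h
      have h6 : wdist S (c ^ i * x) (c ^ j) = wdist S x (c ^ (-i + j)) := by
        rw [c12_shift, ← zpow_add]
      have h7 := hx (-i + j)
      omega
    have key3 : ∀ x, wdist S x (c ^ (-i) * ψ (φ (c ^ i * x))) ≤ K * K + K := by
      intro x
      rw [← c12_shift]
      exact hψφ _
    refine ⟨φ (c ^ i * p M), ?_, φ (c ^ i * q M), ?_, ?_, ?_, fun j => ⟨?_, ?_⟩⟩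
    · show ψ (φ (c ^ i * p M)) ∈ H
      exact (c12_inv hc (-i) _).1 (hp M _ (key3 _))
    · show ¬ (ψ (φ (c ^ i * q M)) ∈ H)
      exact fun h => hq M _ (key3 _) ((c12_inv hc (-i) _).2 h)
    · have := key (p M)
      show wdist S (φ (c ^ i * p M)) (φ (c ^ i)) ≤ _
      omega
    · have := key (q M)
      show wdist S (φ (c ^ i * q M)) (φ (c ^ i)) ≤ _
      omega
    · exact key2 _ (hp' M) j
    · exact key2 _ (hq' M) j

end Pool.Agent.QD
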