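import Pool.Agent.QD.Stm

/-!
# C13: the splitting of a half-space of a piece
-/

set_option autoImplicit false

namespace Pool.Agent.QD

open Pool.Agent.QIS

variable {G : Type} [Group G]

theorem c13_inv {S H : Set G} {c : G} (h : HS S H c) (i : ℤ) (x : G) :
    c ^ i * x ∈ H ↔ x ∈ H := by
  have hinv : ∀ y, c⁻¹ * y ∈ H ↔ y ∈ H := by
    intro y
    rw [← h.inv (c⁻¹ * y), mul_inv_cancel_left]
  have hn : ∀ (n : ℕ) (x : G), c ^ n * x ∈ H ↔ x ∈ H := by
    intro n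
    induction n with
    | zero => intro x; rw [pow_zero, one_mul]
    | succ n ih => intro x; rw [pow_succ', mul_assoc, h.inv, ih]
  have hn' : ∀ (n : ℕ) (x : G), (c⁻¹) ^ n * x ∈ H ↔ x ∈ H := by
    intro n
    induction n with
    | zero => intro x; rw [pow_zero, one_mul]
    | succ n ih => intro x; rw [pow_succ', mul_assoc, hinv, ih]
  cases i with
  | ofNat n => rw [Int.ofNat_eq_natCast, zpow_natCast]; exact hn n x
  | negSucc n => rw [zpow_negSucc, ← inv_pow]; exact hn' (n + 1) x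

/-- nestedness of a half-space of a piece with its translates -/
theorem c13_nest {S : Set G} {P : Subgroup G} {HH : Set (Set G)} (hP : Piece S P HH)
    {H : Set G} (hH : H ∈ HH) (h : G) : Nested H (tl h H) := by
  by_cases hh : h ∈ P
  · have h1 := hP.inv h hh H hH
    by_cases he : H = tl h H
    · exact Or.inl (le_of_eq he)
    · exact Or.inr (Or.inl (Set.subset_compl_iff_disjoint_right.2 (hP.disj H hH _ h1 he)))
  · obtain ⟨H1, h1, H1', h1', hs⟩ := hP.nest h hh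
    by_cases e1 : H1 = H
    · by_cases e2 : H1' = H
      · subst e1
        rw [e2] at hs
        exact Or.inr (Or.inr (Or.inl (Set.compl_subset_comm.1 hs)))
      · subst e1
        have hd : Disjoint H1' H1 := hP.disj H1' h1' H1 h1 e2
        refine Or.inr (Or.inr (Or.inr ?_))
        refine Set.compl_subset_compl.2 ?_
        intro x hx
        refine hs ?_
        intro hx'
        exact Set.disjoint_left.1 hd hx' hx
    · by_cases e2 : H1' = H
      · rw [e2] at hs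
        have hd : Disjoint H1 H := hP.disj H1 h1 H hH e1
        refine Or.inl ?_
        intro x hx
        by_contra hx'
        exact Set.disjoint_left.1 hd (hs hx') hx
      · have hd : Disjoint H1 H := hP.disj H1 h1 H hH e1
        have hd' : Disjoint H1' H := hP.disj H1' h1' H hH e2
        refine Or.inr (Or.inl ?_)
        intro x hx hx'
        have h3 : x ∉ tl h H1' := fun h4 => Set.disjoint_left.1 hd' h4 hx'
        exact Set.disjoint_left.1 hd (hs h3) hx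

/-- finitely many translates separate two points -/
theorem c13_fin {S H : Set G} {c : G} (hs : HS S H c) (x y : G) :
    {B : Set G | (∃ h : G, B = tr h H) ∧ x ∈ B ∧ y ∉ B}.Finite := by
  obtain ⟨F, hF, hb⟩ := hs.bd (wdist S x y)
  refine (hF.image (fun f => tl (x * f⁻¹) H)).subset ?_
  rintro B ⟨⟨h, rfl⟩, hx, hy⟩
  have hx' : h⁻¹ * x ∈ H := hx
  have hy' : h⁻¹ * y ∉ H := hy
  have hw : wdist S (h⁻¹ * x) (h⁻¹ * y) ≤ wdist S x y := le_of_eq (wdist_mul_left _ _ _)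
  obtain ⟨i, hi⟩ := hb _ _ hw hx' hy'
  refine ⟨_, hi, ?_⟩
  ext z
  show (x * (c ^ i * (h⁻¹ * x))⁻¹)⁻¹ * z ∈ H ↔ h⁻¹ * z ∈ H
  have e : (x * (c ^ i * (h⁻¹ * x))⁻¹)⁻¹ * z = c ^ i * (h⁻¹ * z) := by group
  rw [e]
  exact c13_inv hs i _

theorem c13_deep {S H : Set G} {c : G} (hs : HS S H c) (n : ℕ) :
    ∃ x ∈ H, ∀ y, wdist S x y ≤ n → y ∈ H := by
  obtain ⟨F, hF, hb⟩ := hs.bd n
  obtain ⟨x, hx, hd⟩ := hs.deep F hF
  refine ⟨x, hx, fun y hy => ?_⟩
  by_contra hy'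
  obtain ⟨i, hi⟩ := hb x y hy hx hy'
  exact hd i hi

theorem c13_deep' {S H : Set G} {c : G} (hS : S.Finite) (hSg : Subgroup.closure S = ⊤)
    (hs : HS S H c) (n : ℕ) : ∃ y, y ∉ H ∧ ∀ x, wdist S x y ≤ n → x ∉ H := by
  obtain ⟨F, hF, hb⟩ := hs.bd n
  have hF' : (⋃ f ∈ F, {z | wdist S f z ≤ n}).Finite :=
    hF.biUnion fun f _ => ball_finite hS hSg f n
  obtain ⟨y, hy, hd⟩ := hs.deep' _ hF'
  refine ⟨y, hy, fun x hx hx' => ?_⟩
  obtain ⟨i, hi⟩ := hb x y hx hx' hy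
  refine hd i ?_
  refine Set.mem_biUnion hi ?_
  show wdist S (c ^ i * x) (c ^ i * y) ≤ n
  rw [wdist_mul_left]
  exact hx

theorem sc13 (b10 : SB10) : SC13 := by
  intro G _ S hS hSg P HH hP H hH
  obtain ⟨c, _, hs⟩ := hP.hs H hH
  obtain ⟨x0, hx0, _⟩ := hs.deep ∅ Set.finite_empty
  obtain ⟨y0, hy0, _⟩ := hs.deep' ∅ Set.finite_empty
  have hN : ∀ h : G, Nested H (tr h H) := fun h => c13_nest hP hH h
  have h1 : ∃ g : G, tr g H ⊂ H ∨ (tr g H)ᶜ ⊂ H := by
    obtain ⟨x, hx, hd⟩ := c13_deep hs (wdist S x0 y0)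
    have ex : x * x0⁻¹ * x0 = x := by group
    have hy : x * x0⁻¹ * y0 ∈ H := by
      refine hd _ ?_
      have h2 : wdist S (x * x0⁻¹ * x0) (x * x0⁻¹ * y0) = wdist S x0 y0 := wdist_mul_left _ _ _
      rw [ex] at h2
      exact le_of_eq h2
    have hxt : x ∈ tr (x * x0⁻¹) H := by
      show (x * x0⁻¹)⁻¹ * x ∈ H
      have e : (x * x0⁻¹)⁻¹ * x = x0 := by group
      rw [e]; exact hx0
    have hyt : x * x0⁻¹ * y0 ∉ tr (x * x0⁻¹) H := by
      intro h2
      have h3 : (x * x0⁻¹)⁻¹ * (x * x0⁻¹ * y0) ∈ H := h2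
      rw [inv_mul_cancel_left] at h3
      exact hy0 h3
    refine ⟨x * x0⁻¹, ?_⟩
    rcases hN (x * x0⁻¹) with h2 | h2 | h2 | h2
    · exact absurd (h2 hy) hyt
    · exact absurd hxt (h2 hx)
    · refine Or.inr ⟨Set.compl_subset_comm.1 h2, fun h3 => ?_⟩
      exact h3 hx hxt
    · refine Or.inl ⟨Set.compl_subset_compl.1 h2, fun h3 => ?_⟩
      exact hyt (h3 hy)
  have h1' : ∃ g : G, tr g H ⊂ Hᶜ ∨ (tr g H)ᶜ ⊂ Hᶜ := by
    obtain ⟨y, hy, hd⟩ := c13_deep' hS hSg hs (wdist S x0 y0)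
    have ey : y * y0⁻¹ * y0 = y := by group
    have hx : y * y0⁻¹ * x0 ∉ H := by
      refine hd _ ?_
      have h2 : wdist S (y * y0⁻¹ * x0) (y * y0⁻¹ * y0) = wdist S x0 y0 := wdist_mul_left _ _ _
      rw [ey] at h2
      exact le_of_eq h2
    have hxt : y * y0⁻¹ * x0 ∈ tr (y * y0⁻¹) H := by
      show (y * y0⁻¹)⁻¹ * (y * y0⁻¹ * x0) ∈ H
      rw [inv_mul_cancel_left]; exact hx0
    have hyt : y ∉ tr (y * y0⁻¹) H := by
      intro h2
      have h3 : (y * y0⁻¹)⁻¹ * y ∈ H := h2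
      have e : (y * y0⁻¹)⁻¹ * y = y0 := by group
      rw [e] at h3
      exact hy0 h3
    refine ⟨y * y0⁻¹, ?_⟩
    rcases hN (y * y0⁻¹) with h2 | h2 | h2 | h2
    · refine Or.inr ⟨Set.compl_subset_compl.2 h2, fun h3 => ?_⟩
      exact h3 hx hxt
    · refine Or.inl ⟨fun z hz hz' => h2 hz' hz, fun h3 => ?_⟩
      exact hyt (h3 hy)
    · exact absurd (h2 hy) hyt
    · exact absurd hxt (h2 hx)
  obtain ⟨E, π, e1, e2, e3⟩ := b10 G G H hN (fun x y => c13_fin hs x y) ⟨x0, hx0⟩ ⟨y0, hy0⟩ h1 h1'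
  refine ⟨E, π, fun g x => e1 g x, fun g => e2 g, fun x => ?_⟩
  have h4 := e3 1 x
  rw [one_smul, one_smul] at h4
  rw [← h4]
  show x ∈ H ↔ (1 : G)⁻¹ * x ∈ H
  rw [inv_one, one_mul]

end Pool.Agent.QD
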