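import Pool.Agent.QD.Stm

/-!
# C14: an uncrossed half-space gives an uncrossed splitting

Project of MP_bbdce3_al. The stabilizer `C` of the half-space `H` is close to the line of `c`, the
position of `x` in the tree tells whether `x` is in `H` up to points close to `C`, and points of
`H` that are not deep are close to `C`.
-/

set_option autoImplicit false

namespace Pool.Agent.QD

open Pool.Agent.QIS MulAction

section

variable {G : Type} [Group G] {S : Set G}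

theorem c14_bound {α : Type} {F : Set α} (hF : F.Finite) (f : α → ℕ) :
    ∃ R, ∀ x ∈ F, f x ≤ R := by
  obtain ⟨R, hR⟩ := (hF.image f).bddAbove
  exact ⟨R, fun x hx => hR ⟨x, hx, rfl⟩⟩

theorem c14_tl {H : Set G} {g : G} (h : tl g H = H) (x : G) : g * x ∈ H ↔ x ∈ H := by
  have h1 : g * x ∈ tl g H ↔ x ∈ H := by
    show g⁻¹ * (g * x) ∈ H ↔ x ∈ H
    rw [inv_mul_cancel_left]
  rw [h] at h1
  exact h1

theorem c14_mem {H : Set G} {c : G} (hs : HS S H c) : tl c H = H := by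
  ext x
  show c⁻¹ * x ∈ H ↔ x ∈ H
  rw [← hs.inv (c⁻¹ * x), mul_inv_cancel_left]

/-- points moved into a finite set by a power of `c` are close to the line of `c` -/
theorem c14_line {F : Set G} (hF : F.Finite) (c z : G) :
    ∃ R, ∀ (g : G) (i : ℤ), c ^ i * (g * z) ∈ F → ∃ j : ℤ, wdist S g (c ^ j) ≤ R := by
  obtain ⟨R, hR⟩ := c14_bound hF (fun f => wdist S (f * z⁻¹) 1)
  refine ⟨R, fun g i hi => ⟨-i, ?_⟩⟩
  have h1 := hR _ hi
  have h2 : wdist S (c ^ (-i) * (c ^ i * (g * z) * z⁻¹)) (c ^ (-i) * 1) ≤ R := by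
    rw [wdist_mul_left]
    exact h1
  have h3 : c ^ (-i) * (c ^ i * (g * z) * z⁻¹) = g := by
    rw [zpow_neg]
    group
  rw [h3, mul_one] at h2
  exact h2

/-- (1) the stabilizer is close to the line -/
theorem c14_near {H : Set G} {c : G} (hs : HS S H c) {C : Subgroup G}
    (hC : ∀ g ∈ C, tl g H = H) : ∃ ρ, ∀ g ∈ C, ∃ j : ℤ, wdist S g (c ^ j) ≤ ρ := by
  obtain ⟨x0, hx0, -⟩ := hs.deep ∅ Set.finite_empty
  obtain ⟨y0, hy0, -⟩ := hs.deep' ∅ Set.finite_empty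
  obtain ⟨F, hF, hb⟩ := hs.bd (wdist S x0 y0)
  obtain ⟨R, hR⟩ := c14_line (S := S) hF c x0
  refine ⟨R, fun g hg => ?_⟩
  obtain ⟨i, hi⟩ := hb (g * x0) (g * y0) (by rw [wdist_mul_left]) ((c14_tl (hC g hg) x0).2 hx0)
    (fun h => hy0 ((c14_tl (hC g hg) y0).1 h))
  exact hR g i hi

/-- (3) points of `H` that are not deep are close to the line -/
theorem c14_deep {H : Set G} {c : G} (hs : HS S H c) (m : ℕ) :
    ∃ R, ∀ x ∈ H, x ∉ Dp S m H → ∃ j : ℤ, wdist S x (c ^ j) ≤ R := by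
  obtain ⟨F, hF, hb⟩ := hs.bd m
  obtain ⟨R, hR⟩ := c14_line (S := S) hF c 1
  refine ⟨R, fun x hx hd => ?_⟩
  have h1 : ∃ y, y ∉ H ∧ wdist S x y ≤ m := by
    by_contra h
    push Not at h
    exact hd fun y hy => h y hy
  obtain ⟨y, hy, hxy⟩ := h1
  obtain ⟨i, hi⟩ := hb x y hxy hx hy
  exact hR x i (by rw [mul_one]; exact hi)

/-- (2) the position in the tree -/
theorem c14_pos (E : Splitting G) (v : E.V) :
    ∃ R, ∀ x : G, ¬ (side E.T E.a E.b (x • E.a) ↔ side E.T E.a E.b (x • v)) →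
      ∃ g ∈ E.edgeGroup, wdist S x g ≤ R := by
  classical
  have hf1 := side_finite E.tree E.a v
  have hf2 := side_finite E.tree v E.a
  let X : E.V × E.V → G := fun p => if h : ∃ x : G, (x⁻¹ • E.a, x⁻¹ • E.b) = p then h.choose else 1
  obtain ⟨R, hR⟩ := c14_bound (hf1.union hf2) (fun p => wlen S (X p)⁻¹)
  refine ⟨R, fun x hx => ?_⟩
  have hm : ∀ u : E.V, side E.T E.a E.b (x • u) ↔ side E.T (x⁻¹ • E.a) (x⁻¹ • E.b) u := by
    intro u
    have h1 := side_map E.map_adj x⁻¹ E.a E.b (x • u)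
    rw [inv_smul_smul] at h1
    exact h1.symm
  rw [hm, hm] at hx
  have hadj : E.T.Adj (x⁻¹ • E.a) (x⁻¹ • E.b) := E.map_adj x⁻¹ E.adj
  have hp : (x⁻¹ • E.a, x⁻¹ • E.b) ∈
      {p : E.V × E.V | E.T.Adj p.1 p.2 ∧ side E.T p.1 p.2 E.a ∧ ¬ side E.T p.1 p.2 v} ∪
      {p : E.V × E.V | E.T.Adj p.1 p.2 ∧ side E.T p.1 p.2 v ∧ ¬ side E.T p.1 p.2 E.a} := by
    by_cases h1 : side E.T (x⁻¹ • E.a) (x⁻¹ • E.b) E.a
    · exact Or.inl ⟨hadj, h1, fun h2 => hx ⟨fun _ => h2, fun _ => h1⟩⟩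
    · exact Or.inr ⟨hadj, by_contra fun h2 => hx ⟨fun h => absurd h h1, fun h => absurd h h2⟩, h1⟩
  have hex : ∃ y : G, (y⁻¹ • E.a, y⁻¹ • E.b) = (x⁻¹ • E.a, x⁻¹ • E.b) := ⟨x, rfl⟩
  have hX : X (x⁻¹ • E.a, x⁻¹ • E.b) = hex.choose := dif_pos hex
  have hsp := hex.choose_spec
  rw [← hX] at hsp
  have h1 := hR _ hp
  set y := X (x⁻¹ • E.a, x⁻¹ • E.b) with hy
  have ha : y⁻¹ • E.a = x⁻¹ • E.a := congrArg Prod.fst hsp
  have hb : y⁻¹ • E.b = x⁻¹ • E.b := congrArg Prod.snd hsp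
  refine ⟨x * y⁻¹, ⟨?_, ?_⟩, ?_⟩
  · show (x * y⁻¹) • E.a = E.a
    rw [mul_smul, ha, smul_inv_smul]
  · show (x * y⁻¹) • E.b = E.b
    rw [mul_smul, hb, smul_inv_smul]
  · rw [wdist, inv_mul_cancel_left]
    exact h1

theorem c14_dp (hSg : Subgroup.closure S = ⊤) {H : Set G} {m r : ℕ} {x y : G}
    (hx : x ∈ Dp S (m + r) H) (hxy : wdist S x y ≤ r) : y ∈ Dp S m H := by
  intro z hz
  have h1 := hx z hz
  have h2 := wdist_triangle hSg x y z
  omega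

end

/-- C14 -/
theorem sc14 (a9 : SA9) (c12 : SC12) : SC14 := by
  intro G _ S hS hSg H c hs hU E π hπ hC hside
  obtain ⟨hs', -, -, -, h2e⟩ := a9 G S hS hSg H c hs
  have hcC : c ∈ E.edgeGroup := (hC c).2 (c14_mem hs)
  have hst : ∀ g ∈ E.edgeGroup, tl g H = H := fun g hg => (hC g).1 hg
  refine ⟨h2e E.edgeGroup hcC hst, fun K => ?_⟩
  obtain ⟨κ, Dd, M', hw⟩ := c12 G S hS hSg H c hs K
  obtain ⟨M, hM⟩ := hU κ Dd M'
  obtain ⟨ρ, hρ⟩ := c14_near hs hst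
  obtain ⟨ρ1, hρ1⟩ := c14_pos (S := S) E (π 1)
  obtain ⟨R1, hR1⟩ := c14_deep hs (M + (K * ρ + K))
  obtain ⟨R2, hR2⟩ := c14_deep hs' (M + (K * ρ + K))
  refine ⟨ρ1 + R1 + R2, fun φ hφ => ?_⟩
  obtain ⟨w, hww, hwL⟩ := hw φ hφ
  -- the position of a point that is far from the edge group
  have hpos : ∀ x : G, x ∉ nbhd S (ρ1 + R1 + R2) (E.edgeGroup : Set G) →
      (side E.T E.a E.b (x • E.a) ↔ x ∈ H) := by
    intro x hx
    by_contra h1
    rw [hside x] at h1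
    have h2 : π x = x • π 1 := by
      have h3 := hπ x 1
      rw [mul_one] at h3
      exact h3
    rw [h2] at h1
    obtain ⟨g, hg, hxg⟩ := hρ1 x h1
    exact hx ⟨g, hg, by omega⟩
  -- the line passes close to `φ g`
  have hline : ∀ g ∈ E.edgeGroup, ∃ j : ℤ, wdist S (φ g) (w.L j) ≤ K * ρ + K := by
    intro g hg
    obtain ⟨j, hj⟩ := hρ g hg
    refine ⟨j, ?_⟩
    rw [hwL j]
    have h1 := hφ.1 g (c ^ j)
    have h2 : K * wdist S g (c ^ j) ≤ K * ρ := Nat.mul_le_mul_left K hj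
    omega
  have hcj : ∀ j : ℤ, c ^ j ∈ E.edgeGroup := fun j => E.edgeGroup.zpow_mem hcC j
  rcases hM w hww with h | h
  · right
    intro g hg hgn hsd
    have h1 : φ g ∈ H := (hpos _ hgn).1 hsd
    have h2 : φ g ∈ Dp S (M + (K * ρ + K)) H := by
      by_contra h3
      obtain ⟨j, hj⟩ := hR1 _ h1 h3
      exact hgn ⟨c ^ j, hcj j, by omega⟩
    obtain ⟨j, hj⟩ := hline g hg
    exact h j (c14_dp hSg h2 hj)
  · left
    intro g hg hgn
    by_contra hsd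
    have h1 : φ g ∈ Hᶜ := fun h1 => hsd ((hpos _ hgn).2 h1)
    have h2 : φ g ∈ Dp S (M + (K * ρ + K)) Hᶜ := by
      by_contra h3
      obtain ⟨j, hj⟩ := hR2 _ h1 h3
      exact hgn ⟨c ^ j, hcj j, by omega⟩
    obtain ⟨j, hj⟩ := hline g hg
    exact h j (c14_dp hSg h2 hj)

end Pool.Agent.QD
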