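import Pool.Agent.QD.Stm
import Pool.Agent.H67.Q.Ends

/-!
# Project QI (MP_bbdce3_al), row C15: subgroups of finite index
-/

set_option autoImplicit false

namespace Pool.Agent.QD

open Pool.Agent.QIS

section

variable {G : Type} [Group G]

/-- representatives of the right cosets -/
private theorem c15_rep (G₀ : Subgroup G) (h : G₀.FiniteIndex) : ∃ R : Set G, R.Finite ∧
    (1 : G) ∈ R ∧ (∀ t ∈ R, t ∈ G₀ → t = 1) ∧ ∀ g : G, ∃ t ∈ R, g * t⁻¹ ∈ G₀ := by
  have hfin : Finite (G ⧸ G₀) := inferInstance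
  refine ⟨{t | t = 1 ∨ (t ∉ G₀ ∧ ∃ q : G ⧸ G₀, t = (Quotient.out q)⁻¹)}, ?_, Or.inl rfl, ?_, ?_⟩
  · refine Set.Finite.subset ((Set.finite_singleton (1 : G)).union
      (Set.finite_range fun q : G ⧸ G₀ => (Quotient.out q)⁻¹)) ?_
    rintro t (h1 | ⟨-, q, h1⟩)
    · exact Or.inl h1
    · exact Or.inr ⟨q, h1.symm⟩
  · rintro t (h1 | ⟨h1, -⟩) h2
    · exact h1
    · exact absurd h2 h1
  · intro g
    by_cases hg : g ∈ G₀
    · refine ⟨1, Or.inl rfl, ?_⟩
      rwa [inv_one, mul_one]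
    · have h1 : ((Quotient.out ((g⁻¹ : G) : G ⧸ G₀) : G) : G ⧸ G₀) = ((g⁻¹ : G) : G ⧸ G₀) :=
        QuotientGroup.out_eq' _
      have h2 : g * Quotient.out ((g⁻¹ : G) : G ⧸ G₀) ∈ G₀ := by
        have h3 := G₀.inv_mem (QuotientGroup.eq.1 h1)
        rwa [mul_inv_rev, inv_inv, inv_inv] at h3
      refine ⟨(Quotient.out ((g⁻¹ : G) : G ⧸ G₀))⁻¹, Or.inr ⟨fun h3 => hg ?_, _, rfl⟩, ?_⟩
      · have h4 := G₀.mul_mem h2 h3
        rwa [mul_inv_cancel_right] at h4
      · rwa [inv_inv]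

/-- rewriting of words -/
private theorem c15_word {S : Set G} {G₀ : Subgroup G} {R : Set G} {S₀ : Set G₀}
    (hR : ∀ g : G, ∃ t ∈ R, g * t⁻¹ ∈ G₀)
    (hS₀ : ∀ x : G₀, ∀ t ∈ R, ∀ t' ∈ R, ∀ s, (s ∈ S ∨ s⁻¹ ∈ S) → (x : G) = t * s * t'⁻¹ → x ∈ S₀)
    (l : List G) (hl : ∀ x ∈ l, x ∈ S ∨ x⁻¹ ∈ S) : ∀ t ∈ R, ∃ l₀ : List G₀, ∃ t' ∈ R,
      (∀ x ∈ l₀, x ∈ S₀) ∧ l₀.length = l.length ∧ t * l.prod = (l₀.prod : G) * t' := by
  induction l with
  | nil =>
    intro t ht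
    refine ⟨[], t, ht, by simp, rfl, ?_⟩
    simp
  | cons s l ih =>
    intro t ht
    obtain ⟨t1, ht1, h1⟩ := hR (t * s)
    obtain ⟨l₀, t', ht', h2, h3, h4⟩ := ih (fun x hx => hl x (List.mem_cons_of_mem _ hx)) t1 ht1
    refine ⟨⟨t * s * t1⁻¹, h1⟩ :: l₀, t', ht', ?_, ?_, ?_⟩
    · intro x hx
      rcases List.mem_cons.1 hx with rfl | hx
      · exact hS₀ _ t ht t1 ht1 s (hl s List.mem_cons_self) rfl
      · exact h2 x hx
    · rw [List.length_cons, List.length_cons, h3]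
    · rw [List.prod_cons, List.prod_cons, Subgroup.coe_mul, mul_assoc (t * s * t1⁻¹), ← h4]
      group

/-- a set with finite boundary is finite or cofinite: then there is one end -/
private theorem c15_one {S : Set G} (hS : S.Finite) (hSg : Subgroup.closure S = ⊤)
    (hinf : Infinite G) (hc : ∀ W : Set G, (q5_bd S W).Finite → W.Finite ∨ Wᶜ.Finite) :
    OneEnded S := by
  refine ⟨hinf, fun F hF => ?_⟩
  have hsym : ∀ x y, JoinedOff S F x y → JoinedOff S F y x := by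
    intro x y h
    induction h with
    | refl => exact Relation.ReflTransGen.refl
    | @tail b c _ h ih =>
      refine Relation.ReflTransGen.head ?_ ih
      obtain ⟨⟨s, hs, h1⟩, hb, hc⟩ := h
      exact ⟨⟨s, hs, h1.symm⟩, hc, hb⟩
  have hstep : ∀ x s, s ∈ S → x ∉ F → x * s ∉ F → JoinedOff S F x (x * s) := fun x s hs h1 h2 =>
    Relation.ReflTransGen.single ⟨⟨s, hs, Or.inl rfl⟩, h1, h2⟩
  have hcomp : ∀ x, {y | JoinedOff S F x y}.Finite ∨ {y | JoinedOff S F x y}ᶜ.Finite := by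
    intro x
    refine hc _ ?_
    refine Set.Finite.subset (hF.union (Set.Finite.image2 (fun f s : G => f * s⁻¹) hF hS)) ?_
    rintro g ⟨s, hs, hne⟩
    by_cases h1 : g ∈ F
    · exact Or.inl h1
    · by_cases h2 : g * s ∈ F
      · exact Or.inr ⟨g * s, h2, s, hs, mul_inv_cancel_right g s⟩
      · have h3 := hstep g s hs h1 h2
        exact absurd ⟨fun h => Relation.ReflTransGen.trans h h3,
          fun h => Relation.ReflTransGen.trans h (hsym _ _ h3)⟩ hne
  -- the points adjacent to `F`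
  set B : Set G := {b | ∃ s, (s ∈ S ∨ s⁻¹ ∈ S) ∧ b * s ∈ F} with hB
  have hS2 : {s : G | s ∈ S ∨ s⁻¹ ∈ S}.Finite := by
    refine Set.Finite.subset (hS.union (hS.image fun x => x⁻¹)) ?_
    rintro s (h | h)
    · exact Or.inl h
    · exact Or.inr ⟨s⁻¹, h, inv_inv s⟩
  have hBf : B.Finite := by
    refine Set.Finite.subset (Set.Finite.image2 (fun f s : G => f * s⁻¹) hF hS2) ?_
    rintro b ⟨s, hs, h1⟩
    exact ⟨b * s, h1, s, hs, mul_inv_cancel_right b s⟩
  have hreach : ∀ l : List G, (∀ x ∈ l, x ∈ S ∨ x⁻¹ ∈ S) → ∀ x, x * l.prod ∈ F →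
      x ∈ F ∨ ∃ b ∈ B, JoinedOff S F x b := by
    intro l
    induction l with
    | nil =>
      intro _ x hx
      left
      rwa [List.prod_nil, mul_one] at hx
    | cons s l ih =>
      intro hl x hx
      have hs := hl s List.mem_cons_self
      by_cases h1 : x ∈ F
      · exact Or.inl h1
      · right
        by_cases h2 : x * s ∈ F
        · exact ⟨x, ⟨s, hs, h2⟩, Relation.ReflTransGen.refl⟩
        · rw [List.prod_cons, ← mul_assoc] at hx
          obtain ⟨b, hb, h3⟩ := (ih (fun a ha => hl a (List.mem_cons_of_mem _ ha)) _ hx).resolve_left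
            h2
          refine ⟨b, hb, Relation.ReflTransGen.head ?_ h3⟩
          rcases hs with hs | hs
          · exact ⟨⟨s, hs, Or.inl rfl⟩, h1, h2⟩
          · exact ⟨⟨s⁻¹, hs, Or.inr (mul_inv_cancel_right x s).symm⟩, h1, h2⟩
  by_cases hFe : F.Nonempty
  · obtain ⟨f, hf⟩ := hFe
    refine ⟨F ∪ ⋃ b ∈ {b | b ∈ B ∧ {y | JoinedOff S F b y}.Finite}, {y | JoinedOff S F b y},
      hF.union ?_, ?_⟩
    · exact Set.Finite.biUnion (hBf.subset fun b hb => hb.1) fun b hb => hb.2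
    · have key : ∀ x, x ∉ F ∪ ⋃ b ∈ {b | b ∈ B ∧ {y | JoinedOff S F b y}.Finite},
          {y | JoinedOff S F b y} → {y | JoinedOff S F x y}ᶜ.Finite := by
        intro x hx
        rw [Set.mem_union, not_or] at hx
        refine (hcomp x).resolve_left fun h1 => ?_
        obtain ⟨l, hl, hp, -⟩ := q6_exists_word hSg (x⁻¹ * f)
        obtain ⟨b, hb, h2⟩ := (hreach l hl x (by rw [hp, mul_inv_cancel_left]; exact hf)).resolve_left
          hx.1
        apply hx.2
        rw [Set.mem_iUnion₂]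
        refine ⟨b, ⟨hb, h1.subset fun y hy => ?_⟩, hsym _ _ h2⟩
        exact Relation.ReflTransGen.trans h2 hy
      intro x hx y hy
      have h1 : ({z | JoinedOff S F x z}ᶜ ∪ {z | JoinedOff S F y z}ᶜ).Finite :=
        (key x hx).union (key y hy)
      obtain ⟨z, hz⟩ := h1.exists_notMem
      rw [Set.mem_union, not_or, Set.mem_compl_iff, Set.mem_compl_iff, not_not, not_not] at hz
      exact Relation.ReflTransGen.trans hz.1 (hsym _ _ hz.2)
  · have hFn : ∀ x, x ∉ F := fun x hx => hFe ⟨x, hx⟩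
    refine ⟨∅, Set.finite_empty, fun x _ y _ => ?_⟩
    have hj : ∀ l : List G, (∀ x ∈ l, x ∈ S ∨ x⁻¹ ∈ S) → ∀ x, JoinedOff S F x (x * l.prod) := by
      intro l
      induction l with
      | nil =>
        intro _ x
        rw [List.prod_nil, mul_one]
        exact Relation.ReflTransGen.refl
      | cons s l ih =>
        intro hl x
        have h1 := ih (fun a ha => hl a (List.mem_cons_of_mem _ ha)) (x * s)
        rw [List.prod_cons, ← mul_assoc]
        refine Relation.ReflTransGen.head ?_ h1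
        rcases hl s List.mem_cons_self with hs | hs
        · exact ⟨⟨s, hs, Or.inl rfl⟩, hFn _, hFn _⟩
        · exact ⟨⟨s⁻¹, hs, Or.inr (mul_inv_cancel_right x s).symm⟩, hFn _, hFn _⟩
    obtain ⟨l, hl, hp, -⟩ := q6_exists_word hSg (x⁻¹ * y)
    have h1 := hj l hl x
    rwa [hp, mul_inv_cancel_left] at h1

end

/-- C15: subgroups of finite index -/
theorem sc15 : SC15 := by
  intro G _ S hS hSg hone G₀ hG₀
  obtain ⟨R, hRf, hR1, hRG, hR⟩ := c15_rep G₀ hG₀
  have hS2 : {s : G | s ∈ S ∨ s⁻¹ ∈ S}.Finite := by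
    refine Set.Finite.subset (hS.union (hS.image fun x => x⁻¹)) ?_
    rintro s (h | h)
    · exact Or.inl h
    · exact Or.inr ⟨s⁻¹, h, inv_inv s⟩
  set S₀ : Set G₀ := {x | ∃ t ∈ R, ∃ t' ∈ R, ∃ s, (s ∈ S ∨ s⁻¹ ∈ S) ∧ (x : G) = t * s * t'⁻¹}
    with hS₀d
  have hS₀f : S₀.Finite := by
    have h1 : {y : G | ∃ t ∈ R, ∃ t' ∈ R, ∃ s, (s ∈ S ∨ s⁻¹ ∈ S) ∧ y = t * s * t'⁻¹}.Finite := by
      refine Set.Finite.subset (Set.Finite.image2 (fun a t' : G => a * t'⁻¹)
        (Set.Finite.image2 (fun t s : G => t * s) hRf hS2) hRf) ?_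
      rintro y ⟨t, ht, t', ht', s, hs, rfl⟩
      exact ⟨t * s, ⟨t, ht, s, hs, rfl⟩, t', ht', rfl⟩
    have h2 : ((fun x : G₀ => (x : G)) ⁻¹' {y : G | ∃ t ∈ R, ∃ t' ∈ R, ∃ s,
        (s ∈ S ∨ s⁻¹ ∈ S) ∧ y = t * s * t'⁻¹}).Finite :=
      Set.Finite.preimage Subtype.val_injective.injOn h1
    exact h2
  have hword := fun l hl => c15_word (S := S) (S₀ := S₀) hR
    (fun x t ht t' ht' s hs hx => ⟨t, ht, t', ht', s, hs, hx⟩) l hl 1 hR1
  -- every element is a word of at most the same length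
  have hkey : ∀ g : G₀, ∃ l₀ : List G₀, (∀ x ∈ l₀, x ∈ S₀) ∧ l₀.length = wlen S (g : G) ∧
      l₀.prod = g := by
    intro g
    obtain ⟨l, hl, hp, hn⟩ := q6_exists_word hSg (g : G)
    obtain ⟨l₀, t', ht', h1, h2, h3⟩ := hword l hl
    rw [one_mul, hp] at h3
    have h4 : t' ∈ G₀ := by
      have h5 : t' = (l₀.prod : G)⁻¹ * (g : G) := by rw [h3, inv_mul_cancel_left]
      rw [h5]
      exact G₀.mul_mem (G₀.inv_mem l₀.prod.2) g.2
    rw [hRG t' ht' h4, mul_one] at h3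
    exact ⟨l₀, h1, h2.trans hn, Subtype.ext h3.symm⟩
  have hS₀g : Subgroup.closure S₀ = ⊤ := by
    rw [eq_top_iff]
    intro g _
    obtain ⟨l₀, h1, -, h3⟩ := hkey g
    rw [← h3]
    exact Subgroup.list_prod_mem _ fun x hx => Subgroup.subset_closure (h1 x hx)
  have hle : ∀ g : G₀, wlen S₀ g ≤ wlen S (g : G) := by
    intro g
    obtain ⟨l₀, h1, h2, h3⟩ := hkey g
    rw [← h2]
    exact q6_wlen_le S₀ l₀ (fun x hx => Or.inl (h1 x hx)) h3
  obtain ⟨T, hT⟩ : ∃ T : ℕ, ∀ t ∈ R, wlen S t ≤ T := by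
    obtain ⟨T, hT⟩ := (hRf.image (wlen S)).bddAbove
    exact ⟨T, fun t ht => hT ⟨t, ht, rfl⟩⟩
  have hK1 : ∀ x : G₀, x ∈ S₀ → wlen S (x : G) ≤ 2 * T + 1 := by
    rintro x ⟨t, ht, t', ht', s, hs, hx⟩
    rw [hx]
    have h1 := q6_mul hSg (t * s) t'⁻¹
    have h2 := q6_mul hSg t s
    have h3 : wlen S s ≤ 1 := q6_wlen_le S [s] (by simpa using hs) (by simp)
    rw [q6_inv hSg] at h1
    have h4 := hT t ht
    have h5 := hT t' ht'
    omega
  have hge : ∀ g : G₀, wlen S (g : G) ≤ (2 * T + 1) * wlen S₀ g := by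
    intro g
    obtain ⟨l, hl, hp, hn⟩ := q6_exists_word hS₀g g
    rw [← hn, ← hp]
    clear hn hp
    induction l with
    | nil =>
      rw [List.prod_nil, Subgroup.coe_one, q6_one]
      exact Nat.zero_le _
    | cons x l ih =>
      rw [List.prod_cons, Subgroup.coe_mul, List.length_cons]
      have h1 := q6_mul hSg (x : G) (l.prod : G)
      have h2 := ih fun a ha => hl a (List.mem_cons_of_mem _ ha)
      have h3 : wlen S (x : G) ≤ 2 * T + 1 := by
        rcases hl x List.mem_cons_self with h | h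
        · exact hK1 x h
        · have h4 := hK1 _ h
          rwa [Subgroup.coe_inv, q6_inv hSg] at h4
      rw [mul_add, mul_one]
      omega
  have hqi : IsQI S₀ S (2 * T + 1) (fun x : G₀ => (x : G)) := by
    refine ⟨fun x y => ?_, fun x y => ?_, fun z => ?_⟩
    · exact (hge (x⁻¹ * y)).trans (Nat.le_add_right _ _)
    · have h1 := hle (x⁻¹ * y)
      have h2 : wlen S ((x⁻¹ * y : G₀) : G) ≤ (2 * T + 1) * wlen S ((x⁻¹ * y : G₀) : G) :=
        Nat.le_mul_of_pos_left _ (by omega)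
      exact (h1.trans h2).trans (Nat.le_add_right _ _)
    · obtain ⟨t, ht, h1⟩ := hR z
      refine ⟨⟨z * t⁻¹, h1⟩, ?_⟩
      show wlen S (z⁻¹ * (z * t⁻¹)) ≤ 2 * T + 1
      rw [inv_mul_cancel_left, q6_inv hSg]
      have := hT t ht
      omega
  have hinf : Infinite G₀ := by
    by_contra hcon
    rw [not_infinite_iff_finite] at hcon
    have hGi : Infinite G := hone.1
    choose t ht h1 using hR
    have hRF : Finite R := hRf
    have h2 : Finite (G₀ × R) := inferInstance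
    refine not_finite_iff_infinite.2 hGi (Finite.of_injective
      (fun g : G => ((⟨g * (t g)⁻¹, h1 g⟩, ⟨t g, ht g⟩) : G₀ × R)) fun a b hab => ?_)
    have h3 := congrArg (fun p : G₀ × R => (p.1 : G) * (p.2 : G)) hab
    simpa using h3
  obtain ⟨K', F', hF', -, -⟩ := exists_quasiInverse hS₀g hSg (2 * T + 1) _ hqi
  refine ⟨S₀, hS₀f, hS₀g, c15_one hS₀f hS₀g hinf fun W hW => ?_, 2 * T + 1, hqi⟩
  exact q5_crit' hS hS₀f hSg hS₀g hone hF' W hW

end Pool.Agent.QD
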