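import Pool.Agent.QD.Stm
import Pool.Agent.H67.Q.Ends
import Pool.Agent.H67.Q.Lines

/-!
# QD, C16: the tree of a splitting under a subgroup of finite index
-/

set_option autoImplicit false

namespace Pool.Agent.QD

open Pool.Agent.QIS MulAction

section

variable {G : Type} [Group G] (E : Splitting G)

private theorem c16_dist_le (g : G) (x y : E.V) : E.T.dist (g • x) (g • y) ≤ E.T.dist x y := by
  obtain ⟨p, hp⟩ := E.tree.connected.exists_walk_length_eq_dist x y
  let f : E.T →g E.T := ⟨fun v => g • v, fun h => E.map_adj g h⟩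
  have h1 := SimpleGraph.dist_le (p.map f)
  rw [SimpleGraph.Walk.length_map, hp] at h1
  exact h1

private theorem c16_dist (g : G) (x y : E.V) : E.T.dist (g • x) (g • y) = E.T.dist x y := by
  refine le_antisymm (c16_dist_le E g x y) ?_
  have h := c16_dist_le E g⁻¹ (g • x) (g • y)
  rwa [inv_smul_smul, inv_smul_smul] at h

/-- finitely many representatives of the orbits of a subgroup of finite index -/
private theorem c16_orb (G₀ : Subgroup G) (hG : G₀.FiniteIndex) (a : E.V) (P : E.V → Prop)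
    (hP : ∀ z z', P z → P z' → ∃ h : G, h • a = a ∧ h • z' = z) :
    ∃ N : Set E.V, N.Finite ∧ ∀ z, P z → ∃ g : G₀, g • a = a ∧ g • z ∈ N := by
  by_cases hne : ∃ z', P z'
  · obtain ⟨z', hz'⟩ := hne
    have := hG
    obtain ⟨F, hF, hcov⟩ := q2_cover (G₀.subgroupOf (stabilizer G a)) inferInstance
    refine ⟨(fun f : stabilizer G a => (f : G)⁻¹ • z') '' F, hF.image _, ?_⟩
    intro z hz
    obtain ⟨h, h1, h2⟩ := hP z z' hz hz'
    have hmem : h⁻¹ ∈ stabilizer G a := by
      rw [mem_stabilizer_iff, inv_smul_eq_iff, h1]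
    obtain ⟨f, hf, hfg⟩ := hcov ⟨h⁻¹, hmem⟩
    have h3 : (f : G)⁻¹ * h⁻¹ ∈ G₀ := Subgroup.mem_subgroupOf.1 hfg
    have h4 : (f : G)⁻¹ • a = a := by
      rw [inv_smul_eq_iff]
      exact (mem_stabilizer_iff.1 f.2).symm
    refine ⟨⟨(f : G)⁻¹ * h⁻¹, h3⟩, ?_, ?_⟩
    · show ((f : G)⁻¹ * h⁻¹) • a = a
      rw [mul_smul, mem_stabilizer_iff.1 hmem, h4]
    · refine ⟨f, hf, ?_⟩
      show (f : G)⁻¹ • z' = ((f : G)⁻¹ * h⁻¹) • z
      rw [mul_smul, ← h2, inv_smul_smul]
  · exact ⟨∅, Set.finite_empty, fun z hz => absurd ⟨z, hz⟩ hne⟩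

/-- stabilizers of edges are two-ended -/
private theorem c16_te (hE : TwoEnded E.edgeGroup) {x y : E.V} (h : E.T.Adj x y) :
    TwoEnded (stabilizer G x ⊓ stabilizer G y : Subgroup G) := by
  have key : ∀ (g : G) (u v : E.V), g • E.a = u → g • E.b = v →
      TwoEnded (stabilizer G u ⊓ stabilizer G v : Subgroup G) := by
    rintro g _ _ rfl rfl
    have h1 : (stabilizer G (g • E.a) ⊓ stabilizer G (g • E.b) : Subgroup G)
        = E.edgeGroup.map (MulAut.conj g).toMonoidHom := by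
      ext k
      rw [Subgroup.mem_inf, mem_stabilizer_iff, mem_stabilizer_iff, Subgroup.mem_map]
      constructor
      · rintro ⟨h2, h3⟩
        refine ⟨g⁻¹ * k * g, Subgroup.mem_inf.2 ⟨?_, ?_⟩, ?_⟩
        · rw [mem_stabilizer_iff, mul_smul, mul_smul, h2, inv_smul_smul]
        · rw [mem_stabilizer_iff, mul_smul, mul_smul, h3, inv_smul_smul]
        · show g * (g⁻¹ * k * g) * g⁻¹ = k
          group
      · rintro ⟨c, hc, rfl⟩
        obtain ⟨h2, h3⟩ := Subgroup.mem_inf.1 hc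
        rw [mem_stabilizer_iff] at h2 h3
        constructor
        · show (g * c * g⁻¹) • g • E.a = g • E.a
          rw [mul_smul, mul_smul, inv_smul_smul, h2]
        · show (g * c * g⁻¹) • g • E.b = g • E.b
          rw [mul_smul, mul_smul, inv_smul_smul, h3]
    rw [h1]
    exact TwoEnded.congr (E.edgeGroup.equivMapOfInjective _ (MulAut.conj g).injective) hE
  obtain ⟨g, hg⟩ := E.edge_trans h
  rcases hg with ⟨h1, h2⟩ | ⟨h1, h2⟩
  · exact key g x y h1 h2
  · rw [inf_comm]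
    exact key g y x h1 h2

/-- stabilizers of edges in a subgroup of finite index are two-ended -/
private theorem c16_te0 (G₀ : Subgroup G) (hG : G₀.FiniteIndex) {x y : E.V}
    (h : TwoEnded (stabilizer G x ⊓ stabilizer G y : Subgroup G)) :
    TwoEnded (stabilizer G₀ x ⊓ stabilizer G₀ y : Subgroup G₀) := by
  have := hG
  let C : Subgroup G := stabilizer G x ⊓ stabilizer G y
  have hCinf : Infinite C := h.infinite
  have hfi : (G₀.subgroupOf C).FiniteIndex := inferInstance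
  have hinf : Infinite (G₀.subgroupOf C) := by
    by_contra hcon
    have hfin : Finite (G₀.subgroupOf C) := not_infinite_iff_finite.1 hcon
    have hq : Finite (C ⧸ G₀.subgroupOf C) := Subgroup.finite_quotient_of_finiteIndex
    have : Finite C := Finite.of_equiv _ (Subgroup.groupEquivQuotientProdSubgroup
      (s := G₀.subgroupOf C)).symm
    exact not_finite C
  have h1 : TwoEnded (G₀.subgroupOf C) := (TwoEnded.of_infinite h _ hinf).1
  refine TwoEnded.congr (A := G₀.subgroupOf C) ?_ h1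
  refine
    { toFun := fun c => ⟨⟨(c : C), Subgroup.mem_subgroupOf.1 c.2⟩,
        Subgroup.mem_inf.2 ⟨(Subgroup.mem_inf.1 (c : C).2).1, (Subgroup.mem_inf.1 (c : C).2).2⟩⟩
      invFun := fun c => ⟨⟨((c : G₀) : G), Subgroup.mem_inf.2
        ⟨(Subgroup.mem_inf.1 c.2).1, (Subgroup.mem_inf.1 c.2).2⟩⟩,
          Subgroup.mem_subgroupOf.2 (c : G₀).2⟩
      left_inv := fun c => rfl
      right_inv := fun c => rfl
      map_mul' := fun c d => rfl }

/-- the orbit of the base point under a subgroup of finite index is coarsely dense -/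
private theorem c16_near (G₀ : Subgroup G) (hG : G₀.FiniteIndex) (a : E.V)
    (ha : a = E.a ∨ a = E.b) : ∃ D : ℕ, ∀ v, ∃ g : G₀, E.T.dist v (g • a) ≤ D := by
  obtain ⟨F, hF, hcov⟩ := q2_cover G₀ hG
  obtain ⟨D0, hD0⟩ := (hF.image fun f => E.T.dist a (f⁻¹ • a)).bddAbove
  refine ⟨2 + D0, fun v => ?_⟩
  obtain ⟨g, hg⟩ := q5_near E v
  have h1 : E.T.dist v (g • E.a) ≤ 1 := by
    rcases hg with h | h
    · rw [h, SimpleGraph.dist_self]
      exact Nat.zero_le _
    · rw [SimpleGraph.dist_comm]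
      exact (SimpleGraph.dist_eq_one_iff_adj.2 h).le
  have h2 : E.T.dist (g • E.a) (g • a) ≤ 1 := by
    rw [c16_dist]
    rcases ha with rfl | rfl
    · rw [SimpleGraph.dist_self]
      exact Nat.zero_le _
    · exact (SimpleGraph.dist_eq_one_iff_adj.2 E.adj).le
  obtain ⟨f, hf, hfg⟩ := hcov g⁻¹
  have h3 : (g * f : G) ∈ G₀ := by
    have := G₀.inv_mem hfg
    rwa [mul_inv_rev, inv_inv, inv_inv] at this
  refine ⟨⟨g * f, h3⟩, ?_⟩
  have h4 : E.T.dist (g • a) ((g * f : G) • a) ≤ D0 := by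
    rw [mul_smul, c16_dist]
    have h5 : E.T.dist a (f • a) = E.T.dist a (f⁻¹ • a) := by
      rw [← c16_dist E f⁻¹ a (f • a), inv_smul_smul, SimpleGraph.dist_comm]
    rw [h5]
    exact hD0 ⟨f, hf, rfl⟩
  have h6 : E.T.dist v ((g * f : G) • a) ≤ E.T.dist v (g • E.a) +
      E.T.dist (g • E.a) ((g * f : G) • a) := E.tree.connected.dist_triangle
  have h7 : E.T.dist (g • E.a) ((g * f : G) • a) ≤ E.T.dist (g • E.a) (g • a) +
      E.T.dist (g • a) ((g * f : G) • a) := E.tree.connected.dist_triangle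
  show E.T.dist v ((g * f : G) • a) ≤ 2 + D0
  omega

end

theorem sc16 : SC16 := by
  intro G _ E hE G₀ hG a ha
  refine ⟨?_, ?_, ?_, ?_⟩
  · rcases ha with rfl | rfl
    · exact ⟨E.b, E.adj⟩
    · exact ⟨E.a, E.adj.symm⟩
  · obtain ⟨N1, hN1, h1⟩ := c16_orb E G₀ hG a (fun z => ∃ g : G, g • E.a = a ∧ g • E.b = z) (by
      rintro z z' ⟨g, hg1, hg2⟩ ⟨g', hg1', hg2'⟩
      refine ⟨g * g'⁻¹, ?_, ?_⟩
      · rw [mul_smul, ← hg1', inv_smul_smul, hg1, hg1']
      · rw [mul_smul, ← hg2', inv_smul_smul, hg2])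
    obtain ⟨N2, hN2, h2⟩ := c16_orb E G₀ hG a (fun z => ∃ g : G, g • E.a = z ∧ g • E.b = a) (by
      rintro z z' ⟨g, hg1, hg2⟩ ⟨g', hg1', hg2'⟩
      refine ⟨g * g'⁻¹, ?_, ?_⟩
      · rw [mul_smul, ← hg2', inv_smul_smul, hg2, hg2']
      · rw [mul_smul, ← hg1', inv_smul_smul, hg1])
    refine ⟨N1 ∪ N2, hN1.union hN2, fun z hz => ?_⟩
    obtain ⟨g, hg⟩ := E.edge_trans hz
    rcases hg with h | h
    · obtain ⟨k, hk1, hk2⟩ := h1 z ⟨g, h⟩
      exact ⟨k, hk1, Or.inl hk2⟩
    · obtain ⟨k, hk1, hk2⟩ := h2 z ⟨g, h⟩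
      exact ⟨k, hk1, Or.inr hk2⟩
  · intro z hz
    exact c16_te0 E G₀ hG (c16_te E hE hz)
  · intro x y hxy n
    obtain ⟨D, hD⟩ := c16_near E G₀ hG a ha
    obtain ⟨v, hv, hvd⟩ := q5_unbdd E hxy x (n + D + 2)
    have hv' : ¬ side E.T x y v := hv
    obtain ⟨g, hg⟩ := hD v
    refine ⟨g, ?_, ?_⟩
    · rw [side_swap E.tree hxy]
      obtain ⟨p, hp⟩ := E.tree.connected.exists_walk_length_eq_dist v (g • a)
      have hx : x ∉ p.support := by
        intro hx
        classical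
        have h1 := congrArg SimpleGraph.Walk.length (p.take_spec hx)
        rw [SimpleGraph.Walk.length_append] at h1
        have h2 : E.T.dist v x ≤ (p.takeUntil x hx).length := SimpleGraph.dist_le _
        rw [SimpleGraph.dist_comm] at h2
        omega
      rw [← q5_walk_side p hx]
      exact hv'
    · have h1 : E.T.dist x v ≤ E.T.dist x (g • a) + E.T.dist (g • a) v :=
        E.tree.connected.dist_triangle
      rw [SimpleGraph.dist_comm (u := g • a) (v := v)] at h1
      omega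

end Pool.Agent.QD
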