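import Pool.Agent.QD.Stm

/-!
# Project QD, row C1: tree lemmas
-/

set_option autoImplicit false

namespace Pool.Agent.QD

open Pool.Agent.QIS MulAction

section tree

variable {V : Type} {T : SimpleGraph V}

/-- disjoint branches at a vertex -/
theorem c1_disj (hT : T.IsTree) {w z z' : V} (hz : T.Adj w z) (hz' : T.Adj w z') (hne : z ≠ z')
    {x : V} (h : side T z w x) : side T w z' x := by
  by_contra hx
  have e1 : s(z, w) ≠ s(w, z') := by
    intro h1
    rcases Sym2.eq_iff.1 h1 with ⟨h2, _⟩ | ⟨h2, _⟩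
    · exact hz.ne h2.symm
    · exact hne h2
  have e2 : s(w, z) ≠ s(w, z') := by
    rw [Sym2.eq_swap]
    exact e1
  have h1 : side T w z' z := (side_adj hz e2).1 (side_self w z')
  have h2 : ¬ side T z w z' := fun h3 =>
    not_side_other hT hz.symm ((side_adj hz' e1.symm).2 h3)
  exact (side_beyond hT hz.symm hz' h1 h2 e1).2 x hx h

/-- the distance to a vertex behind an edge -/
theorem c1_dist (hT : T.IsTree) {w z y : V} (hz : T.Adj w z) (h : side T z w y) :
    T.dist z y + 1 ≤ T.dist w y := by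
  classical
  obtain ⟨p, hp⟩ := (hT.connected.preconnected w y).exists_walk_length_eq_dist
  have h1 : ¬ side T w z y := (side_swap hT hz y).1 h
  have h2 : s(w, z) ∈ p.edges := by
    by_contra h3
    exact h1 ((q1_walk p h3).1 (side_self w z))
  have h4 : z ∈ p.support := p.snd_mem_support_of_mem_edges h2
  have h5 := congrArg SimpleGraph.Walk.length (p.take_spec h4)
  rw [SimpleGraph.Walk.length_append] at h5
  have h6 : 1 ≤ (p.takeUntil z h4).length := by
    rcases Nat.eq_zero_or_pos (p.takeUntil z h4).length with h7 | h7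
    · exact absurd (SimpleGraph.Walk.eq_of_length_eq_zero h7) hz.ne
    · exact h7
  have h7 := SimpleGraph.dist_le (p.dropUntil z h4)
  omega

/-- if `w` is beyond `{u, z}`, the side of `u` is contained in the branch at `w` towards `u` -/
theorem c1_into (hT : T.IsTree) {w u z b : V} (huz : T.Adj u z) (hb : T.Adj w b)
    (hw : side T z u w) (hbu : side T b w u) {x : V} (hx : side T u z x) : side T b w x := by
  by_cases he : s(w, b) = s(z, u)
  · rcases Sym2.eq_iff.1 he with ⟨h1, h2⟩ | ⟨h1, _⟩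
    · rw [h1, h2]
      exact hx
    · rw [h1] at hw
      exact absurd hw (not_side_other hT huz.symm)
  · rw [side_swap hT hb]
    exact (side_beyond hT hb huz.symm hw ((side_swap hT hb u).1 hbu) he).2 x
      ((side_swap hT huz.symm x).1 hx)

/-- `w` differs from the end of an edge it is beyond -/
theorem c1_ne (hT : T.IsTree) {w u z : V} (huz : T.Adj u z) (hw : side T z u w) : w ≠ u := by
  rintro rfl
  exact not_side_other hT huz.symm hw

variable {P : Type} [Group P] [MulAction P V] {c : P}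

theorem c1_plc (hT : T.IsTree) {v x y : V} (hxy : T.Adj x y) (h1 : PlE T c v x y)
    (h2 : PlE T c v y x) : False := by
  obtain ⟨i, hi⟩ := h1
  obtain ⟨j, hj⟩ := h2
  exact (side_swap hT hxy _).1 (hi (max i j) (le_max_left _ _)) (hj (max i j) (le_max_right _ _))

theorem c1_plm {v x y x' y' : V} (h : ∀ t, side T y x t → side T y' x' t)
    (h1 : PlE T c v x y) : PlE T c v x' y' := by
  obtain ⟨i, hi⟩ := h1
  exact ⟨i, fun j hj => h _ (hi j hj)⟩

theorem c1_crs_comm {x y : V} (h : Crs T c x y) : Crs T c y x := fun v =>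
  (h v).elim (fun h => Or.inr h) fun h => Or.inl h

theorem c1_crs_inv {x y : V} (h : Crs T c x y) : Crs T c⁻¹ x y := by
  intro v
  rw [inv_inv]
  exact (h v).elim (fun h => Or.inr ⟨h.2, h.1⟩) fun h => Or.inl ⟨h.2, h.1⟩

end tree

section act

variable {P : Type} [Group P] (E : Splitting P)

theorem c1_fix (h0 : E.edgeGroup = ⊥) {x y : E.V} (hxy : E.T.Adj x y) {g : P}
    (hx : g • x = x) (hy : g • y = y) : g = 1 := by
  obtain ⟨h, h1⟩ := E.edge_trans hxy
  have h2 : h⁻¹ * g * h ∈ E.edgeGroup := by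
    rcases h1 with ⟨h1, h2⟩ | ⟨h1, h2⟩
    · rw [← h1] at hx
      rw [← h2] at hy
      refine Subgroup.mem_inf.2 ⟨?_, ?_⟩
      · rw [MulAction.mem_stabilizer_iff, mul_smul, mul_smul, hx, inv_smul_smul]
      · rw [MulAction.mem_stabilizer_iff, mul_smul, mul_smul, hy, inv_smul_smul]
    · rw [← h1] at hy
      rw [← h2] at hx
      refine Subgroup.mem_inf.2 ⟨?_, ?_⟩
      · rw [MulAction.mem_stabilizer_iff, mul_smul, mul_smul, hy, inv_smul_smul]
      · rw [MulAction.mem_stabilizer_iff, mul_smul, mul_smul, hx, inv_smul_smul]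
  rw [h0, Subgroup.mem_bot] at h2
  calc g = h * (h⁻¹ * g * h) * h⁻¹ := by group
    _ = 1 := by rw [h2]; group

/-- the action on the edges is free -/
theorem c1_free (h0 : E.edgeGroup = ⊥) {x y : E.V} (hxy : E.T.Adj x y) {g : P}
    (h : s(g • x, g • y) = s(x, y)) : g = 1 := by
  rcases Sym2.eq_iff.1 h with ⟨h1, h2⟩ | ⟨h1, h2⟩
  · exact c1_fix E h0 hxy h1 h2
  · exact absurd ⟨h1, h2⟩ (E.no_inv g hxy)

theorem c1_zpow {c : P} (hc : ∀ n : ℕ, 0 < n → c ^ n ≠ 1) {i : ℤ} (h : c ^ i = 1) : i = 0 := by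
  by_contra hi
  have h1 : IsOfFinOrder c := isOfFinOrder_iff_zpow_eq_one.2 ⟨i, hi, h⟩
  obtain ⟨n, hn, h2⟩ := isOfFinOrder_iff_pow_eq_one.1 h1
  exact hc n hn h2

theorem c1_ord_inv {c : P} (hc : ∀ n : ℕ, 0 < n → c ^ n ≠ 1) : ∀ n : ℕ, 0 < n → c⁻¹ ^ n ≠ 1 := by
  intro n hn h
  rw [inv_pow, inv_eq_one] at h
  exact hc n hn h

theorem c1_one {c : P} (hc : ∀ n : ℕ, 0 < n → c ^ n ≠ 1) : c ≠ 1 := fun h =>
  hc 1 one_pos (by rw [h, one_pow])

theorem c1_fin (h0 : E.edgeGroup = ⊥) {c : P} (hc : ∀ n : ℕ, 0 < n → c ^ n ≠ 1)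
    (v v' : E.V) {x y : E.V} (hxy : E.T.Adj x y) :
    {i : ℤ | ¬ (side E.T y x (c ^ i • v) ↔ side E.T y x (c ^ i • v'))}.Finite := by
  have h3 : Function.Injective (fun i : ℤ => ((c ^ (-i)) • y, (c ^ (-i)) • x)) := by
    intro i j hij
    rw [Prod.mk.injEq] at hij
    have h4 : ∀ t : E.V, c ^ (-i) • t = c ^ (-j) • t → c ^ (i - j) • t = t := by
      intro t ht
      calc c ^ (i - j) • t = c ^ i • (c ^ (-j) • t) := by rw [smul_smul, ← zpow_add, sub_eq_add_neg]
        _ = c ^ i • (c ^ (-i) • t) := by rw [ht]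
        _ = t := by rw [smul_smul, ← zpow_add, add_neg_cancel, zpow_zero, one_smul]
    have h5 := c1_zpow hc (c1_fix E h0 hxy (h4 x hij.2) (h4 y hij.1))
    omega
  have e : ∀ (i : ℤ) (t : E.V),
      side E.T y x (c ^ i • t) ↔ side E.T (c ^ (-i) • y) (c ^ (-i) • x) t := by
    intro i t
    rw [← side_map E.map_adj (c ^ (-i)) y x (c ^ i • t), smul_smul, ← zpow_add, neg_add_cancel,
      zpow_zero, one_smul]
  refine (((side_finite E.tree v v').union (side_finite E.tree v' v)).preimage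
    h3.injOn).subset ?_
  intro i hi
  have hi' : ¬ (side E.T y x (c ^ i • v) ↔ side E.T y x (c ^ i • v')) := hi
  rw [e, e] at hi'
  have ha : E.T.Adj (c ^ (-i) • y) (c ^ (-i) • x) := E.map_adj _ hxy.symm
  by_cases h1 : side E.T (c ^ (-i) • y) (c ^ (-i) • x) v
  · exact Or.inl ⟨ha, h1, fun h2 => hi' ⟨fun _ => h2, fun _ => h1⟩⟩
  · refine Or.inr ⟨ha, ?_, h1⟩
    by_contra h2
    exact hi' ⟨fun h => absurd h h1, fun h => absurd h h2⟩

theorem c1_ev (h0 : E.edgeGroup = ⊥) {c : P} (hc : ∀ n : ℕ, 0 < n → c ^ n ≠ 1)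
    (v v' : E.V) {x y : E.V} (hxy : E.T.Adj x y) : ∃ N : ℤ, ∀ i, N ≤ i →
      (side E.T y x (c ^ i • v) ↔ side E.T y x (c ^ i • v')) := by
  obtain ⟨N, hN⟩ := (c1_fin E h0 hc v v' hxy).bddAbove
  refine ⟨N + 1, fun i hi => ?_⟩
  by_contra h
  have h1 : i ≤ N := hN h
  omega

/-- the sides of the ends do not depend on the vertex -/
theorem c1_pl2 (h0 : E.edgeGroup = ⊥) {c : P} (hc : ∀ n : ℕ, 0 < n → c ^ n ≠ 1)
    (v v' : E.V) {x y : E.V} (hxy : E.T.Adj x y) (h : PlE E.T c v x y) : PlE E.T c v' x y := by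
  obtain ⟨N, hN⟩ := c1_ev E h0 hc v v' hxy
  obtain ⟨i₀, hi⟩ := h
  exact ⟨max N i₀, fun i hi' => (hN i ((le_max_left _ _).trans hi')).1
    (hi i ((le_max_right _ _).trans hi'))⟩

/-- the end is on one side of every edge -/
theorem c1_pl1 (h0 : E.edgeGroup = ⊥) {c : P} (hc : ∀ n : ℕ, 0 < n → c ^ n ≠ 1)
    (v : E.V) {x y : E.V} (hxy : E.T.Adj x y) : PlE E.T c v x y ∨ PlE E.T c v y x := by
  obtain ⟨N, hN⟩ := c1_ev E h0 hc v (c • v) hxy
  have h1 : ∀ n : ℕ, (side E.T y x (c ^ (N + n) • v) ↔ side E.T y x (c ^ N • v)) := by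
    intro n
    induction n with
    | zero => rw [Nat.cast_zero, add_zero]
    | succ n ih =>
      have h2 := hN (N + n) (by omega)
      rw [smul_smul, ← zpow_add_one] at h2
      rw [Nat.cast_add, Nat.cast_one, ← add_assoc, ← h2]
      exact ih
  have h3 : ∀ i : ℤ, N ≤ i → (side E.T y x (c ^ i • v) ↔ side E.T y x (c ^ N • v)) := by
    intro i hi
    have h4 := h1 (i - N).toNat
    rw [Int.toNat_of_nonneg (by omega), add_sub_cancel] at h4
    exact h4
  by_cases h4 : side E.T y x (c ^ N • v)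
  · exact Or.inl ⟨N, fun i hi => (h3 i hi).2 h4⟩
  · refine Or.inr ⟨N, fun i hi => ?_⟩
    rw [side_swap E.tree hxy.symm]
    exact fun h5 => h4 ((h3 i hi).1 h5)

theorem c1_mk_crs (h0 : E.edgeGroup = ⊥) {c : P} (hc : ∀ n : ℕ, 0 < n → c ^ n ≠ 1)
    (v : E.V) {x y : E.V} (hxy : E.T.Adj x y) (h1 : PlE E.T c v x y)
    (h2 : PlE E.T c⁻¹ v y x) : Crs E.T c x y := fun v' =>
  Or.inl ⟨c1_pl2 E h0 hc v v' hxy h1, c1_pl2 E h0 (c1_ord_inv hc) v v' hxy.symm h2⟩

end act

end Pool.Agent.QD
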