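import Pool.Agent.QD.Stm

/-!
# Project QD (MP_bbdce3_al), row C3: an equivariant map
-/

set_option autoImplicit false

namespace Pool.Agent.QD

/-- C3 -/
theorem sc3 : SC3 := by
  classical
  intro G _ P V _ _
  have h1 : ∀ x : G, x * (Quotient.mk (QuotientGroup.rightRel P) x).out⁻¹ ∈ P := by
    intro x
    have h2 := Quotient.mk_out (s := QuotientGroup.rightRel P) x
    exact QuotientGroup.rightRel_apply.1 h2
  refine ⟨fun x => (⟨x * (Quotient.mk (QuotientGroup.rightRel P) x).out⁻¹, h1 x⟩ : P) •
    Classical.arbitrary V, fun p x => ?_⟩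
  have h3 : Quotient.mk (QuotientGroup.rightRel P) ((p : G) * x) =
      Quotient.mk (QuotientGroup.rightRel P) x := by
    refine Quotient.sound ?_
    refine QuotientGroup.rightRel_apply.2 ?_
    rw [mul_inv_rev, mul_inv_cancel_left]
    exact P.inv_mem p.2
  show (⟨(p : G) * x * (Quotient.mk (QuotientGroup.rightRel P) ((p : G) * x)).out⁻¹,
    h1 ((p : G) * x)⟩ : P) • Classical.arbitrary V = p • _
  rw [← mul_smul]
  congr 1
  refine Subtype.ext ?_
  show (p : G) * x * (Quotient.mk (QuotientGroup.rightRel P) ((p : G) * x)).out⁻¹ =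
    (p : G) * (x * (Quotient.mk (QuotientGroup.rightRel P) x).out⁻¹)
  rw [h3, mul_assoc]

end Pool.Agent.QD
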