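import Pool.Agent.QD.C0

/-!
# The new half-spaces, without the half-space property (row QI-C4 of the project QD, MP_bbdce3_al)
-/

set_option autoImplicit false

namespace Pool.Agent.QD

open Pool.Agent.QIS MulAction

section

variable {G : Type} [Group G] {S : Set G} {P : Subgroup G} {HH : Set (Set G)}

private theorem c4_mem_sb (t : LT S P HH) (u : t.E.V) (g : G) :
    g ∈ Sb t u ↔ ∃ p : P, p • u = u ∧ (p : G) = g := by
  constructor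
  · rintro ⟨p, hp, rfl⟩
    exact ⟨p, hp, rfl⟩
  · rintro ⟨p, hp, rfl⟩
    exact ⟨p, hp, rfl⟩

private theorem c4_tl_zc (hP : Piece S P HH) (t : LT S P HH) (π : G → t.E.V)
    (hπ : ∀ (p : P) (x : G), π ((p : G) * x) = p • π x) {p : P} {u : t.E.V} (hp : p • u = u)
    (a : t.E.V ⊕ Set G) : tl (p : G) (Zc t π u a) = Zc t π u (ptr t p a) := by
  have h1 := c0_zc_tr hP t π hπ p u a
  rw [hp] at h1
  exact h1.symm

private theorem c4_ord (t : LT S P HH) {H : Set G} (hH : H ∈ HH) :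
    ∀ n : ℕ, 0 < n → (t.c H) ^ n ≠ 1 := by
  intro n hn h
  refine (t.hc H hH).ord n hn ?_
  have := congrArg (fun x : P => (x : G)) h
  simpa using this

/-- finitely many orbits -/
private theorem c4_orb (c1 : SC1) (hP : Piece S P HH) (t : LT S P HH) (π : G → t.E.V)
    (hπ : ∀ (p : P) (x : G), π ((p : G) * x) = p • π x) (u : t.E.V) :
    ∃ F : Set (Set G), F.Finite ∧ ∀ H ∈ HHu t π u, ∃ p ∈ Sb t u, tl p H ∈ F := by
  obtain ⟨F1, hF1, -, hF1o⟩ := c0_nbr_orb t.E u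
  obtain ⟨F0, hF0, hF0o⟩ := hP.orb
  have hr : ∀ H0 : Set G, ∃ Hr : Set G, (∃ H ∈ HH, t.c H • u = u ∧ ∃ p : P, tl (p : G) H = H0) →
      Hr ∈ HH ∧ t.c Hr • u = u ∧ ∃ p : P, tl (p : G) Hr = H0 := by
    intro H0
    by_cases h : ∃ H ∈ HH, t.c H • u = u ∧ ∃ p : P, tl (p : G) H = H0
    · obtain ⟨H, h1, h2, h3⟩ := h
      exact ⟨H, fun _ => ⟨h1, h2, h3⟩⟩
    · exact ⟨∅, fun h' => absurd h' h⟩
  choose Hr hHr using hr
  refine ⟨(fun z => Zc t π u (Sum.inl z)) '' F1 ∪ (fun H0 => Zc t π u (Sum.inr (Hr H0))) '' F0,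
    (hF1.image _).union (hF0.image _), ?_⟩
  have hinl : ∀ z, t.E.T.Adj u z → ∃ p ∈ Sb t u, tl p (Zc t π u (Sum.inl z)) ∈
      (fun z => Zc t π u (Sum.inl z)) '' F1 ∪
        (fun H0 => Zc t π u (Sum.inr (Hr H0))) '' F0 := by
    intro z hz
    obtain ⟨p, hp, hpz⟩ := hF1o z hz
    refine ⟨p, (c4_mem_sb t u _).2 ⟨p, hp, rfl⟩, Or.inl ⟨p • z, hpz, ?_⟩⟩
    rw [c4_tl_zc hP t π hπ hp]
    rfl
  rintro _ ⟨a, ha, rfl⟩
  rcases a with z | H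
  · exact hinl z ha
  · obtain ⟨hH, hτ⟩ : H ∈ HH ∧ Tau t.E.T (t.c H) u := ha
    rcases hτ with hfix | ⟨z, hz, hcr⟩
    · obtain ⟨p, hp, hpF⟩ := hF0o H hH
      obtain ⟨h1, h2, p', hp'⟩ := hHr (tl p H) ⟨H, hH, hfix, ⟨p, hp⟩, rfl⟩
      have hH0 : tl p H ∈ HH := hP.inv p hp H hH
      have e1 : t.c (tl p H) = ⟨p, hp⟩ * t.c H * (⟨p, hp⟩ : P)⁻¹ := t.eqv ⟨p, hp⟩ H hH
      have e2 : t.c (tl p H) = p' * t.c (Hr (tl p H)) * p'⁻¹ := by
        rw [← t.eqv p' _ h1, hp']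
      have f1 : t.c (tl p H) • (⟨p, hp⟩ : P) • u = (⟨p, hp⟩ : P) • u := by
        rw [e1, mul_smul, mul_smul, inv_smul_smul, hfix]
      have f2 : t.c (tl p H) • p' • u = p' • u := by
        rw [e2, mul_smul, mul_smul, inv_smul_smul, h2]
      have h3 := (c1 P t.E t.triv (t.c (tl p H)) (c4_ord t hH0)).2.2.2.1 _ f1
      have h4 : p' • u = (⟨p, hp⟩ : P) • u := h3.2 _ f2
      have h5 : (p'⁻¹ * (⟨p, hp⟩ : P)) • u = u := by
        rw [mul_smul, ← h4, inv_smul_smul]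
      refine ⟨((p'⁻¹ * (⟨p, hp⟩ : P) : P) : G), (c4_mem_sb t u _).2 ⟨_, h5, rfl⟩,
        Or.inr ⟨tl p H, hpF, ?_⟩⟩
      rw [c4_tl_zc hP t π hπ h5, c0_ptr_inr]
      have h6 : tl ((p'⁻¹ * (⟨p, hp⟩ : P) : P) : G) H = Hr (tl p H) := by
        have h7 : ((p'⁻¹ * (⟨p, hp⟩ : P) : P) : G) = (p' : G)⁻¹ * p := rfl
        rw [h7, c0_tl_mul, ← hp', c0_tl_inv, hp']
      rw [h6]
    · have h1 : Rch t u (Sum.inl z) (Sum.inr H) := by
        refine c0_rch_one t ⟨hH, Or.inr ⟨u, hz.symm, c0_crs_symm hcr⟩⟩ ?_ ?_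
        · intro h
          exact hz.ne (Sum.inl.inj h).symm
        · intro h
          cases h
      rw [← c0_zc_eq t π h1]
      exact hinl z hz

/-- the core -/
private theorem c4_core (c1 : SC1) (hP : Piece S P HH) (t : LT S P HH) (π : G → t.E.V)
    (hπ : ∀ (p : P) (x : G), π ((p : G) * x) = p • π x) (u : t.E.V) :
    ∃ F : Set G, F.Finite ∧ ∀ x, (∀ H ∈ HHu t π u, x ∉ H) → ∃ p ∈ Sb t u, p * x ∈ F := by
  obtain ⟨F0, hF0, hF0c⟩ := hP.core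
  have hr : ∀ y : G, ∃ x' : G, (∃ x : G, π x = u ∧ ∃ p : P, (p : G) * x = y) →
      π x' = u ∧ ∃ p : P, (p : G) * x' = y := by
    intro y
    by_cases h : ∃ x : G, π x = u ∧ ∃ p : P, (p : G) * x = y
    · obtain ⟨x, h1⟩ := h
      exact ⟨x, fun _ => h1⟩
    · exact ⟨1, fun h' => absurd h' h⟩
  choose xr hxr using hr
  refine ⟨xr '' F0, hF0.image _, fun x hx => ?_⟩
  have h1 : cls t π x = Sum.inl u := by
    by_contra hne
    obtain ⟨a, ha, har⟩ := c0_exists_nbr c1 t u (c0_isVx_cls hP t π x) hne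
    exact hx _ ⟨a, ha, rfl⟩ ⟨hne, har⟩
  rcases c0_cls_cases hP t π x with ⟨H, _, _, h2⟩ | ⟨h2, h3⟩
  · rw [h1] at h2
    cases h2
  · have h4 : π x = u := by
      rw [h1] at h3
      exact (Sum.inl.inj h3).symm
    obtain ⟨p, hp, hpF⟩ := hF0c x h2
    obtain ⟨h5, p', hp'⟩ := hxr (p * x) ⟨x, h4, ⟨p, hp⟩, rfl⟩
    have e1 : π (p * x) = (⟨p, hp⟩ : P) • u := by
      rw [← h4]
      exact hπ ⟨p, hp⟩ x
    have e2 : π (p * x) = p' • u := by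
      rw [← h5, ← hπ, hp']
    have h6 : (p'⁻¹ * (⟨p, hp⟩ : P)) • u = u := by
      rw [mul_smul, ← e1, e2, inv_smul_smul]
    refine ⟨((p'⁻¹ * (⟨p, hp⟩ : P) : P) : G), (c4_mem_sb t u _).2 ⟨_, h6, rfl⟩,
      p * x, hpF, ?_⟩
    have h7 : ((p'⁻¹ * (⟨p, hp⟩ : P) : P) : G) = (p' : G)⁻¹ * p := rfl
    rw [h7, mul_assoc, eq_inv_mul_iff_mul_eq]
    exact hp'

/-- nested translates -/
private theorem c4_nest (c1 : SC1) (hP : Piece S P HH) (t : LT S P HH) (π : G → t.E.V)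
    (hπ : ∀ (p : P) (x : G), π ((p : G) * x) = p • π x) (u : t.E.V) (g : G)
    (hg : g ∉ Sb t u) : ∃ H ∈ HHu t π u, ∃ H' ∈ HHu t π u, (tl g H')ᶜ ⊆ H := by
  by_cases hgP : g ∈ P
  · obtain ⟨p, hp⟩ : ∃ p : P, p = ⟨g, hgP⟩ := ⟨_, rfl⟩
    have hpg : (p : G) = g := by rw [hp]
    have hne : u ≠ p • u := fun h => hg ((c4_mem_sb t u g).2 ⟨p, h.symm, hpg⟩)
    obtain ⟨z, hz, hzv⟩ := c0_first t.E.tree hne
    obtain ⟨z', hz', hzu⟩ := c0_first t.E.tree hne.symm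
    have hadj : t.E.T.Adj u (p⁻¹ • z') := by
      have h1 := t.E.map_adj p⁻¹ hz'
      rwa [inv_smul_smul] at h1
    refine ⟨_, ⟨Sum.inl z, hz, rfl⟩, _, ⟨Sum.inl (p⁻¹ • z'), hadj, rfl⟩, ?_⟩
    have h2 := c0_zc_tr hP t π hπ p u (Sum.inl (p⁻¹ • z'))
    rw [c0_ptr_inl, smul_inv_smul, hpg] at h2
    rw [← h2]
    intro x hx
    exact c0_cut c1 t hne hz hzv hz' hzu (c0_isVx_cls hP t π x) hx
  · obtain ⟨H1, hH1, H1', hH1', hsub⟩ := hP.nest g hgP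
    have key : ∀ H ∈ HH, ∃ a, Ad1 t (Sum.inl u) a ∧ H ⊆ Zc t π u a := by
      intro H hH
      obtain ⟨a, ha, har⟩ := c0_exists_nbr c1 t u (b := Sum.inr H) hH (fun h => by cases h)
      refine ⟨a, ha, fun x hx => ?_⟩
      have h3 := c0_cls_inr hP t π hH hx
      refine ⟨?_, ?_⟩
      · rw [h3]
        intro h
        cases h
      · rw [h3]
        exact har
    obtain ⟨a, ha, h1⟩ := key H1 hH1
    obtain ⟨a', ha', h1'⟩ := key H1' hH1'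
    refine ⟨_, ⟨a, ha, rfl⟩, _, ⟨a', ha', rfl⟩, fun x hx => h1 (hsub fun h => hx ?_)⟩
    exact h1' h

end

/-- C4: the new half-spaces, without the half-space property -/
theorem sc4 (c1 : SC1) : SC4 := by
  intro G _ S _ _ _ P HH hP t π hπ u
  refine ⟨?_, ?_, c4_orb c1 hP t π hπ u, c4_core c1 hP t π hπ u, c4_nest c1 hP t π hπ u, ?_⟩
  · intro q hq H hH
    obtain ⟨p, hp, rfl⟩ := (c4_mem_sb t u q).1 hq
    obtain ⟨a, ha, rfl⟩ := hH
    refine ⟨ptr t p a, ?_, c4_tl_zc hP t π hπ hp a⟩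
    have h1 := c0_ad_tr hP t p ha
    rw [c0_ptr_inl, hp] at h1
    exact h1
  · rintro _ ⟨a, ha, rfl⟩ _ ⟨a', ha', rfl⟩ hne
    refine Set.disjoint_left.2 fun x hx hx' => hne ?_
    exact c0_zc_eq t π (c0_zc_join t π hx hx')
  · by_cases h : u = t.E.a
    · have h1 : t.E.T.Adj u t.E.b := by
        rw [h]
        exact t.E.adj
      exact ⟨_, Sum.inl t.E.b, h1, rfl⟩
    · obtain ⟨z, hz, _⟩ := c0_first t.E.tree h
      exact ⟨_, Sum.inl z, hz, rfl⟩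

end Pool.Agent.QD
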