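import Pool.Agent.QD.Stm
import Pool.Agent.H67.Q.Tree

/-!
# Project QD (MP_bbdce3_al), row C7: the rank of a vertex group is smaller
-/

set_option autoImplicit false

namespace Pool.Agent.QD

open Pool.Agent.QIS MulAction

/-! ### crossed homomorphisms -/

section algebra

variable {G : Type} [Group G] {k D : Type} [Field k] [DivisionRing D]
  (ι : MonoidAlgebra k G →+* D)

/-- the image of the inverse -/
noncomputable def C7_e (g : G) : D := ι (MonoidAlgebra.of k G (g⁻¹))

theorem C7_e_one : C7_e ι 1 = 1 := by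
  unfold C7_e
  rw [inv_one, map_one, map_one]

theorem C7_e_mul (g h : G) : C7_e ι (g * h) = C7_e ι h * C7_e ι g := by
  unfold C7_e
  rw [mul_inv_rev, map_mul, map_mul]

theorem C7_e_inv (g : G) : C7_e ι g⁻¹ * C7_e ι g = 1 := by
  rw [← C7_e_mul, mul_inv_cancel, C7_e_one]

theorem C7_mem {P : Subgroup G} {d : P → D} :
    d ∈ Der ι P ↔ ∀ g h : P, d (g * h) = d g + d h * C7_e ι (g : G) := Iff.rfl

theorem C7_one {P : Subgroup G} {d : P → D} (hd : d ∈ Der ι P) : d 1 = 0 := by
  have h := (C7_mem ι).1 hd 1 1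
  rw [mul_one, Subgroup.coe_one, C7_e_one, mul_one] at h
  have h2 : d 1 + 0 = d 1 + d 1 := by rw [add_zero]; exact h
  exact (add_left_cancel h2).symm

theorem C7_inv {P : Subgroup G} {d : P → D} (hd : d ∈ Der ι P) {g : P} (hg : d g = 0) :
    d g⁻¹ = 0 := by
  have h := (C7_mem ι).1 hd g⁻¹ g
  rw [inv_mul_cancel, C7_one ι hd, hg, zero_mul, add_zero] at h
  exact h.symm

/-- crossed homomorphisms of a finitely generated group form a finite-dimensional space -/
theorem C7_finite {P : Subgroup G} (hP : P.FG) : Module.Finite D (Der ι P) := by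
  have h1 : Group.FG P := (Group.fg_iff_subgroup_fg P).2 hP
  obtain ⟨S, hS⟩ := Group.fg_def.1 h1
  let ev : Der ι P →ₗ[D] (S → D) :=
    { toFun := fun d s => d.1 s.1
      map_add' := fun _ _ => rfl
      map_smul' := fun _ _ => rfl }
  refine Module.Finite.of_injective ev ((injective_iff_map_eq_zero ev).2 ?_)
  intro d hd
  have h2 : ∀ s ∈ S, d.1 s = 0 := fun s hs => congrFun hd ⟨s, hs⟩
  have h3 : ∀ g : P, d.1 g = 0 := by
    intro g
    have hg : g ∈ Subgroup.closure (S : Set P) := by rw [hS]; exact Subgroup.mem_top g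
    induction hg using Subgroup.closure_induction with
    | mem x hx => exact h2 x hx
    | one => exact C7_one ι d.2
    | mul x y _ _ hx hy => rw [(C7_mem ι).1 d.2 x y, hx, hy, zero_mul, add_zero]
    | inv x _ hx => exact C7_inv ι d.2 hx
  exact Subtype.ext (funext h3)

/-- the terms of the sum -/
noncomputable def C7_F {P : Subgroup G} {Q : Subgroup P} (L : P → D) (g : P) (c : P ⧸ Q) : D :=
  (L (c.out⁻¹ * g) - L (c.out⁻¹)) * C7_e ι ((c.out : P) : G)

theorem C7_F_mk {P : Subgroup G} {Q : Subgroup P} {L : P → D} {d : Q → D}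
    (hL : ∀ (q : Q) (g : P), L ((q : P) * g) = d q + L g * C7_e ι ((q : P) : G)) (g h : P) :
    C7_F ι L g (QuotientGroup.mk h : P ⧸ Q) =
      (L (h⁻¹ * g) - L h⁻¹) * C7_e ι (h : G) := by
  obtain ⟨q, hq⟩ := QuotientGroup.mk_out_eq_mul Q h
  unfold C7_F
  rw [hq]
  have h1 : (h * (q : P))⁻¹ * g = ((q⁻¹ : Q) : P) * (h⁻¹ * g) := by
    rw [mul_inv_rev, mul_assoc]; rfl
  have h2 : (h * (q : P))⁻¹ = ((q⁻¹ : Q) : P) * h⁻¹ := by
    rw [mul_inv_rev]; rfl
  rw [h1, h2, hL, hL]
  have h3 : ((h * (q : P) : P) : G) = (h : G) * ((q : P) : G) := rfl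
  have h4 : (((q⁻¹ : Q) : P) : G) = ((q : P) : G)⁻¹ := rfl
  rw [h3, h4, C7_e_mul]
  have h5 := C7_e_inv ι ((q : P) : G)
  calc (d q⁻¹ + L (h⁻¹ * g) * C7_e ι ((q : P) : G)⁻¹ -
        (d q⁻¹ + L h⁻¹ * C7_e ι ((q : P) : G)⁻¹)) * (C7_e ι ((q : P) : G) * C7_e ι (h : G))
      = (L (h⁻¹ * g) - L h⁻¹) * (C7_e ι ((q : P) : G)⁻¹ * C7_e ι ((q : P) : G)) *
          C7_e ι (h : G) := by
        rw [add_sub_add_left_eq_sub, ← sub_mul]
        simp only [mul_assoc]
    _ = _ := by rw [h5, mul_one]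

/-- induction of crossed homomorphisms -/
theorem C7_ind {P : Subgroup G} {Q : Subgroup P} {L : P → D} {d : Q → D}
    (hL : ∀ (q : Q) (g : P), L ((q : P) * g) = d q + L g * C7_e ι ((q : P) : G))
    (hfin : ∀ g : P, {c : P ⧸ Q | L (c.out⁻¹ * g) ≠ L (c.out⁻¹)}.Finite) :
    (fun g : P => ∑ᶠ c : P ⧸ Q, C7_F ι L g c) ∈ Der ι P := by
  have hsup : ∀ g : P, (Function.support (C7_F ι L g : P ⧸ Q → D)).Finite := by
    intro g
    refine (hfin g).subset fun c hc h => hc ?_
    unfold C7_F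
    rw [h, sub_self, zero_mul]
  rw [C7_mem]
  intro g g'
  show (∑ᶠ c : P ⧸ Q, C7_F ι L (g * g') c) = (∑ᶠ c : P ⧸ Q, C7_F ι L g c) +
    (∑ᶠ c : P ⧸ Q, C7_F ι L g' c) * C7_e ι (g : G)
  have h1 : ∀ c : P ⧸ Q, C7_F ι L (g * g') c =
      C7_F ι L g c + C7_F ι L g' (g⁻¹ • c) * C7_e ι (g : G) := by
    intro c
    obtain ⟨h, rfl⟩ := QuotientGroup.mk_surjective c
    have e1 : g⁻¹ • (QuotientGroup.mk h : P ⧸ Q) = QuotientGroup.mk (g⁻¹ * h) := rfl
    rw [e1, C7_F_mk ι hL, C7_F_mk ι hL, C7_F_mk ι hL]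
    have e2 : (g⁻¹ * h)⁻¹ * g' = h⁻¹ * (g * g') := by group
    have e3 : (g⁻¹ * h)⁻¹ = h⁻¹ * g := by group
    rw [e2, e3, mul_assoc (L (h⁻¹ * (g * g')) - L (h⁻¹ * g)), ← C7_e_mul]
    have e4 : (g : G) * ((g⁻¹ * h : P) : G) = (h : G) := by
      rw [Subgroup.coe_mul, Subgroup.coe_inv, mul_inv_cancel_left]
    rw [e4, ← add_mul]
    congr 1
    abel
  have h2 : (∑ᶠ c : P ⧸ Q, C7_F ι L g' (g⁻¹ • c)) = ∑ᶠ c : P ⧸ Q, C7_F ι L g' c :=
    finsum_comp_equiv (MulAction.toPerm g⁻¹) (f := C7_F ι L g')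
  have h3 : (Function.support fun c : P ⧸ Q => C7_F ι L g' (g⁻¹ • c)).Finite := by
    have : (Function.support fun c : P ⧸ Q => C7_F ι L g' (g⁻¹ • c)) =
        (fun c : P ⧸ Q => g⁻¹ • c) ⁻¹' (Function.support (C7_F ι L g')) := rfl
    rw [this]
    exact (hsup g').preimage (MulAction.injective g⁻¹).injOn
  have h4 : (Function.support fun c : P ⧸ Q =>
      C7_F ι L g' (g⁻¹ • c) * C7_e ι (g : G)).Finite := by
    refine h3.subset fun c hc h => hc ?_
    show C7_F ι L g' (g⁻¹ • c) * C7_e ι (g : G) = 0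
    rw [show C7_F ι L g' (g⁻¹ • c) = 0 from h, zero_mul]
  rw [finsum_congr h1, finsum_add_distrib (hsup g) h4, ← finsum_mul' _ _ h3, h2]

end algebra

/-! ### trees -/

section tree

variable {V : Type} {T : SimpleGraph V}

/-- the direction of `x` seen from `u` is unique -/
theorem C7_uniq (hT : T.IsTree) {u z z' x : V} (hz : T.Adj u z) (hz' : T.Adj u z')
    (h : ¬ side T u z x) (h' : ¬ side T u z' x) : z = z' := by
  by_contra hne
  apply h
  have h1 : side T z' u x := (side_swap hT hz' x).2 h'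
  have h2 := (SimpleGraph.reachable_iff_reflTransGen z' x).1 h1
  clear h h' h1
  induction h2 with
  | refl =>
    refine (side_adj hz' ?_).1 (side_self u z)
    intro he
    rcases Sym2.eq_iff.1 he with ⟨_, h5⟩ | ⟨h5, h6⟩
    · exact hne h5.symm
    · exact hne (h5.symm.trans h6.symm ▸ rfl)
  | tail hr hyz ih =>
    rename_i y y'
    have hy : side T z' u y := (SimpleGraph.reachable_iff_reflTransGen z' y).2 hr
    have hy' : side T z' u y' := SimpleGraph.Reachable.trans hy hyz.reachable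
    rw [SimpleGraph.deleteEdges_adj] at hyz
    refine (side_adj hyz.1 ?_).1 ih
    intro he
    have hu := not_side_other hT hz'.symm
    rcases Sym2.eq_iff.1 he with ⟨h5, _⟩ | ⟨_, h5⟩
    · exact hu (h5 ▸ hy)
    · exact hu (h5 ▸ hy')

end tree

section splitting

variable {P : Type} [Group P] (E : Splitting P)

/-- edge stabilizers are trivial -/
theorem C7_edge (h0 : E.edgeGroup = ⊥) {x y : E.V} (h : E.T.Adj x y) {r : P} (hx : r • x = x)
    (hy : r • y = y) : r = 1 := by
  have key : ∀ p : P, (r • (p • E.a) = p • E.a) → (r • (p • E.b) = p • E.b) → r = 1 := by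
    intro p ha hb
    have h1 : p⁻¹ * r * p ∈ E.edgeGroup := by
      refine ⟨?_, ?_⟩
      · show (p⁻¹ * r * p) • E.a = E.a
        rw [mul_smul, mul_smul, ha, inv_smul_smul]
      · show (p⁻¹ * r * p) • E.b = E.b
        rw [mul_smul, mul_smul, hb, inv_smul_smul]
    rw [h0, Subgroup.mem_bot] at h1
    calc r = p * (p⁻¹ * r * p) * p⁻¹ := by group
      _ = 1 := by rw [h1, mul_one, mul_inv_cancel]
  obtain ⟨p, ⟨h1, h2⟩ | ⟨h1, h2⟩⟩ := E.edge_trans h
  · exact key p (by rw [h1, hx]) (by rw [h2, hy])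
  · exact key p (by rw [h1, hy]) (by rw [h2, hx])

open Classical in
/-- the direction of `x` seen from `u` -/
noncomputable def C7_dr (u x : E.V) : E.V :=
  if h : u ≠ x then (exists_first E.tree h).choose else u

theorem C7_dr_spec {u x : E.V} (h : u ≠ x) :
    E.T.Adj u (C7_dr E u x) ∧ ¬ side E.T u (C7_dr E u x) x := by
  unfold C7_dr
  rw [dif_pos h]
  exact (exists_first E.tree h).choose_spec

theorem C7_dr_uniq {u x z : E.V} (h : u ≠ x) (hz : E.T.Adj u z) (hz' : ¬ side E.T u z x) :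
    z = C7_dr E u x :=
  C7_uniq E.tree hz (C7_dr_spec E h).1 hz' (C7_dr_spec E h).2

theorem C7_dr_smul {u x : E.V} (h : u ≠ x) (q : P) (hq : q • u = u) :
    C7_dr E u (q • x) = q • C7_dr E u x := by
  have h1 : u ≠ q • x := fun h2 => h (by
    have h3 : q • u = q • x := hq.trans h2
    exact MulAction.injective q h3)
  obtain ⟨h2, h3⟩ := C7_dr_spec E h
  refine (C7_dr_uniq E h1 ?_ ?_).symm
  · have h4 := E.map_adj q h2
    rwa [hq] at h4
  · have h4 := side_map (fun g {x y} h => E.map_adj g h) q u (C7_dr E u x) x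
    rw [hq] at h4
    exact fun h5 => h3 (h4.1 h5)

/-- a representative of the orbit of `z` under the stabilizer of `u` -/
noncomputable def C7_rep (u z : E.V) : E.V :=
  (Quotient.mk (MulAction.orbitRel (stabilizer P u) E.V) z).out

theorem C7_rep_ex (u z : E.V) : ∃ q : stabilizer P u, (q : P) • C7_rep E u z = z := by
  have h1 : (MulAction.orbitRel (stabilizer P u) E.V) (C7_rep E u z) z :=
    Quotient.exact (Quotient.out_eq (Quotient.mk (MulAction.orbitRel (stabilizer P u) E.V) z))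
  rw [MulAction.orbitRel_apply] at h1
  obtain ⟨q, hq⟩ := h1
  refine ⟨q⁻¹, ?_⟩
  have h2 : (q : P) • z = C7_rep E u z := hq
  rw [← h2, Subgroup.coe_inv, inv_smul_smul]

theorem C7_rep_smul (u z : E.V) (q : stabilizer P u) :
    C7_rep E u ((q : P) • z) = C7_rep E u z := by
  unfold C7_rep
  congr 1
  apply Quotient.sound
  show (MulAction.orbitRel (stabilizer P u) E.V) ((q : P) • z) z
  rw [MulAction.orbitRel_apply]
  exact ⟨q, rfl⟩

/-- the element that moves the representative to `z` -/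
noncomputable def C7_rho (u z : E.V) : stabilizer P u := (C7_rep_ex E u z).choose

theorem C7_rho_spec (u z : E.V) : (C7_rho E u z : P) • C7_rep E u z = z :=
  (C7_rep_ex E u z).choose_spec

theorem C7_rho_smul (h0 : E.edgeGroup = ⊥) {u z : E.V} (hz : E.T.Adj u z)
    (q : stabilizer P u) : C7_rho E u ((q : P) • z) = q * C7_rho E u z := by
  have h1 := C7_rho_spec E u z
  have h2 := C7_rho_spec E u ((q : P) • z)
  rw [C7_rep_smul] at h2
  have hfix : ∀ r : stabilizer P u, (r : P) • u = u := fun r => r.2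
  have hadj : E.T.Adj u (C7_rep E u z) := by
    have h3 := E.map_adj ((C7_rho E u z)⁻¹ : stabilizer P u) hz
    rw [Subgroup.coe_inv] at h3
    rw [inv_smul_eq_iff.2 (hfix (C7_rho E u z)).symm, inv_smul_eq_iff.2 h1.symm] at h3
    exact h3
  set r : stabilizer P u := (C7_rho E u ((q : P) • z))⁻¹ * (q * C7_rho E u z) with hr
  have h4 : (r : P) • C7_rep E u z = C7_rep E u z := by
    rw [hr, Subgroup.coe_mul, Subgroup.coe_mul, Subgroup.coe_inv, mul_smul, mul_smul, h1,
      inv_smul_eq_iff]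
    exact h2.symm
  have h5 : (r : P) = 1 := C7_edge E h0 hadj (hfix r) h4
  have h6 : r = 1 := Subtype.ext h5
  rw [hr, inv_mul_eq_one] at h6
  exact h6

open Classical in
/-- the retraction -/
noncomputable def C7_mu (u : E.V) (g : P) : stabilizer P u :=
  if h : g • u = u then ⟨g, h⟩ else C7_rho E u (C7_dr E u (g • u))

theorem C7_mu_pos {u : E.V} (q : stabilizer P u) : C7_mu E u (q : P) = q := by
  unfold C7_mu
  rw [dif_pos (show (q : P) • u = u from q.2)]

theorem C7_mu_neg {u : E.V} {g : P} (h : g • u ≠ u) :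
    C7_mu E u g = C7_rho E u (C7_dr E u (g • u)) := by
  unfold C7_mu
  rw [dif_neg h]

theorem C7_mu_mul (h0 : E.edgeGroup = ⊥) (u : E.V) (q : stabilizer P u) (g : P) :
    C7_mu E u ((q : P) * g) = q * C7_mu E u g := by
  by_cases h : g • u = u
  · have h1 : C7_mu E u g = ⟨g, h⟩ := C7_mu_pos E ⟨g, h⟩
    rw [h1]
    exact C7_mu_pos E (q * ⟨g, h⟩)
  · have h2 : ((q : P) * g) • u ≠ u := by
      intro h3
      rw [mul_smul] at h3
      have h4 : (q : P) • u = u := q.2
      exact h (MulAction.injective (q : P) (h3.trans h4.symm))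
    rw [C7_mu_neg E h2, C7_mu_neg E h, mul_smul, C7_dr_smul E (Ne.symm h) (q : P) q.2,
      C7_rho_smul E h0 (C7_dr_spec E (Ne.symm h)).1]

theorem C7_mu_right {u : E.V} {h : P} (hh : h • u ≠ u) {q : P} (hq : q • u = u) :
    C7_mu E u (h * q) = C7_mu E u h := by
  have h1 : (h * q) • u = h • u := by rw [mul_smul, hq]
  rw [C7_mu_neg E (by rw [h1]; exact hh), C7_mu_neg E hh, h1]

theorem C7_mu_fin (u : E.V) (g : P) :
    {c : P ⧸ stabilizer P u | C7_mu E u (c.out⁻¹ * g) ≠ C7_mu E u (c.out⁻¹)}.Finite := by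
  obtain ⟨w⟩ := E.tree.connected.preconnected u (g • u)
  have hinj : Function.Injective (fun c : P ⧸ stabilizer P u => c.out • u) := by
    intro c c' hcc
    have h1 : (c.out⁻¹ * c'.out) • u = u := by
      rw [mul_smul, ← (show c.out • u = c'.out • u from hcc), inv_smul_smul]
    have h2 : (QuotientGroup.mk c.out : P ⧸ stabilizer P u) = QuotientGroup.mk c'.out :=
      QuotientGroup.eq.2 h1
    rw [QuotientGroup.out_eq', QuotientGroup.out_eq'] at h2
    exact h2
  refine ((List.finite_toSet w.support).preimage hinj.injOn).subset ?_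
  intro c hc
  by_contra hns
  apply hc
  have hns' : c.out • u ∉ w.support := hns
  set h := c.out with hh
  have hu : h • u ≠ u := fun h1 => hns' (by rw [h1]; exact w.start_mem_support)
  have hg : h • u ≠ g • u := fun h1 => hns' (by rw [h1]; exact w.end_mem_support)
  have h1 : (h⁻¹ * g) • u ≠ u := by
    intro h2
    rw [mul_smul, inv_smul_eq_iff] at h2
    exact hg h2.symm
  have h2 : h⁻¹ • u ≠ u := by
    intro h3
    rw [inv_smul_eq_iff] at h3
    exact hu h3.symm
  rw [C7_mu_neg E h1, C7_mu_neg E h2]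
  congr 1
  obtain ⟨h3, h4⟩ := C7_dr_spec E (Ne.symm h1)
  refine C7_dr_uniq E (Ne.symm h2) h3 fun h5 => h4 ?_
  set z := C7_dr E u ((h⁻¹ * g) • u)
  have hm : ∀ x : E.V, side E.T (h • u) (h • z) x ↔ side E.T u z (h⁻¹ • x) := by
    intro x
    have h6 := side_map (fun g {x y} h => E.map_adj g h) h u z (h⁻¹ • x)
    rw [smul_inv_smul] at h6
    exact h6
  have h6 : s(h • u, h • z) ∉ w.edges := fun h7 =>
    hns' (w.fst_mem_support_of_mem_edges h7)
  rw [mul_smul, ← hm, ← q1_walk w h6, hm]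
  exact h5

open Classical in
/-- the indicator of the side of the base edge -/
noncomputable def C7_sg (k : Type) [Field k] (u : E.V) (g : P) : k :=
  if side E.T E.a E.b (g • u) then 1 else 0

theorem C7_sg_right {k : Type} [Field k] {u : E.V} (g : P) {q : P} (hq : q • u = u) :
    C7_sg E k u (g * q) = C7_sg E k u g := by
  unfold C7_sg
  rw [mul_smul, hq]

theorem C7_sg_ne {k : Type} [Field k] {u : E.V} {g g' : P} :
    C7_sg E k u g ≠ C7_sg E k u g' ↔
      ¬ (side E.T E.a E.b (g • u) ↔ side E.T E.a E.b (g' • u)) := by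
  unfold C7_sg
  by_cases h1 : side E.T E.a E.b (g • u) <;> by_cases h2 : side E.T E.a E.b (g' • u) <;>
    simp [h1, h2]

theorem C7_side_inv {u : E.V} (h g : P) :
    side E.T E.a E.b ((h⁻¹ * g) • u) ↔ side E.T (h • E.a) (h • E.b) (g • u) := by
  have h6 := side_map (fun g {x y} h => E.map_adj g h) h E.a E.b (h⁻¹ • (g • u))
  rw [smul_inv_smul] at h6
  rw [mul_smul]
  exact h6.symm

theorem C7_sg_fin (k : Type) [Field k] (h0 : E.edgeGroup = ⊥) (u : E.V) (g : P) :
    {c : P ⧸ (⊥ : Subgroup P) | C7_sg E k u (c.out⁻¹ * g) ≠ C7_sg E k u (c.out⁻¹)}.Finite := by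
  have hinj : Function.Injective (fun c : P ⧸ (⊥ : Subgroup P) =>
      ((c.out • E.a, c.out • E.b) : E.V × E.V)) := by
    intro c c' hcc
    have h1 : c.out • E.a = c'.out • E.a := congrArg Prod.fst hcc
    have h2 : c.out • E.b = c'.out • E.b := congrArg Prod.snd hcc
    have h3 : c.out⁻¹ * c'.out = 1 := C7_edge E h0 E.adj
      (by rw [mul_smul, ← h1, inv_smul_smul]) (by rw [mul_smul, ← h2, inv_smul_smul])
    exact Quotient.out_injective (inv_mul_eq_one.1 h3)
  have hf : ({p : E.V × E.V | E.T.Adj p.1 p.2 ∧ side E.T p.1 p.2 u ∧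
      ¬ side E.T p.1 p.2 (g • u)} ∪ {p : E.V × E.V | E.T.Adj p.1 p.2 ∧
        side E.T p.1 p.2 (g • u) ∧ ¬ side E.T p.1 p.2 u}).Finite :=
    (side_finite E.tree u (g • u)).union (side_finite E.tree (g • u) u)
  refine (hf.preimage hinj.injOn).subset ?_
  intro c hc
  have h1 := (C7_sg_ne E).1 hc
  rw [C7_side_inv E c.out g] at h1
  have h2 := C7_side_inv E (u := u) c.out 1
  rw [mul_one, one_smul] at h2
  rw [h2] at h1
  have hadj : E.T.Adj (c.out • E.a) (c.out • E.b) := E.map_adj _ E.adj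
  refine Set.mem_preimage.2 ?_
  by_cases h3 : side E.T (c.out • E.a) (c.out • E.b) u
  · exact Or.inl ⟨hadj, h3, fun h4 => h1 ⟨fun _ => h3, fun _ => h4⟩⟩
  · refine Or.inr ⟨hadj, ?_, h3⟩
    by_contra h4
    exact h1 ⟨fun h5 => absurd h5 h4, fun h5 => absurd h5 h3⟩

theorem C7_sg_ex (k : Type) [Field k] (u : E.V) :
    ∃ g p : P, C7_sg E k u (p⁻¹ * g) ≠ C7_sg E k u p⁻¹ := by
  obtain ⟨g, hg⟩ := E.no_fix u
  obtain ⟨z, hz, hs⟩ := exists_first E.tree (Ne.symm hg)
  obtain ⟨p, hp⟩ := E.edge_trans hz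
  refine ⟨g, p, ?_⟩
  rw [C7_sg_ne, C7_side_inv E p g]
  have h2 := C7_side_inv E (u := u) p 1
  rw [mul_one, one_smul] at h2
  rw [h2]
  rcases hp with ⟨h1, h3⟩ | ⟨h1, h3⟩
  · rw [h1, h3]
    exact fun h4 => hs (h4.2 (side_self u z))
  · rw [h1, h3, side_swap E.tree hz, side_swap E.tree hz]
    exact fun h4 => (h4.1 hs) (side_self u z)

end splitting

/-- the rank of a vertex group is smaller -/
theorem sc7 : SC7 := by
  classical
  intro G _ k D _ _ ι hι P hP E h0 u
  set Q : Subgroup P := stabilizer P u with hQ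
  have hle : Q.map P.subtype ≤ P := Subgroup.map_subtype_le _
  let inc : ↥(Q.map P.subtype) → P := Subgroup.inclusion hle
  have hincQ : ∀ q : ↥(Q.map P.subtype), inc q ∈ Q := by
    rintro ⟨q, hq⟩
    obtain ⟨q', h1, h2⟩ := hq
    have : inc ⟨q, ⟨q', h1, h2⟩⟩ = q' := Subtype.ext h2.symm
    rw [this]
    exact h1
  let res : Der ι P →ₗ[D] Der ι (Q.map P.subtype) :=
    { toFun := fun d => ⟨fun q => d.1 (inc q), fun g h => (C7_mem ι).1 d.2 (inc g) (inc h)⟩
      map_add' := fun _ _ => rfl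
      map_smul' := fun _ _ => rfl }
  have hfinP : Module.Finite D (Der ι P) := C7_finite ι hP
  -- the restriction is onto
  have hsurj : Function.Surjective res := by
    rintro ⟨d, hd⟩
    have hd' := (C7_mem ι).1 hd
    let em : Q → ↥(Q.map P.subtype) := fun q => ⟨((q : P) : G), (q : P), q.2, rfl⟩
    have hem : ∀ q r : Q, em (q * r) = em q * em r := fun _ _ => rfl
    let L : P → D := fun g => d (em (C7_mu E u g))
    have hL : ∀ (q : Q) (g : P), L ((q : P) * g) = d (em q) + L g * C7_e ι ((q : P) : G) := by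
      intro q g
      show d (em (C7_mu E u ((q : P) * g))) = _
      rw [C7_mu_mul E h0 u q g, hem, hd']
    have hfin : ∀ g : P, {c : P ⧸ Q | L (c.out⁻¹ * g) ≠ L (c.out⁻¹)}.Finite := by
      intro g
      refine (C7_mu_fin E u g).subset fun c hc h => hc ?_
      show d (em _) = d (em _)
      rw [h]
    have hD := C7_ind ι (d := fun q : Q => d (em q)) hL hfin
    refine ⟨⟨_, hD⟩, ?_⟩
    apply Subtype.ext
    funext q
    show (∑ᶠ c : P ⧸ Q, C7_F ι L (inc q) c) = d q
    rw [finsum_eq_single _ (QuotientGroup.mk (1 : P) : P ⧸ Q)]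
    · rw [C7_F_mk ι (d := fun q : Q => d (em q)) hL, inv_one, one_mul, Subgroup.coe_one,
        C7_e_one, mul_one]
      have h1 : L (inc q) = d q := by
        show d (em (C7_mu E u (inc q))) = d q
        have h2 : C7_mu E u (inc q) = ⟨inc q, hincQ q⟩ := C7_mu_pos E ⟨inc q, hincQ q⟩
        rw [h2]
        rfl
      have h3 : L 1 = 0 := by
        show d (em (C7_mu E u 1)) = 0
        have h2 : C7_mu E u (1 : P) = 1 := C7_mu_pos E (1 : stabilizer P u)
        rw [h2]
        exact C7_one ι hd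
      rw [h1, h3, sub_zero]
    · intro c hc
      obtain ⟨h, rfl⟩ := QuotientGroup.mk_surjective c
      rw [C7_F_mk ι (d := fun q : Q => d (em q)) hL]
      have h1 : h⁻¹ • u ≠ u := by
        intro h2
        apply hc
        rw [QuotientGroup.eq]
        show (h⁻¹ * 1) • u = u
        rw [mul_one]
        exact h2
      have h2 : L (h⁻¹ * inc q) = L h⁻¹ := by
        show d (em (C7_mu E u (h⁻¹ * inc q))) = d (em (C7_mu E u h⁻¹))
        rw [C7_mu_right E h1 (hincQ q)]
      rw [h2, sub_self, zero_mul]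
  -- the kernel is not zero
  have hker : LinearMap.ker res ≠ ⊥ := by
    let L : P → D := fun g => ι (MonoidAlgebra.single 1 (C7_sg E k u g))
    have hL : ∀ (q : (⊥ : Subgroup P)) (g : P), L ((q : P) * g) =
        0 + L g * C7_e ι ((q : P) : G) := by
      rintro ⟨q, hq⟩ g
      rw [Subgroup.mem_bot] at hq
      subst hq
      rw [zero_add]
      show L (1 * g) = L g * C7_e ι ((1 : P) : G)
      rw [one_mul, Subgroup.coe_one, C7_e_one, mul_one]
    have hfin : ∀ g : P, {c : P ⧸ (⊥ : Subgroup P) | L (c.out⁻¹ * g) ≠ L (c.out⁻¹)}.Finite := by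
      intro g
      refine (C7_sg_fin E k h0 u g).subset fun c hc h => hc ?_
      show ι _ = ι _
      rw [h]
    have hD := C7_ind ι (d := fun _ => 0) hL hfin
    obtain ⟨g, p, hgp⟩ := C7_sg_ex E k u
    intro hbot
    have hmem : (⟨_, hD⟩ : Der ι P) ∈ LinearMap.ker res := by
      rw [LinearMap.mem_ker]
      apply Subtype.ext
      funext q
      show (∑ᶠ c : P ⧸ (⊥ : Subgroup P), C7_F ι L (inc q) c) = 0
      apply finsum_eq_zero_of_forall_eq_zero
      intro c
      unfold C7_F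
      have h1 : L (c.out⁻¹ * inc q) = L (c.out⁻¹) := by
        show ι _ = ι _
        rw [C7_sg_right E (c.out⁻¹) (hincQ q)]
      rw [h1, sub_self, zero_mul]
    rw [hbot, Submodule.mem_bot] at hmem
    have hz : (∑ᶠ c : P ⧸ (⊥ : Subgroup P), C7_F ι L g c) = 0 :=
      congrFun (congrArg Subtype.val hmem) g
    have hterm : ∀ c : P ⧸ (⊥ : Subgroup P), C7_F ι L g c =
        ι (MonoidAlgebra.single (((c.out : P) : G)⁻¹)
          (C7_sg E k u (c.out⁻¹ * g) - C7_sg E k u (c.out⁻¹))) := by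
      intro c
      show (ι (MonoidAlgebra.single 1 _) - ι (MonoidAlgebra.single 1 _)) * ι _ = _
      rw [← map_sub, ← map_mul]
      congr 1
      rw [MonoidAlgebra.of_apply, sub_mul, MonoidAlgebra.single_mul_single,
        MonoidAlgebra.single_mul_single, one_mul, mul_one, mul_one]
      exact (MonoidAlgebra.single_sub _ _ _).symm
    have hsup := C7_sg_fin E k h0 u g
    set s : Finset (P ⧸ (⊥ : Subgroup P)) := hsup.toFinset with hs
    have hsub : Function.support (C7_F ι L g : P ⧸ (⊥ : Subgroup P) → D) ⊆ s := by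
      intro c hc
      rw [hs, Set.Finite.coe_toFinset]
      intro h
      apply hc
      rw [hterm, h, sub_self, MonoidAlgebra.single_zero, map_zero]
    rw [finsum_eq_sum_of_support_subset _ hsub, Finset.sum_congr rfl fun c _ => hterm c,
      ← map_sum] at hz
    have hz' := hι (hz.trans (map_zero ι).symm)
    set c0 : P ⧸ (⊥ : Subgroup P) := QuotientGroup.mk p with hc0
    have hp0 : c0.out = p := by
      obtain ⟨q, hq⟩ := QuotientGroup.mk_out_eq_mul (⊥ : Subgroup P) p
      have h1 : (q : P) = 1 := Subgroup.mem_bot.1 q.2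
      rw [hc0, hq, h1, mul_one]
    have hv := congrArg (fun A : MonoidAlgebra k G => A.coeff ((((c0.out : P) : G))⁻¹)) hz'
    simp only [MonoidAlgebra.coeff_sum, MonoidAlgebra.coeff_zero, MonoidAlgebra.coeff_single,
      Finsupp.coe_zero, Pi.zero_apply, Finsupp.finset_sum_apply] at hv
    rw [Finset.sum_eq_single c0] at hv
    · rw [Finsupp.single_eq_same, hp0] at hv
      exact hgp (sub_eq_zero.1 hv)
    · intro c _ hc
      rw [Finsupp.single_apply, if_neg]
      intro h1
      apply hc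
      exact Quotient.out_injective (Subtype.ext (inv_injective h1))
    · intro hc
      exfalso
      apply hc
      rw [hs, Set.Finite.mem_toFinset]
      show C7_sg E k u (c0.out⁻¹ * g) ≠ C7_sg E k u (c0.out⁻¹)
      rw [hp0]
      exact hgp
  have hk : 0 < Module.finrank D (LinearMap.ker res) := by
    have : Nontrivial (LinearMap.ker res) := (Submodule.nontrivial_iff_ne_bot).2 hker
    exact (Module.finrank_pos_iff (R := D) (M := LinearMap.ker res)).2 this
  have hsum := LinearMap.finrank_range_add_finrank_ker res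
  rw [LinearMap.range_eq_top.2 hsurj, finrank_top] at hsum
  unfold rk
  omega

end Pool.Agent.QD
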