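import Pool.Agent.QD.FP1
import Pool.Agent.QD.Stm

/-!
# QD (MP_bbdce3), C8: finite presentation and splittings
-/

set_option autoImplicit false

namespace Pool.Agent.QD

open Pool.Agent.QIS MulAction

variable {G : Type} [Group G]

/-- a subgroup that contains the stabilizer of the base vertex and moves it to all neighbours
reached is everything -/
theorem c8_gen (E : Splitting G) (K : Subgroup G) (ha : stabilizer G E.a ≤ K)
    (h : (∀ g : G, g • E.a ≠ E.b) ∧ stabilizer G E.b ≤ K ∨ ∃ t ∈ K, t • E.a = E.b) : K = ⊤ := by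
  have hP : ∀ x : E.V, ∃ k ∈ K, x = k • E.a ∨ x = k • E.b := by
    intro x
    have h1 := (SimpleGraph.reachable_iff_reflTransGen E.a x).1
      (E.tree.connected.preconnected E.a x)
    induction h1 with
    | refl => exact ⟨1, K.one_mem, Or.inl (one_smul _ _).symm⟩
    | tail _ hyz ih =>
      rename_i y z _
      obtain ⟨k, hk, hy⟩ := ih
      rcases h with ⟨hab, hb⟩ | ⟨t, ht, hta⟩
      · obtain ⟨g, ⟨h2, h3⟩ | ⟨h2, h3⟩⟩ := E.edge_trans hyz
        · rcases hy with hy | hy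
          · have : k⁻¹ * g ∈ K := ha (by
              rw [mem_stabilizer_iff, mul_smul, inv_smul_eq_iff, h2, hy])
            exact ⟨g, by simpa using K.mul_mem hk this, Or.inr h3.symm⟩
          · exact absurd (show (k⁻¹ * g) • E.a = E.b by
              rw [mul_smul, inv_smul_eq_iff, h2, hy]) (hab _)
        · rcases hy with hy | hy
          · exact absurd (show (g⁻¹ * k) • E.a = E.b by
              rw [mul_smul, inv_smul_eq_iff, h3, hy]) (hab _)
          · have : k⁻¹ * g ∈ K := hb (by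
              rw [mem_stabilizer_iff, mul_smul, inv_smul_eq_iff, h3, hy])
            exact ⟨g, by simpa using K.mul_mem hk this, Or.inl h2.symm⟩
      · have hy' : ∃ k' ∈ K, y = k' • E.a := by
          rcases hy with hy | hy
          · exact ⟨k, hk, hy⟩
          · exact ⟨k * t, K.mul_mem hk ht, by rw [mul_smul, hta, hy]⟩
        obtain ⟨k', hk', hy'⟩ := hy'
        obtain ⟨g, ⟨h2, h3⟩ | ⟨h2, h3⟩⟩ := E.edge_trans hyz
        · have : k'⁻¹ * g ∈ K := ha (by
            rw [mem_stabilizer_iff, mul_smul, inv_smul_eq_iff, h2, hy'])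
          exact ⟨g, by simpa using K.mul_mem hk' this, Or.inr h3.symm⟩
        · have : k'⁻¹ * (g * t) ∈ K := ha (by
            rw [mem_stabilizer_iff, mul_smul, mul_smul, inv_smul_eq_iff, hta, h3, hy'])
          have h4 : g ∈ K := by
            have h5 := K.mul_mem (K.mul_mem hk' this) (K.inv_mem ht)
            simpa [mul_assoc] using h5
          exact ⟨g, h4, Or.inl h2.symm⟩
  rw [Subgroup.eq_top_iff']
  intro g
  obtain ⟨k, hk, h1 | h1⟩ := hP (g • E.a)
  · have : k⁻¹ * g ∈ K := ha (by rw [mem_stabilizer_iff, mul_smul, inv_smul_eq_iff, h1])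
    simpa using K.mul_mem hk this
  · rcases h with ⟨hab, _⟩ | ⟨t, ht, hta⟩
    · exact absurd (show (k⁻¹ * g) • E.a = E.b by
        rw [mul_smul, inv_smul_eq_iff, h1]) (hab _)
    · have h2 : (k * t)⁻¹ * g ∈ K := ha (by
        rw [mem_stabilizer_iff, mul_smul, inv_smul_eq_iff, mul_smul, hta, h1])
      have h5 := K.mul_mem (K.mul_mem hk ht) h2
      rwa [mul_inv_cancel_left] at h5

theorem c8_amal (E : Splitting G) (hC : E.edgeGroup.FG)
    (hA : Group.IsFinitelyPresented (stabilizer G E.a))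
    (hB : Group.IsFinitelyPresented (stabilizer G E.b)) (hab : ∀ g : G, g • E.a ≠ E.b) :
    Group.IsFinitelyPresented G := by
  classical
  obtain ⟨SC, hSC⟩ := hC
  let Γ₀ := Monoid.Coprod (stabilizer G E.a) (stabilizer G E.b)
  let φ : Γ₀ →* G := Monoid.Coprod.lift (stabilizer G E.a).subtype (stabilizer G E.b).subtype
  let R : Set Γ₀ := {r | ∃ c ∈ SC, ∃ (ha : c ∈ stabilizer G E.a) (hb : c ∈ stabilizer G E.b),
    r = Monoid.Coprod.inl ⟨c, ha⟩ * (Monoid.Coprod.inr ⟨c, hb⟩)⁻¹}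
  have hR : R.Finite := by
    refine (SC.finite_toSet.image (fun c => if h : c ∈ stabilizer G E.a ∧ c ∈ stabilizer G E.b
      then (Monoid.Coprod.inl ⟨c, h.1⟩ * (Monoid.Coprod.inr ⟨c, h.2⟩)⁻¹ : Γ₀) else 1)).subset ?_
    rintro r ⟨c, hc, ha, hb, rfl⟩
    exact ⟨c, hc, dif_pos ⟨ha, hb⟩⟩
  let N : Subgroup Γ₀ := Subgroup.normalClosure R
  have hN : N ≤ φ.ker := by
    refine Subgroup.normalClosure_le_normal ?_
    rintro r ⟨c, hc, ha, hb, rfl⟩
    show φ _ = 1
    rw [map_mul, map_inv, Monoid.Coprod.lift_apply_inl, Monoid.Coprod.lift_apply_inr]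
    show c * c⁻¹ = 1
    exact mul_inv_cancel c
  let π : Γ₀ ⧸ N →* G := QuotientGroup.lift N φ hN
  let i : stabilizer G E.a →* Γ₀ ⧸ N := (QuotientGroup.mk' N).comp Monoid.Coprod.inl
  let j : stabilizer G E.b →* Γ₀ ⧸ N := (QuotientGroup.mk' N).comp Monoid.Coprod.inr
  have hi : ∀ x, π (i x) = x := by
    intro x
    show φ (Monoid.Coprod.inl x) = x
    rw [Monoid.Coprod.lift_apply_inl]
    rfl
  have hj : ∀ x, π (j x) = x := by
    intro x
    show φ (Monoid.Coprod.inr x) = x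
    rw [Monoid.Coprod.lift_apply_inr]
    rfl
  have hgen : Subgroup.closure (Set.range i ∪ Set.range j) = ⊤ := by
    have h1 : Set.range i ∪ Set.range j = (QuotientGroup.mk' N) ''
        (Set.range (Monoid.Coprod.inl : _ →* Γ₀) ∪ Set.range (Monoid.Coprod.inr : _ →* Γ₀)) := by
      rw [Set.image_union, ← Set.range_comp, ← Set.range_comp]
      rfl
    rw [h1, ← MonoidHom.map_closure, Monoid.Coprod.closure_range_inl_union_inr,
      ← MonoidHom.range_eq_map, MonoidHom.range_eq_top]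
    exact QuotientGroup.mk'_surjective N
  have hCC : ∀ (c : G) (ha : c ∈ stabilizer G E.a) (hb : c ∈ stabilizer G E.b),
      i ⟨c, ha⟩ = j ⟨c, hb⟩ := by
    let K : Subgroup G :=
      { carrier := {c | ∃ (ha : c ∈ stabilizer G E.a) (hb : c ∈ stabilizer G E.b),
          i ⟨c, ha⟩ = j ⟨c, hb⟩}
        one_mem' := ⟨Subgroup.one_mem _, Subgroup.one_mem _, by
          rw [show (⟨1, Subgroup.one_mem _⟩ : stabilizer G E.a) = 1 from rfl,
            show (⟨1, Subgroup.one_mem _⟩ : stabilizer G E.b) = 1 from rfl, map_one, map_one]⟩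
        mul_mem' := by
          rintro x y ⟨xa, xb, hx⟩ ⟨ya, yb, hy⟩
          refine ⟨Subgroup.mul_mem _ xa ya, Subgroup.mul_mem _ xb yb, ?_⟩
          rw [show (⟨x * y, Subgroup.mul_mem _ xa ya⟩ : stabilizer G E.a) = ⟨x, xa⟩ * ⟨y, ya⟩
              from rfl,
            show (⟨x * y, Subgroup.mul_mem _ xb yb⟩ : stabilizer G E.b) = ⟨x, xb⟩ * ⟨y, yb⟩
              from rfl, map_mul, map_mul, hx, hy]
        inv_mem' := by
          rintro x ⟨xa, xb, hx⟩
          refine ⟨Subgroup.inv_mem _ xa, Subgroup.inv_mem _ xb, ?_⟩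
          rw [show (⟨x⁻¹, Subgroup.inv_mem _ xa⟩ : stabilizer G E.a) = (⟨x, xa⟩)⁻¹ from rfl,
            show (⟨x⁻¹, Subgroup.inv_mem _ xb⟩ : stabilizer G E.b) = (⟨x, xb⟩)⁻¹ from rfl,
            map_inv, map_inv, hx] }
    have hK : E.edgeGroup ≤ K := by
      rw [← hSC, Subgroup.closure_le]
      intro c hc
      have h1 : c ∈ E.edgeGroup := by rw [← hSC]; exact Subgroup.subset_closure hc
      have h2 : c ∈ stabilizer G E.a ∧ c ∈ stabilizer G E.b := h1
      refine ⟨h2.1, h2.2, ?_⟩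
      have h3 : (Monoid.Coprod.inl ⟨c, h2.1⟩ * (Monoid.Coprod.inr ⟨c, h2.2⟩)⁻¹ : Γ₀) ∈ N :=
        Subgroup.subset_normalClosure ⟨c, hc, h2.1, h2.2, rfl⟩
      have h4 := (QuotientGroup.eq_one_iff _).2 h3
      rw [← mul_inv_eq_one]
      exact h4
    intro c ha hb
    obtain ⟨_, _, h⟩ := hK (show c ∈ E.edgeGroup from ⟨ha, hb⟩)
    exact h
  have hinj := fp_amal (π := π) hi hj hgen hCC
  have hsurj : Function.Surjective π := by
    rw [← MonoidHom.range_eq_top]
    refine c8_gen E _ ?_ (Or.inl ⟨hab, ?_⟩)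
    · intro x hx
      exact ⟨i ⟨x, hx⟩, hi _⟩
    · intro x hx
      exact ⟨j ⟨x, hx⟩, hj _⟩
  have hfp : Group.IsFinitelyPresented (Γ₀ ⧸ N) := Group.IsFinitelyPresented.quotient N ⟨R, hR, rfl⟩
  exact Group.IsFinitelyPresented.equiv (MulEquiv.ofBijective π ⟨hinj, hsurj⟩)

theorem c8_hnn (E : Splitting G) (hC : E.edgeGroup.FG)
    (hA : Group.IsFinitelyPresented (stabilizer G E.a)) (t : G) (hta : t • E.a = E.b) :
    Group.IsFinitelyPresented G := by
  classical
  obtain ⟨SC, hSC⟩ := hC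
  let Γ₀ := Monoid.Coprod (stabilizer G E.a) (Multiplicative ℤ)
  let φ : Γ₀ →* G := Monoid.Coprod.lift (stabilizer G E.a).subtype (zpowersHom G t)
  let τ₀ : Γ₀ := Monoid.Coprod.inr (Multiplicative.ofAdd 1)
  have hφτ : φ τ₀ = t := by
    show Monoid.Coprod.lift _ _ (Monoid.Coprod.inr _) = t
    rw [Monoid.Coprod.lift_apply_inr, zpowersHom_apply, toAdd_ofAdd, zpow_one]
  have hedge : ∀ c : G, c ∈ E.edgeGroup → t⁻¹ * c * t ∈ stabilizer G E.a := by
    intro c hc
    rw [mem_stabilizer_iff, mul_smul, mul_smul, hta, inv_smul_eq_iff, hta]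
    exact hc.2
  let R : Set Γ₀ := {r | ∃ c ∈ SC, ∃ (ha : c ∈ stabilizer G E.a)
    (hb : t⁻¹ * c * t ∈ stabilizer G E.a),
    r = Monoid.Coprod.inl ⟨c, ha⟩ * τ₀ * (τ₀ * Monoid.Coprod.inl ⟨t⁻¹ * c * t, hb⟩)⁻¹}
  have hR : R.Finite := by
    refine (SC.finite_toSet.image (fun c => if h : c ∈ stabilizer G E.a ∧
      t⁻¹ * c * t ∈ stabilizer G E.a then (Monoid.Coprod.inl ⟨c, h.1⟩ * τ₀ *
        (τ₀ * Monoid.Coprod.inl ⟨t⁻¹ * c * t, h.2⟩)⁻¹ : Γ₀) else 1)).subset ?_
    rintro r ⟨c, hc, ha, hb, rfl⟩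
    exact ⟨c, hc, dif_pos ⟨ha, hb⟩⟩
  let N : Subgroup Γ₀ := Subgroup.normalClosure R
  have hN : N ≤ φ.ker := by
    refine Subgroup.normalClosure_le_normal ?_
    rintro r ⟨c, hc, ha, hb, rfl⟩
    show φ _ = 1
    rw [map_mul, map_mul, map_inv, map_mul, hφτ, Monoid.Coprod.lift_apply_inl,
      Monoid.Coprod.lift_apply_inl]
    show c * t * (t * (t⁻¹ * c * t))⁻¹ = 1
    group
  let π : Γ₀ ⧸ N →* G := QuotientGroup.lift N φ hN
  let i : stabilizer G E.a →* Γ₀ ⧸ N := (QuotientGroup.mk' N).comp Monoid.Coprod.inl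
  let τ : Γ₀ ⧸ N := QuotientGroup.mk' N τ₀
  have hi : ∀ x, π (i x) = x := by
    intro x
    show φ (Monoid.Coprod.inl x) = x
    rw [Monoid.Coprod.lift_apply_inl]
    rfl
  have hτ : π τ = t := hφτ
  have hgen : Subgroup.closure (Set.range i ∪ {τ}) = ⊤ := by
    have h0 : Subgroup.closure (Set.range (Monoid.Coprod.inl : _ →* Γ₀) ∪ {τ₀}) = ⊤ := by
      rw [eq_top_iff, ← Monoid.Coprod.closure_range_inl_union_inr, Subgroup.closure_le]
      rintro x (hx | ⟨n, rfl⟩)
      · exact Subgroup.subset_closure (Or.inl hx)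
      · have h1 : (Monoid.Coprod.inr n : Γ₀) = τ₀ ^ (Multiplicative.toAdd n) := by
          show _ = (Monoid.Coprod.inr (Multiplicative.ofAdd 1) : Γ₀) ^ _
          rw [← map_zpow]
          congr 1
          rw [← ofAdd_zsmul, smul_eq_mul, mul_one]
          rfl
        rw [h1]
        have h2 : τ₀ ∈ Subgroup.closure (Set.range (Monoid.Coprod.inl : _ →* Γ₀) ∪ {τ₀}) :=
          Subgroup.subset_closure (Or.inr rfl)
        exact Subgroup.zpow_mem _ h2 _
    have h1 : Set.range i ∪ {τ} = (QuotientGroup.mk' N) ''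
        (Set.range (Monoid.Coprod.inl : _ →* Γ₀) ∪ {τ₀}) := by
      rw [Set.image_union, ← Set.range_comp, Set.image_singleton]
      rfl
    rw [h1, ← MonoidHom.map_closure, h0, ← MonoidHom.range_eq_map, MonoidHom.range_eq_top]
    exact QuotientGroup.mk'_surjective N
  have hCC : ∀ (c : G) (ha : c ∈ stabilizer G E.a) (hb : t⁻¹ * c * t ∈ stabilizer G E.a),
      i ⟨c, ha⟩ * τ = τ * i ⟨t⁻¹ * c * t, hb⟩ := by
    let K : Subgroup G :=
      { carrier := {c | ∃ (ha : c ∈ stabilizer G E.a) (hb : t⁻¹ * c * t ∈ stabilizer G E.a),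
          i ⟨c, ha⟩ * τ = τ * i ⟨t⁻¹ * c * t, hb⟩}
        one_mem' := by
          refine ⟨Subgroup.one_mem _, by rw [mul_one, inv_mul_cancel]; exact Subgroup.one_mem _, ?_⟩
          have h1 : (⟨1, Subgroup.one_mem _⟩ : stabilizer G E.a) = 1 := rfl
          have h2 : (⟨t⁻¹ * 1 * t, by rw [mul_one, inv_mul_cancel]; exact Subgroup.one_mem _⟩ :
              stabilizer G E.a) = 1 := Subtype.ext (by simp)
          rw [h1, h2, map_one, one_mul, mul_one]
        mul_mem' := by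
          rintro x y ⟨xa, xb, hx⟩ ⟨ya, yb, hy⟩
          have h0 : t⁻¹ * (x * y) * t = (t⁻¹ * x * t) * (t⁻¹ * y * t) := by group
          refine ⟨Subgroup.mul_mem _ xa ya, by rw [h0]; exact Subgroup.mul_mem _ xb yb, ?_⟩
          have h1 : (⟨x * y, Subgroup.mul_mem _ xa ya⟩ : stabilizer G E.a) = ⟨x, xa⟩ * ⟨y, ya⟩ :=
            rfl
          have h2 : (⟨t⁻¹ * (x * y) * t, by rw [h0]; exact Subgroup.mul_mem _ xb yb⟩ :
              stabilizer G E.a) = ⟨t⁻¹ * x * t, xb⟩ * ⟨t⁻¹ * y * t, yb⟩ := Subtype.ext h0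
          rw [h1, h2, map_mul, map_mul, mul_assoc, hy, ← mul_assoc, hx, mul_assoc]
        inv_mem' := by
          rintro x ⟨xa, xb, hx⟩
          have h0 : t⁻¹ * x⁻¹ * t = (t⁻¹ * x * t)⁻¹ := by group
          refine ⟨Subgroup.inv_mem _ xa, by rw [h0]; exact Subgroup.inv_mem _ xb, ?_⟩
          have h1 : (⟨x⁻¹, Subgroup.inv_mem _ xa⟩ : stabilizer G E.a) = (⟨x, xa⟩)⁻¹ := rfl
          have h2 : (⟨t⁻¹ * x⁻¹ * t, by rw [h0]; exact Subgroup.inv_mem _ xb⟩ :
              stabilizer G E.a) = (⟨t⁻¹ * x * t, xb⟩)⁻¹ := Subtype.ext h0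
          rw [h1, h2, map_inv, map_inv, inv_mul_eq_iff_eq_mul, ← mul_assoc, hx, mul_assoc,
            mul_inv_cancel, mul_one] }
    have hK : E.edgeGroup ≤ K := by
      rw [← hSC, Subgroup.closure_le]
      intro c hc
      have h1 : c ∈ E.edgeGroup := by rw [← hSC]; exact Subgroup.subset_closure hc
      refine ⟨h1.1, hedge c h1, ?_⟩
      have h3 : (Monoid.Coprod.inl ⟨c, h1.1⟩ * τ₀ *
          (τ₀ * Monoid.Coprod.inl ⟨t⁻¹ * c * t, hedge c h1⟩)⁻¹ : Γ₀) ∈ N :=
        Subgroup.subset_normalClosure ⟨c, hc, h1.1, hedge c h1, rfl⟩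
      have h4 := (QuotientGroup.eq_one_iff _).2 h3
      rw [← mul_inv_eq_one]
      exact h4
    intro c ha hb
    have hc : c ∈ E.edgeGroup := by
      refine ⟨ha, ?_⟩
      rw [mem_stabilizer_iff, mul_smul, mul_smul, hta, inv_smul_eq_iff, hta] at hb
      exact hb
    obtain ⟨_, _, h⟩ := hK hc
    exact h
  have hinj := fp_hnn (E := E) (π := π) (i := i) (τ := τ) hi (by rw [hτ, hta]) hgen (by
    intro c ha hb
    have h1 : (π τ)⁻¹ * c * π τ = t⁻¹ * c * t := by rw [hτ]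
    have h2 : t⁻¹ * c * t ∈ stabilizer G E.a := by rw [← h1]; exact hb
    rw [hCC c ha h2]
    congr 1
    exact congrArg i (Subtype.ext h1.symm))
  have hsurj : Function.Surjective π := by
    rw [← MonoidHom.range_eq_top]
    refine c8_gen E _ ?_ (Or.inr ⟨t, ⟨τ, hτ⟩, hta⟩)
    intro x hx
    exact ⟨i ⟨x, hx⟩, hi _⟩
  have hfp : Group.IsFinitelyPresented (Γ₀ ⧸ N) := Group.IsFinitelyPresented.quotient N ⟨R, hR, rfl⟩
  exact Group.IsFinitelyPresented.equiv (MulEquiv.ofBijective π ⟨hinj, hsurj⟩)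

theorem sc8 : SC8 := by
  intro G _ E hC hA hB
  by_cases h : ∃ t : G, t • E.a = E.b
  · obtain ⟨t, ht⟩ := h
    exact c8_hnn E hC hA t ht
  · push Not at h
    exact c8_amal E hC hA hB h

end Pool.Agent.QD
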