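import Pool.Agent.QD.Stm

/-!
# Project QD (MP_bbdce3_al), row C9: finite presentation passes to finite overgroups
-/

set_option autoImplicit false

namespace Pool.Agent.QD

open Monoid.Coprod

section

variable {G : Type} [Group G] (P : Subgroup G)

/-- the class of the right coset -/
private def c9k (g : G) : G ⧸ P := QuotientGroup.mk g⁻¹

private theorem c9k_eq {g h : G} : c9k P g = c9k P h ↔ g * h⁻¹ ∈ P := by
  unfold c9k
  rw [QuotientGroup.eq, inv_inv]

/-- representatives of the right cosets -/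
private noncomputable def c9t (i : G ⧸ P) : G := (Quotient.out i)⁻¹

private theorem c9k_t (i : G ⧸ P) : c9k P (c9t P i) = i := by
  unfold c9k c9t
  rw [inv_inv]
  exact Quotient.out_eq' i

private theorem c9_mem (g : G) : g * (c9t P (c9k P g))⁻¹ ∈ P := by
  rw [← c9k_eq, c9k_t]

/-- the component in `P` -/
private noncomputable def c9p (g : G) : P := ⟨g * (c9t P (c9k P g))⁻¹, c9_mem P g⟩

private theorem c9_eq (g : G) : (c9p P g : G) * c9t P (c9k P g) = g := by
  show g * (c9t P (c9k P g))⁻¹ * c9t P (c9k P g) = g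
  group

private theorem c9k_mul (g h : G) : c9k P (c9t P (c9k P g) * h) = c9k P (g * h) := by
  rw [c9k_eq]
  have h1 := P.inv_mem (c9_mem P g)
  have h2 : c9t P (c9k P g) * h * (g * h)⁻¹ = (g * (c9t P (c9k P g))⁻¹)⁻¹ := by group
  rw [h2]
  exact h1

/-- the base class -/
private theorem c9_base : c9t P (c9k P 1) ∈ P := by
  have h := P.inv_mem (c9_mem P 1)
  have h2 : (1 * (c9t P (c9k P 1))⁻¹)⁻¹ = c9t P (c9k P 1) := by group
  rwa [h2] at h

/-- the homomorphism -/
private noncomputable def c9f : Monoid.Coprod P (FreeGroup (G ⧸ P)) →* G :=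
  lift P.subtype (FreeGroup.lift (c9t P))

private theorem c9f_inl (p : P) : c9f P (inl p) = p := by
  unfold c9f
  rw [lift_apply_inl]
  rfl

private theorem c9f_inr (i : G ⧸ P) : c9f P (inr (FreeGroup.of i)) = c9t P i := by
  unfold c9f
  rw [lift_apply_inr, FreeGroup.lift_apply_of]

/-- the relators -/
private noncomputable def c9r (i : G ⧸ P) (a : Monoid.Coprod P (FreeGroup (G ⧸ P))) :
    Monoid.Coprod P (FreeGroup (G ⧸ P)) :=
  inr (FreeGroup.of i) * a * (inl (c9p P (c9t P i * c9f P a)) *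
    inr (FreeGroup.of (c9k P (c9t P i * c9f P a))))⁻¹

private theorem c9f_r (i : G ⧸ P) (a : Monoid.Coprod P (FreeGroup (G ⧸ P))) :
    c9f P (c9r P i a) = 1 := by
  unfold c9r
  rw [map_mul, map_inv, map_mul, map_mul, c9f_inr, c9f_inl, c9f_inr, c9_eq, mul_inv_cancel]

/-- the set of the relators -/
private noncomputable def c9R {n : ℕ} (φ : FreeGroup (Fin n) →* P) :
    Set (Monoid.Coprod P (FreeGroup (G ⧸ P))) :=
  {inr (FreeGroup.of (c9k P 1)) * (inl ⟨c9t P (c9k P 1), c9_base P⟩)⁻¹} ∪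
    (Set.range (fun q : (G ⧸ P) × Fin n => c9r P q.1 (inl (φ (FreeGroup.of q.2)))) ∪
    Set.range (fun q : (G ⧸ P) × (G ⧸ P) => c9r P q.1 (inr (FreeGroup.of q.2))))

private theorem c9_ker {n : ℕ} (φ : FreeGroup (Fin n) →* P) (hφ : Function.Surjective φ) :
    Subgroup.normalClosure (c9R P φ) = (c9f P).ker := by
  set N := Subgroup.normalClosure (c9R P φ) with hN
  have hle : N ≤ (c9f P).ker := by
    rw [hN]
    refine Subgroup.normalClosure_le_normal ?_
    rintro x (rfl | ⟨q, rfl⟩ | ⟨q, rfl⟩)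
    · show c9f P _ = 1
      rw [map_mul, map_inv, c9f_inr, c9f_inl]
      exact mul_inv_cancel _
    · exact c9f_r P _ _
    · exact c9f_r P _ _
  refine le_antisymm hle ?_
  -- the normal form
  set M : Set (Monoid.Coprod P (FreeGroup (G ⧸ P)) ⧸ N) :=
    {x | ∃ (p : P) (i : G ⧸ P), x = QuotientGroup.mk (inl p * inr (FreeGroup.of i))} with hM
  have hrel : ∀ (i : G ⧸ P) (a : Monoid.Coprod P (FreeGroup (G ⧸ P))), c9r P i a ∈ N →
      (QuotientGroup.mk (inr (FreeGroup.of i) * a) : Monoid.Coprod P (FreeGroup (G ⧸ P)) ⧸ N) =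
      QuotientGroup.mk (inl (c9p P (c9t P i * c9f P a)) *
        inr (FreeGroup.of (c9k P (c9t P i * c9f P a)))) := by
    intro i a h
    have h1 : (QuotientGroup.mk (c9r P i a) : Monoid.Coprod P (FreeGroup (G ⧸ P)) ⧸ N) = 1 :=
      (QuotientGroup.eq_one_iff _).mpr h
    unfold c9r at h1
    rw [QuotientGroup.mk_mul, QuotientGroup.mk_inv] at h1
    exact mul_inv_eq_one.mp h1
  set A : Subgroup (Monoid.Coprod P (FreeGroup (G ⧸ P))) :=
    { carrier := {a | ∀ x ∈ M, x * QuotientGroup.mk a ∈ M ∧ x * QuotientGroup.mk a⁻¹ ∈ M}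
      mul_mem' := by
        intro a b ha hb x hx
        constructor
        · rw [QuotientGroup.mk_mul, ← mul_assoc]
          exact (hb _ (ha x hx).1).1
        · rw [mul_inv_rev, QuotientGroup.mk_mul, ← mul_assoc]
          exact (ha _ (hb x hx).2).2
      one_mem' := by
        intro x hx
        rw [inv_one, QuotientGroup.mk_one, mul_one]
        exact ⟨hx, hx⟩
      inv_mem' := by
        intro a ha x hx
        rw [inv_inv]
        exact ⟨(ha x hx).2, (ha x hx).1⟩ } with hA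
  have hgen : ∀ a : Monoid.Coprod P (FreeGroup (G ⧸ P)), (∀ i, c9r P i a ∈ N) → a ∈ A := by
    intro a ha x hx
    obtain ⟨p, i, rfl⟩ := hx
    constructor
    · refine ⟨p * c9p P (c9t P i * c9f P a), c9k P (c9t P i * c9f P a), ?_⟩
      rw [← QuotientGroup.mk_mul, mul_assoc (inl p), QuotientGroup.mk_mul, hrel i a (ha i),
        ← QuotientGroup.mk_mul, ← mul_assoc, ← map_mul]
    · have h1 := hrel (c9k P (c9t P i * (c9f P a)⁻¹)) a (ha _)
      rw [c9k_mul, inv_mul_cancel_right, c9k_t] at h1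
      set i' := c9k P (c9t P i * (c9f P a)⁻¹) with hi'
      set p' := c9p P (c9t P i' * c9f P a) with hp'
      refine ⟨p * p'⁻¹, i', ?_⟩
      rw [QuotientGroup.mk_mul, QuotientGroup.mk_mul] at h1
      rw [QuotientGroup.mk_mul, QuotientGroup.mk_inv, QuotientGroup.mk_mul, map_mul, map_inv,
        QuotientGroup.mk_mul, QuotientGroup.mk_inv]
      have h2 : (QuotientGroup.mk (inr (FreeGroup.of i)) :
          Monoid.Coprod P (FreeGroup (G ⧸ P)) ⧸ N) = (QuotientGroup.mk (inl p'))⁻¹ *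
          (QuotientGroup.mk (inr (FreeGroup.of i')) * QuotientGroup.mk a) := by
        rw [h1]
        group
      rw [h2]
      group
  have hinl : ∀ p : P, inl p ∈ A := by
    have h1 : (⊤ : Subgroup (FreeGroup (Fin n))) ≤
        A.comap ((inl : P →* Monoid.Coprod P (FreeGroup (G ⧸ P))).comp φ) := by
      rw [← FreeGroup.closure_range_of, Subgroup.closure_le]
      rintro _ ⟨j, rfl⟩
      exact hgen _ fun i => Subgroup.subset_normalClosure (Or.inr (Or.inl ⟨(i, j), rfl⟩))
    intro p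
    obtain ⟨w, rfl⟩ := hφ p
    exact h1 (Subgroup.mem_top w)
  have hinr : ∀ w : FreeGroup (G ⧸ P), inr w ∈ A := by
    have h1 : (⊤ : Subgroup (FreeGroup (G ⧸ P))) ≤
        A.comap (inr : FreeGroup (G ⧸ P) →* Monoid.Coprod P (FreeGroup (G ⧸ P))) := by
      rw [← FreeGroup.closure_range_of, Subgroup.closure_le]
      rintro _ ⟨j, rfl⟩
      exact hgen _ fun i => Subgroup.subset_normalClosure (Or.inr (Or.inr ⟨(i, j), rfl⟩))
    exact fun w => h1 (Subgroup.mem_top w)
  have htop : ∀ a, a ∈ A := by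
    have h1 : (⊤ : Subgroup (Monoid.Coprod P (FreeGroup (G ⧸ P)))) ≤ A := by
      rw [← range_inl_sup_range_inr]
      refine sup_le ?_ ?_
      · rintro _ ⟨p, rfl⟩
        exact hinl p
      · rintro _ ⟨w, rfl⟩
        exact hinr w
    exact fun a => h1 (Subgroup.mem_top a)
  have hr0 : (QuotientGroup.mk (inr (FreeGroup.of (c9k P 1))) :
      Monoid.Coprod P (FreeGroup (G ⧸ P)) ⧸ N) =
      QuotientGroup.mk (inl ⟨c9t P (c9k P 1), c9_base P⟩) := by
    have h1 : inr (FreeGroup.of (c9k P 1)) * (inl ⟨c9t P (c9k P 1), c9_base P⟩)⁻¹ ∈ N :=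
      Subgroup.subset_normalClosure (Or.inl rfl)
    have h2 := (QuotientGroup.eq_one_iff (N := N) _).mpr h1
    rw [QuotientGroup.mk_mul, QuotientGroup.mk_inv] at h2
    exact mul_inv_eq_one.mp h2
  have h1M : (1 : Monoid.Coprod P (FreeGroup (G ⧸ P)) ⧸ N) ∈ M := by
    refine ⟨(⟨c9t P (c9k P 1), c9_base P⟩ : P)⁻¹, c9k P 1, ?_⟩
    rw [QuotientGroup.mk_mul, hr0, map_inv, QuotientGroup.mk_inv, inv_mul_cancel]
  intro g hg
  have hgM := (htop g 1 h1M).1
  rw [one_mul] at hgM
  obtain ⟨p, i, hpi⟩ := hgM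
  have h2 : g⁻¹ * (inl p * inr (FreeGroup.of i)) ∈ (c9f P).ker := hle (QuotientGroup.eq.mp hpi)
  have h3 : (p : G) * c9t P i = 1 := by
    rw [MonoidHom.mem_ker, map_mul, map_mul, map_inv, MonoidHom.mem_ker.mp hg, inv_one, one_mul,
      c9f_inl, c9f_inr] at h2
    exact h2
  have h4 : i = c9k P 1 := by
    rw [← c9k_t P i, c9k_eq, inv_one, mul_one]
    rw [← inv_eq_of_mul_eq_one_right h3]
    exact P.inv_mem p.2
  subst h4
  have h5 : p * ⟨c9t P (c9k P 1), c9_base P⟩ = 1 := Subtype.ext h3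
  rw [QuotientGroup.mk_mul, hr0, ← QuotientGroup.mk_mul, ← map_mul, h5, map_one] at hpi
  exact (QuotientGroup.eq_one_iff g).mp hpi

end

/-- C9: finite presentation passes to finite overgroups -/
theorem sc9 : SC9 := by
  intro G _ P hP hF
  have hfin : Finite (G ⧸ P) := P.finite_quotient_of_finiteIndex
  obtain ⟨n, φ, hφ, -⟩ := hF.out
  refine Group.IsFinitelyPresented.of_surjective (c9f P) (fun g => ?_)
    ⟨c9R P φ, ?_, c9_ker P φ hφ⟩
  · refine ⟨inl (c9p P g) * inr (FreeGroup.of (c9k P g)), ?_⟩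
    rw [map_mul, c9f_inl, c9f_inr, c9_eq]
  · unfold c9R
    exact (Set.finite_singleton _).union ((Set.finite_range _).union (Set.finite_range _))

end Pool.Agent.QD
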