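import Pool.Agent.H67.Q.Structure
import Pool.Agent.H67.Q.Tree
import Pool.Agent.H67.Q.Perm2

/-!
# Splittings over two-ended groups and quasi-isometries, without finite presentation: definitions

Project of MP_bbdce3_al: groups whose group algebra embeds in a division ring.
Finite cochains at scale `n`, half-spaces, walls, pieces.
-/

set_option autoImplicit false

namespace Pool.Agent.QD

open Pool.Agent.QIS

variable {G : Type} [Group G]

/-! ## cochains at scale `n` -/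

/-- `φ` is a cocycle on `Y` at scale `n` -/
def Coc (S : Set G) {k : Type} [Field k] (Y : Set G) (n : ℕ) (φ : G → G → k) : Prop :=
  ∀ x ∈ Y, ∀ y ∈ Y, ∀ z ∈ Y, wdist S x y ≤ n → wdist S y z ≤ n → wdist S x z ≤ n →
    φ x y + φ y z = φ x z

/-- `φ` has finite support on the pairs of `Y` at distance at most `n` -/
def FinC (S : Set G) {k : Type} [Field k] (Y : Set G) (n : ℕ) (φ : G → G → k) : Prop :=
  {p : G × G | p.1 ∈ Y ∧ p.2 ∈ Y ∧ wdist S p.1 p.2 ≤ n ∧ φ p.1 p.2 ≠ 0}.Finite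

/-- `f` is a primitive of `φ` on `Y` at scale `r` -/
def Prim (S : Set G) {k : Type} [Field k] (Y : Set G) (r : ℕ) (φ : G → G → k) (f : G → k) : Prop :=
  ∀ x ∈ Y, ∀ y ∈ Y, wdist S x y ≤ r → φ x y = f y - f x

/-- finite cocycles on `Y` at a large scale have primitives at scale `r` -/
def PSt (S : Set G) (k : Type) [Field k] (Y : Set G) : Prop :=
  ∀ r : ℕ, ∃ n : ℕ, r ≤ n ∧ ∀ φ : G → G → k, Coc S Y n φ → FinC S Y n φ →
    ∃ f : G → k, Prim S Y r φ f

/-- finite cocycles on `Y` at a large scale have primitives of finite support at scale `r` -/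
def PFS (S : Set G) (k : Type) [Field k] (Y : Set G) : Prop :=
  ∀ r : ℕ, ∃ n : ℕ, r ≤ n ∧ ∀ φ : G → G → k, Coc S Y n φ → FinC S Y n φ →
    ∃ f : G → k, (Function.support f).Finite ∧ Prim S Y r φ f

/-- `Y` is connected at scale `r` -/
def CConn (S : Set G) (Y : Set G) (r : ℕ) : Prop :=
  ∀ x ∈ Y, ∀ y ∈ Y, Relation.ReflTransGen (fun a b => a ∈ Y ∧ b ∈ Y ∧ wdist S a b ≤ r) x y

/-- `Y` is invariant under `P` -/
def Inv (P : Subgroup G) (Y : Set G) : Prop := ∀ p ∈ P, ∀ y ∈ Y, p * y ∈ Y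

/-- `Y` is contained in finitely many orbits of `P` -/
def Cof (P : Subgroup G) (Y : Set G) : Prop :=
  ∃ F : Set G, F.Finite ∧ ∀ y ∈ Y, ∃ p ∈ P, p * y ∈ F

/-- the jump of `φ` along the line of `c` through `y` -/
noncomputable def Jp {k : Type} [Field k] (c y : G) (φ : G → G → k) : k :=
  ∑ᶠ i : ℤ, φ (c ^ i * y) (c ^ (i + 1) * y)

/-! ## half-spaces -/

/-- `H` is a half-space bounded by the line of `c` -/
structure HS (S : Set G) (H : Set G) (c : G) : Prop where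
  ord : ∀ n : ℕ, 0 < n → c ^ n ≠ 1
  inv : ∀ x, c * x ∈ H ↔ x ∈ H
  bd : ∀ n : ℕ, ∃ F : Set G, F.Finite ∧ ∀ x y, wdist S x y ≤ n → x ∈ H → y ∉ H →
    ∃ i : ℤ, c ^ i * x ∈ F
  deep : ∀ F : Set G, F.Finite → ∃ x ∈ H, ∀ i : ℤ, c ^ i * x ∉ F
  deep' : ∀ F : Set G, F.Finite → ∃ x, x ∉ H ∧ ∀ i : ℤ, c ^ i * x ∉ F

/-- the points of `H` deeper than `m` -/
def Dp (S : Set G) (m : ℕ) (H : Set G) : Set G := {x | ∀ y, y ∉ H → m < wdist S x y}

/-- the strip of width `s` along the boundary of `H`, inside `H` -/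
def Strip (S : Set G) (s : ℕ) (H : Set G) : Set G := {x | x ∈ H ∧ ∃ y, y ∉ H ∧ wdist S x y ≤ s}

/-- the points that are not `s`-deep in a half-space of `HH` -/
def Yr (S : Set G) (s : ℕ) (HH : Set (Set G)) : Set G := {x | ∀ H ∈ HH, x ∉ Dp S s H}

/-! ## walls -/

/-- a wall: a set `W`, a line `L` along its boundary, and for each point the time `T` of a nearest
point of the line -/
structure Mk (G : Type) where
  W : Set G
  L : ℤ → G
  T : G → ℤ

/-- walls with uniform constants -/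
structure IsWall (S : Set G) (κ Dd M' : ℕ → ℕ) (w : Mk G) : Prop where
  near : ∀ n x y, wdist S x y ≤ n → x ∈ w.W → y ∉ w.W → ∃ i, wdist S x (w.L i) ≤ κ n
  hT : ∀ x j, wdist S x (w.L (w.T x)) ≤ wdist S x (w.L j)
  step : ∀ i, wdist S (w.L i) (w.L (i + 1)) ≤ κ 0
  prop : ∀ (n : ℕ) (i j : ℤ), wdist S (w.L i) (w.L j) ≤ n → |i - j| ≤ (Dd n : ℤ)
  deep : ∀ (M : ℕ) (i : ℤ), ∃ u ∈ w.W, ∃ v, v ∉ w.W ∧ wdist S u (w.L i) ≤ M' M ∧
    wdist S v (w.L i) ≤ M' M ∧ ∀ j, M < wdist S u (w.L j) ∧ M < wdist S v (w.L j)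

open Classical in
/-- indicator of the points with time at most `t` -/
noncomputable def chi (k : Type) [Field k] (w : Mk G) (t : ℤ) (x : G) : k :=
  if w.T x ≤ t then 1 else 0

open Classical in
/-- indicator of `W` -/
noncomputable def ind (k : Type) [Field k] (W : Set G) (x : G) : k := if x ∈ W then 1 else 0

/-- the part of the wall between the times `s` and `t`, as a cochain -/
noncomputable def arc (k : Type) [Field k] (w : Mk G) (s t : ℤ) (x y : G) : k :=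
  (chi k w t x - chi k w s x) * (ind k w.W y - ind k w.W x)

/-- the defect of the part of the wall up to time `t` -/
noncomputable def dd (k : Type) [Field k] (w : Mk G) (t : ℤ) (x y z : G) : k :=
  (chi k w t y - chi k w t x) * (ind k w.W z - ind k w.W y)

/-- the half-space `H` is uncrossed: a wall cannot be deep on both sides -/
def Uncr (S : Set G) (H : Set G) : Prop :=
  ∀ κ Dd M' : ℕ → ℕ, ∃ M : ℕ, ∀ w : Mk G, IsWall S κ Dd M' w →
    (∀ i, w.L i ∉ Dp S M H) ∨ (∀ i, w.L i ∉ Dp S M Hᶜ)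

/-! ## pieces -/

/-- translate of a set of group elements -/
def tl (g : G) (H : Set G) : Set G := {x | g⁻¹ * x ∈ H}

/-- a piece: a subgroup `P` with a family of disjoint half-spaces around it -/
structure Piece (S : Set G) (P : Subgroup G) (HH : Set (Set G)) : Prop where
  inv : ∀ p ∈ P, ∀ H ∈ HH, tl p H ∈ HH
  disj : ∀ H ∈ HH, ∀ H' ∈ HH, H ≠ H' → Disjoint H H'
  hs : ∀ H ∈ HH, ∃ c ∈ P, HS S H c
  orb : ∃ F : Set (Set G), F.Finite ∧ ∀ H ∈ HH, ∃ p ∈ P, tl p H ∈ F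
  core : ∃ F : Set G, F.Finite ∧ ∀ x, (∀ H ∈ HH, x ∉ H) → ∃ p ∈ P, p * x ∈ F
  nest : ∀ g, g ∉ P → ∃ H ∈ HH, ∃ H' ∈ HH, (tl g H')ᶜ ⊆ H
  ne : HH.Nonempty

/-- the two ends of the line of `H` (in the strip of width `s`) are separated by `E` -/
def Sep (S : Set G) (s : ℕ) (H : Set G) (E : Set G) : Prop :=
  ∃ c y, HS S H c ∧ y ∈ Strip S s H ∧ (∃ i₀ : ℤ, ∀ i, i₀ ≤ i → c ^ i * y ∈ E) ∧
    ∃ i₀ : ℤ, ∀ i, i ≤ i₀ → c ^ i * y ∉ E

/-- finite boundary of `E` in `Y` at scale `r` -/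
def FinBd (S : Set G) (Y : Set G) (r : ℕ) (E : Set G) : Prop :=
  {p : G × G | p.1 ∈ Y ∧ p.2 ∈ Y ∧ wdist S p.1 p.2 ≤ r ∧ p.1 ∈ E ∧ p.2 ∉ E}.Finite

/-- a finite cut of the region `Yr S s HH` that separates the ends of exactly two lines -/
structure IsCut2 (S : Set G) (HH : Set (Set G)) (s r : ℕ) (E : Set G) : Prop where
  hs1 : 1 ≤ s
  conn : CConn S (Yr S s HH) r
  sub : E ⊆ Yr S s HH
  fin : FinBd S (Yr S s HH) r E
  two : ∃ H₀ ∈ HH, ∃ H₁ ∈ HH, H₀ ≠ H₁ ∧ ∀ H ∈ HH, Sep S s H E ↔ (H = H₀ ∨ H = H₁)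

/-- a bad cocycle for `H₀` (scale `n`): nonzero jump at `H₀`, zero jump at all other half-spaces
but one, jumps being tested with steps of length at most `m` -/
def Bad (S : Set G) (k : Type) [Field k] (HH : Set (Set G)) (s m n : ℕ) (H₀ : Set G) : Prop :=
  ∃ φ : G → G → k, Coc S (Yr S s HH) n φ ∧ FinC S (Yr S s HH) n φ ∧
    (∃ c y, HS S H₀ c ∧ y ∈ Strip S s H₀ ∧ wdist S y (c * y) ≤ m ∧ Jp c y φ ≠ 0) ∧
    ∃ H₁ ∈ HH, ∀ H ∈ HH, H ≠ H₀ → H ≠ H₁ → ∀ c y, HS S H c → y ∈ Strip S s H →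
      wdist S y (c * y) ≤ m → Jp c y φ = 0

/-! ## the class of groups -/

/-- torsion-free -/
def TF (G : Type) [Group G] : Prop := ∀ g : G, g ≠ 1 → ∀ n : ℕ, 0 < n → g ^ n ≠ 1

/-- stability for all subgroups -/
def StAll (S : Set G) (k : Type) [Field k] : Prop :=
  ∀ (P : Subgroup G) (Y : Set G), Inv P Y → Cof P Y → (∃ r, CConn S Y r) → PSt S k Y

/-- crossed homomorphisms `P → D` -/
def Der {k D : Type} [Field k] [DivisionRing D] (ι : MonoidAlgebra k G →+* D) (P : Subgroup G) :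
    Submodule D (P → D) where
  carrier := {d | ∀ g h : P, d (g * h) =
    d g + d h * ι (MonoidAlgebra.of k G ((g : G)⁻¹))}
  zero_mem' := by intro g h; simp
  add_mem' := by
    intro a b ha hb g h
    simp only [Pi.add_apply, Set.mem_ofPred_eq] at ha hb ⊢
    rw [ha, hb, add_mul]; abel
  smul_mem' := by
    intro m a ha g h
    simp only [Pi.smul_apply, Set.mem_ofPred_eq, smul_eq_mul] at ha ⊢
    rw [ha, mul_add, mul_assoc]

/-- the rank of a subgroup -/
noncomputable def rk {k D : Type} [Field k] [DivisionRing D] (ι : MonoidAlgebra k G →+* D)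
    (P : Subgroup G) : ℕ := Module.finrank D (Der ι P)

/-! ## lines in trees -/

/-- the positive end of the orbit of `v` under `c` lies on the side of `y` of the edge `x, y` -/
def PlE {P V : Type} [Group P] [MulAction P V] (T : SimpleGraph V) (c : P) (v x y : V) : Prop :=
  ∃ i₀ : ℤ, ∀ i : ℤ, i₀ ≤ i → side T y x (c ^ i • v)

/-- the line of `c` crosses the edge `x, y` -/
def Crs {P V : Type} [Group P] [MulAction P V] (T : SimpleGraph V) (c : P) (x y : V) : Prop :=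
  ∀ v : V, (PlE T c v x y ∧ PlE T c⁻¹ v y x) ∨ (PlE T c v y x ∧ PlE T c⁻¹ v x y)

/-- a tree with trivial edge stabilizers for a piece, in which every edge is crossed by the lines
of exactly two half-spaces -/
structure LT (S : Set G) (P : Subgroup G) (HH : Set (Set G)) where
  E : Splitting P
  triv : E.edgeGroup = ⊥
  c : Set G → P
  hc : ∀ H ∈ HH, HS S H (c H : G)
  gen : ∀ H ∈ HH, ∀ p : P, tl (p : G) H = H → p ∈ Subgroup.zpowers (c H)
  eqv : ∀ p : P, ∀ H ∈ HH, c (tl (p : G) H) = p * c H * p⁻¹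
  two : ∀ x y, E.T.Adj x y → ∃ H₀ ∈ HH, ∃ H₁ ∈ HH, H₀ ≠ H₁ ∧
    ∀ H ∈ HH, Crs E.T (c H) x y ↔ (H = H₀ ∨ H = H₁)

end Pool.Agent.QD
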