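import Pool.Agent.H67.Q.Defs

/-!
# QD (MP_bbdce3): locally injective maps to trees are injective; groups acting on trees
-/

set_option autoImplicit false

namespace Pool.Agent.QD

open Pool.Agent.QIS

section graph

variable {U V : Type} {Γ : SimpleGraph U} {T : SimpleGraph V}

theorem fp_chain (f : Γ →g T)
    (hl : ∀ v x y, Γ.Adj v x → Γ.Adj v y → f x = f y → x = y) {u v : U} (p : Γ.Walk u v)
    (hp : p.IsPath) : List.IsChain (· ≠ ·) (p.map f).edges := by
  induction p with
  | nil => simp
  | cons h q ih =>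
    rename_i u v w
    cases q with
    | nil => simp
    | cons h' q' =>
      rename_i z
      have h1 := ih (SimpleGraph.Walk.IsPath.of_cons hp)
      rw [SimpleGraph.Walk.map_cons, SimpleGraph.Walk.edges_cons] at h1 ⊢
      rw [SimpleGraph.Walk.map_cons, SimpleGraph.Walk.edges_cons, List.isChain_cons_cons]
      refine ⟨fun he => ?_, h1⟩
      rw [SimpleGraph.Walk.cons_isPath_iff] at hp
      have hne : u ≠ z := by
        rintro rfl
        exact hp.2 (by simp)
      rcases Sym2.eq_iff.1 he with ⟨h3, _⟩ | ⟨h3, _⟩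
      · exact (f.map_adj h).ne h3
      · exact hne (hl v u z h.symm h' h3)

theorem fp_inj (hT : T.IsAcyclic) (hc : Γ.Preconnected) (f : Γ →g T)
    (hl : ∀ v x y, Γ.Adj v x → Γ.Adj v y → f x = f y → x = y) : Function.Injective f := by
  classical
  intro u v huv
  obtain ⟨p⟩ := hc u v
  have h1 := fp_chain f hl p.toPath.1 p.toPath.2
  rw [← hT.isPath_iff_isChain] at h1
  have h2 : (p.toPath.1.map f).length = 0 := by
    have h3 := (hT.subsingleton_path _ _).elim (⟨(p.toPath.1.map f).copy rfl huv.symm,
      (SimpleGraph.Walk.isPath_copy _ rfl huv.symm).2 h1⟩ : T.Path (f u) (f u))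
      ⟨SimpleGraph.Walk.nil, SimpleGraph.Walk.IsPath.nil⟩
    have h4 : ((p.toPath.1.map f).copy rfl huv.symm).length = 0 :=
      congrArg (fun q : T.Path (f u) (f u) => q.1.length) h3
    rwa [SimpleGraph.Walk.length_copy] at h4
  rw [SimpleGraph.Walk.length_map] at h2
  exact SimpleGraph.Walk.eq_of_length_eq_zero h2

end graph

end Pool.Agent.QD
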