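import Pool.Agent.QD.FP0

/-!
# QD (MP_bbdce3): groups that look like amalgams or HNN extensions map injectively
-/

set_option autoImplicit false

namespace Pool.Agent.QD

open Pool.Agent.QIS MulAction

variable {G Γ : Type} [Group G] [Group Γ]

section amal

variable (E : Splitting G) (π : Γ →* G) (i : stabilizer G E.a →* Γ) (j : stabilizer G E.b →* Γ)

/-- the coset graph -/
def fpG1 : SimpleGraph ((Γ ⧸ i.range) ⊕ (Γ ⧸ j.range)) where
  Adj p q := ∃ γ : Γ, (p = Sum.inl (γ : Γ ⧸ i.range) ∧ q = Sum.inr (γ : Γ ⧸ j.range)) ∨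
    (p = Sum.inr (γ : Γ ⧸ j.range) ∧ q = Sum.inl (γ : Γ ⧸ i.range))
  symm := ⟨by
    rintro p q ⟨γ, h | h⟩
    · exact ⟨γ, Or.inr ⟨h.2, h.1⟩⟩
    · exact ⟨γ, Or.inl ⟨h.2, h.1⟩⟩⟩
  loopless := ⟨by
    rintro p ⟨γ, ⟨h, h'⟩ | ⟨h, h'⟩⟩
    · rw [h] at h'; cases h'
    · rw [h] at h'; cases h'⟩

variable {E} {π} {i} {j}

/-- the map to the vertices -/
def fpV {v : E.V} {s : Subgroup Γ} (hs : ∀ x ∈ s, π x • v = v) (q : Γ ⧸ s) : E.V :=
  Quotient.liftOn' q (fun γ => π γ • v) (by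
    intro γ δ h
    rw [QuotientGroup.leftRel_apply] at h
    have h1 := hs _ h
    show π γ • v = π δ • v
    rw [map_mul, map_inv, mul_smul, inv_smul_eq_iff] at h1
    exact h1.symm)

theorem fpV_mk {v : E.V} {s : Subgroup Γ} (hs : ∀ x ∈ s, π x • v = v) (γ : Γ) :
    fpV hs (γ : Γ ⧸ s) = π γ • v := rfl

theorem fp_stab {v : E.V} {i : stabilizer G v →* Γ} (hi : ∀ x, π (i x) = x) :
    ∀ x ∈ i.range, π x • v = v := by
  rintro _ ⟨x, rfl⟩
  rw [hi]
  exact x.2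

theorem fp_amal (hi : ∀ x, π (i x) = x) (hj : ∀ x, π (j x) = x)
    (hgen : Subgroup.closure (Set.range i ∪ Set.range j) = ⊤)
    (hC : ∀ (c : G) (ha : c ∈ stabilizer G E.a) (hb : c ∈ stabilizer G E.b),
      i ⟨c, ha⟩ = j ⟨c, hb⟩) : Function.Injective π := by
  have hsi := fp_stab (π := π) hi
  have hsj := fp_stab (π := π) hj
  let f : fpG1 E i j →g E.T :=
    { toFun := Sum.elim (fpV hsi) (fpV hsj)
      map_rel' := by
        rintro p q ⟨γ, ⟨rfl, rfl⟩ | ⟨rfl, rfl⟩⟩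
        · exact E.map_adj (π γ) E.adj
        · exact E.map_adj (π γ) E.adj.symm }
  have key : ∀ γ δ : Γ, π γ • E.a = π δ • E.a → π γ • E.b = π δ • E.b →
      γ⁻¹ * δ ∈ i.range ∨ γ⁻¹ * δ ∈ j.range → γ⁻¹ * δ ∈ i.range ∧ γ⁻¹ * δ ∈ j.range := by
    intro γ δ ha hb h
    have ha' : π (γ⁻¹ * δ) ∈ stabilizer G E.a := by
      rw [mem_stabilizer_iff, map_mul, map_inv, mul_smul, inv_smul_eq_iff]
      exact ha.symm
    have hb' : π (γ⁻¹ * δ) ∈ stabilizer G E.b := by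
      rw [mem_stabilizer_iff, map_mul, map_inv, mul_smul, inv_smul_eq_iff]
      exact hb.symm
    rcases h with ⟨x, hx⟩ | ⟨x, hx⟩
    · have h1 : (x : G) = π (γ⁻¹ * δ) := by rw [← hx, hi]
      have h2 : (x : G) ∈ stabilizer G E.b := by rw [h1]; exact hb'
      refine ⟨⟨x, hx⟩, ⟨⟨x, h2⟩, ?_⟩⟩
      rw [← hx]
      exact (hC x x.2 h2).symm
    · have h1 : (x : G) = π (γ⁻¹ * δ) := by rw [← hx, hj]
      have h2 : (x : G) ∈ stabilizer G E.a := by rw [h1]; exact ha'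
      refine ⟨⟨⟨x, h2⟩, ?_⟩, ⟨x, hx⟩⟩
      rw [← hx]
      exact hC x h2 x.2
  have hloc : ∀ v x y, (fpG1 E i j).Adj v x → (fpG1 E i j).Adj v y → f x = f y → x = y := by
    rintro v x y ⟨γ, ⟨rfl, rfl⟩ | ⟨rfl, rfl⟩⟩ ⟨δ, ⟨h, rfl⟩ | ⟨h, rfl⟩⟩ hf
    · have h1 : γ⁻¹ * δ ∈ i.range := QuotientGroup.eq.1 (Sum.inl.inj h)
      have h2 : π γ • E.b = π δ • E.b := hf
      have h3 : π γ • E.a = π δ • E.a := by
        have := hsi _ h1
        rw [map_mul, map_inv, mul_smul, inv_smul_eq_iff] at this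
        exact this.symm
      exact congrArg Sum.inr (QuotientGroup.eq.2 (key γ δ h3 h2 (Or.inl h1)).2)
    · cases h
    · cases h
    · have h1 : γ⁻¹ * δ ∈ j.range := QuotientGroup.eq.1 (Sum.inr.inj h)
      have h2 : π γ • E.a = π δ • E.a := hf
      have h3 : π γ • E.b = π δ • E.b := by
        have := hsj _ h1
        rw [map_mul, map_inv, mul_smul, inv_smul_eq_iff] at this
        exact this.symm
      exact congrArg Sum.inl (QuotientGroup.eq.2 (key γ δ h2 h3 (Or.inr h1)).1)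
  have hr : ∀ γ : Γ, ∀ δ : Γ, (fpG1 E i j).Reachable (Sum.inl (δ : Γ ⧸ i.range))
      (Sum.inl ((δ * γ : Γ) : Γ ⧸ i.range)) := by
    intro γ
    have hγ : γ ∈ Subgroup.closure (Set.range i ∪ Set.range j) := by rw [hgen]; trivial
    induction hγ using Subgroup.closure_induction with
    | mem x hx =>
      intro δ
      rcases hx with ⟨x, rfl⟩ | ⟨x, rfl⟩
      · have : (δ : Γ ⧸ i.range) = ((δ * i x : Γ) : Γ ⧸ i.range) :=
          QuotientGroup.eq.2 ⟨x, by group⟩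
        rw [← this]
      · have h1 : (fpG1 E i j).Adj (Sum.inl (δ : Γ ⧸ i.range)) (Sum.inr (δ : Γ ⧸ j.range)) :=
          ⟨δ, Or.inl ⟨rfl, rfl⟩⟩
        have h2 : (fpG1 E i j).Adj (Sum.inr (δ : Γ ⧸ j.range))
            (Sum.inl ((δ * j x : Γ) : Γ ⧸ i.range)) := by
          refine ⟨δ * j x, Or.inr ⟨?_, rfl⟩⟩
          exact congrArg Sum.inr (QuotientGroup.eq.2 ⟨x, by group⟩)
        exact h1.reachable.trans h2.reachable
    | one => intro δ; rw [mul_one]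
    | mul x y _ _ hx hy =>
      intro δ
      rw [← mul_assoc]
      exact (hx δ).trans (hy (δ * x))
    | inv x _ hx =>
      intro δ
      have := hx (δ * x⁻¹)
      rw [inv_mul_cancel_right] at this
      exact this.symm
  have hr1 : ∀ p, (fpG1 E i j).Reachable (Sum.inl ((1 : Γ) : Γ ⧸ i.range)) p := by
    rintro (q | q)
    · induction q using QuotientGroup.induction_on with
      | H γ => have := hr γ 1; rwa [one_mul] at this
    · induction q using QuotientGroup.induction_on with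
      | H γ =>
        have h1 := hr γ 1
        rw [one_mul] at h1
        have h2 : (fpG1 E i j).Adj (Sum.inl (γ : Γ ⧸ i.range)) (Sum.inr (γ : Γ ⧸ j.range)) :=
          ⟨γ, Or.inl ⟨rfl, rfl⟩⟩
        exact h1.trans h2.reachable
  have hinj : Function.Injective f :=
    fp_inj E.tree.isAcyclic (fun p q => (hr1 p).symm.trans (hr1 q)) f hloc
  rw [injective_iff_map_eq_one]
  intro γ hγ
  have h1 : f (Sum.inl (γ : Γ ⧸ i.range)) = f (Sum.inl ((1 : Γ) : Γ ⧸ i.range)) := by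
    show π γ • E.a = π 1 • E.a
    rw [hγ, map_one]
  have h2 : γ⁻¹ * 1 ∈ i.range := QuotientGroup.eq.1 (Sum.inl.inj (hinj h1))
  obtain ⟨x, hx⟩ := h2
  have h3 : x = 1 := by
    apply Subtype.ext
    have := hi x
    rw [hx, mul_one, map_inv, hγ, inv_one] at this
    exact this.symm
  rw [h3, map_one, mul_one] at hx
  exact inv_eq_one.1 hx.symm

end amal

section hnn

variable (E : Splitting G) (π : Γ →* G) (i : stabilizer G E.a →* Γ) (τ : Γ)

/-- the coset graph -/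
def fpG2 (h0 : τ ∉ i.range) : SimpleGraph (Γ ⧸ i.range) where
  Adj p q := ∃ γ : Γ, (p = (γ : Γ ⧸ i.range) ∧ q = ((γ * τ : Γ) : Γ ⧸ i.range)) ∨
    (p = ((γ * τ : Γ) : Γ ⧸ i.range) ∧ q = (γ : Γ ⧸ i.range))
  symm := ⟨by
    rintro p q ⟨γ, h | h⟩
    · exact ⟨γ, Or.inr ⟨h.2, h.1⟩⟩
    · exact ⟨γ, Or.inl ⟨h.2, h.1⟩⟩⟩
  loopless := ⟨by
    rintro p ⟨γ, ⟨h, h'⟩ | ⟨h, h'⟩⟩
    · rw [h] at h'
      have := QuotientGroup.eq.1 h'
      rw [inv_mul_cancel_left] at this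
      exact h0 this
    · rw [h'] at h
      have := QuotientGroup.eq.1 h
      rw [inv_mul_cancel_left] at this
      exact h0 this⟩

variable {E} {π} {i} {τ}

theorem fp_hnn (hi : ∀ x, π (i x) = x) (hτ : π τ • E.a = E.b)
    (hgen : Subgroup.closure (Set.range i ∪ {τ}) = ⊤)
    (hC : ∀ (c : G) (ha : c ∈ stabilizer G E.a) (hb : (π τ)⁻¹ * c * π τ ∈ stabilizer G E.a),
      i ⟨c, ha⟩ * τ = τ * i ⟨(π τ)⁻¹ * c * π τ, hb⟩) : Function.Injective π := by
  have hsi := fp_stab (π := π) hi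
  have h0 : τ ∉ i.range := by
    intro h
    have h1 := hsi _ h
    rw [hτ] at h1
    exact E.adj.ne h1.symm
  let f : fpG2 E i τ h0 →g E.T :=
    { toFun := fpV hsi
      map_rel' := by
        rintro p q ⟨γ, ⟨rfl, rfl⟩ | ⟨rfl, rfl⟩⟩
        · show E.T.Adj (π γ • E.a) (π (γ * τ) • E.a)
          rw [map_mul, mul_smul, hτ]
          exact E.map_adj (π γ) E.adj
        · show E.T.Adj (π (γ * τ) • E.a) (π γ • E.a)
          rw [map_mul, mul_smul, hτ]
          exact E.map_adj (π γ) E.adj.symm }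
  have fmk : ∀ γ : Γ, f (γ : Γ ⧸ i.range) = π γ • E.a := fun _ => rfl
  have hloc : ∀ v x y, (fpG2 E i τ h0).Adj v x → (fpG2 E i τ h0).Adj v y → f x = f y → x = y := by
    have mixed : ∀ γ δ : Γ, (γ : Γ ⧸ i.range) = ((δ * τ : Γ) : Γ ⧸ i.range) →
        f ((γ * τ : Γ) : Γ ⧸ i.range) = f (δ : Γ ⧸ i.range) → False := by
      intro γ δ h hf
      rw [fmk, fmk, map_mul, mul_smul, hτ] at hf
      have h1 := hsi _ (QuotientGroup.eq.1 h)
      rw [← mul_assoc, map_mul, mul_smul, hτ] at h1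
      refine E.no_inv (π (γ⁻¹ * δ)) E.adj ⟨?_, h1⟩
      rw [map_mul, map_inv, mul_smul, inv_smul_eq_iff]
      exact hf.symm
    rintro v x y ⟨γ, ⟨rfl, rfl⟩ | ⟨rfl, rfl⟩⟩ ⟨δ, ⟨h, rfl⟩ | ⟨h, rfl⟩⟩ hf
    · obtain ⟨x, hx⟩ : γ⁻¹ * δ ∈ i.range := QuotientGroup.eq.1 h
      rw [fmk, fmk, map_mul, map_mul, mul_smul, mul_smul, hτ] at hf
      have h1 : (x : G) = π (γ⁻¹ * δ) := by rw [← hx, hi]
      have h2 : (π τ)⁻¹ * (x : G) * π τ ∈ stabilizer G E.a := by
        rw [mem_stabilizer_iff, mul_smul, mul_smul, hτ, inv_smul_eq_iff, hτ, h1, map_mul, map_inv,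
          mul_smul, inv_smul_eq_iff]
        exact hf.symm
      refine QuotientGroup.eq.2 ⟨⟨_, h2⟩, ?_⟩
      have h3 := hC x x.2 h2
      have h4 : i ⟨(x : G), x.2⟩ = γ⁻¹ * δ := hx
      rw [h4] at h3
      rw [eq_comm, mul_inv_rev, mul_assoc, inv_mul_eq_iff_eq_mul, ← h3]
      group
    · exact (mixed γ δ h hf).elim
    · exact (mixed δ γ h.symm hf.symm).elim
    · obtain ⟨x, hx⟩ : (γ * τ)⁻¹ * (δ * τ) ∈ i.range := QuotientGroup.eq.1 h
      rw [fmk, fmk] at hf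
      have h1 : (x : G) = (π τ)⁻¹ * π (γ⁻¹ * δ) * π τ := by
        rw [← hi x, hx]
        simp only [map_mul, map_inv]
        group
      have h2 : π (γ⁻¹ * δ) ∈ stabilizer G E.a := by
        rw [mem_stabilizer_iff, map_mul, map_inv, mul_smul, inv_smul_eq_iff]
        exact hf.symm
      have h3 : (π τ)⁻¹ * π (γ⁻¹ * δ) * π τ ∈ stabilizer G E.a := by
        rw [← h1]; exact x.2
      refine QuotientGroup.eq.2 ⟨⟨_, h2⟩, ?_⟩
      have h4 := hC _ h2 h3
      have h5 : i ⟨_, h3⟩ = (γ * τ)⁻¹ * (δ * τ) := by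
        rw [← hx]
        exact congrArg i (Subtype.ext h1.symm)
      rw [h5] at h4
      have h6 : τ * ((γ * τ)⁻¹ * (δ * τ)) = γ⁻¹ * δ * τ := by group
      rw [h6] at h4
      exact mul_right_cancel h4
  have hr : ∀ γ : Γ, ∀ δ : Γ, (fpG2 E i τ h0).Reachable (δ : Γ ⧸ i.range)
      ((δ * γ : Γ) : Γ ⧸ i.range) := by
    intro γ
    have hγ : γ ∈ Subgroup.closure (Set.range i ∪ {τ}) := by rw [hgen]; trivial
    induction hγ using Subgroup.closure_induction with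
    | mem x hx =>
      intro δ
      rcases hx with ⟨x, rfl⟩ | rfl
      · have : (δ : Γ ⧸ i.range) = ((δ * i x : Γ) : Γ ⧸ i.range) :=
          QuotientGroup.eq.2 ⟨x, by group⟩
        rw [← this]
      · have h1 : (fpG2 E i x h0).Adj (δ : Γ ⧸ i.range) ((δ * x : Γ) : Γ ⧸ i.range) :=
          ⟨δ, Or.inl ⟨rfl, rfl⟩⟩
        exact h1.reachable
    | one => intro δ; rw [mul_one]
    | mul x y _ _ hx hy =>
      intro δ
      rw [← mul_assoc]
      exact (hx δ).trans (hy (δ * x))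
    | inv x _ hx =>
      intro δ
      have := hx (δ * x⁻¹)
      rw [inv_mul_cancel_right] at this
      exact this.symm
  have hr1 : ∀ p, (fpG2 E i τ h0).Reachable ((1 : Γ) : Γ ⧸ i.range) p := by
    intro q
    induction q using QuotientGroup.induction_on with
    | H γ => have := hr γ 1; rwa [one_mul] at this
  have hinj : Function.Injective f :=
    fp_inj E.tree.isAcyclic (fun p q => (hr1 p).symm.trans (hr1 q)) f hloc
  rw [injective_iff_map_eq_one]
  intro γ hγ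
  have h1 : f (γ : Γ ⧸ i.range) = f ((1 : Γ) : Γ ⧸ i.range) := by
    rw [fmk, fmk, hγ, map_one]
  obtain ⟨x, hx⟩ : γ⁻¹ * 1 ∈ i.range := QuotientGroup.eq.1 (hinj h1)
  have h3 : x = 1 := by
    apply Subtype.ext
    have := hi x
    rw [hx, mul_one, map_inv, hγ, inv_one] at this
    exact this.symm
  rw [h3, map_one, mul_one] at hx
  exact inv_eq_one.1 hx.symm

end hnn

end Pool.Agent.QD
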