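import Pool.Agent.QD.Stm

/-!
# Row B3 of the project QD (MP_bbdce3_al): a crossing wall gives a bad cocycle
-/

set_option autoImplicit false

namespace Pool.Agent.QD

open Pool.Agent.QIS

section PropU

variable {G : Type} [Group G] {S : Set G} {k : Type} [Field k]

/-! ### arcs of walls -/

theorem pu_defect (w : Mk G) (a b : ℤ) (x y z : G) :
    arc k w a b x y + arc k w a b y z - arc k w a b x z = dd k w b x y z - dd k w a x y z := by
  unfold arc dd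
  ring

theorem pu_ind_ne {W : Set G} {x y : G} (h : ind k W y - ind k W x ≠ 0) :
    (x ∈ W ∧ y ∉ W) ∨ (y ∈ W ∧ x ∉ W) := by
  by_cases hx : x ∈ W <;> by_cases hy : y ∈ W
  · exact absurd (by simp [ind, hx, hy]) h
  · exact Or.inl ⟨hx, hy⟩
  · exact Or.inr ⟨hy, hx⟩
  · exact absurd (by simp [ind, hx, hy]) h

theorem pu_chi_ne {w : Mk G} {t : ℤ} {x y : G} (h : chi k w t y - chi k w t x ≠ 0) :
    (w.T x ≤ t ∧ t < w.T y) ∨ (w.T y ≤ t ∧ t < w.T x) := by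
  by_cases hx : w.T x ≤ t <;> by_cases hy : w.T y ≤ t
  · exact absurd (by simp [chi, hx, hy]) h
  · exact Or.inl ⟨hx, not_le.1 hy⟩
  · exact Or.inr ⟨hy, not_le.1 hx⟩
  · exact absurd (by simp [chi, hx, hy]) h

theorem pu_chi_ne2 {w : Mk G} {a b : ℤ} {x : G} (h : chi k w b x - chi k w a x ≠ 0) :
    min a b ≤ w.T x ∧ w.T x ≤ max a b := by
  by_cases hx : w.T x ≤ a <;> by_cases hy : w.T x ≤ b
  · exact absurd (by simp [chi, hx, hy]) h
  · exact ⟨(min_le_right _ _).trans (not_le.1 hy).le, hx.trans (le_max_left _ _)⟩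
  · exact ⟨(min_le_left _ _).trans (not_le.1 hx).le, hy.trans (le_max_right _ _)⟩
  · exact absurd (by simp [chi, hx, hy]) h

variable {κ Dd M' : ℕ → ℕ}

theorem pu_step_nat (hSg : Subgroup.closure S = ⊤) {w : Mk G} (hw : IsWall S κ Dd M' w) (i : ℤ)
    (n : ℕ) : wdist S (w.L i) (w.L (i + n)) ≤ n * κ 0 := by
  induction n with
  | zero => simp [wdist_self]
  | succ n ih =>
    have h1 := hw.step (i + n)
    have h2 := wdist_triangle hSg (w.L i) (w.L (i + n)) (w.L (i + n + 1))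
    have e : i + ((n + 1 : ℕ) : ℤ) = i + n + 1 := by push_cast; ring
    rw [e, add_mul, one_mul]
    omega

theorem pu_step (hSg : Subgroup.closure S = ⊤) {w : Mk G} (hw : IsWall S κ Dd M' w) (i j : ℤ) :
    wdist S (w.L i) (w.L j) ≤ (i - j).natAbs * κ 0 := by
  rcases le_total i j with h | h
  · have h1 := pu_step_nat hSg hw i (i - j).natAbs
    have e : i + ((i - j).natAbs : ℤ) = j := by omega
    rwa [e] at h1
  · have h1 := pu_step_nat hSg hw j (i - j).natAbs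
    have e : j + ((i - j).natAbs : ℤ) = i := by omega
    rw [e] at h1
    rwa [wdist_comm hSg]

theorem pu_near (hSg : Subgroup.closure S = ⊤) {w : Mk G} (hw : IsWall S κ Dd M' w) {N : ℕ}
    {x y : G} (hxy : wdist S x y ≤ N) (h : ind k w.W y - ind k w.W x ≠ 0) :
    wdist S x (w.L (w.T x)) ≤ κ N + N ∧ wdist S y (w.L (w.T y)) ≤ κ N + N := by
  have hyx : wdist S y x ≤ N := by rw [wdist_comm hSg]; exact hxy
  rcases pu_ind_ne h with ⟨h1, h2⟩ | ⟨h1, h2⟩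
  · obtain ⟨i, hi⟩ := hw.near N x y hxy h1 h2
    have h3 := hw.hT x i
    have h4 := hw.hT y i
    have h5 := wdist_triangle hSg y x (w.L i)
    omega
  · obtain ⟨i, hi⟩ := hw.near N y x hyx h1 h2
    have h3 := hw.hT x i
    have h4 := hw.hT y i
    have h5 := wdist_triangle hSg x y (w.L i)
    omega

/-- the radius of the defect -/
def pu_R (κ Dd : ℕ → ℕ) (N : ℕ) : ℕ := κ N + 2 * N + Dd (2 * κ N + 4 * N) * κ 0

theorem pu_dd_ball (hSg : Subgroup.closure S = ⊤) {w : Mk G} (hw : IsWall S κ Dd M' w) {N : ℕ}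
    {t : ℤ} {x y z : G} (hxy : wdist S x y ≤ N) (hyz : wdist S y z ≤ N)
    (h : dd k w t x y z ≠ 0) :
    wdist S (w.L t) x ≤ pu_R κ Dd N ∧ wdist S (w.L t) y ≤ pu_R κ Dd N ∧
      wdist S (w.L t) z ≤ pu_R κ Dd N := by
  have h1 : chi k w t y - chi k w t x ≠ 0 := left_ne_zero_of_mul h
  have h2 : ind k w.W z - ind k w.W y ≠ 0 := right_ne_zero_of_mul h
  obtain ⟨h3, -⟩ := pu_near hSg hw hyz h2
  have h4 := hw.hT x (w.T y)
  have h5 := wdist_triangle hSg x y (w.L (w.T y))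
  have h6 := wdist_triangle hSg (w.L (w.T x)) x (w.L (w.T y))
  have h7 : wdist S (w.L (w.T x)) x = wdist S x (w.L (w.T x)) := wdist_comm hSg _ _
  have h8 : wdist S (w.L (w.T x)) (w.L (w.T y)) ≤ 2 * κ N + 4 * N := by omega
  have h9 := hw.prop _ _ _ h8
  have h10 : (w.T y - t).natAbs ≤ Dd (2 * κ N + 4 * N) := by
    rcases pu_chi_ne h1 with ⟨h11, h12⟩ | ⟨h11, h12⟩
    · rw [abs_le] at h9
      omega
    · rw [abs_le] at h9
      omega
  have h11 := pu_step hSg hw (w.T y) t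
  have h12 : wdist S (w.L (w.T y)) (w.L t) ≤ Dd (2 * κ N + 4 * N) * κ 0 :=
    h11.trans (Nat.mul_le_mul_right _ h10)
  have h13 := wdist_triangle hSg y (w.L (w.T y)) (w.L t)
  have h14 : wdist S (w.L t) y = wdist S y (w.L t) := wdist_comm hSg _ _
  have h15 := wdist_triangle hSg (w.L t) y x
  have h16 := wdist_triangle hSg (w.L t) y z
  have h17 : wdist S y x = wdist S x y := wdist_comm hSg _ _
  unfold pu_R
  omega

theorem pu_pairs (hS : S.Finite) (hSg : Subgroup.closure S = ⊤) {A : Set G} (hA : A.Finite)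
    (N : ℕ) : {p : G × G | p.1 ∈ A ∧ wdist S p.1 p.2 ≤ N}.Finite := by
  have h1 : (⋃ x ∈ A, (fun y => (x, y)) '' {y | wdist S x y ≤ N}).Finite :=
    hA.biUnion fun x _ => (ball_finite hS hSg x N).image _
  refine h1.subset ?_
  rintro ⟨x, y⟩ ⟨hx, hy⟩
  simp only [Set.mem_iUnion]
  exact ⟨x, hx, y, hy, rfl⟩

theorem pu_arc_fin (hS : S.Finite) (hSg : Subgroup.closure S = ⊤) {w : Mk G}
    (hw : IsWall S κ Dd M' w) (a b : ℤ) (N : ℕ) :
    {p : G × G | wdist S p.1 p.2 ≤ N ∧ arc k w a b p.1 p.2 ≠ 0}.Finite := by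
  have h1 : (⋃ i ∈ Set.Icc (min a b) (max a b), {x | wdist S (w.L i) x ≤ κ N + N}).Finite :=
    (Set.finite_Icc _ _).biUnion fun i _ => ball_finite hS hSg (w.L i) (κ N + N)
  refine (pu_pairs hS hSg h1 N).subset ?_
  rintro ⟨x, y⟩ ⟨hxy, h⟩
  refine ⟨?_, hxy⟩
  have h2 := pu_chi_ne2 (left_ne_zero_of_mul h)
  obtain ⟨h3, -⟩ := pu_near hSg hw hxy (right_ne_zero_of_mul h)
  simp only [Set.mem_iUnion]
  refine ⟨w.T x, h2, ?_⟩
  show wdist S (w.L (w.T x)) x ≤ κ N + N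
  rwa [wdist_comm hSg]

/-! ### translates of walls -/

/-- the translate of a wall -/
def pu_tr (p : G) (w : Mk G) : Mk G := ⟨tl p w.W, fun i => p * w.L i, fun x => w.T (p⁻¹ * x)⟩

theorem pu_wdist_inv (p x y : G) : wdist S (p⁻¹ * x) y = wdist S x (p * y) := by
  have h := wdist_mul_left (S := S) p (p⁻¹ * x) y
  rw [mul_inv_cancel_left] at h
  exact h.symm

theorem pu_tr_wall {w : Mk G} (hw : IsWall S κ Dd M' w) (p : G) :
    IsWall S κ Dd M' (pu_tr p w) where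
  near := by
    intro n x y hxy hx hy
    obtain ⟨i, hi⟩ := hw.near n (p⁻¹ * x) (p⁻¹ * y) (by rw [wdist_mul_left]; exact hxy) hx hy
    refine ⟨i, ?_⟩
    show wdist S x (p * w.L i) ≤ κ n
    rw [← pu_wdist_inv]
    exact hi
  hT := by
    intro x j
    show wdist S x (p * w.L (w.T (p⁻¹ * x))) ≤ wdist S x (p * w.L j)
    rw [← pu_wdist_inv, ← pu_wdist_inv]
    exact hw.hT _ _
  step := by
    intro i
    show wdist S (p * w.L i) (p * w.L (i + 1)) ≤ κ 0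
    rw [wdist_mul_left]
    exact hw.step i
  prop := by
    intro n i j h
    refine hw.prop n i j ?_
    have h' : wdist S (p * w.L i) (p * w.L j) ≤ n := h
    rwa [wdist_mul_left] at h'
  deep := by
    intro M i
    obtain ⟨u, hu, v, hv, h1, h2, h3⟩ := hw.deep M i
    refine ⟨p * u, ?_, p * v, ?_, ?_, ?_, ?_⟩
    · show p⁻¹ * (p * u) ∈ w.W
      rwa [inv_mul_cancel_left]
    · show ¬ (p⁻¹ * (p * v) ∈ w.W)
      rwa [inv_mul_cancel_left]
    · show wdist S (p * u) (p * w.L i) ≤ M' M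
      rwa [wdist_mul_left]
    · show wdist S (p * v) (p * w.L i) ≤ M' M
      rwa [wdist_mul_left]
    · intro j
      show M < wdist S (p * u) (p * w.L j) ∧ M < wdist S (p * v) (p * w.L j)
      rw [wdist_mul_left, wdist_mul_left]
      exact h3 j

theorem pu_tr_arc (p : G) (w : Mk G) (a b : ℤ) (x y : G) :
    arc k (pu_tr p w) a b x y = arc k w a b (p⁻¹ * x) (p⁻¹ * y) := rfl

theorem pu_tr_dd (p : G) (w : Mk G) (t : ℤ) (x y z : G) :
    dd k (pu_tr p w) t x y z = dd k w t (p⁻¹ * x) (p⁻¹ * y) (p⁻¹ * z) := rfl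

theorem pu_dp_tl {M : ℕ} {H : Set G} {x : G} (h : x ∈ Dp S M H) (p : G) :
    p * x ∈ Dp S M (tl p H) := by
  intro y hy
  rw [← wdist_mul_left (S := S) p⁻¹, inv_mul_cancel_left]
  exact h _ hy

theorem pu_dp_sub {M : ℕ} {H : Set G} : Dp S M H ⊆ H := by
  intro x hx
  by_contra h
  have h1 := hx x h
  rw [wdist_self] at h1
  omega

theorem pu_dp_near (hSg : Subgroup.closure S = ⊤) {M R : ℕ} {H : Set G} {x y : G}
    (hx : x ∈ Dp S (M + R) H) (h : wdist S x y ≤ R) : y ∈ Dp S M H := by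
  intro z hz
  have h1 := hx z hz
  have h2 := wdist_triangle hSg x y z
  omega

theorem pu_dp_mono {M M₁ : ℕ} (h : M ≤ M₁) {H : Set G} : Dp S M₁ H ⊆ Dp S M H :=
  fun _ hx z hz => lt_of_le_of_lt h (hx z hz)

/-! ### types of ends of arcs -/

theorem pu_types (hS : S.Finite) (hSg : Subgroup.closure S = ⊤) (k : Type) [Field k]
    (κ Dd M' : ℕ → ℕ) (N M₂ : ℕ) (HH : Set (Set G)) {F : Set G} (hF : F.Finite) :
    ∃ M₃ : ℕ, ∀ (w : Mk G) (a b : ℤ), IsWall S κ Dd M' w → (∃ H ∈ HH, w.L a ∈ Dp S M₂ H) →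
      w.L b ∈ F → ∃ (w' : Mk G) (a' b' : ℤ), IsWall S κ Dd M' w' ∧
        (∃ H ∈ HH, w'.L a' ∈ Dp S M₂ H) ∧
        (∀ x y z, wdist S x y ≤ N → wdist S y z ≤ N → dd k w b x y z = dd k w' b' x y z) ∧
        ∀ x y, wdist S x y ≤ N → arc k w' a' b' x y ≠ 0 → wdist S (w.L b) x ≤ M₃ := by
  classical
  set B : Set G := ⋃ v ∈ F, {x | wdist S v x ≤ pu_R κ Dd N} with hB
  have hBf : B.Finite := hF.biUnion fun v _ => ball_finite hS hSg v _
  let Good : G → Set G → Set G → Mk G → ℤ → ℤ → Prop := fun v W₁ W₂ w a b =>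
    IsWall S κ Dd M' w ∧ (∃ H ∈ HH, w.L a ∈ Dp S M₂ H) ∧ w.L b = v ∧ w.W ∩ B = W₁ ∧
      {x | w.T x ≤ b} ∩ B = W₂
  have claim : ∀ (v : G) (W₁ W₂ : Set G), ∃ ρ : ℕ, (∃ w a b, Good v W₁ W₂ w a b) →
      ∃ w a b, Good v W₁ W₂ w a b ∧
        ∀ x y, wdist S x y ≤ N → arc k w a b x y ≠ 0 → wdist S v x ≤ ρ := by
    intro v W₁ W₂
    by_cases h : ∃ w a b, Good v W₁ W₂ w a b
    · obtain ⟨w, a, b, hg⟩ := h
      have h1 := pu_arc_fin (k := k) hS hSg hg.1 a b N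
      obtain ⟨ρ, hρ⟩ := (h1.image (fun p : G × G => wdist S v p.1)).bddAbove
      refine ⟨ρ, fun _ => ⟨w, a, b, hg, fun x y hxy hne => ?_⟩⟩
      exact hρ ⟨(x, y), ⟨hxy, hne⟩, rfl⟩
    · exact ⟨0, fun h' => absurd h' h⟩
  choose ρ hρ using claim
  have hQ : (F ×ˢ ((𝒫 B) ×ˢ (𝒫 B))).Finite := hF.prod (hBf.powerset.prod hBf.powerset)
  obtain ⟨M₃, hM₃⟩ := (hQ.image (fun q => ρ q.1 q.2.1 q.2.2)).bddAbove
  refine ⟨M₃, fun w a b hw ha hb => ?_⟩
  obtain ⟨w', a', b', ⟨hw', ha', hb', hW, hT⟩, hbd⟩ := hρ (w.L b) (w.W ∩ B) ({x | w.T x ≤ b} ∩ B)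
    ⟨w, a, b, hw, ha, rfl, rfl, rfl⟩
  refine ⟨w', a', b', hw', ha', ?_, ?_⟩
  · intro x y z hxy hyz
    have hmem : ∀ u, wdist S (w.L b) u ≤ pu_R κ Dd N → u ∈ B := by
      intro u hu
      simp only [hB, Set.mem_iUnion]
      exact ⟨w.L b, hb, hu⟩
    have e1 : ∀ u ∈ B, chi k w b u = chi k w' b' u := by
      intro u hu
      have h1 : u ∈ {x | w'.T x ≤ b'} ∩ B ↔ u ∈ {x | w.T x ≤ b} ∩ B := by rw [hT]
      have h2 : w'.T u ≤ b' ↔ w.T u ≤ b := by
        constructor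
        · exact fun h => (h1.1 ⟨h, hu⟩).1
        · exact fun h => (h1.2 ⟨h, hu⟩).1
      by_cases h3 : w.T u ≤ b
      · simp [chi, h3, h2.2 h3]
      · have h4 : ¬ w'.T u ≤ b' := fun h => h3 (h2.1 h)
        simp [chi, h3, h4]
    have e2 : ∀ u ∈ B, ind k w.W u = ind k w'.W u := by
      intro u hu
      have h1 : u ∈ w'.W ∩ B ↔ u ∈ w.W ∩ B := by rw [hW]
      have h2 : u ∈ w'.W ↔ u ∈ w.W := by
        constructor
        · exact fun h => (h1.1 ⟨h, hu⟩).1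
        · exact fun h => (h1.2 ⟨h, hu⟩).1
      by_cases h3 : u ∈ w.W
      · simp [ind, h3, h2.2 h3]
      · have h4 : ¬ u ∈ w'.W := fun h => h3 (h2.1 h)
        simp [ind, h3, h4]
    by_cases hx : x ∈ B ∧ y ∈ B ∧ z ∈ B
    · unfold dd
      rw [e1 x hx.1, e1 y hx.2.1, e2 y hx.2.1, e2 z hx.2.2]
    · have h1 : dd k w b x y z = 0 := by
        by_contra h
        obtain ⟨h2, h3, h4⟩ := pu_dd_ball hSg hw hxy hyz h
        exact hx ⟨hmem x h2, hmem y h3, hmem z h4⟩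
      have h2 : dd k w' b' x y z = 0 := by
        by_contra h
        obtain ⟨h2, h3, h4⟩ := pu_dd_ball hSg hw' hxy hyz h
        rw [hb'] at h2 h3 h4
        exact hx ⟨hmem x h2, hmem y h3, hmem z h4⟩
      rw [h1, h2]
  · intro x y hxy hne
    refine (hbd x y hxy hne).trans ?_
    refine hM₃ ⟨(w.L b, w.W ∩ B, {x | w.T x ≤ b} ∩ B), ⟨hb, ?_, ?_⟩, rfl⟩
    · exact Set.inter_subset_right
    · exact Set.inter_subset_right

theorem pu_types_cof (hS : S.Finite) (hSg : Subgroup.closure S = ⊤) (k : Type) [Field k]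
    (κ Dd M' : ℕ → ℕ) (N M₂ : ℕ) (P : Subgroup G) {HH : Set (Set G)}
    (hinv : ∀ p ∈ P, ∀ H ∈ HH, tl p H ∈ HH) {Y : Set G} (hY : Cof P Y) :
    ∃ M₃ : ℕ, ∀ (w : Mk G) (a b : ℤ), IsWall S κ Dd M' w → (∃ H ∈ HH, w.L a ∈ Dp S M₂ H) →
      w.L b ∈ Y → ∃ (w' : Mk G) (a' b' : ℤ), IsWall S κ Dd M' w' ∧
        (∃ H ∈ HH, w'.L a' ∈ Dp S M₂ H) ∧
        (∀ x y z, wdist S x y ≤ N → wdist S y z ≤ N → dd k w b x y z = dd k w' b' x y z) ∧
        ∀ x y, wdist S x y ≤ N → arc k w' a' b' x y ≠ 0 → wdist S (w.L b) x ≤ M₃ := by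
  obtain ⟨F, hF, hYF⟩ := hY
  obtain ⟨M₃, hM₃⟩ := pu_types hS hSg k κ Dd M' N M₂ HH hF
  refine ⟨M₃, fun w a b hw ha hb => ?_⟩
  obtain ⟨p, hp, hpb⟩ := hYF _ hb
  obtain ⟨H, hH, haH⟩ := ha
  obtain ⟨w₁, a', b', hw₁, ⟨H', hH', haH'⟩, hdd, hbd⟩ := hM₃ (pu_tr p w) a b (pu_tr_wall hw p)
    ⟨tl p H, hinv p hp H hH, pu_dp_tl haH p⟩ hpb
  refine ⟨pu_tr p⁻¹ w₁, a', b', pu_tr_wall hw₁ p⁻¹,
    ⟨tl p⁻¹ H', hinv _ (P.inv_mem hp) H' hH', pu_dp_tl haH' p⁻¹⟩, ?_, ?_⟩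
  · intro x y z hxy hyz
    have h1 := hdd (p * x) (p * y) (p * z) (by rw [wdist_mul_left]; exact hxy)
      (by rw [wdist_mul_left]; exact hyz)
    rw [pu_tr_dd, inv_mul_cancel_left, inv_mul_cancel_left, inv_mul_cancel_left] at h1
    rw [pu_tr_dd, inv_inv, h1]
  · intro x y hxy hne
    rw [pu_tr_arc, inv_inv] at hne
    have h1 := hbd (p * x) (p * y) (by rw [wdist_mul_left]; exact hxy) hne
    have h2 : wdist S (p * w.L b) (p * x) ≤ M₃ := h1
    rwa [wdist_mul_left] at h2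

/-! ### jumps -/

theorem pu_tele {h : ℤ → k} (hf : (Function.support h).Finite) :
    ∑ᶠ i : ℤ, (h (i + 1) - h i) = 0 := by
  have hf' : (Function.support fun i : ℤ => h (i + 1)).Finite := by
    refine (hf.image (fun i : ℤ => i - 1)).subset ?_
    intro i hi
    exact ⟨i + 1, hi, by ring⟩
  rw [finsum_sub_distrib hf' hf]
  have e : ∑ᶠ i : ℤ, h (i + 1) = ∑ᶠ i : ℤ, h i :=
    finsum_comp_equiv (Equiv.addRight (1 : ℤ)) (f := h)
  rw [e, sub_self]

theorem pu_line_inj {c : G} (hc : ∀ n : ℕ, 0 < n → c ^ n ≠ 1) (y : G) :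
    Function.Injective fun i : ℤ => c ^ i * y := by
  intro i j hij
  have h1 : c ^ i = c ^ j := mul_right_cancel hij
  have h2 : Function.Injective fun n : ℤ => c ^ n := by
    rw [injective_zpow_iff_not_isOfFinOrder, isOfFinOrder_iff_pow_eq_one]
    rintro ⟨n, hn, hn'⟩
    exact hc n hn hn'
  exact h2 h1

theorem pu_comp_fin {c : G} (hc : ∀ n : ℕ, 0 < n → c ^ n ≠ 1) (y : G) {f : G → k}
    (hf : (Function.support f).Finite) : (Function.support fun i : ℤ => f (c ^ i * y)).Finite :=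
  hf.preimage (pu_line_inj hc y).injOn

theorem pu_wdist_line (c y : G) (i : ℤ) :
    wdist S (c ^ i * y) (c ^ (i + 1) * y) = wdist S y (c * y) := by
  rw [zpow_add_one, mul_assoc, wdist_mul_left]

theorem pu_Jp_fin {c : G} (hc : ∀ n : ℕ, 0 < n → c ^ n ≠ 1) {y : G} {N : ℕ}
    (hy : wdist S y (c * y) ≤ N) {φ : G → G → k}
    (hφ : {p : G × G | wdist S p.1 p.2 ≤ N ∧ φ p.1 p.2 ≠ 0}.Finite) :
    (Function.support fun i : ℤ => φ (c ^ i * y) (c ^ (i + 1) * y)).Finite := by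
  have hinj : Function.Injective fun i : ℤ => (c ^ i * y, c ^ (i + 1) * y) := by
    intro i j hij
    exact pu_line_inj hc y (Prod.ext_iff.1 hij).1
  refine (hφ.preimage hinj.injOn).subset ?_
  intro i hi
  refine ⟨?_, hi⟩
  show wdist S (c ^ i * y) (c ^ (i + 1) * y) ≤ N
  rw [pu_wdist_line]
  exact hy

theorem pu_strip_line {H : Set G} {c : G} (hc : HS S H c) {s : ℕ} {y : G} (hy : y ∈ Strip S s H)
    (i : ℤ) : c ^ i * y ∈ Strip S s H := by
  have hz : ∀ (i : ℤ) (x : G), c ^ i * x ∈ H ↔ x ∈ H := by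
    intro i
    induction i with
    | zero => intro x; simp
    | succ n ih =>
      intro x
      rw [zpow_add_one, mul_assoc, ih, hc.inv]
    | pred n ih =>
      intro x
      rw [zpow_sub_one, mul_assoc, ih, ← hc.inv (c⁻¹ * x), mul_inv_cancel_left]
  obtain ⟨h1, z, h2, h3⟩ := hy
  refine ⟨(hz i y).2 h1, c ^ i * z, fun h => h2 ((hz i z).1 h), ?_⟩
  rwa [wdist_mul_left]

theorem pu_Jp_prim {H : Set G} {c : G} (hc : HS S H c) {s m : ℕ} {y : G}
    (hy : y ∈ Strip S s H) (hm : wdist S y (c * y) ≤ m) {φ : G → G → k} {f : G → k}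
    (hf : (Function.support f).Finite) (hp : Prim S H m φ f) : Jp c y φ = 0 := by
  have e : Jp c y φ = ∑ᶠ i : ℤ, (f (c ^ (i + 1) * y) - f (c ^ i * y)) := by
    unfold Jp
    refine finsum_congr fun i => ?_
    refine hp _ (pu_strip_line hc hy i).1 _ (pu_strip_line hc hy (i + 1)).1 ?_
    rw [pu_wdist_line]
    exact hm
  rw [e]
  exact pu_tele (h := fun i : ℤ => f (c ^ i * y)) (pu_comp_fin hc.ord y hf)

theorem pu_Jp_sub {c : G} (hc : ∀ n : ℕ, 0 < n → c ^ n ≠ 1) {y : G} {N : ℕ}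
    (hy : wdist S y (c * y) ≤ N) {φ ψ : G → G → k}
    (hφ : {p : G × G | wdist S p.1 p.2 ≤ N ∧ φ p.1 p.2 ≠ 0}.Finite)
    (hψ : {p : G × G | wdist S p.1 p.2 ≤ N ∧ ψ p.1 p.2 ≠ 0}.Finite) :
    Jp c y (fun u v => φ u v - ψ u v) = Jp c y φ - Jp c y ψ := by
  unfold Jp
  exact finsum_sub_distrib (pu_Jp_fin hc hy hφ) (pu_Jp_fin hc hy hψ)

/-- parallel lines have equal jumps -/
theorem pu_Jp_par (hSg : Subgroup.closure S = ⊤) {c : G} (hc : ∀ n : ℕ, 0 < n → c ^ n ≠ 1)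
    {y z : G} {N : ℕ} (hN : wdist S y (c * y) + wdist S z (c * z) + wdist S y z ≤ N)
    {φ : G → G → k} (hφ : {p : G × G | wdist S p.1 p.2 ≤ N ∧ φ p.1 p.2 ≠ 0}.Finite)
    (h1 : ∀ i : ℤ, φ (c ^ i * y) (c ^ (i + 1) * y) + φ (c ^ (i + 1) * y) (c ^ (i + 1) * z) =
      φ (c ^ i * y) (c ^ (i + 1) * z))
    (h2 : ∀ i : ℤ, φ (c ^ i * y) (c ^ i * z) + φ (c ^ i * z) (c ^ (i + 1) * z) =
      φ (c ^ i * y) (c ^ (i + 1) * z)) : Jp c y φ = Jp c z φ := by
  have hfy := pu_Jp_fin (k := k) hc (y := y) (N := N) (by omega) hφ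
  have hfz := pu_Jp_fin (k := k) hc (y := z) (N := N) (by omega) hφ
  have hu : (Function.support fun i : ℤ => φ (c ^ i * y) (c ^ i * z)).Finite := by
    have hinj : Function.Injective fun i : ℤ => (c ^ i * y, c ^ i * z) := by
      intro i j hij
      exact pu_line_inj hc y (Prod.ext_iff.1 hij).1
    refine (hφ.preimage hinj.injOn).subset ?_
    intro i hi
    refine ⟨?_, hi⟩
    show wdist S (c ^ i * y) (c ^ i * z) ≤ N
    rw [wdist_mul_left]
    omega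
  have h3 := pu_tele (k := k) hu
  have h4 : ∑ᶠ i : ℤ, (φ (c ^ i * z) (c ^ (i + 1) * z) - φ (c ^ i * y) (c ^ (i + 1) * y)) = 0 := by
    rw [← h3]
    refine finsum_congr fun i => ?_
    linear_combination h2 i - h1 i
  rw [finsum_sub_distrib hfz hfy] at h4
  unfold Jp
  exact (sub_eq_zero.1 h4).symm

/-! ### the core -/

/-- cochains with deep defect have zero jump at `H₀` -/
theorem pu_jump0 (P : Subgroup G) {HH : Set (Set G)} (hP : Piece S P HH) {H₀ : Set G}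
    {s m n N₅ N : ℕ} (hnN : n ≤ N) (h5N : N₅ ≤ N) (hb : ¬ Bad S k HH s m n H₀)
    (h5 : ∀ H ∈ HH, ∀ φ : G → G → k, Coc S H N₅ φ → FinC S H N₅ φ →
      ∃ f : G → k, (Function.support f).Finite ∧ Prim S H m φ f)
    (hH₀ : H₀ ∈ HH) {φ : G → G → k}
    (hφ : {p : G × G | wdist S p.1 p.2 ≤ N ∧ φ p.1 p.2 ≠ 0}.Finite) {H₁ : Set G} (hH₁ : H₁ ∈ HH)
    (hdef : ∀ x y z, wdist S x y ≤ N → wdist S y z ≤ N → wdist S x z ≤ N →
      φ x y + φ y z ≠ φ x z → x ∈ Dp S s H₀ ∨ x ∈ Dp S s H₁)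
    {c y : G} (hc : HS S H₀ c) (hy : y ∈ Strip S s H₀) (hm : wdist S y (c * y) ≤ m) :
    Jp c y φ = 0 := by
  by_contra hne
  refine hb ⟨φ, ?_, ?_, ⟨c, y, hc, hy, hm, hne⟩, H₁, hH₁, ?_⟩
  · intro x hx y hy z hz h1 h2 h3
    by_contra h
    rcases hdef x y z (h1.trans hnN) (h2.trans hnN) (h3.trans hnN) h with h4 | h4
    · exact hx H₀ hH₀ h4
    · exact hx H₁ hH₁ h4
  · refine hφ.subset ?_
    rintro p ⟨-, -, h1, h2⟩
    exact ⟨h1.trans hnN, h2⟩
  · intro H hH h0 h1 c' y' hc' hy' hm'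
    obtain ⟨f, hf, hp⟩ := h5 H hH φ (by
      intro x hx y hy z hz h3 h4 h5
      by_contra h
      rcases hdef x y z (h3.trans h5N) (h4.trans h5N) (h5.trans h5N) h with h6 | h6
      · exact Set.disjoint_left.1 (hP.disj H hH H₀ hH₀ h0) hx (pu_dp_sub h6)
      · exact Set.disjoint_left.1 (hP.disj H hH H₁ hH₁ h1) hx (pu_dp_sub h6)) (by
      refine hφ.subset ?_
      rintro p ⟨-, -, h3, h4⟩
      exact ⟨h3.trans h5N, h4⟩)
    exact pu_Jp_prim hc' hy' hm' hf hp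

open Classical in
/-- extension of a cochain by a primitive -/
noncomputable def pu_ext (H : Set G) (ψ : G → G → k) (g : G → k) (x y : G) : k :=
  if x ∈ H then (if y ∈ H then 0 else g y) else (if y ∈ H then - g x else ψ x y)

theorem pu_ext_defect (hSg : Subgroup.closure S = ⊤) {H : Set G} {ψ : G → G → k} {g : G → k}
    {n s : ℕ} (hs : n ≤ s) (hp : Prim S (Strip S s Hᶜ) n ψ g) {x y z : G}
    (hxy : wdist S x y ≤ n) (hyz : wdist S y z ≤ n) (hxz : wdist S x z ≤ n)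
    (hin : x ∈ H ∨ y ∈ H ∨ z ∈ H) :
    pu_ext H ψ g x y + pu_ext H ψ g y z - pu_ext H ψ g x z = 0 := by
  have hst : ∀ u v, u ∉ H → v ∈ H → wdist S u v ≤ n → u ∈ Strip S s Hᶜ := by
    intro u v hu hv huv
    exact ⟨hu, v, fun h => h hv, huv.trans hs⟩
  have hyx : wdist S y x ≤ n := by rw [wdist_comm hSg]; exact hxy
  have hzy : wdist S z y ≤ n := by rw [wdist_comm hSg]; exact hyz
  have hzx : wdist S z x ≤ n := by rw [wdist_comm hSg]; exact hxz
  unfold pu_ext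
  by_cases hx : x ∈ H <;> by_cases hy : y ∈ H <;> by_cases hz : z ∈ H
  · simp [hx, hy, hz]
  · simp [hx, hy, hz]
  · simp [hx, hy, hz]
  · have h1 := hp y (hst y x hy hx hyx) z (hst z x hz hx hzx) hyz
    simp only [hx, hy, hz, if_true, if_false]
    rw [h1]
    ring
  · simp [hx, hy, hz]
  · have h1 := hp x (hst x y hx hy hxy) z (hst z y hz hy hzy) hxz
    simp only [hx, hy, hz, if_true, if_false]
    rw [h1]
    ring
  · have h1 := hp x (hst x z hx hz hxz) y (hst y z hy hz hyz) hxy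
    simp only [hx, hy, hz, if_true, if_false]
    rw [h1]
    ring
  · exact absurd hin (by tauto)

theorem pu_ext_fin (hS : S.Finite) (hSg : Subgroup.closure S = ⊤) {H : Set G} {ψ : G → G → k}
    {g : G → k} {n : ℕ} (hψ : {p : G × G | wdist S p.1 p.2 ≤ n ∧ ψ p.1 p.2 ≠ 0}.Finite)
    (hg : (Function.support g).Finite) : FinC S Set.univ n (pu_ext H ψ g) := by
  have h1 := pu_pairs hS hSg hg n
  have h2 : {p : G × G | p.2 ∈ Function.support g ∧ wdist S p.1 p.2 ≤ n}.Finite := by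
    refine (h1.image Prod.swap).subset ?_
    rintro ⟨x, y⟩ ⟨hx, hy⟩
    refine ⟨(y, x), ⟨hx, ?_⟩, rfl⟩
    show wdist S y x ≤ n
    rw [wdist_comm hSg]
    exact hy
  refine ((hψ.union h1).union h2).subset ?_
  rintro ⟨x, y⟩ ⟨-, -, hxy, hne⟩
  unfold pu_ext at hne
  by_cases hx : x ∈ H <;> by_cases hy : y ∈ H
  · exact absurd (by simp [hx, hy]) hne
  · refine Or.inr ⟨?_, hxy⟩
    simpa [hx, hy] using hne
  · refine Or.inl (Or.inr ⟨?_, hxy⟩)
    simpa [hx, hy] using hne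
  · refine Or.inl (Or.inl ⟨hxy, ?_⟩)
    simpa [hx, hy] using hne

theorem pu_core (hS : S.Finite) (hSg : Subgroup.closure S = ⊤) (P : Subgroup G)
    {HH : Set (Set G)} (hP : Piece S P HH) {H₀ : Set G} (hH₀ : H₀ ∈ HH) {c₀ : G}
    (hc₀ : HS S H₀ c₀) (n₀ : ℕ)
    (h7 : ∀ (κ Dd M' : ℕ → ℕ) (w : Mk G), IsWall S κ Dd M' w → ∀ t : ℤ,
      ¬ ∃ ψ : G → G → k, FinC S Set.univ n₀ ψ ∧
        ∀ x y z, wdist S x y ≤ n₀ → wdist S y z ≤ n₀ → wdist S x z ≤ n₀ →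
          ψ x y + ψ y z - ψ x z = dd k w t x y z)
    (h6 : ∀ s r : ℕ, ∃ n : ℕ, r ≤ n ∧
      ∀ n', n ≤ n' → ∀ ψ : G → G → k, Coc S (Strip S s H₀ᶜ) n' ψ → FinC S (Strip S s H₀ᶜ) n' ψ →
        ∀ y ∈ Strip S s H₀ᶜ, wdist S y (c₀ * y) ≤ n' → Jp c₀ y ψ = 0 →
          ∃ g : G → k, (Function.support g).Finite ∧ Prim S (Strip S s H₀ᶜ) r ψ g ∧
            ∀ x, x ∉ Strip S s H₀ᶜ → g x = 0)
    (h5 : ∀ r : ℕ, ∃ n : ℕ, r ≤ n ∧ ∀ H ∈ HH, ∀ φ : G → G → k,
      Coc S H n φ → FinC S H n φ → ∃ f : G → k, (Function.support f).Finite ∧ Prim S H r φ f)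
    (hcof : ∀ s : ℕ, Cof P (Yr S s HH)) :
    ∃ s₁ m₁, ∀ s, s₁ ≤ s → ∀ m, m₁ ≤ m → ∀ n, ¬ Bad S k HH s m n H₀ → Uncr S H₀ := by
  obtain ⟨y₀, hy₀, -⟩ := hc₀.deep ∅ Set.finite_empty
  obtain ⟨z₀, hz₀, -⟩ := hc₀.deep' ∅ Set.finite_empty
  have hz₀' : z₀ ∉ H₀ := hz₀
  refine ⟨wdist S y₀ z₀, wdist S y₀ (c₀ * y₀), fun s hs m hm n hb κ Dd M' => ?_⟩
  obtain ⟨n₆, hn₆, h6'⟩ := h6 (n₀ + wdist S y₀ z₀) n₀
  obtain ⟨N₅, hN₅, h5'⟩ := h5 m
  -- the common scale
  obtain ⟨N, hN⟩ : ∃ N : ℕ, N = n + N₅ + n₆ + n₀ + wdist S y₀ (c₀ * y₀) + wdist S z₀ (c₀ * z₀) +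
    wdist S y₀ z₀ := ⟨_, rfl⟩
  obtain ⟨R, hR⟩ : ∃ R : ℕ, R = pu_R κ Dd N := ⟨_, rfl⟩
  obtain ⟨M₃, hM₃⟩ := pu_types_cof hS hSg k κ Dd M' N (s + R) P hP.inv (hcof (s + R))
  refine ⟨s + R + M₃ + n₀ + wdist S y₀ z₀, fun w hw => ?_⟩
  obtain ⟨M, hM⟩ : ∃ M : ℕ, M = s + R + M₃ + n₀ + wdist S y₀ z₀ := ⟨_, rfl⟩
  rw [← hM]
  by_contra hcon
  rw [not_or] at hcon
  push Not at hcon
  obtain ⟨⟨a, ha⟩, b, hb'⟩ := hcon
  have hdd : ∀ t x y z, wdist S x y ≤ N → wdist S y z ≤ N → dd k w t x y z ≠ 0 →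
      wdist S (w.L t) x ≤ R ∧ wdist S (w.L t) y ≤ R ∧ wdist S (w.L t) z ≤ R := by
    intro t x y z hxy hyz h
    rw [hR]
    exact pu_dd_ball hSg hw hxy hyz h
  have hψ := pu_arc_fin (k := k) hS hSg hw a b N
  -- the jump of the arc at `H₀` is zero
  have hy₀s : y₀ ∈ Strip S s H₀ := ⟨hy₀, z₀, hz₀', hs⟩
  have ha1 : w.L a ∈ Dp S (s + R) H₀ := pu_dp_mono (by omega) ha
  have hb1 : w.L b ∉ H₀ := pu_dp_sub hb'
  have hJ : Jp c₀ y₀ (arc k w a b) = 0 := by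
    by_cases hcase : w.L b ∈ Yr S (s + R) HH
    · obtain ⟨w', a', b', hw', ⟨H₁, hH₁, ha'⟩, hdd', hbd⟩ := hM₃ w a b hw ⟨H₀, hH₀, ha1⟩ hcase
      have hψ' := pu_arc_fin (k := k) hS hSg hw' a' b' N
      have hy₀N : wdist S y₀ (c₀ * y₀) ≤ N := by omega
      have e1 := pu_Jp_sub hc₀.ord hy₀N hψ hψ'
      have e2 : Jp c₀ y₀ (fun u v => arc k w a b u v - arc k w' a' b' u v) = 0 := by
        refine pu_jump0 P hP (N₅ := N₅) (N := N) (by omega) (by omega) hb h5' hH₀ ?_ hH₁ ?_ hc₀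
          hy₀s hm
        · refine (hψ.union hψ').subset ?_
          rintro ⟨x, y⟩ ⟨h1, h2⟩
          by_cases h3 : arc k w a b x y = 0
          · refine Or.inr ⟨h1, fun h4 => h2 ?_⟩
            show arc k w a b x y - arc k w' a' b' x y = 0
            have h5 : arc k w' a' b' x y = 0 := h4
            rw [h3, h5, sub_zero]
          · exact Or.inl ⟨h1, h3⟩
        · intro x y z hxy hyz hxz hne
          have h1 := pu_defect (k := k) w a b x y z
          have h2 := pu_defect (k := k) w' a' b' x y z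
          have h3 := hdd' x y z hxy hyz
          have h4 : dd k w a x y z ≠ 0 ∨ dd k w' a' x y z ≠ 0 := by
            by_contra h5
            rw [not_or, not_not, not_not] at h5
            apply hne
            rw [h5.1] at h1
            rw [h5.2] at h2
            linear_combination h1 - h2 + h3
          rcases h4 with h4 | h4
          · exact Or.inl (pu_dp_near hSg ha1 (hdd a x y z hxy hyz h4).1)
          · refine Or.inr (pu_dp_near hSg ha' ?_)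
            rw [hR]
            exact (pu_dd_ball hSg hw' hxy hyz h4).1
      have e3 : Jp c₀ y₀ (arc k w' a' b') = 0 := by
        unfold Jp
        rw [← finsum_zero (α := ℤ) (M := k)]
        refine finsum_congr fun i => ?_
        by_contra h1
        have h2 := hbd _ _ (by rw [pu_wdist_line]; exact hy₀N) h1
        have h3 : c₀ ^ i * y₀ ∈ H₀ := (pu_strip_line hc₀ hy₀s i).1
        have h4 := hb' (c₀ ^ i * y₀) (fun h => h h3)
        omega
      rw [e2, e3, sub_zero] at e1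
      exact e1.symm
    · have h1 : ∃ H ∈ HH, w.L b ∈ Dp S (s + R) H := by
        by_contra h
        push Not at h
        exact hcase h
      obtain ⟨H₁, hH₁, hb2⟩ := h1
      refine pu_jump0 P hP (N₅ := N₅) (N := N) (by omega) (by omega) hb h5' hH₀ hψ hH₁ ?_ hc₀
          hy₀s hm
      intro x y z hxy hyz hxz hne
      have h1 := pu_defect (k := k) w a b x y z
      have h4 : dd k w a x y z ≠ 0 ∨ dd k w b x y z ≠ 0 := by
        by_contra h5
        rw [not_or, not_not, not_not] at h5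
        apply hne
        rw [h5.1, h5.2] at h1
        linear_combination h1
      rcases h4 with h4 | h4
      · exact Or.inl (pu_dp_near hSg ha1 (hdd a x y z hxy hyz h4).1)
      · exact Or.inr (pu_dp_near hSg hb2 (hdd b x y z hxy hyz h4).1)
  -- points near the boundary are far from both ends
  have hfar : ∀ x y z, wdist S x y ≤ N → wdist S y z ≤ N → (x ∉ H₀ ∨ y ∉ H₀ ∨ z ∉ H₀) →
      dd k w a x y z = 0 := by
    intro x y z hxy hyz h
    by_contra hne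
    obtain ⟨h1, h2, h3⟩ := hdd a x y z hxy hyz hne
    rcases h with h | h | h
    · have := ha x h
      omega
    · have := ha y h
      omega
    · have := ha z h
      omega
  have hfar' : ∀ x y z, wdist S x y ≤ N → wdist S y z ≤ N → (x ∈ H₀ ∨ y ∈ H₀ ∨ z ∈ H₀) →
      dd k w b x y z = 0 := by
    intro x y z hxy hyz h
    by_contra hne
    obtain ⟨h1, h2, h3⟩ := hdd b x y z hxy hyz hne
    rcases h with h | h | h
    · have := hb' x (fun h' => h' h)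
      omega
    · have := hb' y (fun h' => h' h)
      omega
    · have := hb' z (fun h' => h' h)
      omega
  have hcoc : ∀ x y z, wdist S x y ≤ N → wdist S y z ≤ N → (x ∉ H₀ ∨ y ∉ H₀ ∨ z ∉ H₀) →
      (x ∈ H₀ ∨ y ∈ H₀ ∨ z ∈ H₀) → arc k w a b x y + arc k w a b y z = arc k w a b x z := by
    intro x y z hxy hyz h1 h2
    have h3 := pu_defect (k := k) w a b x y z
    rw [hfar x y z hxy hyz h1, hfar' x y z hxy hyz h2] at h3
    linear_combination h3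
  have hline : ∀ (i : ℤ), c₀ ^ i * y₀ ∈ H₀ := fun i => (pu_strip_line hc₀ hy₀s i).1
  have hz₀s : z₀ ∈ Strip S (n₀ + wdist S y₀ z₀) H₀ᶜ := by
    refine ⟨hz₀', y₀, fun h => h hy₀, ?_⟩
    rw [wdist_comm hSg]
    omega
  have hline' : ∀ (i : ℤ), c₀ ^ i * z₀ ∉ H₀ := by
    intro i h
    have h1 : ∀ (i : ℤ) (x : G), c₀ ^ i * x ∈ H₀ ↔ x ∈ H₀ := by
      intro i
      induction i with
      | zero => intro x; simp
      | succ n ih =>
        intro x
        rw [zpow_add_one, mul_assoc, ih, hc₀.inv]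
      | pred n ih =>
        intro x
        rw [zpow_sub_one, mul_assoc, ih, ← hc₀.inv (c₀⁻¹ * x), mul_inv_cancel_left]
    exact hz₀' ((h1 i z₀).1 h)
  have hJ' : Jp c₀ z₀ (arc k w a b) = 0 := by
    rw [← hJ]
    symm
    have e1 : ∀ i : ℤ, wdist S (c₀ ^ i * y₀) (c₀ ^ i * z₀) ≤ N := by
      intro i
      rw [wdist_mul_left]
      omega
    have e2 : ∀ i : ℤ, wdist S (c₀ ^ i * y₀) (c₀ ^ (i + 1) * y₀) ≤ N := by
      intro i
      rw [pu_wdist_line]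
      omega
    have e3 : ∀ i : ℤ, wdist S (c₀ ^ i * z₀) (c₀ ^ (i + 1) * z₀) ≤ N := by
      intro i
      rw [pu_wdist_line]
      omega
    refine pu_Jp_par hSg hc₀.ord (N := N) (by omega) hψ ?_ ?_
    · intro i
      exact hcoc _ _ _ (e2 i) (e1 (i + 1)) (Or.inr (Or.inr (hline' _))) (Or.inl (hline _))
    · intro i
      exact hcoc _ _ _ (e1 i) (e3 i) (Or.inr (Or.inr (hline' _))) (Or.inl (hline _))
  -- the primitive on the outer strip
  obtain ⟨g, hg, hprim, -⟩ := h6' N (by omega) (arc k w a b) (by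
      rintro x ⟨hx, v, hv, hxv⟩ y ⟨hy, -⟩ z ⟨hz, -⟩ hxy hyz hxz
      have h1 := pu_defect (k := k) w a b x y z
      have h2 : dd k w b x y z = 0 := by
        by_contra hne
        have h3 := (hdd b x y z hxy hyz hne).1
        have h4 := hb' v hv
        have h5 := wdist_triangle hSg (w.L b) x v
        omega
      rw [hfar x y z hxy hyz (Or.inl hx), h2] at h1
      linear_combination h1) (by
      refine hψ.subset ?_
      rintro p ⟨-, -, h1, h2⟩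
      exact ⟨h1, h2⟩) z₀ hz₀s (by omega) hJ'
  refine h7 κ Dd M' w hw b ⟨pu_ext H₀ (arc k w a b) g, ?_, ?_⟩
  · refine pu_ext_fin hS hSg ?_ hg
    refine hψ.subset ?_
    rintro p ⟨h1, h2⟩
    exact ⟨h1.trans (by omega), h2⟩
  · intro x y z hxy hyz hxz
    by_cases hin : x ∈ H₀ ∨ y ∈ H₀ ∨ z ∈ H₀
    · rw [pu_ext_defect hSg (by omega) hprim hxy hyz hxz hin,
        hfar' x y z (by omega) (by omega) hin]
    · rw [not_or, not_or] at hin
      obtain ⟨hx, hy, hz⟩ := hin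
      have h1 := pu_defect (k := k) w a b x y z
      rw [hfar x y z (by omega) (by omega) (Or.inl hx), sub_zero] at h1
      unfold pu_ext
      simp only [hx, hy, hz, if_false]
      exact h1

end PropU

/-- row B3: crossing gives a bad cocycle -/
theorem sb3 (a2 : SA2) (a4 : SA4) (a5 : SA5) (a6 : SA6) (a7 : SA7) (a9 : SA9) (b1 : SB1) :
    SB3 := by
  intro G _ S hS hSg hone k _ hst P HH hP H₀ hH₀
  have hpfs := a2 G S hS hSg hone k hst
  obtain ⟨c₀, -, hc₀⟩ := hP.hs H₀ hH₀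
  obtain ⟨n₀, h7⟩ := a7 G S hS hSg hone k hpfs
  have hc₀' := (a9 G S hS hSg H₀ c₀ hc₀).1
  have hH : ∀ H ∈ HH, PFS S k H := by
    intro H hH
    obtain ⟨c, -, hc⟩ := hP.hs H hH
    exact a4 G S hS hSg k hpfs H c hc
  obtain ⟨s₁, m₁, h⟩ := pu_core (k := k) hS hSg P hP hH₀ hc₀ n₀ h7
    (a6 G S hS hSg k H₀ᶜ c₀ hc₀') (a5 G S hS hSg k P HH hP hH)
    (fun s => (b1 G S hS hSg P HH hP s).2.1)
  exact ⟨s₁, fun s hs => ⟨m₁, fun m hm => ⟨0, fun n _ hb => h s hs m hm n hb⟩⟩⟩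

end Pool.Agent.QD
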