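import Pool.Agent.QD.Asm
import Pool.Agent.QD.A1
import Pool.Agent.QD.A2
import Pool.Agent.QD.A3
import Pool.Agent.QD.A4
import Pool.Agent.QD.A5
import Pool.Agent.QD.A6
import Pool.Agent.QD.A7
import Pool.Agent.QD.A8
import Pool.Agent.QD.A9
import Pool.Agent.QD.B0a
import Pool.Agent.QD.B0b
import Pool.Agent.QD.B0c
import Pool.Agent.QD.B1
import Pool.Agent.QD.B4
import Pool.Agent.QD.B5
import Pool.Agent.QD.B6
import Pool.Agent.QD.B8
import Pool.Agent.QD.B9
import Pool.Agent.QD.B10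
import Pool.Agent.QD.B11
import Pool.Agent.QD.B12
import Pool.Agent.QD.PropU
import Pool.Agent.QD.C1
import Pool.Agent.QD.C2
import Pool.Agent.QD.C3
import Pool.Agent.QD.C4
import Pool.Agent.QD.C5
import Pool.Agent.QD.C6
import Pool.Agent.QD.C7
import Pool.Agent.QD.C8
import Pool.Agent.QD.C9
import Pool.Agent.QD.C10
import Pool.Agent.QD.C11
import Pool.Agent.QD.C12
import Pool.Agent.QD.C13
import Pool.Agent.QD.C14
import Pool.Agent.QD.C15
import Pool.Agent.QD.C16
import Pool.Agent.QD.C17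

/-!
# The main theorem of the project QD (MP_bbdce3_al)
-/

set_option autoImplicit false

namespace Pool.Agent.QD

open Pool.Agent.QIS MulAction

/-- the main step, without hypotheses -/
theorem sm1_all : SM1 :=
  have b0c : SB0c := sb0c sa9
  have b1 : SB1 := sb1 sa9
  have b0b : SB0b := sb0b b1
  have a4 : SA4 := sa4 sa3 sa6
  have b8 : SB8 := sb8 sa2 a4 sa9 sb0a b0b b0c b1
  have b6 : SB6 := sb6 sa9 sb5
  have c5 : SC5 := sc5 sc1 b1
  have c2 : SC2 := sc2 sc1
  have c6 : SC6 := sc6 sc1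
  have c10 : SC10 := sc10 sc9
  sm1 sa1 sa8 (sb3 sa2 a4 sa5 sa6 sa7 sa9 b1) (sb4 sa9 sb0a b0b b1 b8) (sb9 sb0a b0b b1 b6 b8)
    (sb11 sb0a b0b b1 b6) (sb12 b1) sc3 (sc4 sc1) sc7 sc8 (sc17 sc1 c2 c5 c6 c10 sa9)

/-- splittings over two-ended subgroups and quasi-isometries, for groups that are virtually groups
whose group algebra embeds in a division ring -/
theorem main_all (G H : Type) [Group G] [Group H] (S : Set G) (S' : Set H)
    (hS : S.Finite) (hS' : S'.Finite)
    (hSg : Subgroup.closure S = ⊤) (hS'g : Subgroup.closure S' = ⊤)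
    (hone : OneEnded S) (hnfp : ¬ Group.IsFinitelyPresented G)
    (hspl : SplitsOverTwoEnded G)
    (G₀ : Subgroup G) (hG₀ : G₀.FiniteIndex)
    (k D : Type) [Field k] [DivisionRing D] (ι : MonoidAlgebra k G₀ →+* D)
    (hι : Function.Injective ι)
    (hqi : ∃ (K : ℕ) (φ : G → H), IsQI S S' K φ) : SplitsOverTwoEnded H := by
  obtain ⟨E, hC⟩ := hspl
  exact final sm1_all sc8 sc9 (sc10 sc9) sc11 (sc13 sb10) (sc14 sa9 sc12) sc15 sc16 G H S S' hS hS'
    hSg hS'g hone hnfp E hC G₀ hG₀ k D ι hι hqi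

end Pool.Agent.QD
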