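import Pool.Agent.QD.NLine

/-!
# Nested cuts that separate the ends of exactly two lines
-/

set_option autoImplicit false

namespace Pool.Agent.QD

open Pool.Agent.QIS

section

variable {P V ι : Type} [Group P] [MulAction P V] [MulAction P ι]

/-- the action on the augmented graph -/
def LineSys.augAct (L : LineSys P V ι) (N : ℕ) : MulAction P (VP V ι N) where
  smul g x := match x with
    | .inl v => .inl (g • v)
    | .inr p => .inr (g • p.1, p.2.1 + L.sh g p.1, p.2.2)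
  one_smul := by
    rintro (v | ⟨i, n, j⟩)
    · exact congrArg Sum.inl (one_smul P v)
    · have h1 : L.l ((1 : P) • i) (n + L.sh 1 i) = L.l ((1 : P) • i) n := by
        rw [← L.eqv, one_smul, one_smul]
      have h2 := L.inj _ h1
      show (Sum.inr ((1 : P) • i, n + L.sh 1 i, j) : VP V ι N) = Sum.inr (i, n, j)
      rw [h2, one_smul]
  mul_smul := by
    rintro g h (v | ⟨i, n, j⟩)
    · exact congrArg Sum.inl (mul_smul g h v)
    · have h1 : L.l ((g * h) • i) (n + L.sh (g * h) i) =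
          L.l ((g * h) • i) (n + L.sh h i + L.sh g (h • i)) := by
        rw [← L.eqv, mul_smul, L.eqv h, L.eqv g, mul_smul]
      have h2 := L.inj _ h1
      show (Sum.inr ((g * h) • i, n + L.sh (g * h) i, j) : VP V ι N) =
        Sum.inr (g • h • i, n + L.sh h i + L.sh g (h • i), j)
      rw [h2, mul_smul]

namespace LineSys

variable {L : LineSys P V ι} {Γ : SimpleGraph V} {N : ℕ}

/-- the part of `B` in the original graph -/
def res {N : ℕ} (B : Set (VP V ι N)) : Set V := {v | Sum.inl v ∈ B}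

lemma aug_act (hG : L.Good Γ) (N : ℕ) (g : P) (x y : VP V ι N)
    (h : (aug Γ L.l N).Adj x y) :
    (aug Γ L.l N).Adj ((L.augAct N).smul g x) ((L.augAct N).smul g y) := by
  rcases x with v | p <;> rcases y with w | r
  · exact hG.act g h
  · obtain ⟨h1, h2⟩ := h
    refine ⟨h1, ?_⟩
    show L.l (g • r.1) (r.2.1 + L.sh g r.1) = g • v
    rw [← L.eqv, h2]
  · obtain ⟨h1, h2⟩ := h
    refine ⟨h1, ?_⟩
    show L.l (g • p.1) (p.2.1 + L.sh g p.1) = g • w
    rw [← L.eqv, h2]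
  · obtain ⟨h1, h2⟩ := h
    refine ⟨congrArg (g • ·) h1, ?_⟩
    rcases h2 with ⟨h3, h4⟩ | ⟨h3, h4⟩
    · refine Or.inl ⟨?_, h4⟩
      show p.2.1 + L.sh g p.1 = r.2.1 + L.sh g r.1
      rw [h1, h3]
    · refine Or.inr ⟨h3, ?_⟩
      show r.2.1 + L.sh g r.1 = p.2.1 + L.sh g p.1 + 1 ∨ p.2.1 + L.sh g p.1 = r.2.1 + L.sh g r.1 + 1
      rw [h1]
      rcases h4 with h4 | h4
      · left; omega
      · right; omega

lemma res_bdry {B : Set (VP V ι N)} (hB : (bdry (aug Γ L.l N) B).Finite) :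
    (bdry Γ (res B)).Finite := by
  refine (hB.preimage (f := fun p : V × V => ((Sum.inl p.1 : VP V ι N), (Sum.inl p.2 : VP V ι N)))
    ?_).subset ?_
  · rintro ⟨a, b⟩ _ ⟨c, d⟩ _ h
    obtain ⟨h1, h2⟩ := Prod.mk.inj h
    exact Prod.ext (Sum.inl.inj h1) (Sum.inl.inj h2)
  · rintro ⟨a, b⟩ ⟨h1, h2, h3⟩
    exact ⟨h1, h2, h3⟩

/-- places where the ladder and the line are on different sides -/
lemma dis_fin {B : Set (VP V ι N)} (hB : (bdry (aug Γ L.l N) B).Finite) :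
    {p : ι × ℤ × Fin (N + 1) | ¬ (Sum.inr p ∈ B ↔ L.l p.1 p.2.1 ∈ res B)}.Finite := by
  -- the first coordinates of the boundary pairs
  set F : Set (VP V ι N) := Prod.fst '' bdry (aug Γ L.l N) B ∪ Prod.snd '' bdry (aug Γ L.l N) B
    with hF
  have hFf : F.Finite := (hB.image _).union (hB.image _)
  have hF' : {p : ι × ℤ × Fin (N + 1) | Sum.inr p ∈ F}.Finite :=
    hFf.preimage (fun a _ b _ hab => Sum.inr.inj hab)
  have hF2 : ((fun p : ι × ℤ × Fin (N + 1) => (p.1, p.2.1)) ''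
      {p : ι × ℤ × Fin (N + 1) | Sum.inr p ∈ F}).Finite := hF'.image _
  have hF3 : {p : ι × ℤ × Fin (N + 1) | (p.1, p.2.1) ∈
      ((fun p : ι × ℤ × Fin (N + 1) => (p.1, p.2.1)) ''
      {p : ι × ℤ × Fin (N + 1) | Sum.inr p ∈ F})}.Finite := by
    refine (hF2.prod (Set.finite_univ (α := Fin (N + 1)))).preimage
      (f := fun p : ι × ℤ × Fin (N + 1) => ((p.1, p.2.1), p.2.2)) ?_ |>.subset ?_
    · rintro ⟨a, b, c⟩ _ ⟨a', b', c'⟩ _ h
      simp only [Prod.mk.injEq] at h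
      obtain ⟨⟨rfl, rfl⟩, rfl⟩ := h
      rfl
    · intro p hp
      exact ⟨hp, Set.mem_univ _⟩
  -- a boundary pair has its ends in `F`
  have hend : ∀ x y, (aug Γ L.l N).Adj x y → ¬ (x ∈ B ↔ y ∈ B) → x ∈ F ∧ y ∈ F := by
    intro x y hxy hne
    by_cases hx : x ∈ B
    · have hy : y ∉ B := fun h => hne ⟨fun _ => h, fun _ => hx⟩
      exact ⟨Or.inl ⟨(x, y), ⟨hxy, hx, hy⟩, rfl⟩, Or.inr ⟨(x, y), ⟨hxy, hx, hy⟩, rfl⟩⟩
    · have hy : y ∈ B := by
        by_contra h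
        exact hne ⟨fun hh => absurd hh hx, fun hh => absurd hh h⟩
      exact ⟨Or.inr ⟨(y, x), ⟨hxy.symm, hy, hx⟩, rfl⟩, Or.inl ⟨(y, x), ⟨hxy.symm, hy, hx⟩, rfl⟩⟩
  refine hF3.subset ?_
  rintro ⟨i, n, j⟩ hp
  have hp' : ¬ ((Sum.inr (i, n, j) : VP V ι N) ∈ B ↔ (Sum.inl (L.l i n) : VP V ι N) ∈ B) := hp
  have h0 : (aug Γ L.l N).Adj (Sum.inr (i, n, 0)) (Sum.inl (L.l i n)) := ⟨rfl, rfl⟩
  by_cases h1 : ((Sum.inr (i, n, 0) : VP V ι N) ∈ B ↔ (Sum.inl (L.l i n) : VP V ι N) ∈ B)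
  · have h2 : ¬ ((Sum.inr (i, n, j) : VP V ι N) ∈ B ↔ (Sum.inr (i, n, 0) : VP V ι N) ∈ B) :=
      fun h => hp' (h.trans h1)
    have hj : j ≠ 0 := by
      rintro rfl
      exact h2 Iff.rfl
    have h3 : (aug Γ L.l N).Adj (Sum.inr (i, n, j)) (Sum.inr (i, n, 0)) :=
      ⟨rfl, Or.inl ⟨rfl, hj⟩⟩
    exact ⟨(i, n, j), (hend _ _ h3 h2).1, rfl⟩
  · exact ⟨(i, n, 0), (hend _ _ h0 h1).1, rfl⟩

/-- a cut with the ends of `I` separated has at least `(N + 1) |I|` boundary edges -/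
lemma lower {B : Set (VP V ι N)} (hB : (bdry (aug Γ L.l N) B).Finite) (I : Finset ι)
    (hI : ∀ i ∈ I, L.Sep (res B) i) : I.card * (N + 1) ≤ (bdry (aug Γ L.l N) B).ncard := by
  classical
  have hd := dis_fin hB
  have key : ∀ i ∈ I, ∀ j : Fin (N + 1), ∃ n : ℤ,
      ¬ ((Sum.inr (i, n, j) : VP V ι N) ∈ B ↔ (Sum.inr (i, n + 1, j) : VP V ι N) ∈ B) := by
    intro i hi j
    by_contra hcon
    push Not at hcon
    have hc := pz_const (q := fun n => (Sum.inr (i, n, j) : VP V ι N) ∈ B) hcon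
    have hfi : {n : ℤ | ¬ ((Sum.inr (i, n, j) : VP V ι N) ∈ B ↔ L.l i n ∈ res B)}.Finite :=
      hd.preimage (f := fun n : ℤ => (i, n, j)) (fun a _ b _ hab => by
        simp only [Prod.mk.injEq] at hab
        exact hab.2.1)
    obtain ⟨M1, hM1⟩ := hfi.bddAbove
    obtain ⟨M2, hM2⟩ := hfi.bddBelow
    have hup : ∀ n, M1 < n → ((Sum.inr (i, n, j) : VP V ι N) ∈ B ↔ L.l i n ∈ res B) := by
      intro n hn
      by_contra h
      have := hM1 h
      omega
    have hdn : ∀ n, n < M2 → ((Sum.inr (i, n, j) : VP V ι N) ∈ B ↔ L.l i n ∈ res B) := by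
      intro n hn
      by_contra h
      have := hM2 h
      omega
    rcases hI i hi with ⟨⟨M, hM⟩, ⟨M', hM'⟩⟩ | ⟨⟨M, hM⟩, ⟨M', hM'⟩⟩
    · have h1 := (hup (max M (M1 + 1)) (by omega)).2 (hM _ (le_max_left _ _))
      have h2 := fun h => hM' _ (min_le_left M' (M2 - 1)) ((hdn (min M' (M2 - 1)) (by omega)).1 h)
      exact h2 ((hc _ _).1 h1)
    · have h1 := (hdn (min M' (M2 - 1)) (by omega)).2 (hM' _ (min_le_left _ _))
      have h2 := fun h => hM _ (le_max_left M (M1 + 1)) ((hup (max M (M1 + 1)) (by omega)).1 h)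
      exact h2 ((hc _ _).1 h1)
  choose! nn hnn using key
  -- the boundary pair of `(i, j)`
  let f : ι × Fin (N + 1) → VP V ι N × VP V ι N := fun q =>
    if (Sum.inr (q.1, nn q.1 q.2, q.2) : VP V ι N) ∈ B then
      (Sum.inr (q.1, nn q.1 q.2, q.2), Sum.inr (q.1, nn q.1 q.2 + 1, q.2))
    else (Sum.inr (q.1, nn q.1 q.2 + 1, q.2), Sum.inr (q.1, nn q.1 q.2, q.2))
  have hf1 : ∀ q, ∃ a, (f q).1 = Sum.inr (q.1, a, q.2) := by
    intro q
    simp only [f]
    split_ifs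
    · exact ⟨_, rfl⟩
    · exact ⟨_, rfl⟩
  have hcard : (I ×ˢ (Finset.univ : Finset (Fin (N + 1)))).card = I.card * (N + 1) := by
    rw [Finset.card_product, Finset.card_univ, Fintype.card_fin]
  rw [← hcard, ← Set.ncard_coe_finset]
  refine Set.ncard_le_ncard_of_injOn f ?_ ?_ hB
  · rintro ⟨i, j⟩ hq
    have hi : i ∈ I := (Finset.mem_product.1 (Finset.mem_coe.1 hq)).1
    have h1 := hnn i hi j
    have h2 : (aug Γ L.l N).Adj (Sum.inr (i, nn i j, j)) (Sum.inr (i, nn i j + 1, j)) :=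
      ⟨rfl, Or.inr ⟨rfl, Or.inl rfl⟩⟩
    simp only [f]
    split_ifs with h3
    · exact ⟨h2, h3, fun h => h1 ⟨fun _ => h, fun _ => h3⟩⟩
    · refine ⟨h2.symm, ?_, h3⟩
      by_contra h
      exact h1 ⟨fun hh => absurd hh h3, fun hh => absurd hh h⟩
  · rintro ⟨i, j⟩ _ ⟨i', j'⟩ _ h
    obtain ⟨a, ha⟩ := hf1 (i, j)
    obtain ⟨b, hb⟩ := hf1 (i', j')
    have h1 : (f (i, j)).1 = (f (i', j')).1 := congrArg Prod.fst h
    rw [ha, hb] at h1
    have h2 := Sum.inr.inj h1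
    simp only [Prod.mk.injEq] at h2
    rw [h2.1, h2.2.2]

/-- a set with finite part in the original graph and finite boundary is finite -/
lemma fin_of_res (hG : L.Good Γ) {B : Set (VP V ι N)} (hB : (bdry (aug Γ L.l N) B).Finite)
    (hr : (res B).Finite) : B.Finite := by
  have h1 : {p : ι × ℤ × Fin (N + 1) | L.l p.1 p.2.1 ∈ res B}.Finite := by
    have h2 : {q : ι × ℤ | L.l q.1 q.2 ∈ res B}.Finite :=
      (hr.biUnion fun v _ => hG.thru v).subset fun q hq => Set.mem_biUnion hq rfl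
    refine ((h2.prod (Set.finite_univ (α := Fin (N + 1)))).preimage
      (f := fun p : ι × ℤ × Fin (N + 1) => ((p.1, p.2.1), p.2.2)) ?_).subset ?_
    · rintro ⟨a, b, c⟩ _ ⟨a', b', c'⟩ _ h
      simp only [Prod.mk.injEq] at h
      obtain ⟨⟨rfl, rfl⟩, rfl⟩ := h
      rfl
    · intro p hp
      exact ⟨hp, Set.mem_univ _⟩
  refine ((hr.image Sum.inl).union ((h1.union (dis_fin hB)).image Sum.inr)).subset ?_
  rintro (v | p) hx
  · exact Or.inl ⟨v, hx, rfl⟩
  · refine Or.inr ⟨p, ?_, rfl⟩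
    by_cases h : L.l p.1 p.2.1 ∈ res B
    · exact Or.inl h
    · exact Or.inr fun hh => h (hh.1 hx)

open Classical in
/-- the side of the ladder -/
noncomputable def sg (L : LineSys P V ι) (E : Set V) (i : ι) (n : ℤ) : Prop :=
  if L.Sep E i then ((∃ M : ℤ, ∀ n, M ≤ n → L.l i n ∈ E) ∧ 0 ≤ n) ∨
    ((¬ ∃ M : ℤ, ∀ n, M ≤ n → L.l i n ∈ E) ∧ n < 0)
  else ∃ M : ℤ, ∀ n, M ≤ n → L.l i n ∈ E

lemma sg_sw {E : Set V} {i : ι} {n : ℤ} (h : ¬ (L.sg E i n ↔ L.sg E i (n + 1))) :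
    L.Sep E i ∧ n = -1 := by
  unfold sg at h
  by_cases h1 : L.Sep E i
  · refine ⟨h1, ?_⟩
    simp only [if_pos h1] at h
    by_contra h2
    apply h
    by_cases h3 : ∃ M : ℤ, ∀ n, M ≤ n → L.l i n ∈ E
    · simp only [h3, not_true_eq_false, true_and, false_and, or_false]
      omega
    · simp only [h3, not_false_eq_true, true_and, false_and, false_or]
      omega
  · simp only [if_neg h1] at h
    exact (h trivial).elim

lemma sg_fin_i {E : Set V} (hS : (L.Sw E).Finite) (i : ι) :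
    {n : ℤ | ¬ (L.sg E i n ↔ L.l i n ∈ E)}.Finite := by
  have key : ∃ M M' : ℤ, (∀ n, M ≤ n → (L.sg E i n ↔ L.l i n ∈ E)) ∧
      ∀ n, n ≤ M' → (L.sg E i n ↔ L.l i n ∈ E) := by
    rcases top_or hS i with ⟨M, hM⟩ | ⟨M, hM⟩ <;> rcases bot_or hS i with ⟨M', hM'⟩ | ⟨M', hM'⟩
    · have h1 : ¬ L.Sep E i := by
        rintro (⟨_, ⟨m, hm⟩⟩ | ⟨⟨m, hm⟩, _⟩)
        · exact hm _ (min_le_left m M') (hM' _ (min_le_right m M'))
        · exact hm _ (le_max_left m M) (hM _ (le_max_right m M))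
      have h2 : ∀ n, L.sg E i n := by
        intro n
        unfold sg
        rw [if_neg h1]
        exact ⟨M, hM⟩
      exact ⟨M, M', fun n hn => ⟨fun _ => hM n hn, fun _ => h2 n⟩,
        fun n hn => ⟨fun _ => hM' n hn, fun _ => h2 n⟩⟩
    · have h1 : L.Sep E i := Or.inl ⟨⟨M, hM⟩, ⟨M', hM'⟩⟩
      have h2 : ∀ n, L.sg E i n ↔ 0 ≤ n := by
        intro n
        have h3 : ∃ M : ℤ, ∀ n, M ≤ n → L.l i n ∈ E := ⟨M, hM⟩
        unfold sg
        rw [if_pos h1]
        simp only [h3, not_true_eq_false, true_and, false_and, or_false]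
      refine ⟨max M 0, min M' (-1), fun n hn => ⟨fun _ => hM n (by omega), fun _ => (h2 n).2
        (by omega)⟩, fun n hn => ⟨fun h => ?_, fun h => absurd h (hM' n (by omega))⟩⟩
      have := (h2 n).1 h
      omega
    · have h1 : L.Sep E i := Or.inr ⟨⟨M, hM⟩, ⟨M', hM'⟩⟩
      have h2 : ∀ n, L.sg E i n ↔ n < 0 := by
        intro n
        have h3 : ¬ ∃ M : ℤ, ∀ n, M ≤ n → L.l i n ∈ E := by
          rintro ⟨m, hm⟩
          exact hM _ (le_max_right m M) (hm _ (le_max_left m M))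
        unfold sg
        rw [if_pos h1]
        simp only [h3, not_false_eq_true, true_and, false_and, false_or]
      refine ⟨max M 0, min M' (-1), fun n hn => ⟨fun h => ?_, fun h => absurd h (hM n (by omega))⟩,
        fun n hn => ⟨fun _ => hM' n (by omega), fun _ => (h2 n).2 (by omega)⟩⟩
      have := (h2 n).1 h
      omega
    · have h1 : ¬ L.Sep E i := by
        rintro (⟨⟨m, hm⟩, _⟩ | ⟨_, ⟨m, hm⟩⟩)
        · exact hM _ (le_max_right m M) (hm _ (le_max_left m M))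
        · exact hM' _ (min_le_right m M') (hm _ (min_le_left m M'))
      have h2 : ∀ n, ¬ L.sg E i n := by
        intro n
        unfold sg
        rw [if_neg h1]
        rintro ⟨m, hm⟩
        exact hM _ (le_max_right m M) (hm _ (le_max_left m M))
      exact ⟨M, M', fun n hn => ⟨fun h => absurd h (h2 n), fun h => absurd h (hM n hn)⟩,
        fun n hn => ⟨fun h => absurd h (h2 n), fun h => absurd h (hM' n hn)⟩⟩
  obtain ⟨M, M', h1, h2⟩ := key
  refine (Set.finite_Ioo M' M).subset ?_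
  intro n hn
  refine ⟨?_, ?_⟩
  · by_contra h
    exact hn (h2 n (not_lt.1 h))
  · by_contra h
    exact hn (h1 n (not_lt.1 h))

lemma sg_fin {E : Set V} (hS : (L.Sw E).Finite) :
    {p : ι × ℤ | ¬ (L.sg E p.1 p.2 ↔ L.l p.1 p.2 ∈ E)}.Finite := by
  have h1 : (Prod.fst '' L.Sw E).Finite := hS.image _
  refine (h1.biUnion fun i _ => ((sg_fin_i hS i).image fun n => (i, n))).subset ?_
  rintro ⟨i, n⟩ hp
  have hp' : ¬ (L.sg E i n ↔ L.l i n ∈ E) := hp
  refine Set.mem_biUnion (x := i) ?_ ⟨n, hp', rfl⟩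
  by_contra hcon
  have h2 : ∀ n, L.l i n ∈ E ↔ L.l i (n + 1) ∈ E := by
    intro n
    by_contra h
    exact hcon ⟨(i, n), h, rfl⟩
  have h3 := pz_const (q := fun n => L.l i n ∈ E) h2
  have h4 : ¬ L.Sep E i := fun h => by
    obtain ⟨m, hm⟩ := sep_sw h
    exact hm (h2 m)
  apply hp'
  unfold sg
  rw [if_neg h4]
  constructor
  · rintro ⟨M, hM⟩
    exact (h3 M n).1 (hM M le_rfl)
  · intro h
    exact ⟨0, fun m _ => (h3 n m).1 h⟩

/-- the cut of the augmented graph given by a set of the original graph -/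
def ext (L : LineSys P V ι) (E : Set V) (N : ℕ) : Set (VP V ι N) :=
  {x | match x with
    | .inl v => v ∈ E
    | .inr p => L.sg E p.1 p.2.1}

lemma upper (hG : L.Good Γ) {E : Set V} (hE : (bdry Γ E).Finite) (I : Finset ι)
    (hI : ∀ i, L.Sep E i ↔ i ∈ I) (hne : I.Nonempty) :
    ∃ c : ℕ, ∀ N : ℕ, ∃ B : Set (VP V ι N), IsCut (aug Γ L.l N) B ∧
      (bdry (aug Γ L.l N) B).ncard ≤ I.card * (N + 1) + c := by
  classical
  have hS := sw_fin hG hE
  have hD := sg_fin hS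
  refine ⟨(bdry Γ E).ncard + {p : ι × ℤ | ¬ (L.sg E p.1 p.2 ↔ L.l p.1 p.2 ∈ E)}.ncard,
    fun N => ⟨L.ext E N, ?_⟩⟩
  have hlf := aug_lf (N := N) hG.lf hG.thru
  have hc := aug_conn hG.conn L.l N
  -- the three parts of the boundary
  let f1 : V × V → VP V ι N × VP V ι N := fun p => (Sum.inl p.1, Sum.inl p.2)
  let f2 : ι × ℤ → VP V ι N × VP V ι N := fun p =>
    if L.l p.1 p.2 ∈ E then (Sum.inl (L.l p.1 p.2), Sum.inr (p.1, p.2, 0))
    else (Sum.inr (p.1, p.2, 0), Sum.inl (L.l p.1 p.2))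
  let f3 : ι × Fin (N + 1) → VP V ι N × VP V ι N := fun p =>
    if L.sg E p.1 (-1) then (Sum.inr (p.1, -1, p.2), Sum.inr (p.1, 0, p.2))
    else (Sum.inr (p.1, 0, p.2), Sum.inr (p.1, -1, p.2))
  have hsub : bdry (aug Γ L.l N) (L.ext E N) ⊆ (f1 '' bdry Γ E ∪
      f2 '' {p : ι × ℤ | ¬ (L.sg E p.1 p.2 ↔ L.l p.1 p.2 ∈ E)}) ∪
      f3 '' (I ×ˢ (Finset.univ : Finset (Fin (N + 1))) : Finset _) := by
    rintro ⟨x, y⟩ ⟨h1, h2, h3⟩
    rcases x with v | ⟨i, n, j⟩ <;> rcases y with w | ⟨i', n', j'⟩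
    · exact Or.inl (Or.inl ⟨(v, w), ⟨h1, h2, h3⟩, rfl⟩)
    · obtain ⟨h4, h5⟩ := (show j' = 0 ∧ L.l i' n' = v from h1)
      subst h4 h5
      have h2' : L.l i' n' ∈ E := h2
      have h3' : ¬ L.sg E i' n' := h3
      refine Or.inl (Or.inr ⟨(i', n'), fun h => h3' (h.2 h2'), ?_⟩)
      simp only [f2, if_pos h2']
    · obtain ⟨h4, h5⟩ := (show j = 0 ∧ L.l i n = w from h1)
      subst h4 h5
      have h2' : L.sg E i n := h2
      have h3' : L.l i n ∉ E := h3
      refine Or.inl (Or.inr ⟨(i, n), fun h => h3' (h.1 h2'), ?_⟩)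
      simp only [f2, if_neg h3']
    · obtain ⟨h4, h5⟩ := (show i = i' ∧ ((n = n' ∧ j ≠ j') ∨
        (j = j' ∧ (n' = n + 1 ∨ n = n' + 1))) from h1)
      subst h4
      have h2' : L.sg E i n := h2
      have h3' : ¬ L.sg E i n' := h3
      rcases h5 with ⟨h6, _⟩ | ⟨h6, h7 | h7⟩
      · subst h6
        exact absurd h2' h3'
      · subst h6 h7
        obtain ⟨h8, h9⟩ := sg_sw (fun h => h3' (h.1 h2'))
        subst h9
        refine Or.inr ⟨(i, j), Finset.mem_coe.2 (Finset.mem_product.2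
          ⟨(hI i).1 h8, Finset.mem_univ _⟩), ?_⟩
        simp only [f3, if_pos h2']
        rfl
      · subst h6 h7
        obtain ⟨h8, h9⟩ := sg_sw (fun h => h3' (h.2 h2'))
        subst h9
        refine Or.inr ⟨(i, j), Finset.mem_coe.2 (Finset.mem_product.2
          ⟨(hI i).1 h8, Finset.mem_univ _⟩), ?_⟩
        simp only [f3, if_neg h3']
        rfl
  have hfin : ((f1 '' bdry Γ E ∪
      f2 '' {p : ι × ℤ | ¬ (L.sg E p.1 p.2 ↔ L.l p.1 p.2 ∈ E)}) ∪
      f3 '' (I ×ˢ (Finset.univ : Finset (Fin (N + 1))) : Finset _)).Finite :=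
    ((hE.image _).union (hD.image _)).union ((Finset.finite_toSet _).image _)
  obtain ⟨i, hi⟩ := hne
  have hsep := (hI i).2 hi
  have hin : (L.ext E N).Infinite ∧ (L.ext E N)ᶜ.Infinite := by
    have hinf : ∀ A : Set V, ((∃ M : ℤ, ∀ n, M ≤ n → L.l i n ∈ A) ∨
        ∃ M : ℤ, ∀ n, n ≤ M → L.l i n ∈ A) → A.Infinite := by
      rintro A (⟨M, hM⟩ | ⟨M, hM⟩) hA
      · exact Set.infinite_of_injective_forall_mem (f := fun n : ℕ => L.l i (M + n))
          (fun a b hab => by have := L.inj i hab; omega) (fun n => hM _ (by omega)) hA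
      · exact Set.infinite_of_injective_forall_mem (f := fun n : ℕ => L.l i (M - n))
          (fun a b hab => by have := L.inj i hab; omega) (fun n => hM _ (by omega)) hA
    have h1 : E.Infinite ∧ Eᶜ.Infinite := by
      rcases hsep with ⟨h2, h3⟩ | ⟨h2, h3⟩
      · exact ⟨hinf E (Or.inl h2), hinf Eᶜ (Or.inr h3)⟩
      · exact ⟨hinf E (Or.inr h3), hinf Eᶜ (Or.inl h2)⟩
    refine ⟨?_, ?_⟩
    · refine (h1.1.image (f := (Sum.inl : V → VP V ι N))
        (fun a _ b _ h => Sum.inl.inj h)).mono ?_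
      rintro _ ⟨v, hv, rfl⟩
      exact hv
    · refine (h1.2.image (f := (Sum.inl : V → VP V ι N))
        (fun a _ b _ h => Sum.inl.inj h)).mono ?_
      rintro _ ⟨v, hv, rfl⟩
      exact hv
  refine ⟨⟨hfin.subset hsub, unbdd_of_inf hc hlf hin.1, unbdd_of_inf hc hlf hin.2⟩, ?_⟩
  refine (Set.ncard_le_ncard hsub hfin).trans ?_
  refine (Set.ncard_union_le _ _).trans ?_
  have h1 := Set.ncard_union_le (f1 '' bdry Γ E)
    (f2 '' {p : ι × ℤ | ¬ (L.sg E p.1 p.2 ↔ L.l p.1 p.2 ∈ E)})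
  have h2 := Set.ncard_image_le (f := f1) hE
  have h3 := Set.ncard_image_le (f := f2) hD
  have h4 := Set.ncard_image_le (f := f3)
    (Finset.finite_toSet (I ×ˢ (Finset.univ : Finset (Fin (N + 1)))))
  rw [Set.ncard_coe_finset, Finset.card_product, Finset.card_univ, Fintype.card_fin] at h4
  omega

end LineSys

open LineSys in
/-- a nested set with finite boundary that separates the ends of exactly two lines -/
theorem exists_two (L : LineSys P V ι) {Γ : SimpleGraph V} (hG : L.Good Γ)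
    (h1 : ∀ A : Set V, (bdry Γ A).Finite → {i | L.Sep A i}.ncard ≤ 1 → A.Finite ∨ Aᶜ.Finite)
    (E : Set V) (hE : (bdry Γ E).Finite) (hE2 : {i | L.Sep E i}.ncard = 2) :
    ∃ A : Set V, (bdry Γ A).Finite ∧ {i | L.Sep A i}.ncard = 2 ∧ (∀ g : P, Nested A (tr g A)) ∧
      ∀ x y : V, {B : Set V | (∃ g : P, B = tr g A) ∧ x ∈ B ∧ y ∉ B}.Finite := by
  classical
  have hEf : {i | L.Sep E i}.Finite := sep_fin (sw_fin hG hE)
  obtain ⟨c, hc⟩ := upper hG hE hEf.toFinset (fun i => (Set.Finite.mem_toFinset hEf).symm) (by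
    rw [Set.Finite.toFinset_nonempty]
    exact Set.nonempty_of_ncard_ne_zero (by omega))
  rw [← Set.ncard_eq_toFinset_card _ hEf, hE2] at hc
  obtain ⟨B₀, hB₀, hB₀c⟩ := hc c
  let _ := L.augAct c
  obtain ⟨B, hB, hmin, -, -, hnest, hfin⟩ := exists_nested_min_cut (H := P) (aug Γ L.l c)
    (aug_conn hG.conn L.l c) (fun g x y h => aug_act hG c g x y h) B₀ hB₀
  have hle := (hmin B₀ hB₀).trans hB₀c
  have hA : (bdry Γ (res B)).Finite := res_bdry hB.1
  have hAf : {i | L.Sep (res B) i}.Finite := sep_fin (sw_fin hG hA)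
  have hcon := aug_conn hG.conn L.l c
  refine ⟨res B, hA, ?_, ?_, ?_⟩
  · have hup : {i | L.Sep (res B) i}.ncard ≤ 2 := by
      have h2 := lower hB.1 hAf.toFinset (fun i hi => (Set.Finite.mem_toFinset hAf).1 hi)
      rw [← Set.ncard_eq_toFinset_card _ hAf] at h2
      by_contra h3
      have h4 : 3 * (c + 1) ≤ {i | L.Sep (res B) i}.ncard * (c + 1) :=
        Nat.mul_le_mul_right _ (by omega)
      omega
    have hlo : ¬ {i | L.Sep (res B) i}.ncard ≤ 1 := by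
      intro h2
      rcases h1 _ hA h2 with h3 | h3
      · exact inf_of_unbdd hcon hB.2.1 (fin_of_res hG hB.1 h3)
      · refine inf_of_unbdd hcon hB.2.2 (fin_of_res hG ?_ h3)
        rw [nc_bdry_compl]
        exact hB.1.image _
    omega
  · intro g
    rcases hnest g with h | h | h | h
    · exact Or.inl fun v hv => h (show Sum.inl v ∈ B from hv)
    · exact Or.inr (Or.inl fun v hv => h (show Sum.inl v ∈ B from hv))
    · exact Or.inr (Or.inr (Or.inl fun v hv => h (show Sum.inl v ∈ Bᶜ from hv)))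
    · exact Or.inr (Or.inr (Or.inr fun v hv => h (show Sum.inl v ∈ Bᶜ from hv)))
  · intro x y
    refine ((hfin (Sum.inl x) (Sum.inl y)).image res).subset ?_
    rintro A' ⟨⟨g, rfl⟩, hx, hy⟩
    exact ⟨tr g B, ⟨⟨g, rfl⟩, hx, hy⟩, rfl⟩

end

end Pool.Agent.QD
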